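import Mathlib

set_option autoImplicit false
set_option linter.unusedSectionVars false

namespace Pool.Agent.Helper448.Walk

section order
variable {P : Type*}

/-- `o` is the lowest member of `A` above height `y` -/
def UpS (A : P → Prop) (H : P → ℝ) (y : ℝ) : Option P → Prop
  | some u => A u ∧ y < H u ∧ ∀ a, A a → y < H a → H u ≤ H a
  | none => ∀ a, A a → ¬ y < H a

/-- `o` is the highest member of `A` below height `y` -/
def DnS (A : P → Prop) (H : P → ℝ) (y : ℝ) : Option P → Prop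
  | some d => A d ∧ H d < y ∧ ∀ a, A a → H a < y → H a ≤ H d
  | none => ∀ a, A a → ¬ H a < y

/-- the pair `κ` is a pair of consecutive members of `A` -/
structure Adj (A : P → Prop) (H : P → ℝ) (κ : Option P × Option P) : Prop where
  mu : ∀ u, κ.1 = some u → A u
  md : ∀ d, κ.2 = some d → A d
  sep : ∀ a, A a → (∃ u, κ.1 = some u ∧ H u ≤ H a) ∨ (∃ d, κ.2 = some d ∧ H a ≤ H d)
  lt : ∀ u d, κ.1 = some u → κ.2 = some d → H d < H u

def Btw (H : P → ℝ) (y : ℝ) (κ : Option P × Option P) : Prop :=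
  (∀ u, κ.1 = some u → y < H u) ∧ (∀ d, κ.2 = some d → H d < y)

lemma Adj.up {A : P → Prop} {H : P → ℝ} {κ : Option P × Option P} {y : ℝ} (h : Adj A H κ)
    (hb : Btw H y κ) : UpS A H y κ.1 := by
  rcases hκ : κ.1 with _ | u
  · intro a ha hya
    rcases h.sep a ha with ⟨u, hu, _⟩ | ⟨d, hd, hd'⟩
    · rw [hκ] at hu; cases hu
    · have := hb.2 d hd; linarith
  · refine ⟨h.mu u hκ, hb.1 u hκ, ?_⟩
    intro a ha hya
    rcases h.sep a ha with ⟨u', hu, hu'⟩ | ⟨d, hd, hd'⟩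
    · rw [hκ] at hu; cases hu; exact hu'
    · have := hb.2 d hd; linarith

lemma Adj.dn {A : P → Prop} {H : P → ℝ} {κ : Option P × Option P} {y : ℝ} (h : Adj A H κ)
    (hb : Btw H y κ) : DnS A H y κ.2 := by
  rcases hκ : κ.2 with _ | d
  · intro a ha hya
    rcases h.sep a ha with ⟨u, hu, hu'⟩ | ⟨d, hd, _⟩
    · have := hb.1 u hu; linarith
    · rw [hκ] at hd; cases hd
  · refine ⟨h.md d hκ, hb.2 d hκ, ?_⟩
    intro a ha hya
    rcases h.sep a ha with ⟨u', hu, hu'⟩ | ⟨d, hd, hd'⟩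
    · have := hb.1 u' hu; linarith
    · rw [hκ] at hd; cases hd; exact hd'

lemma adj_of_up_dn {A : P → Prop} {H : P → ℝ} {y : ℝ} {o1 o2 : Option P}
    (h1 : UpS A H y o1) (h2 : DnS A H y o2) (hne : ∀ a, A a → H a ≠ y) : Adj A H (o1, o2) := by
  refine ⟨?_, ?_, ?_, ?_⟩
  · rintro u rfl; exact h1.1
  · rintro d rfl; exact h2.1
  · intro a ha
    rcases lt_or_gt_of_ne (hne a ha) with hlt | hgt
    · right
      rcases o2 with _ | d
      · exact absurd hlt (h2 a ha)
      · exact ⟨d, rfl, h2.2.2 a ha hlt⟩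
    · left
      rcases o1 with _ | u
      · exact absurd hgt (h1 a ha)
      · exact ⟨u, rfl, h1.2.2 a ha hgt⟩
  · rintro u d rfl rfl
    exact h2.2.1.trans h1.2.1

lemma btw_of_up_dn {A : P → Prop} {H : P → ℝ} {y : ℝ} {o1 o2 : Option P}
    (h1 : UpS A H y o1) (h2 : DnS A H y o2) : Btw H y (o1, o2) := by
  refine ⟨?_, ?_⟩
  · rintro u rfl; exact h1.2.1
  · rintro d rfl; exact h2.2.1

lemma UpS.unique {A : P → Prop} {H : P → ℝ} {y : ℝ} {o o' : Option P}
    (hinj : ∀ a a', A a → A a' → H a = H a' → a = a')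
    (h : UpS A H y o) (h' : UpS A H y o') : o = o' := by
  rcases o with _ | u <;> rcases o' with _ | u'
  · rfl
  · exact absurd h'.2.1 (h u' h'.1)
  · exact absurd h.2.1 (h' u h.1)
  · have h1 := h.2.2 u' h'.1 h'.2.1
    have h2 := h'.2.2 u h.1 h.2.1
    rw [hinj u u' h.1 h'.1 (le_antisymm h1 h2)]

lemma DnS.unique {A : P → Prop} {H : P → ℝ} {y : ℝ} {o o' : Option P}
    (hinj : ∀ a a', A a → A a' → H a = H a' → a = a')
    (h : DnS A H y o) (h' : DnS A H y o') : o = o' := by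
  rcases o with _ | u <;> rcases o' with _ | u'
  · rfl
  · exact absurd h'.2.1 (h u' h'.1)
  · exact absurd h.2.1 (h' u h.1)
  · have h1 := h.2.2 u' h'.1 h'.2.1
    have h2 := h'.2.2 u h.1 h.2.1
    rw [hinj u u' h.1 h'.1 (le_antisymm h2 h1)]

end order

variable {V : Type*} [Fintype V] [DecidableEq V]

/-- a family of pairwise disjoint non-vertical segments, seen through their heights -/
structure Cls (X : V → ℝ) (S : Finset (V × V)) (h : V × V → ℝ → ℝ) : Prop where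
  inj : Function.Injective X
  left : ∀ s ∈ S, X s.1 < X s.2
  disj : ∀ s ∈ S, ∀ s' ∈ S, s ≠ s' → s.1 ≠ s'.1 ∧ s.1 ≠ s'.2 ∧ s.2 ≠ s'.1 ∧ s.2 ≠ s'.2
  ne : ∀ s ∈ S, ∀ s' ∈ S, s ≠ s' → ∀ x, X s.1 ≤ x → x ≤ X s.2 → X s'.1 ≤ x → x ≤ X s'.2 →
    h s x ≠ h s' x
  pers : ∀ s ∈ S, ∀ s' ∈ S, ∀ x x', X s.1 ≤ x → x ≤ X s.2 → X s'.1 ≤ x → x ≤ X s'.2 →
    X s.1 ≤ x' → x' ≤ X s.2 → X s'.1 ≤ x' → x' ≤ X s'.2 → h s x < h s' x → h s x' < h s' x'

/-- tables -/
abbrev Tb (V : Type*) := V → V × V → SignType × SignType × SignType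

/-- the table is correct for the sample `R` -/
structure Compat (X : V → ℝ) (S : Finset (V × V)) (h : V × V → ℝ → ℝ) (R : Finset (V × V))
    (T : Tb V) : Prop where
  t1 : ∀ v, ∀ a ∈ R, (T v a).1 = SignType.sign (X v - X a.1)
  t2 : ∀ v, ∀ a ∈ R, (T v a).2.1 = SignType.sign (X v - X a.2)
  t3 : ∀ s ∈ S, ∀ v, (v = s.1 ∨ v = s.2) → ∀ a ∈ R, X a.1 < X v → X v < X a.2 →
    (T v a).2.2 = SignType.sign (h s (X v) - h a (X v))

section defs
variable (T : Tb V) (R : Finset (V × V))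

def spn (v : V) (a : V × V) : Prop := (T v a).1 = 1 ∧ (T v a).2.1 = -1

def ltT (a a' : V × V) : Prop :=
  (spn T a.1 a' ∧ (T a.1 a').2.2 = -1) ∨ (spn T a'.1 a ∧ (T a'.1 a).2.2 = 1)

def IsU (v : V) (a : V × V) : Prop :=
  a ∈ R ∧ spn T v a ∧ (T v a).2.2 = -1 ∧
    ∀ a' ∈ R, spn T v a' → (T v a').2.2 = -1 → a' ≠ a → ltT T a a'

def IsD (v : V) (a : V × V) : Prop :=
  a ∈ R ∧ spn T v a ∧ (T v a).2.2 = 1 ∧
    ∀ a' ∈ R, spn T v a' → (T v a').2.2 = 1 → a' ≠ a → ltT T a' a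

open Classical in
noncomputable def UU (v : V) : Option (V × V) :=
  if h : ∃ a, IsU T R v a then some h.choose else none

open Classical in
noncomputable def DD (v : V) : Option (V × V) :=
  if h : ∃ a, IsD T R v a then some h.choose else none

/-- `e` is an endpoint of a sample segment to the right of `w` -/
def evlt (w e : V) : Prop :=
  ∃ a ∈ R, (e = a.1 ∧ (T w a).1 = -1) ∨ (e = a.2 ∧ (T w a).2.1 = -1)

/-- `e` ends the corridor `κ` -/
def bef (κ : Option (V × V) × Option (V × V)) (e : V) : Prop :=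
  ∃ a ∈ R, (e = a.1 ∧ κ = (UU T R e, DD T R e)) ∨
    (e = a.2 ∧ (κ = (some a, DD T R e) ∨ κ = (UU T R e, some a)))

def IsNx (w : V) (κ : Option (V × V) × Option (V × V)) (e : V) : Prop :=
  (evlt T R w e ∧ bef T R κ e) ∧
    ∀ e', evlt T R w e' → bef T R κ e' → e' ≠ e → evlt T R e e'

open Classical in
noncomputable def nx (w : V) (κ : Option (V × V) × Option (V × V)) : Option V :=
  if h : ∃ e, IsNx T R w κ e then some h.choose else none

open Classical in
/-- the corridor after the event `e` -/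
noncomputable def aft (e : V) (b : Bool) : Option (V × V) × Option (V × V) :=
  if h : ∃ a ∈ R, e = a.1 then
    (if b then (UU T R e, some h.choose) else (some h.choose, DD T R e))
  else (UU T R e, DD T R e)

noncomputable def cell (v : V) : (Option (V × V) × Option (V × V)) × Option V :=
  ((UU T R v, DD T R v), nx T R v (UU T R v, DD T R v))

noncomputable def walk : (Option (V × V) × Option (V × V)) × Option V → List Bool →
    (Option (V × V) × Option (V × V)) × Option V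
  | c, [] => c
  | (κ, none), _ :: _ => (κ, none)
  | (_, some e), b :: bs => walk (aft T R e b, nx T R e (aft T R e b)) bs

end defs

/-- strict span of a sample segment -/
def A0 (X : V → ℝ) (R : Finset (V × V)) (c : ℝ) (a : V × V) : Prop :=
  a ∈ R ∧ X a.1 < c ∧ c < X a.2
def Am (X : V → ℝ) (R : Finset (V × V)) (c : ℝ) (a : V × V) : Prop :=
  a ∈ R ∧ X a.1 < c ∧ c ≤ X a.2
def Ap (X : V → ℝ) (R : Finset (V × V)) (c : ℝ) (a : V × V) : Prop :=
  a ∈ R ∧ X a.1 ≤ c ∧ c < X a.2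

section facts
variable {X : V → ℝ} {S : Finset (V × V)} {h : V × V → ℝ → ℝ} {R : Finset (V × V)} {T : Tb V}

lemma spn_iff (hT : Compat X S h R T) {v : V} {a : V × V} (ha : a ∈ R) :
    spn T v a ↔ X a.1 < X v ∧ X v < X a.2 := by
  unfold spn
  rw [hT.t1 v a ha, hT.t2 v a ha, sign_eq_one_iff, sign_eq_neg_one_iff, sub_pos, sub_neg]

lemma ltT_iff (hC : Cls X S h) (hR : R ⊆ S) (hT : Compat X S h R T) {a a' : V × V}
    (ha : a ∈ R) (ha' : a' ∈ R) (hne : a ≠ a') {c : ℝ} (h1 : X a.1 ≤ c) (h2 : c < X a.2)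
    (h3 : X a'.1 ≤ c) (h4 : c < X a'.2) : ltT T a a' ↔ h a c < h a' c := by
  have hneX : X a.1 ≠ X a'.1 := fun h0 => (hC.disj a (hR ha) a' (hR ha') hne).1 (hC.inj h0)
  rcases lt_or_gt_of_ne hneX with hlt | hgt
  · -- a starts first: a'.1 is spanned by a
    have hs1 : ¬ spn T a.1 a' := by
      rw [spn_iff hT ha']; intro h0; linarith [h0.1]
    have hs2 : spn T a'.1 a := by
      rw [spn_iff hT ha]; exact ⟨hlt, by linarith⟩
    have e1 : (T a'.1 a).2.2 = SignType.sign (h a' (X a'.1) - h a (X a'.1)) :=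
      hT.t3 a' (hR ha') a'.1 (Or.inl rfl) a ha hlt (by linarith)
    unfold ltT
    rw [e1]
    simp only [hs1, hs2, false_and, false_or, true_and]
    rw [sign_eq_one_iff, sub_pos]
    have l1 := hC.left a' (hR ha')
    constructor
    · intro h0
      exact hC.pers a (hR ha) a' (hR ha') (X a'.1) c hlt.le (by linarith) le_rfl l1.le
        h1 h2.le h3 h4.le h0
    · intro h0
      exact hC.pers a (hR ha) a' (hR ha') c (X a'.1) h1 h2.le h3 h4.le
        hlt.le (by linarith) le_rfl l1.le h0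
  · have hs1 : spn T a.1 a' := by
      rw [spn_iff hT ha']; exact ⟨hgt, by linarith⟩
    have hs2 : ¬ spn T a'.1 a := by
      rw [spn_iff hT ha]; intro h0; linarith [h0.1]
    have e1 : (T a.1 a').2.2 = SignType.sign (h a (X a.1) - h a' (X a.1)) :=
      hT.t3 a (hR ha) a.1 (Or.inl rfl) a' ha' hgt (by linarith)
    unfold ltT
    rw [e1]
    simp only [hs1, hs2, false_and, or_false, true_and]
    rw [sign_eq_neg_one_iff, sub_neg]
    have l1 := hC.left a (hR ha)
    constructor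
    · intro h0
      exact hC.pers a (hR ha) a' (hR ha') (X a.1) c le_rfl l1.le hgt.le (by linarith)
        h1 h2.le h3 h4.le h0
    · intro h0
      exact hC.pers a (hR ha) a' (hR ha') c (X a.1) h1 h2.le h3 h4.le
        le_rfl l1.le hgt.le (by linarith) h0

lemma inj_A0 (hC : Cls X S h) (hR : R ⊆ S) (c : ℝ) :
    ∀ a a', A0 X R c a → A0 X R c a' → h a c = h a' c → a = a' := by
  intro a a' ha ha' heq
  by_contra hne
  exact hC.ne a (hR ha.1) a' (hR ha'.1) hne c ha.2.1.le ha.2.2.le ha'.2.1.le ha'.2.2.le heq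

/-- heights of `s` and of spanning sample segments differ at the ends of `s` -/
lemma ne_end (hC : Cls X S h) (hR : R ⊆ S) {s : V × V} (hs : s ∈ S) {v : V}
    (hv : v = s.1 ∨ v = s.2) {a : V × V} (ha : A0 X R (X v) a) : h a (X v) ≠ h s (X v) := by
  have hl := hC.left s hs
  have hsv : X s.1 ≤ X v ∧ X v ≤ X s.2 := by
    rcases hv with rfl | rfl
    · exact ⟨le_rfl, hl.le⟩
    · exact ⟨hl.le, le_rfl⟩
  apply hC.ne a (hR ha.1) s hs _ _ ha.2.1.le ha.2.2.le hsv.1 hsv.2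
  rintro rfl
  rcases hv with rfl | rfl
  · exact lt_irrefl _ ha.2.1
  · exact lt_irrefl _ ha.2.2

lemma UU_spec (hC : Cls X S h) (hR : R ⊆ S) (hT : Compat X S h R T) {s : V × V} (hs : s ∈ S)
    {v : V} (hv : v = s.1 ∨ v = s.2) :
    UpS (A0 X R (X v)) (fun a => h a (X v)) (h s (X v)) (UU T R v) := by
  classical
  have hch : ∀ a, a ∈ R → spn T v a → ((T v a).2.2 = -1 ↔ h s (X v) < h a (X v)) := by
    intro a ha hsp
    rw [spn_iff hT ha] at hsp
    rw [hT.t3 s hs v hv a ha hsp.1 hsp.2, sign_eq_neg_one_iff, sub_neg]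
  by_cases hex : ∃ a, IsU T R v a
  · have hUU : UU T R v = some hex.choose := by unfold UU; rw [dif_pos hex]
    have hspec := hex.choose_spec
    rw [hUU]
    obtain ⟨h1, h2, h3, h4⟩ := hspec
    have h2' := (spn_iff hT h1).mp h2
    refine ⟨⟨h1, h2'.1, h2'.2⟩, (hch _ h1 h2).mp h3, ?_⟩
    intro a ha hya
    by_cases hae : a = hex.choose
    · rw [hae]
    · have hspa : spn T v a := (spn_iff hT ha.1).mpr ha.2
      have h5 := h4 a ha.1 hspa ((hch a ha.1 hspa).mpr hya) hae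
      rw [ltT_iff hC hR hT h1 ha.1 (Ne.symm hae) h2'.1.le h2'.2 ha.2.1.le ha.2.2] at h5
      exact h5.le
  · have hUU : UU T R v = none := by unfold UU; rw [dif_neg hex]
    rw [hUU]
    intro a ha hya
    apply hex
    -- choose the lowest
    obtain ⟨m, hm, hmin⟩ := Finset.exists_min_image
      (R.filter (fun a => (X a.1 < X v ∧ X v < X a.2) ∧ h s (X v) < h a (X v)))
      (fun a => h a (X v)) ⟨a, Finset.mem_filter.mpr ⟨ha.1, ha.2, hya⟩⟩
    obtain ⟨hmR, hmsp, hmy⟩ := Finset.mem_filter.mp hm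
    have hspm : spn T v m := (spn_iff hT hmR).mpr hmsp
    refine ⟨m, hmR, hspm, (hch m hmR hspm).mpr hmy, ?_⟩
    intro a' ha' hsp' hneg hne
    have hsp'' := (spn_iff hT ha').mp hsp'
    have h6 := (hch a' ha' hsp').mp hneg
    have h7 := hmin a' (Finset.mem_filter.mpr ⟨ha', hsp'', h6⟩)
    rw [ltT_iff hC hR hT hmR ha' (Ne.symm hne) hmsp.1.le hmsp.2 hsp''.1.le hsp''.2]
    exact lt_of_le_of_ne h7 (hC.ne m (hR hmR) a' (hR ha') (Ne.symm hne) (X v) hmsp.1.le
      hmsp.2.le hsp''.1.le hsp''.2.le)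

lemma DD_spec (hC : Cls X S h) (hR : R ⊆ S) (hT : Compat X S h R T) {s : V × V} (hs : s ∈ S)
    {v : V} (hv : v = s.1 ∨ v = s.2) :
    DnS (A0 X R (X v)) (fun a => h a (X v)) (h s (X v)) (DD T R v) := by
  classical
  have hch : ∀ a, a ∈ R → spn T v a → ((T v a).2.2 = 1 ↔ h a (X v) < h s (X v)) := by
    intro a ha hsp
    rw [spn_iff hT ha] at hsp
    rw [hT.t3 s hs v hv a ha hsp.1 hsp.2, sign_eq_one_iff, sub_pos]
  by_cases hex : ∃ a, IsD T R v a
  · have hUU : DD T R v = some hex.choose := by unfold DD; rw [dif_pos hex]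
    have hspec := hex.choose_spec
    rw [hUU]
    obtain ⟨h1, h2, h3, h4⟩ := hspec
    have h2' := (spn_iff hT h1).mp h2
    refine ⟨⟨h1, h2'.1, h2'.2⟩, (hch _ h1 h2).mp h3, ?_⟩
    intro a ha hya
    by_cases hae : a = hex.choose
    · rw [hae]
    · have hspa : spn T v a := (spn_iff hT ha.1).mpr ha.2
      have h5 := h4 a ha.1 hspa ((hch a ha.1 hspa).mpr hya) hae
      rw [ltT_iff hC hR hT ha.1 h1 hae ha.2.1.le ha.2.2 h2'.1.le h2'.2] at h5
      exact h5.le
  · have hUU : DD T R v = none := by unfold DD; rw [dif_neg hex]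
    rw [hUU]
    intro a ha hya
    apply hex
    obtain ⟨m, hm, hmin⟩ := Finset.exists_max_image
      (R.filter (fun a => (X a.1 < X v ∧ X v < X a.2) ∧ h a (X v) < h s (X v)))
      (fun a => h a (X v)) ⟨a, Finset.mem_filter.mpr ⟨ha.1, ha.2, hya⟩⟩
    obtain ⟨hmR, hmsp, hmy⟩ := Finset.mem_filter.mp hm
    have hspm : spn T v m := (spn_iff hT hmR).mpr hmsp
    refine ⟨m, hmR, hspm, (hch m hmR hspm).mpr hmy, ?_⟩
    intro a' ha' hsp' hneg hne
    have hsp'' := (spn_iff hT ha').mp hsp'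
    have h6 := (hch a' ha' hsp').mp hneg
    have h7 := hmin a' (Finset.mem_filter.mpr ⟨ha', hsp'', h6⟩)
    rw [ltT_iff hC hR hT ha' hmR hne hsp''.1.le hsp''.2 hmsp.1.le hmsp.2]
    exact lt_of_le_of_ne h7 (hC.ne a' (hR ha') m (hR hmR) hne (X v) hsp''.1.le hsp''.2.le
      hmsp.1.le hmsp.2.le)

lemma adj_end (hC : Cls X S h) (hR : R ⊆ S) (hT : Compat X S h R T) {s : V × V} (hs : s ∈ S)
    {v : V} (hv : v = s.1 ∨ v = s.2) :
    Adj (A0 X R (X v)) (fun a => h a (X v)) (UU T R v, DD T R v) :=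
  adj_of_up_dn (UU_spec hC hR hT hs hv) (DD_spec hC hR hT hs hv)
    (fun _ ha => ne_end hC hR hs hv ha)

lemma btw_end (hC : Cls X S h) (hR : R ⊆ S) (hT : Compat X S h R T) {s : V × V} (hs : s ∈ S)
    {v : V} (hv : v = s.1 ∨ v = s.2) :
    Btw (fun a => h a (X v)) (h s (X v)) (UU T R v, DD T R v) :=
  btw_of_up_dn (UU_spec hC hR hT hs hv) (DD_spec hC hR hT hs hv)

lemma eq_end (hC : Cls X S h) (hR : R ⊆ S) (hT : Compat X S h R T) {s : V × V} (hs : s ∈ S)
    {v : V} (hv : v = s.1 ∨ v = s.2) {κ : Option (V × V) × Option (V × V)}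
    (hadj : Adj (A0 X R (X v)) (fun a => h a (X v)) κ)
    (hb : Btw (fun a => h a (X v)) (h s (X v)) κ) : κ = (UU T R v, DD T R v) := by
  have h1 := UpS.unique (inj_A0 hC hR (X v)) (hadj.up hb) (UU_spec hC hR hT hs hv)
  have h2 := DnS.unique (inj_A0 hC hR (X v)) (hadj.dn hb) (DD_spec hC hR hT hs hv)
  ext1
  · exact h1
  · exact h2

/-- endpoints of the sample -/
def evR (R : Finset (V × V)) (e : V) : Prop := ∃ a ∈ R, e = a.1 ∨ e = a.2

lemma evlt_iff (hT : Compat X S h R T) {w e : V} : evlt T R w e ↔ evR R e ∧ X w < X e := by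
  constructor
  · rintro ⟨a, ha, ⟨rfl, h1⟩ | ⟨rfl, h1⟩⟩
    · rw [hT.t1 w a ha, sign_eq_neg_one_iff, sub_neg] at h1
      exact ⟨⟨a, ha, Or.inl rfl⟩, h1⟩
    · rw [hT.t2 w a ha, sign_eq_neg_one_iff, sub_neg] at h1
      exact ⟨⟨a, ha, Or.inr rfl⟩, h1⟩
  · rintro ⟨⟨a, ha, rfl | rfl⟩, h1⟩
    · refine ⟨a, ha, Or.inl ⟨rfl, ?_⟩⟩
      rw [hT.t1 w a ha, sign_eq_neg_one_iff, sub_neg]; exact h1
    · refine ⟨a, ha, Or.inr ⟨rfl, ?_⟩⟩
      rw [hT.t2 w a ha, sign_eq_neg_one_iff, sub_neg]; exact h1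

lemma nx_none (hC : Cls X S h) (hT : Compat X S h R T) {w : V}
    {κ : Option (V × V) × Option (V × V)} (hn : nx T R w κ = none) :
    ∀ e, evR R e → X w < X e → ¬ bef T R κ e := by
  classical
  have hex : ¬ ∃ e, IsNx T R w κ e := by
    intro hex
    unfold nx at hn
    rw [dif_pos hex] at hn
    cases hn
  intro e he hwe hb
  apply hex
  obtain ⟨m, hm, hmin⟩ := Finset.exists_min_image
    (Finset.univ.filter (fun e => evlt T R w e ∧ bef T R κ e)) X
    ⟨e, Finset.mem_filter.mpr ⟨Finset.mem_univ _, (evlt_iff hT).mpr ⟨he, hwe⟩, hb⟩⟩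
  obtain ⟨_, hm1, hm2⟩ := Finset.mem_filter.mp hm
  refine ⟨m, ⟨hm1, hm2⟩, ?_⟩
  intro e' he' hb' hne
  have h1 := hmin e' (Finset.mem_filter.mpr ⟨Finset.mem_univ _, he', hb'⟩)
  rw [evlt_iff hT]
  exact ⟨((evlt_iff hT).mp he').1, lt_of_le_of_ne h1 (fun h0 => hne (hC.inj h0).symm)⟩

lemma nx_some (hT : Compat X S h R T) {w e : V}
    {κ : Option (V × V) × Option (V × V)} (hn : nx T R w κ = some e) :
    (evR R e ∧ X w < X e ∧ bef T R κ e) ∧
      ∀ e', evR R e' → X w < X e' → bef T R κ e' → X e ≤ X e' := by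
  classical
  by_cases hex : ∃ e, IsNx T R w κ e
  · unfold nx at hn
    rw [dif_pos hex] at hn
    have he : hex.choose = e := Option.some.inj hn
    have hsp := hex.choose_spec
    rw [he] at hsp
    obtain ⟨⟨h1, h2⟩, h3⟩ := hsp
    have h1' := (evlt_iff hT).mp h1
    refine ⟨⟨h1'.1, h1'.2, h2⟩, ?_⟩
    intro e' he' hw hb
    by_cases hee : e' = e
    · rw [hee]
    · exact ((evlt_iff hT).mp (h3 e' ((evlt_iff hT).mpr ⟨he', hw⟩) hb hee)).2.le
  · unfold nx at hn
    rw [dif_neg hex] at hn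
    cases hn

lemma nx_congr (hC : Cls X S h) (hT : Compat X S h R T) {w w' : V}
    {κ : Option (V × V) × Option (V × V)}
    (hsame : ∀ e, evR R e → bef T R κ e → (X w < X e ↔ X w' < X e)) :
    nx T R w κ = nx T R w' κ := by
  rcases h1 : nx T R w κ with _ | e <;> rcases h2 : nx T R w' κ with _ | e'
  · rfl
  · obtain ⟨⟨h3, h4, h5⟩, _⟩ := nx_some hT h2
    exact absurd h5 (nx_none hC hT h1 e' h3 ((hsame e' h3 h5).mpr h4))
  · obtain ⟨⟨h3, h4, h5⟩, _⟩ := nx_some hT h1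
    exact absurd h5 (nx_none hC hT h2 e h3 ((hsame e h3 h5).mp h4))
  · obtain ⟨⟨h3, h4, h5⟩, h6⟩ := nx_some hT h1
    obtain ⟨⟨h3', h4', h5'⟩, h6'⟩ := nx_some hT h2
    have h7 := h6 e' h3' ((hsame e' h3' h5').mpr h4') h5'
    have h8 := h6' e h3 ((hsame e h3 h5).mp h4) h5
    rw [hC.inj (le_antisymm h7 h8)]

lemma le_pers (hC : Cls X S h) {a b : V × V} (ha : a ∈ S) (hb : b ∈ S) {x x' : ℝ}
    (h1 : X a.1 ≤ x) (h2 : x ≤ X a.2) (h3 : X b.1 ≤ x) (h4 : x ≤ X b.2)
    (h1' : X a.1 ≤ x') (h2' : x' ≤ X a.2) (h3' : X b.1 ≤ x') (h4' : x' ≤ X b.2)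
    (hle : h a x ≤ h b x) : h a x' ≤ h b x' := by
  by_cases hab : a = b
  · rw [hab]
  · have hlt : h a x < h b x := lt_of_le_of_ne hle (hC.ne a ha b hb hab x h1 h2 h3 h4)
    exact (hC.pers a ha b hb x x' h1 h2 h3 h4 h1' h2' h3' h4' hlt).le

/-- no event in between: the corridor is unchanged -/
lemma transfer (hC : Cls X S h) (hR : R ⊆ S) {κ : Option (V × V) × Option (V × V)} {c0 c1 : ℝ}
    (hc : c0 < c1) (hno : ∀ e, evR R e → ¬ (c0 < X e ∧ X e < c1))
    (hadj : Adj (Ap X R c0) (fun a => h a c0) κ) : Adj (Am X R c1) (fun a => h a c1) κ := by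
  have hA : ∀ a, Ap X R c0 a → Am X R c1 a := by
    rintro a ⟨ha, h1, h2⟩
    refine ⟨ha, by linarith, ?_⟩
    by_contra h3
    exact hno a.2 ⟨a, ha, Or.inr rfl⟩ ⟨h2, not_le.mp h3⟩
  have hA' : ∀ a, Am X R c1 a → Ap X R c0 a := by
    rintro a ⟨ha, h1, h2⟩
    refine ⟨ha, ?_, by linarith⟩
    by_contra h3
    exact hno a.1 ⟨a, ha, Or.inl rfl⟩ ⟨not_le.mp h3, h1⟩
  refine ⟨fun u hu => hA u (hadj.mu u hu), fun d hd => hA d (hadj.md d hd), ?_, ?_⟩
  · intro a ha
    have ha0 := hA' a ha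
    rcases hadj.sep a ha0 with ⟨u, hu, hle⟩ | ⟨d, hd, hle⟩
    · left
      have hu0 := hadj.mu u hu
      have hu1 := hA u hu0
      exact ⟨u, hu, le_pers hC (hR hu0.1) (hR ha0.1) hu0.2.1 hu0.2.2.le ha0.2.1 ha0.2.2.le
        hu1.2.1.le hu1.2.2 ha.2.1.le ha.2.2 hle⟩
    · right
      have hu0 := hadj.md d hd
      have hu1 := hA d hu0
      exact ⟨d, hd, le_pers hC (hR ha0.1) (hR hu0.1) ha0.2.1 ha0.2.2.le hu0.2.1 hu0.2.2.le
        ha.2.1.le ha.2.2 hu1.2.1.le hu1.2.2 hle⟩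
  · intro u d hu hd
    have hu0 := hadj.mu u hu
    have hu1 := hA u hu0
    have hd0 := hadj.md d hd
    have hd1 := hA d hd0
    exact hC.pers d (hR hd0.1) u (hR hu0.1) c0 c1 hd0.2.1 hd0.2.2.le hu0.2.1 hu0.2.2.le
      hd1.2.1.le hd1.2.2 hu1.2.1.le hu1.2.2 (hadj.lt u d hu hd)

/-- crossing an irrelevant event -/
lemma step (hC : Cls X S h) (hR : R ⊆ S) (hT : Compat X S h R T)
    {κ : Option (V × V) × Option (V × V)} {e : V} (he : evR R e)
    (hadj : Adj (Am X R (X e)) (fun a => h a (X e)) κ) (hnb : ¬ bef T R κ e) :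
    Adj (Ap X R (X e)) (fun a => h a (X e)) κ := by
  obtain ⟨ae, hae, hL | hL⟩ := he
  · -- left endpoint
    have hlae := hC.left ae (hR hae)
    have hne2 : ∀ a ∈ R, X a.2 ≠ X e := by
      intro a ha h0
      by_cases haa : a = ae
      · subst haa; rw [hL] at h0; linarith
      · exact (hC.disj a (hR ha) ae (hR hae) haa).2.2.1 (by rw [hC.inj h0, hL])
    have hAm0 : ∀ a, Am X R (X e) a → A0 X R (X e) a := fun a ha =>
      ⟨ha.1, ha.2.1, lt_of_le_of_ne ha.2.2 (hne2 a ha.1).symm⟩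
    have hAmp : ∀ a, Am X R (X e) a → Ap X R (X e) a := fun a ha =>
      ⟨ha.1, ha.2.1.le, (hAm0 a ha).2.2⟩
    have hApm : ∀ a, Ap X R (X e) a → a = ae ∨ Am X R (X e) a := by
      intro a ha
      by_cases h0 : X a.1 = X e
      · left
        by_contra haa
        exact (hC.disj a (hR ha.1) ae (hR hae) haa).1 (by rw [hC.inj h0, hL])
      · right; exact ⟨ha.1, lt_of_le_of_ne ha.2.1 h0, ha.2.2.le⟩
    refine ⟨fun u hu => hAmp u (hadj.mu u hu), fun d hd => hAmp d (hadj.md d hd), ?_, hadj.lt⟩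
    intro a ha
    rcases hApm a ha with rfl | ha'
    · by_contra hcon
      push Not at hcon
      apply hnb
      have hb : Btw (fun b => h b (X e)) (h a (X e)) κ := ⟨hcon.1, hcon.2⟩
      have hadj0 : Adj (A0 X R (X e)) (fun b => h b (X e)) κ :=
        ⟨fun u hu => hAm0 u (hadj.mu u hu), fun d hd => hAm0 d (hadj.md d hd),
          fun b hb => hadj.sep b ⟨hb.1, hb.2.1, hb.2.2.le⟩, hadj.lt⟩
      exact ⟨a, hae, Or.inl ⟨hL, eq_end hC hR hT (hR hae) (Or.inl hL) hadj0 hb⟩⟩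
    · exact hadj.sep a ha'
  · -- right endpoint
    have hlae := hC.left ae (hR hae)
    have hne1 : ∀ a ∈ R, X a.1 ≠ X e := by
      intro a ha h0
      by_cases haa : a = ae
      · subst haa; rw [hL] at h0; linarith
      · exact (hC.disj a (hR ha) ae (hR hae) haa).2.1 (by rw [hC.inj h0, hL])
    have heq2 : ∀ a ∈ R, X a.2 = X e → a = ae := by
      intro a ha h0
      by_contra haa
      exact (hC.disj a (hR ha) ae (hR hae) haa).2.2.2 (by rw [hC.inj h0, hL])
    have hAm0 : ∀ a, Am X R (X e) a → a ≠ ae → A0 X R (X e) a := fun a ha hne =>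
      ⟨ha.1, ha.2.1, lt_of_le_of_ne ha.2.2 (fun h0 => hne (heq2 a ha.1 h0.symm))⟩
    have hA0p : ∀ a, A0 X R (X e) a → Ap X R (X e) a := fun a ha => ⟨ha.1, ha.2.1.le, ha.2.2⟩
    have hApm : ∀ a, Ap X R (X e) a → A0 X R (X e) a := fun a ha =>
      ⟨ha.1, lt_of_le_of_ne ha.2.1 (hne1 a ha.1), ha.2.2⟩
    have h0m : ∀ a, A0 X R (X e) a → Am X R (X e) a := fun a ha => ⟨ha.1, ha.2.1, ha.2.2.le⟩
    have hinj := inj_A0 hC hR (X e)
    refine ⟨?_, ?_, fun a ha => hadj.sep a (h0m a (hApm a ha)), hadj.lt⟩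
    · intro u hu
      apply hA0p
      apply hAm0 u (hadj.mu u hu)
      rintro rfl
      apply hnb
      refine ⟨u, hae, Or.inr ⟨hL, Or.inl ?_⟩⟩
      have hdn : DnS (A0 X R (X e)) (fun b => h b (X e)) (h u (X e)) κ.2 := by
        rcases hκ : κ.2 with _ | d
        · intro a ha hlt
          rcases hadj.sep a (h0m a ha) with ⟨u', hu', hle⟩ | ⟨d, hd, _⟩
          · rw [hu] at hu'; cases hu'; linarith
          · rw [hκ] at hd; cases hd
        · have hlt := hadj.lt u d hu hκ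
          refine ⟨hAm0 d (hadj.md d hκ) (by rintro rfl; exact lt_irrefl _ hlt), hlt, ?_⟩
          intro a ha hlt'
          rcases hadj.sep a (h0m a ha) with ⟨u', hu', hle⟩ | ⟨d', hd, hle⟩
          · rw [hu] at hu'; cases hu'; linarith
          · rw [hκ] at hd; cases hd; exact hle
      have h2 := DnS.unique hinj hdn (DD_spec hC hR hT (hR hae) (Or.inr hL))
      ext1
      · exact hu
      · exact h2
    · intro d hd
      apply hA0p
      apply hAm0 d (hadj.md d hd)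
      rintro rfl
      apply hnb
      refine ⟨d, hae, Or.inr ⟨hL, Or.inr ?_⟩⟩
      have hup : UpS (A0 X R (X e)) (fun b => h b (X e)) (h d (X e)) κ.1 := by
        rcases hκ : κ.1 with _ | u
        · intro a ha hlt
          rcases hadj.sep a (h0m a ha) with ⟨u, hu, _⟩ | ⟨d', hd', hle⟩
          · rw [hκ] at hu; cases hu
          · rw [hd] at hd'; cases hd'; linarith
        · have hlt := hadj.lt u d hκ hd
          refine ⟨hAm0 u (hadj.mu u hκ) (by rintro rfl; exact lt_irrefl _ hlt), hlt, ?_⟩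
          intro a ha hlt'
          rcases hadj.sep a (h0m a ha) with ⟨u', hu', hle⟩ | ⟨d', hd', hle⟩
          · rw [hκ] at hu'; cases hu'; exact hle
          · rw [hd] at hd'; cases hd'; linarith
      have h2 := UpS.unique hinj hup (UU_spec hC hR hT (hR hae) (Or.inr hL))
      ext1
      · exact h2
      · exact hd

open Classical in
/-- number of events strictly between two abscissas -/
noncomputable def evs (X : V → ℝ) (R : Finset (V × V)) (c0 c1 : ℝ) : Finset V :=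
  Finset.univ.filter (fun e => evR R e ∧ c0 < X e ∧ X e < c1)

/-- a corridor persists as long as there is no relevant event -/
theorem empty_corridor (hC : Cls X S h) (hR : R ⊆ S) (hT : Compat X S h R T)
    (κ : Option (V × V) × Option (V × V)) :
    ∀ (n : ℕ) (c0 c1 : ℝ), (evs X R c0 c1).card = n → c0 < c1 →
      Adj (Ap X R c0) (fun a => h a c0) κ →
      (∀ e, evR R e → c0 < X e → X e < c1 → ¬ bef T R κ e) →
      Adj (Am X R c1) (fun a => h a c1) κ := by
  classical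
  intro n
  induction n using Nat.strong_induction_on with
  | _ n ih =>
    intro c0 c1 hn hc hadj hno
    by_cases hne : (evs X R c0 c1).Nonempty
    · obtain ⟨e, he, hmin⟩ := Finset.exists_min_image (evs X R c0 c1) X hne
      have he' : evR R e ∧ c0 < X e ∧ X e < c1 := by simpa [evs] using he
      have h1 : Adj (Am X R (X e)) (fun a => h a (X e)) κ := by
        apply transfer hC hR he'.2.1 _ hadj
        intro e' he1 he2
        have : e' ∈ evs X R c0 c1 := by
          simp only [evs, Finset.mem_filter, Finset.mem_univ, true_and]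
          exact ⟨he1, he2.1, he2.2.trans he'.2.2⟩
        have := hmin e' this
        linarith [he2.2]
      have h2 := step hC hR hT he'.1 h1 (hno e he'.1 he'.2.1 he'.2.2)
      have hss : evs X R (X e) c1 ⊂ evs X R c0 c1 := by
        rw [Finset.ssubset_iff_of_subset]
        · refine ⟨e, he, ?_⟩
          simp [evs]
        · intro e' he1
          simp only [evs, Finset.mem_filter, Finset.mem_univ, true_and] at he1 ⊢
          exact ⟨he1.1, by linarith [he1.2.1, he'.2.1], he1.2.2⟩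
      exact ih _ (by rw [← hn]; exact Finset.card_lt_card hss) (X e) c1 rfl he'.2.2 h2
        (fun e' h3 h4 h5 => hno e' h3 (he'.2.1.trans h4) h5)
    · rw [Finset.not_nonempty_iff_eq_empty] at hne
      apply transfer hC hR hc _ hadj
      intro e he1 he2
      have : e ∈ evs X R c0 c1 := by
        simp only [evs, Finset.mem_filter, Finset.mem_univ, true_and]
        exact ⟨he1, he2.1, he2.2⟩
      rw [hne] at this
      simp at this

end facts

end Pool.Agent.Helper448.Walk
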