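import Mathlib
import Pool.Agent.Helper448.Walk

set_option autoImplicit false
set_option linter.unusedSectionVars false

namespace Pool.Agent.Helper448.Walk

variable {V : Type*} [Fintype V] [DecidableEq V]
variable {X : V → ℝ} {S : Finset (V × V)} {h : V × V → ℝ → ℝ} {R : Finset (V × V)} {T : Tb V}

/-- the segment `s` sees the event `e` -/
def Vis (X : V → ℝ) (h : V × V → ℝ → ℝ) (R : Finset (V × V)) (e : V) (s : V × V) : Prop :=
  X s.1 < X e ∧ X e < X s.2 ∧ ∃ ae ∈ R, (e = ae.1 ∨ e = ae.2) ∧ ∀ a, A0 X R (X e) a →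
    ¬ (h s (X e) < h a (X e) ∧ h a (X e) < h ae (X e)) ∧
    ¬ (h ae (X e) < h a (X e) ∧ h a (X e) < h s (X e))

lemma aft_left (hC : Cls X S h) (hR : R ⊆ S) {ae : V × V} (hae : ae ∈ R) {e : V} (hL : e = ae.1)
    (b : Bool) : aft T R e b = if b then (UU T R e, some ae) else (some ae, DD T R e) := by
  classical
  have hex : ∃ a ∈ R, e = a.1 := ⟨ae, hae, hL⟩
  have hch : hex.choose = ae := by
    have h1 := hex.choose_spec
    by_contra hne
    exact (hC.disj _ (hR h1.1) ae (hR hae) hne).1 (by rw [← h1.2, hL])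
  unfold aft
  rw [dif_pos hex, hch]

lemma aft_right (hC : Cls X S h) (hR : R ⊆ S) {ae : V × V} (hae : ae ∈ R) {e : V} (hL : e = ae.2)
    (b : Bool) : aft T R e b = (UU T R e, DD T R e) := by
  classical
  have hex : ¬ ∃ a ∈ R, e = a.1 := by
    rintro ⟨a, ha, h1⟩
    by_cases haa : a = ae
    · subst haa
      have := hC.left a (hR ha)
      rw [← h1, hL] at this
      exact lt_irrefl _ this
    · exact (hC.disj a (hR ha) ae (hR hae) haa).2.1 (by rw [← h1, hL])
  unfold aft
  rw [dif_neg hex]

theorem relevant (hC : Cls X S h) (hR : R ⊆ S) (hT : Compat X S h R T) {s : V × V} (hs : s ∈ S)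
    (hsR : s ∉ R) {e : V} {κ : Option (V × V) × Option (V × V)}
    (hsp : X s.1 < X e ∧ X e < X s.2) (hbef : bef T R κ e)
    (hb : Btw (fun a => h a (X e)) (h s (X e)) κ) :
    Vis X h R e s ∧ ∃ b, Adj (Ap X R (X e)) (fun a => h a (X e)) (aft T R e b) ∧
      Btw (fun a => h a (X e)) (h s (X e)) (aft T R e b) := by
  obtain ⟨ae, hae, hcase⟩ := hbef
  have hsne : s ≠ ae := by rintro rfl; exact hsR hae
  have hlae := hC.left ae (hR hae)
  rcases hcase with ⟨hL, hκ⟩ | ⟨hL, hκ⟩
  · -- left endpoint
    have hend := adj_end hC hR hT (hR hae) (v := e) (Or.inl hL)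
    have hbend := btw_end hC hR hT (hR hae) (v := e) (Or.inl hL)
    rw [← hκ] at hend hbend
    have hyne : h s (X e) ≠ h ae (X e) :=
      hC.ne s hs ae (hR hae) hsne (X e) hsp.1.le hsp.2.le (by rw [hL]) (by rw [hL]; exact hlae.le)
    have hA : ∀ a, Ap X R (X e) a → a = ae ∨ A0 X R (X e) a := by
      intro a ha
      by_cases h0 : X a.1 = X e
      · left
        by_contra haa
        exact (hC.disj a (hR ha.1) ae (hR hae) haa).1 (by rw [hC.inj h0, hL])
      · right; exact ⟨ha.1, lt_of_le_of_ne ha.2.1 h0, ha.2.2⟩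
    have h0p : ∀ a, A0 X R (X e) a → Ap X R (X e) a := fun a ha => ⟨ha.1, ha.2.1.le, ha.2.2⟩
    have haep : Ap X R (X e) ae := ⟨hae, by rw [hL], by rw [hL]; exact hlae⟩
    constructor
    · refine ⟨hsp.1, hsp.2, ae, hae, Or.inl hL, ?_⟩
      intro a ha
      rcases hend.sep a ha with ⟨u, hu, hle⟩ | ⟨d, hd, hle⟩
      · have h1 := hb.1 u hu
        have h2 := hbend.1 u hu
        constructor <;> rintro ⟨h3, h4⟩ <;> simp only at h1 h2 hle <;> linarith
      · have h1 := hb.2 d hd
        have h2 := hbend.2 d hd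
        constructor <;> rintro ⟨h3, h4⟩ <;> simp only at h1 h2 hle <;> linarith
    · rcases lt_or_gt_of_ne hyne with hlt | hgt
      · -- s below ae
        refine ⟨false, ?_⟩
        rw [aft_left hC hR hae hL]
        simp only [Bool.false_eq_true, if_false]
        have hκ2 : κ.2 = DD T R e := by rw [hκ]
        rw [← hκ2]
        constructor
        · refine ⟨?_, ?_, ?_, ?_⟩
          · intro u hu; cases hu; exact haep
          · intro d hd; exact h0p d (hend.md d hd)
          · intro a ha
            rcases hA a ha with rfl | ha0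
            · left; exact ⟨a, rfl, le_rfl⟩
            · rcases hend.sep a ha0 with ⟨u, hu, hle⟩ | ⟨d, hd, hle⟩
              · left
                have h2 := hbend.1 u hu
                exact ⟨ae, rfl, by simp only at h2 hle ⊢; linarith⟩
              · right; exact ⟨d, hd, hle⟩
          · intro u d hu hd
            cases hu
            exact hbend.2 d hd
        · refine ⟨?_, ?_⟩
          · intro u hu; cases hu; exact hlt
          · intro d hd; exact hb.2 d hd
      · refine ⟨true, ?_⟩
        rw [aft_left hC hR hae hL]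
        simp only [if_true]
        have hκ1 : κ.1 = UU T R e := by rw [hκ]
        rw [← hκ1]
        constructor
        · refine ⟨?_, ?_, ?_, ?_⟩
          · intro u hu; exact h0p u (hend.mu u hu)
          · intro d hd; cases hd; exact haep
          · intro a ha
            rcases hA a ha with rfl | ha0
            · right; exact ⟨a, rfl, le_rfl⟩
            · rcases hend.sep a ha0 with ⟨u, hu, hle⟩ | ⟨d, hd, hle⟩
              · left; exact ⟨u, hu, hle⟩
              · right
                have h2 := hbend.2 d hd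
                exact ⟨ae, rfl, by simp only at h2 hle ⊢; linarith⟩
          · intro u d hu hd
            cases hd
            exact hbend.1 u hu
        · refine ⟨?_, ?_⟩
          · intro u hu; exact hb.1 u hu
          · intro d hd; cases hd; exact hgt
  · -- right endpoint
    have hend := adj_end hC hR hT (hR hae) (v := e) (Or.inr hL)
    have hbend := btw_end hC hR hT (hR hae) (v := e) (Or.inr hL)
    have hne1 : ∀ a ∈ R, X a.1 ≠ X e := by
      intro a ha h0
      by_cases haa : a = ae
      · subst haa; rw [hL] at h0; linarith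
      · exact (hC.disj a (hR ha) ae (hR hae) haa).2.1 (by rw [hC.inj h0, hL])
    have hApm : ∀ a, Ap X R (X e) a → A0 X R (X e) a := fun a ha =>
      ⟨ha.1, lt_of_le_of_ne ha.2.1 (hne1 a ha.1), ha.2.2⟩
    have h0p : ∀ a, A0 X R (X e) a → Ap X R (X e) a := fun a ha => ⟨ha.1, ha.2.1.le, ha.2.2⟩
    have hadjp : Adj (Ap X R (X e)) (fun a => h a (X e)) (UU T R e, DD T R e) :=
      ⟨fun u hu => h0p u (hend.mu u hu), fun d hd => h0p d (hend.md d hd),
        fun a ha => hend.sep a (hApm a ha), hend.lt⟩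
    -- s is between UU and DD, and nothing separates it from ae
    have hbs : Btw (fun a => h a (X e)) (h s (X e)) (UU T R e, DD T R e) := by
      rcases hκ with hκ | hκ
      · have h1 : h s (X e) < h ae (X e) := hb.1 ae (by rw [hκ])
        refine ⟨fun u hu => ?_, fun d hd => ?_⟩
        · have := hbend.1 u hu; simp only at this ⊢; linarith
        · exact hb.2 d (by rw [hκ]; exact hd)
      · have h1 : h ae (X e) < h s (X e) := hb.2 ae (by rw [hκ])
        refine ⟨fun u hu => ?_, fun d hd => ?_⟩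
        · exact hb.1 u (by rw [hκ]; exact hu)
        · have := hbend.2 d hd; simp only at this ⊢; linarith
    constructor
    · refine ⟨hsp.1, hsp.2, ae, hae, Or.inr hL, ?_⟩
      intro a ha
      rcases hend.sep a ha with ⟨u, hu, hle⟩ | ⟨d, hd, hle⟩
      · have h1 := hbs.1 u hu
        have h2 := hbend.1 u hu
        constructor <;> rintro ⟨h3, h4⟩ <;> simp only at h1 h2 hle <;> linarith
      · have h1 := hbs.2 d hd
        have h2 := hbend.2 d hd
        constructor <;> rintro ⟨h3, h4⟩ <;> simp only at h1 h2 hle <;> linarith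
    · refine ⟨false, ?_⟩
      rw [aft_right hC hR hae hL]
      exact ⟨hadjp, hbs⟩

/-- sample endpoints are not endpoints of non-sample segments -/
lemma not_evR (hC : Cls X S h) (hR : R ⊆ S) {s : V × V} (hs : s ∈ S) (hsR : s ∉ R) {v : V}
    (hv : v = s.1 ∨ v = s.2) : ¬ evR R v := by
  rintro ⟨a, ha, h1⟩
  have hne : s ≠ a := by rintro rfl; exact hsR ha
  have hd := hC.disj s hs a (hR ha) hne
  rcases hv with rfl | rfl <;> rcases h1 with h1 | h1
  · exact hd.1 h1
  · exact hd.2.1 h1
  · exact hd.2.2.1 h1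
  · exact hd.2.2.2 h1

lemma Ap_iff_A0 (hC : Cls X S h) {v : V} (hv : ¬ evR R v) (a : V × V) :
    Ap X R (X v) a ↔ A0 X R (X v) a := by
  constructor
  · rintro ⟨h1, h2, h3⟩
    refine ⟨h1, lt_of_le_of_ne h2 (fun h0 => hv ⟨a, h1, Or.inl (hC.inj h0).symm⟩), h3⟩
  · rintro ⟨h1, h2, h3⟩
    exact ⟨h1, h2.le, h3⟩

lemma Am_iff_A0 (hC : Cls X S h) {v : V} (hv : ¬ evR R v) (a : V × V) :
    Am X R (X v) a ↔ A0 X R (X v) a := by
  constructor
  · rintro ⟨h1, h2, h3⟩
    refine ⟨h1, h2, lt_of_le_of_ne h3 (fun h0 => hv ⟨a, h1, Or.inr (hC.inj h0)⟩)⟩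
  · rintro ⟨h1, h2, h3⟩
    exact ⟨h1, h2, h3.le⟩

lemma Adj.congr {P : Type*} {A B : P → Prop} {H : P → ℝ} {κ : Option P × Option P}
    (hAB : ∀ a, A a ↔ B a) (hadj : Adj A H κ) : Adj B H κ :=
  ⟨fun u hu => (hAB u).mp (hadj.mu u hu), fun d hd => (hAB d).mp (hadj.md d hd),
    fun a ha => hadj.sep a ((hAB a).mpr ha), hadj.lt⟩

/-- betweenness persists -/
lemma btw_pers (hC : Cls X S h) (hR : R ⊆ S) {s : V × V} (hs : s ∈ S)
    {κ : Option (V × V) × Option (V × V)} {c0 c1 : ℝ}
    (hs0 : X s.1 ≤ c0) (hs0' : c0 ≤ X s.2) (hs1 : X s.1 ≤ c1) (hs1' : c1 ≤ X s.2)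
    (h0 : Adj (Ap X R c0) (fun a => h a c0) κ) (h1 : Adj (Am X R c1) (fun a => h a c1) κ)
    (hb : Btw (fun a => h a c0) (h s c0) κ) : Btw (fun a => h a c1) (h s c1) κ := by
  refine ⟨fun u hu => ?_, fun d hd => ?_⟩
  · have hu0 := h0.mu u hu
    have hu1 := h1.mu u hu
    exact hC.pers s hs u (hR hu0.1) c0 c1 hs0 hs0' hu0.2.1 hu0.2.2.le hs1 hs1' hu1.2.1.le
      hu1.2.2 (hb.1 u hu)
  · have hu0 := h0.md d hd
    have hu1 := h1.md d hd
    exact hC.pers d (hR hu0.1) s hs c0 c1 hu0.2.1 hu0.2.2.le hs0 hs0' hu1.2.1.le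
      hu1.2.2 hs1 hs1' (hb.2 d hd)

open Classical in
/-- the walk along `s` in the trapezoidal decomposition -/
theorem walk_spec (hC : Cls X S h) (hR : R ⊆ S) (hT : Compat X S h R T) {s : V × V}
    (hs : s ∈ S) (hsR : s ∉ R) :
    ∀ (n : ℕ) (w : V) (κ : Option (V × V) × Option (V × V)),
      (evs X R (X w) (X s.2)).card = n → X s.1 ≤ X w → X w < X s.2 →
      Adj (Ap X R (X w)) (fun a => h a (X w)) κ →
      Btw (fun a => h a (X w)) (h s (X w)) κ →
      ∃ bits : List Bool, walk T R (κ, nx T R w κ) bits = cell T R s.2 ∧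
        bits.length ≤ ((evs X R (X w) (X s.2)).filter (fun e => Vis X h R e s)).card := by
  intro n
  induction n using Nat.strong_induction_on with
  | _ n ih =>
    intro w κ hn hw1 hw2 hadj hb
    have hnq : ¬ evR R s.2 := not_evR hC hR hs hsR (Or.inr rfl)
    -- the stopping case
    have hstop : (∀ e, evR R e → X w < X e → X e < X s.2 → ¬ bef T R κ e) →
        ∃ bits : List Bool, walk T R (κ, nx T R w κ) bits = cell T R s.2 ∧
        bits.length ≤ ((evs X R (X w) (X s.2)).filter (fun e => Vis X h R e s)).card := by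
      intro hno
      refine ⟨[], ?_, by simp⟩
      have h1 := empty_corridor hC hR hT κ _ (X w) (X s.2) rfl hw2 hadj hno
      have h2 := btw_pers hC hR hs hw1 hw2.le (hw1.trans hw2.le) le_rfl hadj h1 hb
      have h3 := eq_end hC hR hT hs (Or.inr rfl) (h1.congr (Am_iff_A0 hC hnq)) h2
      have h4 : nx T R w κ = nx T R s.2 κ := by
        apply nx_congr hC hT
        intro e he hbe
        constructor
        · intro h5
          by_contra h6
          have h7 : X e ≠ X s.2 := fun h0 => hnq (hC.inj h0 ▸ he)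
          exact hno e he h5 (lt_of_le_of_ne (not_lt.mp h6) h7) hbe
        · intro h5; exact hw2.trans h5
      rw [walk, cell, h4, h3]
    rcases hnx : nx T R w κ with _ | e
    · rw [← hnx]
      exact hstop (fun e he h1 _ => nx_none hC hT hnx e he h1)
    · obtain ⟨⟨he, hwe, hbe⟩, hmin⟩ := nx_some hT hnx
      by_cases heq : X e < X s.2
      · have hno : ∀ e', evR R e' → X w < X e' → X e' < X e → ¬ bef T R κ e' := by
          intro e' h1 h2 h3 h4
          have := hmin e' h1 h2 h4
          linarith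
        have h1 := empty_corridor hC hR hT κ _ (X w) (X e) rfl hwe hadj hno
        have h2 := btw_pers hC hR hs hw1 hw2.le (hw1.trans hwe.le) heq.le hadj h1 hb
        obtain ⟨hvis, b, h3, h4⟩ := relevant hC hR hT hs hsR
          ⟨lt_of_le_of_lt hw1 hwe, heq⟩ hbe h2
        have hemem : e ∈ evs X R (X w) (X s.2) := by
          simp only [evs, Finset.mem_filter, Finset.mem_univ, true_and]
          exact ⟨he, hwe, heq⟩
        have hsub : evs X R (X e) (X s.2) ⊆ evs X R (X w) (X s.2) := by
          intro e' he1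
          simp only [evs, Finset.mem_filter, Finset.mem_univ, true_and] at he1 ⊢
          exact ⟨he1.1, hwe.trans he1.2.1, he1.2.2⟩
        have henot : e ∉ evs X R (X e) (X s.2) := by simp [evs]
        have hss : evs X R (X e) (X s.2) ⊂ evs X R (X w) (X s.2) :=
          (Finset.ssubset_iff_of_subset hsub).mpr ⟨e, hemem, henot⟩
        obtain ⟨bits, h5, h6⟩ := ih _ (by rw [← hn]; exact Finset.card_lt_card hss) e
          (aft T R e b) rfl (hw1.trans hwe.le) heq h3 h4
        refine ⟨b :: bits, ?_, ?_⟩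
        · rw [walk]; exact h5
        · rw [List.length_cons]
          refine Nat.succ_le_of_lt (lt_of_le_of_lt h6 ?_)
          apply Finset.card_lt_card
          rw [Finset.ssubset_iff_of_subset (Finset.filter_subset_filter _ hsub)]
          exact ⟨e, Finset.mem_filter.mpr ⟨hemem, hvis⟩, fun h7 =>
            henot (Finset.mem_filter.mp h7).1⟩
      · rw [← hnx]
        apply hstop
        intro e' h1 h2 h3 h4
        have := hmin e' h1 h2 h4
        exact heq (lt_of_le_of_lt this h3)

open Classical in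
theorem walk_start (hC : Cls X S h) (hR : R ⊆ S) (hT : Compat X S h R T) {s : V × V}
    (hs : s ∈ S) (hsR : s ∉ R) :
    ∃ bits : List Bool, walk T R (cell T R s.1) bits = cell T R s.2 ∧
      bits.length ≤ (Finset.univ.filter (fun e => Vis X h R e s)).card := by
  have hnp : ¬ evR R s.1 := not_evR hC hR hs hsR (Or.inl rfl)
  have hadj := (adj_end hC hR hT hs (v := s.1) (Or.inl rfl)).congr
    (fun a => (Ap_iff_A0 hC hnp a).symm)
  have hb := btw_end hC hR hT hs (v := s.1) (Or.inl rfl)
  obtain ⟨bits, h1, h2⟩ := walk_spec hC hR hT hs hsR _ s.1 _ rfl le_rfl (hC.left s hs) hadj hb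
  refine ⟨bits, h1, h2.trans ?_⟩
  apply Finset.card_le_card
  intro e he
  simp only [Finset.mem_filter, Finset.mem_univ, true_and] at he ⊢
  exact he.2

lemma Compat.mono {R' : Finset (V × V)} (hT : Compat X S h R T) (hR' : R' ⊆ R) :
    Compat X S h R' T :=
  ⟨fun v a ha => hT.t1 v a (hR' ha), fun v a ha => hT.t2 v a (hR' ha),
    fun s hs v hv a ha => hT.t3 s hs v hv a (hR' ha)⟩

/-- Removing `s'` puts its right end in the cell of the right end of `s` (to the left) only if
`s'` is one of three segments. -/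
theorem same_cell (hC : Cls X S h) (hR : R ⊆ S) (hT : Compat X S h R T) {s s' : V × V}
    (hs : s ∈ S) (hsR : s ∉ R) (hs' : s' ∈ R) (hlt : X s.2 < X s'.2)
    (hcell : cell T (R.erase s') s'.2 = cell T (R.erase s') s.2) :
    UU T R s.2 = some s' ∨ DD T R s.2 = some s' ∨
      ∃ e, nx T R s.2 (UU T R s.2, DD T R s.2) = some e ∧ (e = s'.1 ∨ e = s'.2) := by
  by_contra hcon
  push Not at hcon
  obtain ⟨hc1, hc2, hc3⟩ := hcon
  set R0 := R.erase s' with hR0
  have hR0R : R0 ⊆ R := Finset.erase_subset _ _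
  have hR0S : R0 ⊆ S := hR0R.trans hR
  have hT0 : Compat X S h R0 T := hT.mono hR0R
  have hs'R0 : s' ∉ R0 := Finset.notMem_erase _ _
  obtain ⟨κ, hκ⟩ : ∃ κ, κ = (UU T R s.2, DD T R s.2) := ⟨_, rfl⟩
  rw [← hκ] at hc3
  have hκ1 : κ.1 ≠ some s' := by rw [hκ]; exact hc1
  have hκ2 : κ.2 ≠ some s' := by rw [hκ]; exact hc2
  have restrict : ∀ (c : ℝ) (κ' : Option (V × V) × Option (V × V)), κ'.1 ≠ some s' →
      κ'.2 ≠ some s' → Adj (A0 X R c) (fun a => h a c) κ' →
      Adj (A0 X R0 c) (fun a => h a c) κ' := by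
    intro c κ' h1 h2 hadj
    refine ⟨fun u hu => ?_, fun d hd => ?_, fun a ha => ?_, hadj.lt⟩
    · have := hadj.mu u hu
      exact ⟨Finset.mem_erase.mpr ⟨by rintro rfl; exact h1 hu, this.1⟩, this.2⟩
    · have := hadj.md d hd
      exact ⟨Finset.mem_erase.mpr ⟨by rintro rfl; exact h2 hd, this.1⟩, this.2⟩
    · exact hadj.sep a ⟨hR0R ha.1, ha.2⟩
  have hadj := adj_end hC hR hT hs (v := s.2) (Or.inr rfl)
  have hb := btw_end hC hR hT hs (v := s.2) (Or.inr rfl)
  rw [← hκ] at hadj hb
  have hκR0 := eq_end hC hR0S hT0 hs (Or.inr rfl) (restrict _ κ hκ1 hκ2 hadj) hb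
  -- read off the equality of the cells
  have hcell1 : (UU T R0 s'.2, DD T R0 s'.2) = κ := by
    have := congrArg Prod.fst hcell
    simp only [cell] at this
    rw [this, ← hκR0]
  have hcell2 : nx T R0 s'.2 κ = nx T R0 s.2 κ := by
    have := congrArg Prod.snd hcell
    simp only [cell] at this
    rw [hcell1, ← hκR0] at this
    exact this
  have hb2 := btw_end hC hR0S hT0 (hR hs') (v := s'.2) (Or.inr rfl)
  rw [hcell1] at hb2
  have hno : ∀ e, evR R e → X s.2 < X e → X e < X s'.2 → ¬ bef T R κ e := by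
    intro e he h1 h2 hbe
    rcases hnx : nx T R s.2 κ with _ | e'
    · exact nx_none hC hT hnx e he h1 hbe
    · obtain ⟨⟨he', hwe', hbe'⟩, hmin⟩ := nx_some hT hnx
      have hle := hmin e he h1 hbe
      have hne' := hc3 e' hnx
      -- e' is an event for R0
      have hgood : evR R0 e' ∧ bef T R0 κ e' := by
        obtain ⟨a, ha, hcase⟩ := hbe'
        have haE : e' = a.1 ∨ e' = a.2 := by
          rcases hcase with h3 | h3
          · exact Or.inl h3.1
          · exact Or.inr h3.1
        have hane : a ≠ s' := by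
          rintro rfl
          rcases haE with h3 | h3
          · exact hne'.1 h3
          · exact hne'.2 h3
        have haR0 : a ∈ R0 := Finset.mem_erase.mpr ⟨hane, ha⟩
        refine ⟨⟨a, haR0, haE⟩, a, haR0, ?_⟩
        rcases hcase with ⟨h3, h4⟩ | ⟨h3, h4⟩
        · left
          refine ⟨h3, ?_⟩
          have hadje := adj_end hC hR hT (hR ha) (v := e') (Or.inl h3)
          have hbe2 := btw_end hC hR hT (hR ha) (v := e') (Or.inl h3)
          rw [← h4] at hadje hbe2
          exact eq_end hC hR0S hT0 (hR ha) (Or.inl h3) (restrict _ κ hκ1 hκ2 hadje) hbe2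
        · right
          refine ⟨h3, ?_⟩
          have hinj := inj_A0 hC hR0S (X e')
          rcases h4 with h4 | h4
          · left
            have hd := DD_spec hC hR hT (hR ha) (v := e') (Or.inr h3)
            have hne2 : DD T R e' ≠ some s' := by
              have : κ.2 = DD T R e' := by rw [h4]
              rw [← this]; exact hκ2
            have hd0 : DnS (A0 X R0 (X e')) (fun b => h b (X e')) (h a (X e')) (DD T R e') := by
              rcases hDD : DD T R e' with _ | d
              · rw [hDD] at hd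
                intro b hb; exact hd b ⟨hR0R hb.1, hb.2⟩
              · rw [hDD] at hd hne2
                refine ⟨⟨Finset.mem_erase.mpr ⟨by rintro rfl; exact hne2 rfl, hd.1.1⟩, hd.1.2⟩,
                  hd.2.1, fun b hb => hd.2.2 b ⟨hR0R hb.1, hb.2⟩⟩
            have := DnS.unique hinj hd0 (DD_spec hC hR0S hT0 (hR ha) (v := e') (Or.inr h3))
            rw [h4, this]
          · right
            have hd := UU_spec hC hR hT (hR ha) (v := e') (Or.inr h3)
            have hne2 : UU T R e' ≠ some s' := by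
              have : κ.1 = UU T R e' := by rw [h4]
              rw [← this]; exact hκ1
            have hd0 : UpS (A0 X R0 (X e')) (fun b => h b (X e')) (h a (X e')) (UU T R e') := by
              rcases hDD : UU T R e' with _ | d
              · rw [hDD] at hd
                intro b hb; exact hd b ⟨hR0R hb.1, hb.2⟩
              · rw [hDD] at hd hne2
                refine ⟨⟨Finset.mem_erase.mpr ⟨by rintro rfl; exact hne2 rfl, hd.1.1⟩, hd.1.2⟩,
                  hd.2.1, fun b hb => hd.2.2 b ⟨hR0R hb.1, hb.2⟩⟩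
            have := UpS.unique hinj hd0 (UU_spec hC hR0S hT0 (hR ha) (v := e') (Or.inr h3))
            rw [h4, this]
      rcases hnx0 : nx T R0 s.2 κ with _ | e''
      · exact nx_none hC hT0 hnx0 e' hgood.1 hwe' hgood.2
      · obtain ⟨_, hmin0⟩ := nx_some hT0 hnx0
        have h5 := hmin0 e' hgood.1 hwe' hgood.2
        rw [hnx0] at hcell2
        obtain ⟨⟨_, h6, _⟩, _⟩ := nx_some hT0 hcell2
        linarith
  have hnq : ¬ evR R s.2 := not_evR hC hR hs hsR (Or.inr rfl)
  have hend := empty_corridor hC hR hT κ _ (X s.2) (X s'.2) rfl hlt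
    (hadj.congr (fun a => (Ap_iff_A0 hC hnq a).symm)) hno
  have hs'Am : Am X R (X s'.2) s' := ⟨hs', hC.left s' (hR hs'), le_rfl⟩
  rcases hend.sep s' hs'Am with ⟨u, hu, hle⟩ | ⟨d, hd, hle⟩
  · have := hb2.1 u hu
    simp only at this hle
    linarith
  · have := hb2.2 d hd
    simp only at this hle
    linarith

end Pool.Agent.Helper448.Walk
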