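import Mathlib
import Pool.Agent.Helper448.Walk2

set_option autoImplicit false
set_option linter.unusedSectionVars false

namespace Pool.Agent.Helper448.Sample

open Finset

/-- exchangeability for samples with replacement -/
lemma avg {α : Type*} [Fintype α] [DecidableEq α] (φ : Finset α → α → ℕ) (c r : ℕ)
    (hφ : ∀ R : Finset α, R.card ≤ r + 1 → ∑ s ∈ R, φ (R.erase s) s ≤ c) :
    (r + 1) * ∑ g : Fin r → α, ∑ s : α,
      (if s ∈ univ.image g then 0 else φ (univ.image g) s) ≤ c * (Fintype.card α) ^ (r + 1) := by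
  classical
  obtain ⟨F, hF⟩ : ∃ F : (Fin r → α) → α → ℕ, ∀ g s, F g s =
    (if s ∈ univ.image g then 0 else φ (univ.image g) s) := ⟨_, fun _ _ => rfl⟩
  have h1 : ∀ t : Fin (r + 1), ∑ g : Fin r → α, ∑ s : α, F g s =
      ∑ f : Fin (r + 1) → α, F (fun i => f (t.succAbove i)) (f t) := by
    intro t
    rw [sum_comm, ← Fintype.sum_prod_type']
    refine Fintype.sum_equiv (Fin.insertNthEquiv (fun _ => α) t) _ _ ?_
    rintro ⟨s, g⟩
    simp [Fin.insertNthEquiv]
  have h2 : ∀ f : Fin (r + 1) → α, ∑ t, F (fun i => f (t.succAbove i)) (f t) ≤ c := by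
    intro f
    have himg : ∀ t, f t ∉ univ.image (fun i => f (t.succAbove i)) →
        univ.image (fun i => f (t.succAbove i)) = (univ.image f).erase (f t) := by
      intro t ht
      ext a
      constructor
      · intro ha
        obtain ⟨i, _, rfl⟩ := mem_image.mp ha
        refine mem_erase.mpr ⟨?_, mem_image_of_mem _ (mem_univ _)⟩
        intro h0
        exact ht (h0 ▸ ha)
      · intro ha
        obtain ⟨hne, ha⟩ := mem_erase.mp ha
        obtain ⟨i, _, rfl⟩ := mem_image.mp ha
        have hit : i ≠ t := by rintro rfl; exact hne rfl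
        obtain ⟨j, hj⟩ := Fin.exists_succAbove_eq hit
        exact mem_image.mpr ⟨j, mem_univ _, by rw [hj]⟩
    have h3 : ∑ t, F (fun i => f (t.succAbove i)) (f t) =
        ∑ t ∈ univ.filter (fun t => f t ∉ univ.image (fun i => f (t.succAbove i))),
          φ ((univ.image f).erase (f t)) (f t) := by
      rw [sum_filter]
      apply sum_congr rfl
      intro t _
      rw [hF]
      by_cases hc : f t ∈ univ.image (fun i => f (t.succAbove i))
      · rw [if_pos hc, if_neg (not_not.mpr hc)]
      · rw [if_neg hc, if_pos hc, himg t hc]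
    rw [h3]
    have hinj : Set.InjOn f (univ.filter (fun t => f t ∉ univ.image
        (fun i => f (t.succAbove i))) : Finset (Fin (r+1))) := by
      intro t ht t' _ htt
      by_contra hne
      have ht' := (mem_filter.mp ht).2
      apply ht'
      obtain ⟨j, hj⟩ := Fin.exists_succAbove_eq (Ne.symm hne)
      exact mem_image.mpr ⟨j, mem_univ _, by rw [hj, htt]⟩
    rw [← sum_image (f := fun s => φ ((univ.image f).erase s) s) hinj]
    refine le_trans (sum_le_sum_of_subset ?_) (hφ (univ.image f) ?_)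
    · exact image_subset_image (filter_subset _ _)
    · exact card_image_le.trans (by simp)
  simp only [← hF]
  calc (r + 1) * ∑ g : Fin r → α, ∑ s : α, F g s
      = ∑ _t : Fin (r + 1), ∑ g : Fin r → α, ∑ s : α, F g s := by simp
    _ = ∑ t : Fin (r + 1), ∑ f : Fin (r + 1) → α, F (fun i => f (t.succAbove i)) (f t) :=
        sum_congr rfl fun t _ => h1 t
    _ = ∑ f : Fin (r + 1) → α, ∑ t : Fin (r + 1), F (fun i => f (t.succAbove i)) (f t) :=
        sum_comm
    _ ≤ ∑ _f : Fin (r + 1) → α, c := sum_le_sum fun f _ => h2 f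
    _ = c * (Fintype.card α) ^ (r + 1) := by simp [mul_comm]

open Walk

variable {V : Type*} [Fintype V] [DecidableEq V]
variable {X : V → ℝ} {S : Finset (V × V)} {h : V × V → ℝ → ℝ} {R : Finset (V × V)} {T : Tb V}

open Classical in
lemma vis_sum (hC : Cls X S h) (hR : R ⊆ S) :
    ∑ s ∈ R, (univ.filter (fun e => Vis X h (R.erase s) e s)).card ≤ 4 * R.card := by
  -- swap the sums
  have h1 : ∑ s ∈ R, (univ.filter (fun e => Vis X h (R.erase s) e s)).card =
      ∑ e : V, (R.filter (fun s => Vis X h (R.erase s) e s)).card := by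
    simp only [card_eq_sum_ones, sum_filter]
    exact sum_comm
  rw [h1]
  obtain ⟨E, hE⟩ : ∃ E : Finset V, E = R.image Prod.fst ∪ R.image Prod.snd := ⟨_, rfl⟩
  have hEcard : E.card ≤ 2 * R.card := by
    rw [hE]
    refine (card_union_le _ _).trans ?_
    have := card_image_le (s := R) (f := Prod.fst)
    have := card_image_le (s := R) (f := Prod.snd)
    omega
  have h2 : ∀ e, e ∉ E → (R.filter (fun s => Vis X h (R.erase s) e s)).card = 0 := by
    intro e he
    rw [card_eq_zero, filter_eq_empty_iff]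
    rintro s hs ⟨_, _, a, ha, h3, _⟩
    apply he
    rw [hE, mem_union]
    have haR := mem_of_mem_erase ha
    rcases h3 with rfl | rfl
    · exact Or.inl (mem_image_of_mem _ haR)
    · exact Or.inr (mem_image_of_mem _ haR)
  have h3 : ∀ e, (R.filter (fun s => Vis X h (R.erase s) e s)).card ≤ 2 := by
    intro e
    by_cases hex : ∃ a ∈ R, e = a.1 ∨ e = a.2
    · obtain ⟨ae, hae, hE'⟩ := hex
      have huniq : ∀ a ∈ R, (e = a.1 ∨ e = a.2) → a = ae := by
        intro a ha h0
        by_contra hne
        have hd := hC.disj a (hR ha) ae (hR hae) hne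
        rcases h0 with h0 | h0 <;> rcases hE' with h5 | h5
        · exact hd.1 (by rw [← h0, ← h5])
        · exact hd.2.1 (by rw [← h0, ← h5])
        · exact hd.2.2.1 (by rw [← h0, ← h5])
        · exact hd.2.2.2 (by rw [← h0, ← h5])
      have hael := hC.left ae (hR hae)
      have haespan : X ae.1 ≤ X e ∧ X e ≤ X ae.2 := by
        rcases hE' with h5 | h5
        · rw [h5]; exact ⟨le_rfl, hael.le⟩
        · rw [h5]; exact ⟨hael.le, le_rfl⟩
      -- unpack visibility
      have hvis : ∀ s, Vis X h (R.erase s) e s → X s.1 < X e ∧ X e < X s.2 ∧ s ≠ ae ∧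
          ∀ a, A0 X (R.erase s) (X e) a →
          ¬ (h s (X e) < h a (X e) ∧ h a (X e) < h ae (X e)) ∧
          ¬ (h ae (X e) < h a (X e) ∧ h a (X e) < h s (X e)) := by
        rintro s ⟨h6, h7, a, ha, h8, h9⟩
        have haa := huniq a (mem_of_mem_erase ha) h8
        subst haa
        exact ⟨h6, h7, (ne_of_mem_erase ha).symm, h9⟩
      have hsub : R.filter (fun s => Vis X h (R.erase s) e s) ⊆
          R.filter (fun s => Vis X h (R.erase s) e s ∧ h ae (X e) < h s (X e)) ∪
          R.filter (fun s => Vis X h (R.erase s) e s ∧ h s (X e) < h ae (X e)) := by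
        intro s hs
        obtain ⟨hsR, hv⟩ := mem_filter.mp hs
        obtain ⟨h6, h7, h8, _⟩ := hvis s hv
        rw [mem_union, mem_filter, mem_filter]
        rcases lt_or_gt_of_ne (hC.ne s (hR hsR) ae (hR hae) h8 (X e) h6.le h7.le
          haespan.1 haespan.2) with h9 | h9
        · exact Or.inr ⟨hsR, hv, h9⟩
        · exact Or.inl ⟨hsR, hv, h9⟩
      refine (card_le_card hsub).trans ((card_union_le _ _).trans ?_)
      have c1 : (R.filter (fun s => Vis X h (R.erase s) e s ∧ h ae (X e) < h s (X e))).card ≤ 1 := by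
        rw [card_le_one]
        intro s hs s' hs'
        by_contra hne
        obtain ⟨hsR, hv, hgt⟩ := mem_filter.mp hs
        obtain ⟨hsR', hv', hgt'⟩ := mem_filter.mp hs'
        obtain ⟨h6, h7, _, h8⟩ := hvis s hv
        obtain ⟨h6', h7', _, h8'⟩ := hvis s' hv'
        have h9 := (h8 s' ⟨mem_erase.mpr ⟨Ne.symm hne, hsR'⟩, h6', h7'⟩).2
        have h9' := (h8' s ⟨mem_erase.mpr ⟨hne, hsR⟩, h6, h7⟩).2
        rcases lt_or_gt_of_ne (hC.ne s (hR hsR) s' (hR hsR') hne (X e) h6.le h7.le
          h6'.le h7'.le) with h10 | h10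
        · exact h9' ⟨hgt, h10⟩
        · exact h9 ⟨hgt', h10⟩
      have c2 : (R.filter (fun s => Vis X h (R.erase s) e s ∧ h s (X e) < h ae (X e))).card ≤ 1 := by
        rw [card_le_one]
        intro s hs s' hs'
        by_contra hne
        obtain ⟨hsR, hv, hgt⟩ := mem_filter.mp hs
        obtain ⟨hsR', hv', hgt'⟩ := mem_filter.mp hs'
        obtain ⟨h6, h7, _, h8⟩ := hvis s hv
        obtain ⟨h6', h7', _, h8'⟩ := hvis s' hv'
        have h9 := (h8 s' ⟨mem_erase.mpr ⟨Ne.symm hne, hsR'⟩, h6', h7'⟩).1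
        have h9' := (h8' s ⟨mem_erase.mpr ⟨hne, hsR⟩, h6, h7⟩).1
        rcases lt_or_gt_of_ne (hC.ne s (hR hsR) s' (hR hsR') hne (X e) h6.le h7.le
          h6'.le h7'.le) with h10 | h10
        · exact h9 ⟨h10, hgt'⟩
        · exact h9' ⟨h10, hgt⟩
      omega
    · have : R.filter (fun s => Vis X h (R.erase s) e s) = ∅ := by
        rw [filter_eq_empty_iff]
        rintro s hs ⟨_, _, a, ha, h4, _⟩
        exact hex ⟨a, mem_of_mem_erase ha, h4⟩
      rw [this]; simp
  calc ∑ e : V, (R.filter (fun s => Vis X h (R.erase s) e s)).card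
      = ∑ e ∈ E, (R.filter (fun s => Vis X h (R.erase s) e s)).card := by
        symm
        apply sum_subset (subset_univ _)
        intro e _ he
        exact h2 e he
    _ ≤ ∑ _e ∈ E, 2 := sum_le_sum fun e _ => h3 e
    _ = 2 * E.card := by simp [mul_comm]
    _ ≤ 4 * R.card := by omega

open Classical in
lemma cell_sum (hC : Cls X S h) (hR : R ⊆ S) (hT : Compat X S h S T) {s : V × V} (hs : s ∈ S)
    (hsR : s ∉ R) :
    (R.filter (fun s' => X s.2 < X s'.2 ∧
      cell T (R.erase s') s'.2 = cell T (R.erase s') s.2)).card ≤ 3 := by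
  have hTR := hT.mono hR
  have hsub : R.filter (fun s' => X s.2 < X s'.2 ∧
      cell T (R.erase s') s'.2 = cell T (R.erase s') s.2) ⊆
      (R.filter (fun s' => UU T R s.2 = some s') ∪ R.filter (fun s' => DD T R s.2 = some s')) ∪
      R.filter (fun s' => ∃ e, nx T R s.2 (UU T R s.2, DD T R s.2) = some e ∧
        (e = s'.1 ∨ e = s'.2)) := by
    intro s' hs'
    obtain ⟨hR', hlt, hcell⟩ := mem_filter.mp hs'
    simp only [mem_union, mem_filter]
    rcases same_cell hC hR hTR hs hsR hR' hlt hcell with h1 | h1 | h1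
    · exact Or.inl (Or.inl ⟨hR', h1⟩)
    · exact Or.inl (Or.inr ⟨hR', h1⟩)
    · exact Or.inr ⟨hR', h1⟩
  refine (card_le_card hsub).trans ((card_union_le _ _).trans ?_)
  have c1 : (R.filter (fun s' => UU T R s.2 = some s')).card ≤ 1 := by
    rw [card_le_one]
    intro a ha b hb
    have h1 := (mem_filter.mp ha).2
    have h2 := (mem_filter.mp hb).2
    rw [h1] at h2
    exact Option.some.inj h2
  have c2 : (R.filter (fun s' => DD T R s.2 = some s')).card ≤ 1 := by
    rw [card_le_one]
    intro a ha b hb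
    have h1 := (mem_filter.mp ha).2
    have h2 := (mem_filter.mp hb).2
    rw [h1] at h2
    exact Option.some.inj h2
  have c3 : (R.filter (fun s' => ∃ e, nx T R s.2 (UU T R s.2, DD T R s.2) = some e ∧
        (e = s'.1 ∨ e = s'.2))).card ≤ 1 := by
    rw [card_le_one]
    intro a ha b hb
    obtain ⟨haR, e, he, hae⟩ := mem_filter.mp ha
    obtain ⟨hbR, e', he', hbe⟩ := mem_filter.mp hb
    rw [he] at he'
    cases Option.some.inj he'
    by_contra hne
    have hd := hC.disj a (hR haR) b (hR hbR) hne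
    rcases hae with h0 | h0 <;> rcases hbe with h5 | h5
    · exact hd.1 (by rw [← h0, ← h5])
    · exact hd.2.1 (by rw [← h0, ← h5])
    · exact hd.2.2.1 (by rw [← h0, ← h5])
    · exact hd.2.2.2 (by rw [← h0, ← h5])
  have := card_union_le (R.filter (fun s' => UU T R s.2 = some s'))
    (R.filter (fun s' => DD T R s.2 = some s'))
  omega

end Pool.Agent.Helper448.Sample
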