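import Mathlib
import Pool.Agent.Helper448.Sample

set_option autoImplicit false
set_option linter.unusedSectionVars false

namespace Pool.Agent.Helper448.Encode

open Finset Walk Sample

variable {V : Type*} [Fintype V] [DecidableEq V]
variable {X : V → ℝ} {S : Finset (V × V)} {h : V × V → ℝ → ℝ} {T : Tb V}

open Classical in
/-- a good sample exists -/
theorem class_sample (hC : Cls X S h) (hT : Compat X S h S T) (hS : S.Nonempty) (r : ℕ) :
    ∃ g : Fin r → V × V, (∀ t, g t ∈ S) ∧
      (r + 1) * (∑ s ∈ S \ univ.image g, (univ.filter (fun e => Vis X h (univ.image g) e s)).card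
        + ∑ s ∈ S \ univ.image g, ((S \ univ.image g).filter (fun s' => X s.2 < X s'.2 ∧
            cell T (univ.image g) s'.2 = cell T (univ.image g) s.2)).card)
      ≤ 4 * (r + 1) * S.card + 3 * S.card ^ 2 := by
  have : Nonempty ↥S := hS.to_subtype
  set ι : ↥S ↪ V × V := Function.Embedding.subtype _ with hι
  have hmapS : ∀ Q : Finset ↥S, Q.map ι ⊆ S := by
    intro Q x hx
    obtain ⟨y, _, rfl⟩ := mem_map.mp hx
    exact y.2
  obtain ⟨φA, hφA⟩ : ∃ φA : Finset ↥S → ↥S → ℕ, ∀ Q s, φA Q s =
    (univ.filter (fun e => Vis X h (Q.map ι) e s.1)).card := ⟨_, fun _ _ => rfl⟩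
  obtain ⟨φB, hφB⟩ : ∃ φB : ↥S → Finset ↥S → ↥S → ℕ, ∀ s0 Q s', φB s0 Q s' =
    (if s0 ∈ Q then 0 else if X s0.1.2 < X s'.1.2 ∧
      cell T (Q.map ι) s'.1.2 = cell T (Q.map ι) s0.1.2 then 1 else 0) := ⟨_, fun _ _ _ => rfl⟩
  have hA := avg φA (4 * (r + 1)) r (by
    intro Q hQ
    have h1 := vis_sum hC (hmapS Q)
    rw [sum_map, card_map] at h1
    refine le_trans (le_of_eq ?_) (h1.trans (by omega))
    apply sum_congr rfl
    intro s _
    rw [hφA, map_erase]
    rfl)
  have hB : ∀ s0, (r + 1) * ∑ g : Fin r → ↥S, ∑ s : ↥S,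
      (if s ∈ univ.image g then 0 else φB s0 (univ.image g) s) ≤
      3 * (Fintype.card ↥S) ^ (r + 1) := by
    intro s0
    apply avg (φB s0) 3 r
    intro Q _
    by_cases hs0 : s0 ∈ Q
    · refine le_trans (le_of_eq ?_) (Nat.zero_le 3)
      apply sum_eq_zero
      intro s' hs'
      rw [hφB]
      by_cases hss : s0 = s'
      · subst hss
        simp
      · rw [if_pos (mem_erase.mpr ⟨hss, hs0⟩)]
    · have hs0' : s0.1 ∉ Q.map ι := by
        intro hc
        obtain ⟨y, hy, hy2⟩ := mem_map.mp hc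
        exact hs0 (by rwa [show y = s0 from Subtype.ext hy2] at hy)
      have h1 := cell_sum hC (hmapS Q) hT s0.2 hs0'
      rw [card_eq_sum_ones, sum_filter, sum_map] at h1
      refine le_trans (le_of_eq ?_) h1
      apply sum_congr rfl
      intro s' _
      rw [hφB, if_neg (fun hc => hs0 (mem_of_mem_erase hc)), map_erase]
      rfl
  -- pick a sample
  obtain ⟨cost, hcost⟩ : ∃ cost : (Fin r → ↥S) → ℕ, ∀ g, cost g =
    (∑ s : ↥S, (if s ∈ univ.image g then 0 else φA (univ.image g) s)) +
    ∑ s0 : ↥S, ∑ s : ↥S, (if s ∈ univ.image g then 0 else φB s0 (univ.image g) s) :=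
    ⟨_, fun _ => rfl⟩
  have hsum : ∑ g : Fin r → ↥S, (r + 1) * cost g ≤
      ∑ _g : Fin r → ↥S, (4 * (r + 1) * S.card + 3 * S.card ^ 2) := by
    have e1 : ∑ g : Fin r → ↥S, (r + 1) * cost g =
        (r + 1) * ∑ g : Fin r → ↥S, ∑ s : ↥S,
          (if s ∈ univ.image g then 0 else φA (univ.image g) s) +
        ∑ s0 : ↥S, (r + 1) * ∑ g : Fin r → ↥S, ∑ s : ↥S,
          (if s ∈ univ.image g then 0 else φB s0 (univ.image g) s) := by
      simp only [hcost, mul_add, sum_add_distrib, mul_sum]
      congr 1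
      rw [sum_comm]
    rw [e1]
    have e2 : ∑ s0 : ↥S, (r + 1) * ∑ g : Fin r → ↥S, ∑ s : ↥S,
          (if s ∈ univ.image g then 0 else φB s0 (univ.image g) s) ≤
        ∑ _s0 : ↥S, 3 * (Fintype.card ↥S) ^ (r + 1) := sum_le_sum fun s0 _ => hB s0
    refine (Nat.add_le_add hA e2).trans (le_of_eq ?_)
    simp only [sum_const, card_univ, Fintype.card_coe, smul_eq_mul, Fintype.card_fun,
      Fintype.card_fin]
    ring
  obtain ⟨g, _, hg⟩ := exists_le_of_sum_le (univ_nonempty) hsum
  refine ⟨fun t => (g t).1, fun t => (g t).2, ?_⟩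
  have himg : univ.image (fun t => (g t).1) = (univ.image g).map ι := by
    ext x
    simp [hι]
  rw [himg]
  refine le_trans (le_of_eq ?_) hg
  congr 1
  rw [hcost]
  have hconv : ∀ f : V × V → ℕ, ∑ s ∈ S \ (univ.image g).map ι, f s =
      ∑ s : ↥S, (if s ∈ univ.image g then 0 else f s.1) := by
    intro f
    have e3 : ∑ s : ↥S, (if s ∈ univ.image g then 0 else f s.1) =
        ∑ s : ↥S, (if s.1 ∈ (univ.image g).map ι then 0 else f s.1) := by
      apply sum_congr rfl
      intro s _
      have : (s ∈ univ.image g) ↔ (s.1 ∈ (univ.image g).map ι) := by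
        constructor
        · intro hs; exact mem_map.mpr ⟨s, hs, rfl⟩
        · intro hs
          obtain ⟨y, hy, hy2⟩ := mem_map.mp hs
          rwa [show y = s from Subtype.ext hy2] at hy
      by_cases hc : s ∈ univ.image g
      · rw [if_pos hc, if_pos (this.mp hc)]
      · rw [if_neg hc, if_neg (fun h' => hc (this.mpr h'))]
    rw [e3, sum_coe_sort S (fun s => if s ∈ (univ.image g).map ι then 0 else f s)]
    rw [sdiff_eq_filter, sum_filter]
    apply sum_congr rfl
    intro s _
    by_cases hc : s ∈ (univ.image g).map ι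
    · rw [if_pos hc, if_neg (not_not.mpr hc)]
    · rw [if_neg hc, if_pos hc]
  congr 1
  · rw [hconv]
    simp only [hφA]
  · rw [hconv]
    apply sum_congr rfl
    intro s0 _
    by_cases hc : s0 ∈ univ.image g
    · rw [if_pos hc]
      symm
      apply sum_eq_zero
      intro s' _
      rw [hφB, if_pos hc]
      simp
    · rw [if_neg hc, card_eq_sum_ones, sum_filter, hconv]
      apply sum_congr rfl
      intro s' _
      rw [hφB, if_neg hc]

/-- decoding of a class from its sample and its code -/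
def dec (T : Tb V) (R : Finset (V × V)) (lab : V → ℕ) (kind : V → Fin 4)
    (code : V → List Bool × ℕ) : Set (V × V) :=
  {s | (s ∈ R ∧ kind s.1 = 3) ∨ (kind s.1 = 1 ∧ kind s.2 = 2 ∧
    walk T R (cell T R s.1) (code s.1).1 = cell T R s.2 ∧
    (code s.1).2 = {v | kind v = 2 ∧ cell T R v = cell T R s.2 ∧ lab v < lab s.2}.ncard)}

open Classical in
theorem class_encode (hC : Cls X S h) (hT : Compat X S h S T) (hS : S.Nonempty)
    (lab : V → ℕ) (hlab : Function.Injective lab) (r m M : ℕ) (hcard : S.card ≤ m)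
    (hm : m ≤ M * (r + 1)) :
    ∃ g : Fin r → V × V, (∀ t, g t ∈ S) ∧ ∃ (kind : V → Fin 4) (code : V → List Bool × ℕ),
      ∑ v, ((code v).1.length + (code v).2) ≤ (8 + 6 * M) * m ∧
      dec T (univ.image g) lab kind code = ↑S := by
  obtain ⟨g, hgS, hcost⟩ := class_sample hC hT hS r
  refine ⟨g, hgS, ?_⟩
  set R := univ.image g with hR
  have hRS : R ⊆ S := by
    intro x hx
    obtain ⟨t, _, rfl⟩ := mem_image.mp hx
    exact hgS t
  have hTR := hT.mono hRS
  have hwalk : ∀ s : V × V, ∃ bits : List Bool, s ∈ S \ R →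
      walk T R (cell T R s.1) bits = cell T R s.2 ∧
      bits.length ≤ (univ.filter (fun e => Vis X h R e s)).card := by
    intro s
    by_cases hs : s ∈ S \ R
    · obtain ⟨hsS, hsR⟩ := mem_sdiff.mp hs
      obtain ⟨bits, h1, h2⟩ := walk_start hC hRS hTR hsS hsR
      exact ⟨bits, fun _ => ⟨h1, by convert h2⟩⟩
    · exact ⟨[], fun h0 => absurd h0 hs⟩
  choose bits hbits using hwalk
  -- kinds
  obtain ⟨kind, hkind⟩ : ∃ kind : V → Fin 4, ∀ v, kind v =
      (if ∃ s ∈ R, v = s.1 then 3 else if ∃ s ∈ S \ R, v = s.1 then 1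
        else if ∃ s ∈ S \ R, v = s.2 then 2 else 0) := ⟨_, fun _ => rfl⟩
  have hk3 : ∀ s ∈ R, kind s.1 = 3 := by
    intro s hs
    rw [hkind, if_pos ⟨s, hs, rfl⟩]
  have h13 : (1 : Fin 4) ≠ 3 := by decide
  have hk1 : ∀ s ∈ S \ R, kind s.1 = 1 := by
    intro s hs
    obtain ⟨hsS, hsR⟩ := mem_sdiff.mp hs
    rw [hkind, if_neg, if_pos ⟨s, hs, rfl⟩]
    rintro ⟨a, ha, h0⟩
    have hne : s ≠ a := by rintro rfl; exact hsR ha
    exact (hC.disj s hsS a (hRS ha) hne).1 h0
  have hk2 : ∀ s ∈ S \ R, kind s.2 = 2 := by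
    intro s hs
    obtain ⟨hsS, hsR⟩ := mem_sdiff.mp hs
    have hno : ∀ a ∈ S, s.2 ≠ a.1 := by
      intro a ha h0
      by_cases hsa : s = a
      · subst hsa
        have := hC.left s hsS
        rw [h0] at this
        exact lt_irrefl _ this
      · exact (hC.disj s hsS a ha hsa).2.2.1 h0
    rw [hkind, if_neg, if_neg, if_pos ⟨s, hs, rfl⟩]
    · rintro ⟨a, ha, h0⟩
      exact hno a (mem_sdiff.mp ha).1 h0
    · rintro ⟨a, ha, h0⟩
      exact hno a (hRS ha) h0
  have hk1' : ∀ v, kind v = 1 → ∃ s ∈ S \ R, v = s.1 := by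
    intro v hv
    rw [hkind] at hv
    split_ifs at hv with h1 h2 h3
    · exact absurd hv (by decide)
    · exact h2
    · exact absurd hv (by decide)
    · exact absurd hv (by decide)
  have hk2' : ∀ v, kind v = 2 → ∃ s ∈ S \ R, v = s.2 := by
    intro v hv
    rw [hkind] at hv
    split_ifs at hv with h1 h2 h3
    · exact absurd hv (by decide)
    · exact absurd hv (by decide)
    · exact h3
    · exact absurd hv (by decide)
  -- rank function
  obtain ⟨idx, hidx⟩ : ∃ idx : V → ℕ, ∀ q, idx q =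
      {v | kind v = 2 ∧ cell T R v = cell T R q ∧ lab v < lab q}.ncard := ⟨_, fun _ => rfl⟩
  -- code
  obtain ⟨code, hcode⟩ : ∃ code : V → List Bool × ℕ, ∀ v, code v =
      (if h0 : ∃ s ∈ S \ R, v = s.1 then (bits h0.choose, idx h0.choose.2) else ([], 0)) :=
    ⟨_, fun _ => rfl⟩
  have hcode1 : ∀ s ∈ S \ R, code s.1 = (bits s, idx s.2) := by
    intro s hs
    have hex : ∃ s' ∈ S \ R, s.1 = s'.1 := ⟨s, hs, rfl⟩
    have hch : hex.choose = s := by
      have h1 := hex.choose_spec
      by_contra hne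
      exact (hC.disj _ (mem_sdiff.mp h1.1).1 s (mem_sdiff.mp hs).1 hne).1 h1.2.symm
    rw [hcode, dif_pos hex, hch]
  refine ⟨kind, code, ?_, ?_⟩
  · -- the cost
    have hinj1 : Set.InjOn Prod.fst ((S \ R : Finset (V × V)) : Set (V × V)) := by
      intro s hs s' hs' h0
      by_contra hne
      exact (hC.disj s (mem_sdiff.mp hs).1 s' (mem_sdiff.mp hs').1 hne).1 h0
    have e1 : ∑ v, ((code v).1.length + (code v).2) =
        ∑ s ∈ S \ R, ((bits s).length + idx s.2) := by
      have e2 : ∑ v, ((code v).1.length + (code v).2) =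
          ∑ v ∈ (S \ R).image Prod.fst, ((code v).1.length + (code v).2) := by
        symm
        apply sum_subset (subset_univ _)
        intro v _ hv
        have : ¬ ∃ s ∈ S \ R, v = s.1 := by
          rintro ⟨s, hs, rfl⟩
          exact hv (mem_image_of_mem _ hs)
        rw [hcode, dif_neg this]
        simp
      rw [e2, sum_image hinj1]
      apply sum_congr rfl
      intro s hs
      rw [hcode1 s hs]
    rw [e1, sum_add_distrib]
    obtain ⟨A, hA⟩ : ∃ A, A = ∑ s ∈ S \ R, (univ.filter (fun e => Vis X h R e s)).card := ⟨_, rfl⟩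
    obtain ⟨B, hB⟩ : ∃ B, B = ∑ s ∈ S \ R, ((S \ R).filter (fun s' => X s.2 < X s'.2 ∧
            cell T R s'.2 = cell T R s.2)).card := ⟨_, rfl⟩
    rw [← hA, ← hB] at hcost
    have hA1 : ∑ s ∈ S \ R, (bits s).length ≤ A := by
      rw [hA]
      exact sum_le_sum fun s hs => (hbits s hs).2
    have hB1 : ∑ s ∈ S \ R, idx s.2 ≤ 2 * B := by
      have e3 : ∀ s ∈ S \ R, idx s.2 ≤
          ((S \ R).filter (fun s' => X s.2 < X s'.2 ∧ cell T R s'.2 = cell T R s.2)).card +
          ((S \ R).filter (fun s' => X s'.2 < X s.2 ∧ cell T R s.2 = cell T R s'.2)).card := by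
        intro s hs
        rw [hidx]
        have e4 : {v | kind v = 2 ∧ cell T R v = cell T R s.2 ∧ lab v < lab s.2} ⊆
            (((S \ R).filter (fun s' => X s.2 < X s'.2 ∧ cell T R s'.2 = cell T R s.2)) ∪
            ((S \ R).filter (fun s' => X s'.2 < X s.2 ∧
              cell T R s.2 = cell T R s'.2)) : Finset (V × V)).image Prod.snd := by
          rintro v ⟨hv1, hv2, hv3⟩
          obtain ⟨s', hs', rfl⟩ := hk2' v hv1
          rw [mem_coe, mem_image]
          refine ⟨s', ?_, rfl⟩
          rw [mem_union, mem_filter, mem_filter]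
          have hne : s.2 ≠ s'.2 := by
            intro h0; rw [h0] at hv3; exact lt_irrefl _ hv3
          rcases lt_or_gt_of_ne (fun h0 => hne (hC.inj h0)) with hlt | hgt
          · exact Or.inl ⟨hs', hlt, hv2⟩
          · exact Or.inr ⟨hs', hgt, hv2.symm⟩
        refine (Set.ncard_le_ncard e4 (Set.toFinite _)).trans ?_
        rw [Set.ncard_coe_finset]
        exact card_image_le.trans (card_union_le _ _)
      refine (sum_le_sum e3).trans ?_
      rw [sum_add_distrib]
      have e5 : ∑ s ∈ S \ R, ((S \ R).filter (fun s' => X s'.2 < X s.2 ∧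
          cell T R s.2 = cell T R s'.2)).card = B := by
        rw [hB]
        simp only [card_eq_sum_ones, sum_filter]
        rw [sum_comm]
      rw [e5, ← hB]
      omega
    have h3 : (r + 1) * (A + B) ≤ (r + 1) * ((4 + 3 * M) * m) := by
      refine hcost.trans ?_
      have h4 : S.card ^ 2 ≤ m * (M * (r + 1)) := by
        rw [pow_two]
        exact Nat.mul_le_mul hcard (hcard.trans hm)
      have h5 : 4 * (r + 1) * S.card ≤ 4 * (r + 1) * m := Nat.mul_le_mul_left _ hcard
      calc 4 * (r + 1) * S.card + 3 * S.card ^ 2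
          ≤ 4 * (r + 1) * m + 3 * (m * (M * (r + 1))) := by omega
        _ = (r + 1) * ((4 + 3 * M) * m) := by ring
    have h6 : A + B ≤ (4 + 3 * M) * m := Nat.le_of_mul_le_mul_left h3 (by omega)
    have h7 : (8 + 6 * M) * m = 2 * ((4 + 3 * M) * m) := by ring
    omega
  · -- correctness
    ext s
    constructor
    · rintro (⟨h1, _⟩ | ⟨h1, h2, h3, h4⟩)
      · exact hRS h1
      · obtain ⟨s0, hs0, h5⟩ := hk1' s.1 h1
        have h6 := hcode1 s0 hs0
        rw [← h5] at h6
        rw [h6] at h3 h4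
        simp only at h3 h4
        have h7 := (hbits s0 hs0).1
        rw [← h5, h3] at h7
        -- both right ends lie in the same cell and have the same rank
        rw [hidx, h7] at h4
        have h8 : s.2 = s0.2 := by
          by_contra hne
          have hlne : lab s.2 ≠ lab s0.2 := fun h0 => hne (hlab h0)
          rcases lt_or_gt_of_ne hlne with hlt | hgt
          · have hss : {v | kind v = 2 ∧ cell T R v = cell T R s0.2 ∧ lab v < lab s.2} ⊂
                {v | kind v = 2 ∧ cell T R v = cell T R s0.2 ∧ lab v < lab s0.2} := by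
              constructor
              · rintro v ⟨a1, a2, a3⟩
                exact ⟨a1, a2, a3.trans hlt⟩
              · intro h9
                have : s.2 ∈ {v | kind v = 2 ∧ cell T R v = cell T R s0.2 ∧ lab v < lab s.2} :=
                  h9 ⟨h2, h7, hlt⟩
                exact lt_irrefl _ this.2.2
            have := Set.ncard_lt_ncard hss (Set.toFinite _)
            omega
          · have hss : {v | kind v = 2 ∧ cell T R v = cell T R s0.2 ∧ lab v < lab s0.2} ⊂
                {v | kind v = 2 ∧ cell T R v = cell T R s0.2 ∧ lab v < lab s.2} := by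
              constructor
              · rintro v ⟨a1, a2, a3⟩
                exact ⟨a1, a2, a3.trans hgt⟩
              · intro h9
                have : s0.2 ∈ {v | kind v = 2 ∧ cell T R v = cell T R s0.2 ∧
                    lab v < lab s0.2} := h9 ⟨hk2 s0 hs0, rfl, hgt⟩
                exact lt_irrefl _ this.2.2
            have := Set.ncard_lt_ncard hss (Set.toFinite _)
            omega
        have h9 : s = s0 := Prod.ext h5 h8
        rw [h9]
        exact (mem_sdiff.mp hs0).1
    · intro hs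
      by_cases hsR : s ∈ R
      · exact Or.inl ⟨hsR, hk3 s hsR⟩
      · have hs' : s ∈ S \ R := mem_sdiff.mpr ⟨hs, hsR⟩
        right
        refine ⟨hk1 s hs', hk2 s hs', ?_, ?_⟩
        · rw [hcode1 s hs']
          exact (hbits s hs').1
        · rw [hcode1 s hs']
          exact hidx s.2

end Pool.Agent.Helper448.Encode
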