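import Mathlib
import Pool.Agent.Helper448.Encode

set_option autoImplicit false
set_option linter.unusedSectionVars false

namespace Pool.Agent.Helper448.Congr

open Walk Encode

variable {V : Type*} [Fintype V] [DecidableEq V] {R : Finset (V × V)} {T T' : Tb V}

lemma IsU_c (hTT : ∀ v, ∀ a ∈ R, T v a = T' v a) : IsU T R = IsU T' R := by
  funext v a
  apply propext
  have key : ∀ T T' : Tb V, (∀ v, ∀ a ∈ R, T v a = T' v a) → IsU T R v a → IsU T' R v a := by
    intro T T' hTT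
    rintro ⟨h1, h2, h3, h4⟩
    refine ⟨h1, ?_, ?_, ?_⟩
    · unfold spn at h2 ⊢; rw [← hTT v a h1]; exact h2
    · rw [← hTT v a h1]; exact h3
    · intro a' ha' h5 h6 h7
      have := h4 a' ha' (by unfold spn at h5 ⊢; rw [hTT v a' ha']; exact h5)
        (by rw [hTT v a' ha']; exact h6) h7
      unfold ltT spn at this ⊢
      rw [← hTT a.1 a' ha', ← hTT a'.1 a h1]; exact this
  exact ⟨key T T' hTT, key T' T (fun v a ha => (hTT v a ha).symm)⟩

lemma IsD_c (hTT : ∀ v, ∀ a ∈ R, T v a = T' v a) : IsD T R = IsD T' R := by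
  funext v a
  apply propext
  have key : ∀ T T' : Tb V, (∀ v, ∀ a ∈ R, T v a = T' v a) → IsD T R v a → IsD T' R v a := by
    intro T T' hTT
    rintro ⟨h1, h2, h3, h4⟩
    refine ⟨h1, ?_, ?_, ?_⟩
    · unfold spn at h2 ⊢; rw [← hTT v a h1]; exact h2
    · rw [← hTT v a h1]; exact h3
    · intro a' ha' h5 h6 h7
      have := h4 a' ha' (by unfold spn at h5 ⊢; rw [hTT v a' ha']; exact h5)
        (by rw [hTT v a' ha']; exact h6) h7
      unfold ltT spn at this ⊢
      rw [← hTT a.1 a' ha', ← hTT a'.1 a h1]; exact this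
  exact ⟨key T T' hTT, key T' T (fun v a ha => (hTT v a ha).symm)⟩

lemma UU_c (hTT : ∀ v, ∀ a ∈ R, T v a = T' v a) : UU T R = UU T' R := by
  funext v
  unfold UU
  rw [IsU_c hTT]

lemma DD_c (hTT : ∀ v, ∀ a ∈ R, T v a = T' v a) : DD T R = DD T' R := by
  funext v
  unfold DD
  rw [IsD_c hTT]

lemma evlt_c (hTT : ∀ v, ∀ a ∈ R, T v a = T' v a) : evlt T R = evlt T' R := by
  funext w e
  apply propext
  unfold evlt
  constructor
  · rintro ⟨a, ha, h1⟩
    refine ⟨a, ha, ?_⟩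
    rw [← hTT w a ha]; exact h1
  · rintro ⟨a, ha, h1⟩
    refine ⟨a, ha, ?_⟩
    rw [hTT w a ha]; exact h1

lemma bef_c (hTT : ∀ v, ∀ a ∈ R, T v a = T' v a) : bef T R = bef T' R := by
  funext w e
  unfold bef
  rw [UU_c hTT, DD_c hTT]

lemma nx_c (hTT : ∀ v, ∀ a ∈ R, T v a = T' v a) : nx T R = nx T' R := by
  have h1 : IsNx T R = IsNx T' R := by
    funext w κ e
    unfold IsNx
    rw [evlt_c hTT, bef_c hTT]
  funext w κ
  unfold nx
  rw [h1]

lemma aft_c (hTT : ∀ v, ∀ a ∈ R, T v a = T' v a) : aft T R = aft T' R := by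
  funext e b
  unfold aft
  rw [UU_c hTT, DD_c hTT]

lemma cell_c (hTT : ∀ v, ∀ a ∈ R, T v a = T' v a) : cell T R = cell T' R := by
  funext e
  unfold cell
  rw [UU_c hTT, DD_c hTT, nx_c hTT]

lemma walk_c (hTT : ∀ v, ∀ a ∈ R, T v a = T' v a) : walk T R = walk T' R := by
  funext c l
  induction l generalizing c with
  | nil => rw [walk, walk]
  | cons b bs ih =>
    rcases c with ⟨κ, _ | e⟩
    · rw [walk, walk]
    · rw [walk, walk, aft_c hTT, nx_c hTT, ih]

theorem dec_c (hTT : ∀ v, ∀ a ∈ R, T v a = T' v a) (lab : V → ℕ) (kind : V → Fin 4)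
    (code : V → List Bool × ℕ) : dec T R lab kind code = dec T' R lab kind code := by
  unfold dec
  rw [cell_c hTT, walk_c hTT]

end Pool.Agent.Helper448.Congr
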