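import Mathlib

set_option autoImplicit false
set_option linter.unusedSectionVars false

namespace Pool.Agent.Helper448.Lines

/-- decoding rule for the side of a line -/
def dec (s1 s2 s3 s4 sa sb : SignType) : SignType :=
  if s1 ≠ 0 then s1 * s2 else if s3 ≠ 0 then s3 * s2 * sb else s4 * s2 * sa

lemma sign_eq_of_mul_pos {u v : ℝ} (h : 0 < u * v) : SignType.sign u = SignType.sign v := by
  rcases lt_trichotomy u 0 with hu | hu | hu
  · have hv : v < 0 := by nlinarith
    rw [sign_neg hu, sign_neg hv]
  · subst hu; simp at h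
  · have hv : 0 < v := by nlinarith
    rw [sign_pos hu, sign_pos hv]

lemma pow_pos_of_ne (u : ℝ) (h : u ≠ 0) : 0 < u ^ 2 := by positivity

/-- sign bookkeeping for `exists_name` -/
lemma sign_core (Dab Dal Dlb na dt eva evb evl El Eb : ℝ) (hnapos : 0 < na)
    (hEl : na * El = na * evl - eva * dt) (h3 : Dal = 0 → na * Dlb = dt * Dab)
    (hDab : Dab ≠ 0) (hne : evl ≠ 0) (hEb : Eb ≠ 0)
    (hEpos' : El ≠ 0 → 0 < El * evl) (hEbpos : 0 < Eb * evb) (hEne : Dal ≠ 0 → El ≠ 0)
    (hle : Dal ≠ 0 → |Eb / Dab| ≤ |El / Dal|) :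
    SignType.sign evl = dec (SignType.sign (Dab * El - Dal * Eb)) (SignType.sign Dab)
      (SignType.sign Dal) (SignType.sign Dlb) (SignType.sign eva) (SignType.sign evb) := by
  by_cases hDal : Dal = 0
  · by_cases hEl0 : El = 0
    · have h1 : Dab * El - Dal * Eb = 0 := by rw [hEl0, hDal]; ring
      have h2 : na * evl = eva * dt := by
        rw [hEl0, mul_zero] at hEl
        linarith
      have h3 := h3 hDal
      have h4 : dec (SignType.sign (Dab * El - Dal * Eb)) (SignType.sign Dab)
          (SignType.sign Dal) (SignType.sign Dlb) (SignType.sign eva) (SignType.sign evb)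
          = SignType.sign (Dlb * Dab * eva) := by
        rw [h1, hDal]
        simp only [dec, sign_zero, ne_eq, not_true_eq_false, if_false, sign_mul]
      rw [h4]
      apply sign_eq_of_mul_pos
      have h5 : na * na * (evl * (Dlb * Dab * eva)) = (na * evl) * (na * Dlb) * (Dab * eva) := by
        ring
      rw [h2, h3] at h5
      have h6 : eva * dt * (dt * Dab) * (Dab * eva) = (eva * dt * Dab) ^ 2 := by ring
      rw [h6] at h5
      have h7 : eva * dt ≠ 0 := by
        rw [← h2]
        exact mul_ne_zero hnapos.ne' hne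
      have h8 : 0 < (eva * dt * Dab) ^ 2 := pow_pos_of_ne _ (mul_ne_zero h7 hDab)
      rw [← h5] at h8
      exact (mul_pos_iff_of_pos_left (by positivity)).mp h8
    · have h1 : Dab * El - Dal * Eb = Dab * El := by rw [hDal]; ring
      have h1' : Dab * El ≠ 0 := mul_ne_zero hDab hEl0
      have h4 : dec (SignType.sign (Dab * El - Dal * Eb)) (SignType.sign Dab)
          (SignType.sign Dal) (SignType.sign Dlb) (SignType.sign eva) (SignType.sign evb)
          = SignType.sign (Dab * El * Dab) := by
        rw [h1]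
        simp only [dec]
        rw [if_pos (by rwa [Ne, sign_eq_zero_iff]), ← sign_mul]
      rw [h4]
      apply sign_eq_of_mul_pos
      have h5 := hEpos' hEl0
      have : evl * (Dab * El * Dab) = (El * evl) * Dab ^ 2 := by ring
      rw [this]
      exact mul_pos h5 (pow_pos_of_ne _ hDab)
  · have hEl0 : El ≠ 0 := hEne hDal
    have h5 := hEpos' hEl0
    have hle := hle hDal
    obtain ⟨tl, htl⟩ : ∃ tl : ℝ, tl = El / Dal := ⟨_, rfl⟩
    obtain ⟨tb, htb⟩ : ∃ tb : ℝ, tb = Eb / Dab := ⟨_, rfl⟩
    rw [← htl, ← htb] at hle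
    have hEl' : El = tl * Dal := by rw [htl]; field_simp
    have hEb' : Eb = tb * Dab := by rw [htb]; field_simp
    have htl0 : tl ≠ 0 := by rw [htl]; exact div_ne_zero hEl0 hDal
    by_cases hEq : tl = tb
    · have h1 : Dab * El - Dal * Eb = 0 := by rw [hEl', hEb', hEq]; ring
      have h4 : dec (SignType.sign (Dab * El - Dal * Eb)) (SignType.sign Dab)
          (SignType.sign Dal) (SignType.sign Dlb) (SignType.sign eva) (SignType.sign evb)
          = SignType.sign (Dal * Dab * evb) := by
        rw [h1]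
        simp only [dec, sign_zero, ne_eq, not_true_eq_false, if_false]
        rw [if_pos (by rwa [sign_eq_zero_iff]), ← sign_mul, ← sign_mul]
      rw [h4]
      apply sign_eq_of_mul_pos
      have h6 : 0 < (El * evl) * (Eb * evb) := mul_pos h5 hEbpos
      have h7 : (El * evl) * (Eb * evb) = tl ^ 2 * (evl * (Dal * Dab * evb)) := by
        rw [hEl', hEb', ← hEq]; ring
      rw [h7] at h6
      exact (mul_pos_iff_of_pos_left (pow_pos_of_ne _ htl0)).mp h6
    · have hfac : Dab * El - Dal * Eb = Dab * Dal * (tl - tb) := by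
        rw [hEl', hEb']; ring
      have hne0 : Dab * Dal * (tl - tb) ≠ 0 :=
        mul_ne_zero (mul_ne_zero hDab hDal) (sub_ne_zero.mpr hEq)
      have h4 : dec (SignType.sign (Dab * El - Dal * Eb)) (SignType.sign Dab)
          (SignType.sign Dal) (SignType.sign Dlb) (SignType.sign eva) (SignType.sign evb)
          = SignType.sign (Dab * Dal * (tl - tb) * Dab) := by
        rw [hfac]
        simp only [dec]
        rw [if_pos (by rwa [Ne, sign_eq_zero_iff]), ← sign_mul]
      rw [h4]
      apply sign_eq_of_mul_pos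
      have hsgn : 0 < tl * (tl - tb) := by
        rcases lt_or_gt_of_ne htl0 with hneg | hpos
        · have h8 : tl - tb < 0 := by
            rw [abs_of_neg hneg] at hle
            have := (abs_le.mp hle).1
            have : tl ≤ tb := by linarith
            exact sub_neg.mpr (lt_of_le_of_ne this hEq)
          exact mul_pos_of_neg_of_neg hneg h8
        · have h8 : 0 < tl - tb := by
            rw [abs_of_pos hpos] at hle
            have := (abs_le.mp hle).2
            exact sub_pos.mpr (lt_of_le_of_ne this (Ne.symm hEq))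
          exact mul_pos hpos h8
      have h9 : 0 < (El * evl) * (tl * (tl - tb)) := mul_pos h5 hsgn
      have h10 : (evl * (Dab * Dal * (tl - tb) * Dab)) * tl ^ 2 =
        (El * evl) * (tl * (tl - tb)) * Dab ^ 2 := by
        rw [hEl']; ring
      have h11 : 0 < (evl * (Dab * Dal * (tl - tb) * Dab)) * tl ^ 2 := by
        rw [h10]
        exact mul_pos h9 (pow_pos_of_ne _ hDab)
      exact (mul_pos_iff_of_pos_right (pow_pos_of_ne _ htl0)).mp h11

section
variable {L : Type*} [Fintype L]

/-- The side of a point with respect to all the lines is determined by two of the lines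
and bounded information. -/
theorem exists_name (α β γ : L → ℝ)
    (hn : ∀ l, (α l) ^ 2 + (β l) ^ 2 ≠ 0) (hD : ∃ a b, α a * β b - β a * α b ≠ 0)
    (x y : ℝ) (hne : ∀ l, α l * x + β l * y + γ l ≠ 0) :
    ∃ a b, ∀ l, SignType.sign (α l * x + β l * y + γ l) =
      dec (SignType.sign (γ a * (α b * β l - β b * α l) - γ b * (α a * β l - β a * α l)
            + γ l * (α a * β b - β a * α b)))
        (SignType.sign (α a * β b - β a * α b))
        (SignType.sign (α a * β l - β a * α l))
        (SignType.sign (α l * β b - β l * α b))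
        (SignType.sign (α a * x + β a * y + γ a))
        (SignType.sign (α b * x + β b * y + γ b)) := by
  classical
  obtain ⟨a', b', hab'⟩ := hD
  have hnpos : ∀ l, 0 < (α l) ^ 2 + (β l) ^ 2 := fun l => lt_of_le_of_ne (by positivity) (hn l).symm
  obtain ⟨ev, hev⟩ : ∃ ev : L → ℝ, ∀ l, ev l = α l * x + β l * y + γ l := ⟨_, fun _ => rfl⟩
  have hne' : ∀ l, ev l ≠ 0 := fun l => by rw [hev]; exact hne l
  -- nearest line
  obtain ⟨a, _, ha⟩ := Finset.exists_min_image (Finset.univ : Finset L)
    (fun l => (ev l) ^ 2 / ((α l) ^ 2 + (β l) ^ 2)) ⟨a', Finset.mem_univ _⟩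
  obtain ⟨na, hna⟩ : ∃ na : ℝ, na = (α a) ^ 2 + (β a) ^ 2 := ⟨_, rfl⟩
  have hnapos : 0 < na := hna ▸ hnpos a
  obtain ⟨x', hx'⟩ : ∃ x' : ℝ, x' = x - ev a / na * α a := ⟨_, rfl⟩
  obtain ⟨y', hy'⟩ : ∃ y' : ℝ, y' = y - ev a / na * β a := ⟨_, rfl⟩
  obtain ⟨E, hE⟩ : ∃ E : L → ℝ, ∀ l, E l = α l * x' + β l * y' + γ l := ⟨_, fun _ => rfl⟩
  have hEl : ∀ l, na * E l = na * ev l - ev a * (α a * α l + β a * β l) := by
    intro l
    rw [hE, hev l, hx', hy']
    field_simp
    ring
  have hEa : E a = 0 := by
    have := hEl a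
    have h2 : na * E a = 0 := by rw [this, hna]; ring
    exact (mul_eq_zero.mp h2).resolve_left hnapos.ne'
  have hmin : ∀ l, (ev a) ^ 2 * ((α l) ^ 2 + (β l) ^ 2) ≤ (ev l) ^ 2 * na := by
    intro l
    have := ha l (Finset.mem_univ _)
    rw [← hna] at this
    rwa [div_le_div_iff₀ hnapos (hnpos l)] at this
  have hEpos : ∀ l, 0 ≤ E l * ev l := by
    intro l
    have h1 : (ev a * ev l * (α a * α l + β a * β l)) ^ 2 ≤ ((ev l) ^ 2 * na) ^ 2 := by
      have h2 : (α a * α l + β a * β l) ^ 2 ≤ na * ((α l) ^ 2 + (β l) ^ 2) := by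
        rw [hna]; nlinarith [sq_nonneg (α a * β l - β a * α l)]
      calc (ev a * ev l * (α a * α l + β a * β l)) ^ 2
          = (ev a) ^ 2 * (ev l) ^ 2 * (α a * α l + β a * β l) ^ 2 := by ring
        _ ≤ (ev a) ^ 2 * (ev l) ^ 2 * (na * ((α l) ^ 2 + (β l) ^ 2)) := by gcongr
        _ = ((ev a) ^ 2 * ((α l) ^ 2 + (β l) ^ 2)) * ((ev l) ^ 2 * na) := by ring
        _ ≤ ((ev l) ^ 2 * na) * ((ev l) ^ 2 * na) := by
            have := hmin l
            gcongr
        _ = ((ev l) ^ 2 * na) ^ 2 := by ring
    have h3 := abs_le_of_sq_le_sq h1 (by positivity)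
    have h4 := (abs_le.mp h3).2
    have h5 : na * (E l * ev l) = (ev l) ^ 2 * na - ev a * ev l * (α a * α l + β a * β l) := by
      rw [← mul_assoc, hEl]; ring
    have h6 : 0 ≤ na * (E l * ev l) := by rw [h5]; linarith
    exact (mul_nonneg_iff_of_pos_left hnapos).mp h6
  have hEpos' : ∀ l, E l ≠ 0 → 0 < E l * ev l := fun l hl =>
    lt_of_le_of_ne (hEpos l) (mul_ne_zero hl (hne' l)).symm
  have hEne : ∀ l, α a * β l - β a * α l ≠ 0 → E l ≠ 0 := by
    intro l hl h0
    have h1 : na * ev l = ev a * (α a * α l + β a * β l) := by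
      have := hEl l
      rw [h0, mul_zero] at this
      linarith
    have h2 : (α a * α l + β a * β l) ^ 2 < na * ((α l) ^ 2 + (β l) ^ 2) := by
      have : 0 < (α a * β l - β a * α l) ^ 2 := by positivity
      rw [hna]; nlinarith
    have h3 : (na * ev l) ^ 2 < na * ((ev l) ^ 2 * na) := by
      have hea : 0 < (ev a) ^ 2 := by
        have := hne' a
        positivity
      calc (na * ev l) ^ 2 = (ev a) ^ 2 * (α a * α l + β a * β l) ^ 2 := by rw [h1]; ring
        _ < (ev a) ^ 2 * (na * ((α l) ^ 2 + (β l) ^ 2)) := by gcongr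
        _ = na * ((ev a) ^ 2 * ((α l) ^ 2 + (β l) ^ 2)) := by ring
        _ ≤ na * ((ev l) ^ 2 * na) := by
            have := hmin l
            gcongr
    have h4 : (na * ev l) ^ 2 = na * ((ev l) ^ 2 * na) := by ring
    linarith
  -- nearest crossing on the line a
  have hex : ∃ b, α a * β b - β a * α b ≠ 0 := by
    by_contra hcon
    push Not at hcon
    have h1 := hcon a'
    have h2 := hcon b'
    have h3 : α a * (α a' * β b' - β a' * α b') = 0 := by
      have : α a * (α a' * β b' - β a' * α b') =
        α a' * (α a * β b' - β a * α b') - α b' * (α a * β a' - β a * α a') := by ring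
      rw [this, h1, h2]; ring
    have h4 : β a * (α a' * β b' - β a' * α b') = 0 := by
      have : β a * (α a' * β b' - β a' * α b') =
        β a' * (α a * β b' - β a * α b') - β b' * (α a * β a' - β a * α a') := by ring
      rw [this, h1, h2]; ring
    have h5 := (mul_eq_zero.mp h3).resolve_right hab'
    have h6 := (mul_eq_zero.mp h4).resolve_right hab'
    rw [h5, h6] at hna
    rw [hna] at hnapos
    simp at hnapos
  obtain ⟨b0, hb0⟩ := hex
  obtain ⟨b, hb, hbmin⟩ := Finset.exists_min_image
    (Finset.univ.filter (fun l => α a * β l - β a * α l ≠ 0))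
    (fun l => |E l / (α a * β l - β a * α l)|) ⟨b0, by simpa using hb0⟩
  have hDab : α a * β b - β a * α b ≠ 0 := (Finset.mem_filter.mp hb).2
  refine ⟨a, b, fun l => ?_⟩
  have hdet : γ a * (α b * β l - β b * α l) - γ b * (α a * β l - β a * α l)
            + γ l * (α a * β b - β a * α b) =
      (α a * β b - β a * α b) * E l - (α a * β l - β a * α l) * E b := by
    have : γ a * (α b * β l - β b * α l) - γ b * (α a * β l - β a * α l)
            + γ l * (α a * β b - β a * α b) =
      (α a * β b - β a * α b) * E l - (α a * β l - β a * α l) * E b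
        + (α b * β l - β b * α l) * E a := by
      rw [hE, hE, hE]; ring
    rw [this, hEa]; ring
  rw [hdet, ← hev l, ← hev a, ← hev b]
  have hEb : E b ≠ 0 := hEne b hDab
  have hle : α a * β l - β a * α l ≠ 0 → |E b / (α a * β b - β a * α b)| ≤
      |E l / (α a * β l - β a * α l)| := fun h => hbmin l (by simpa using h)
  have h3 : α a * β l - β a * α l = 0 → na * (α l * β b - β l * α b)
      = (α a * α l + β a * β l) * (α a * β b - β a * α b) := by
    intro hDal
    have e1 : na * (α l * β b - β l * α b) - (α a * α l + β a * β l) * (α a * β b - β a * α b)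
        = -(β a * β b + α a * α b) * (α a * β l - β a * α l) := by
      rw [hna]; ring
    rw [hDal, mul_zero] at e1
    linarith
  exact sign_core (α a * β b - β a * α b) (α a * β l - β a * α l) (α l * β b - β l * α b) na
    (α a * α l + β a * β l) (ev a) (ev b) (ev l) (E l) (E b) hnapos (hEl l) h3 hDab
    (hne' l) hEb (hEpos' l) (hEpos' b hEb) (hEne l) hle

/-- A point can be moved off all lines without changing its side where it had one. -/
theorem exists_perturb (α β γ : L → ℝ)
    (hn : ∀ l, (α l) ^ 2 + (β l) ^ 2 ≠ 0) (x y : ℝ) :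
    ∃ x' y' : ℝ, (∀ l, α l * x' + β l * y' + γ l ≠ 0) ∧
      ∀ l, α l * x + β l * y + γ l ≠ 0 →
        SignType.sign (α l * x' + β l * y' + γ l) = SignType.sign (α l * x + β l * y + γ l) := by
  classical
  obtain ⟨s, hs⟩ := Infinite.exists_notMem_finset
    ((Finset.univ : Finset L).image (fun l => - α l / β l))
  have hs' : ∀ l, α l + s * β l ≠ 0 := by
    intro l h0
    by_cases hb : β l = 0
    · rw [hb] at h0
      apply hn l
      rw [hb]
      have : α l = 0 := by linarith
      rw [this]; ring
    · apply hs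
      rw [Finset.mem_image]
      refine ⟨l, Finset.mem_univ _, ?_⟩
      rw [div_eq_iff hb]; linarith
  have hev : ∀ᶠ t : ℝ in nhdsWithin 0 (Set.Ioi 0), ∀ l, α l * x + β l * y + γ l ≠ 0 →
      |t * (α l + s * β l)| < |α l * x + β l * y + γ l| := by
    rw [Filter.eventually_all]
    intro l
    by_cases h0 : α l * x + β l * y + γ l = 0
    · exact Filter.Eventually.of_forall fun _ h => absurd h0 h
    · have hc : Filter.Tendsto (fun t : ℝ => |t * (α l + s * β l)|) (nhds 0) (nhds |0 * (α l + s * β l)|) :=
        (Continuous.tendsto (by fun_prop) 0)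
      rw [zero_mul, abs_zero] at hc
      have h1 : ∀ᶠ t : ℝ in nhds 0, |t * (α l + s * β l)| < |α l * x + β l * y + γ l| :=
        hc.eventually (gt_mem_nhds (abs_pos.mpr h0))
      filter_upwards [nhdsWithin_le_nhds h1] with t ht _ using ht
  obtain ⟨t, ht1, ht2⟩ := (hev.and self_mem_nhdsWithin).exists
  have htpos : 0 < t := ht2
  have hval : ∀ l, α l * (x + t) + β l * (y + t * s) + γ l =
      (α l * x + β l * y + γ l) + t * (α l + s * β l) := by intro l; ring
  refine ⟨x + t, y + t * s, ?_, ?_⟩
  · intro l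
    rw [hval]
    by_cases h0 : α l * x + β l * y + γ l = 0
    · rw [h0, zero_add]
      exact mul_ne_zero htpos.ne' (hs' l)
    · intro h1
      have h2 := ht1 l h0
      have h3 : t * (α l + s * β l) = -(α l * x + β l * y + γ l) := by linarith
      rw [h3, abs_neg] at h2
      exact lt_irrefl _ h2
  · intro l h0
    rw [hval]
    have h2 := ht1 l h0
    apply sign_eq_of_mul_pos
    rcases lt_or_gt_of_ne h0 with hneg | hpos
    · rw [abs_of_neg hneg] at h2
      have := (abs_lt.mp h2).2
      apply mul_pos_of_neg_of_neg _ hneg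
      linarith
    · rw [abs_of_pos hpos] at h2
      have := (abs_lt.mp h2).1
      apply mul_pos _ hpos
      linarith

end

end Pool.Agent.Helper448.Lines
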