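import Mathlib
import Pool.Agent.Helper448.Warren
import Pool.Agent.Helper448.Lines

set_option autoImplicit false
set_option linter.unusedSectionVars false

namespace Pool.Agent.Helper448.Table

open MvPolynomial

/-- line labels: the supporting line of a slot and the two vertical lines through its ends -/
abbrev LL (ι : Type) := ι × Fin 3
/-- labels of the predicates about the sample -/
abbrev QQ (ι : Type) := (LL ι × LL ι) ⊕ (LL ι × LL ι × LL ι)

variable {ι : Type} [Fintype ι] [DecidableEq ι]

noncomputable def cA (l : LL ι) : MvPolynomial (ι × Fin 4) ℝ :=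
  if l.2 = 0 then X (l.1, 1) - X (l.1, 3) else 1

noncomputable def cB (l : LL ι) : MvPolynomial (ι × Fin 4) ℝ :=
  if l.2 = 0 then X (l.1, 2) - X (l.1, 0) else 0

noncomputable def cC (l : LL ι) : MvPolynomial (ι × Fin 4) ℝ :=
  if l.2 = 0 then X (l.1, 0) * X (l.1, 3) - X (l.1, 2) * X (l.1, 1)
  else if l.2 = 1 then - X (l.1, 0) else - X (l.1, 2)

lemma cA_deg (l : LL ι) : (cA l).totalDegree ≤ 1 := by
  unfold cA
  split_ifs
  · exact (totalDegree_sub _ _).trans (by simp)
  · simp

lemma cB_deg (l : LL ι) : (cB l).totalDegree ≤ 1 := by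
  unfold cB
  split_ifs
  · exact (totalDegree_sub _ _).trans (by simp)
  · simp

lemma cC_deg (l : LL ι) : (cC l).totalDegree ≤ 2 := by
  unfold cC
  split_ifs
  · refine (totalDegree_sub _ _).trans (max_le ?_ ?_)
    · exact (totalDegree_mul _ _).trans (by simp)
    · exact (totalDegree_mul _ _).trans (by simp)
  · rw [totalDegree_neg]; simp
  · rw [totalDegree_neg]; simp

noncomputable def pD (a b : LL ι) : MvPolynomial (ι × Fin 4) ℝ := cA a * cB b - cB a * cA b

lemma pD_deg (a b : LL ι) : (pD a b).totalDegree ≤ 2 := by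
  unfold pD
  refine (totalDegree_sub _ _).trans (max_le ?_ ?_)
  · refine (totalDegree_mul _ _).trans ?_
    have := cA_deg a; have := cB_deg b; omega
  · refine (totalDegree_mul _ _).trans ?_
    have := cB_deg a; have := cA_deg b; omega

noncomputable def pT (a b l : LL ι) : MvPolynomial (ι × Fin 4) ℝ :=
  cC a * pD b l - cC b * pD a l + cC l * pD a b

lemma pT_deg (a b l : LL ι) : (pT a b l).totalDegree ≤ 4 := by
  unfold pT
  have h : ∀ x y z : LL ι, (cC x * pD y z).totalDegree ≤ 4 := by
    intro x y z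
    refine (totalDegree_mul _ _).trans ?_
    have := cC_deg x; have := pD_deg y z; omega
  refine (totalDegree_add _ _).trans (max_le ((totalDegree_sub _ _).trans (max_le ?_ ?_)) ?_)
  · exact h _ _ _
  · exact h _ _ _
  · exact h _ _ _

noncomputable def qq (q : QQ ι) : MvPolynomial (ι × Fin 4) ℝ :=
  Sum.elim (fun p => pD p.1 p.2) (fun p => pT p.1 p.2.1 p.2.2) q

lemma qq_deg (q : QQ ι) : (qq q).totalDegree ≤ 4 := by
  rcases q with p | p
  · exact (pD_deg _ _).trans (by norm_num)
  · exact pT_deg _ _ _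

/-- the finite set of realisable sample patterns -/
def patterns (ι : Type) [Fintype ι] [DecidableEq ι] : Set (QQ ι → SignType) :=
  Set.range (fun x : ι × Fin 4 → ℝ => fun q => SignType.sign (eval x (qq q)))

lemma patterns_ncard [Nonempty ι] : (patterns ι).ncard ≤
    (600 * (Fintype.card ι) ^ 3) ^ (4 * (Fintype.card ι)) := by
  have h := Warren.ncard_sign_patterns_le (σ := ι × Fin 4) (qq (ι := ι)) 4 qq_deg
  unfold patterns
  refine h.trans ?_
  obtain ⟨N, hN'⟩ : ∃ N, N = Fintype.card ι := ⟨_, rfl⟩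
  have hN : 0 < N := by rw [hN']; exact Fintype.card_pos
  have hc : Fintype.card (QQ ι) = (N * 3) * (N * 3) + (N * 3) * ((N * 3) * (N * 3)) := by
    simp [QQ, LL, hN']
  have hc2 : Fintype.card (ι × Fin 4) = 4 * N := by simp [hN']; ring
  rw [← hN']
  rw [hc, hc2]
  apply Nat.pow_le_pow_left
  have h1 : N ^ 2 ≤ N ^ 3 := Nat.pow_le_pow_right hN (by norm_num)
  have h2 : 1 ≤ N ^ 3 := Nat.one_le_pow _ _ hN
  nlinarith

variable {V : Type*} [Fintype V] [DecidableEq V]

/-- side of the vertex `v` relative to the line through the slot `s` -/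
def orient (X Y : V → ℝ) (s : V × V) (v : V) : ℝ :=
  (Y s.1 - Y s.2) * X v + (X s.2 - X s.1) * Y v + (X s.1 * Y s.2 - X s.2 * Y s.1)

/-- location table of all vertices relative to the slots -/
noncomputable def tab (X Y : V → ℝ) (G : ι → V × V) (v : V) (t : ι) :
    SignType × SignType × SignType :=
  (SignType.sign (X v - X (G t).1), SignType.sign (X v - X (G t).2),
    if X (G t).1 < X v ∧ X v < X (G t).2 then SignType.sign (orient X Y (G t) v) else 0)

/-- decoding of the table -/
def Psi (G : ι → V × V) (s : QQ ι → SignType)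
    (nm : V → LL ι × LL ι × SignType × SignType) (v : V) (t : ι) :
    SignType × SignType × SignType :=
  let sg : LL ι → SignType := fun l =>
    Lines.dec (s (Sum.inr ((nm v).1, (nm v).2.1, l))) (s (Sum.inl ((nm v).1, (nm v).2.1)))
      (s (Sum.inl ((nm v).1, l))) (s (Sum.inl (l, (nm v).2.1))) (nm v).2.2.1 (nm v).2.2.2
  let f1 := if v = (G t).1 then 0 else sg (t, 1)
  let f2 := if v = (G t).2 then 0 else sg (t, 2)
  (f1, f2, if f1 = 1 ∧ f2 = -1 then sg (t, 0) else 0)

/-- sample coordinates -/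
def xi (X Y : V → ℝ) (G : ι → V × V) (p : ι × Fin 4) : ℝ :=
  if p.2 = 0 then X (G p.1).1 else if p.2 = 1 then Y (G p.1).1
  else if p.2 = 2 then X (G p.1).2 else Y (G p.1).2

/-- valid placements -/
structure Valid (X Y : V → ℝ) (G : ι → V × V) : Prop where
  inj : Function.Injective X
  lt : ∀ t, X (G t).1 < X (G t).2
  off : ∀ t v, X (G t).1 < X v → X v < X (G t).2 → orient X Y (G t) v ≠ 0

lemma tab_eq_Psi [Nonempty ι] (X Y : V → ℝ) (G : ι → V × V) (h : Valid X Y G) :
    ∃ s ∈ patterns ι, ∃ nm, tab X Y G = Psi G s nm := by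
  classical
  set x : ι × Fin 4 → ℝ := xi X Y G with hx
  obtain ⟨al, hal⟩ : ∃ al : LL ι → ℝ, ∀ l, al l = eval x (cA l) := ⟨_, fun _ => rfl⟩
  obtain ⟨be, hbe⟩ : ∃ be : LL ι → ℝ, ∀ l, be l = eval x (cB l) := ⟨_, fun _ => rfl⟩
  obtain ⟨ga, hga⟩ : ∃ ga : LL ι → ℝ, ∀ l, ga l = eval x (cC l) := ⟨_, fun _ => rfl⟩
  have al0 : ∀ t, al (t, 0) = Y (G t).1 - Y (G t).2 := by
    intro t; rw [hal]; simp [cA, hx, xi]
  have be0 : ∀ t, be (t, 0) = X (G t).2 - X (G t).1 := by
    intro t; rw [hbe]; simp [cB, hx, xi]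
  have ga0 : ∀ t, ga (t, 0) = X (G t).1 * Y (G t).2 - X (G t).2 * Y (G t).1 := by
    intro t; rw [hga]; simp [cC, hx, xi]
  have al1 : ∀ t, al (t, 1) = 1 := by
    intro t; rw [hal]; simp [cA]
  have be1 : ∀ t, be (t, 1) = 0 := by
    intro t; rw [hbe]; simp [cB]
  have ga1 : ∀ t, ga (t, 1) = - X (G t).1 := by
    intro t; rw [hga]; simp [cC, hx, xi]
  have al2 : ∀ t, al (t, 2) = 1 := by
    intro t; rw [hal]; simp [cA]
  have be2 : ∀ t, be (t, 2) = 0 := by
    intro t; rw [hbe]; simp [cB]
  have ga2 : ∀ t, ga (t, 2) = - X (G t).2 := by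
    intro t; rw [hga]; simp [cC, hx, xi]
  have hn : ∀ l, (al l) ^ 2 + (be l) ^ 2 ≠ 0 := by
    rintro ⟨t, k⟩
    fin_cases k
    · simp only [Fin.zero_eta, Fin.isValue]
      rw [be0]
      have h1 : X (G t).2 - X (G t).1 ≠ 0 := by have := h.lt t; intro h0; linarith
      positivity
    · simp only [Fin.mk_one, Fin.isValue]
      rw [al1, be1]; norm_num
    · simp only [Fin.reduceFinMk, Fin.isValue]
      rw [al2, be2]; norm_num
  have hD : ∃ a b, al a * be b - be a * al b ≠ 0 := by
    obtain ⟨t0⟩ := (inferInstance : Nonempty ι)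
    refine ⟨(t0, 0), (t0, 1), ?_⟩
    rw [al1, be1, be0]
    have := h.lt t0
    intro h0; linarith
  -- perturbed positions
  have hpert := fun v => Lines.exists_perturb al be ga hn (X v) (Y v)
  choose xt yt hne hsame using hpert
  have hname := fun v => Lines.exists_name al be ga hn hD (xt v) (yt v) (hne v)
  choose a b hab using hname
  refine ⟨fun q => SignType.sign (eval x (qq q)), ⟨x, rfl⟩,
    fun v => (a v, b v, SignType.sign (al (a v) * xt v + be (a v) * yt v + ga (a v)),
      SignType.sign (al (b v) * xt v + be (b v) * yt v + ga (b v))), ?_⟩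
  have hsg : ∀ v l, Lines.dec (SignType.sign (eval x (qq (Sum.inr (a v, b v, l)))))
      (SignType.sign (eval x (qq (Sum.inl (a v, b v)))))
      (SignType.sign (eval x (qq (Sum.inl (a v, l)))))
      (SignType.sign (eval x (qq (Sum.inl (l, b v)))))
      (SignType.sign (al (a v) * xt v + be (a v) * yt v + ga (a v)))
      (SignType.sign (al (b v) * xt v + be (b v) * yt v + ga (b v))) =
      SignType.sign (al l * xt v + be l * yt v + ga l) := by
    intro v l
    rw [hab v l]
    have e1 : ∀ p q : LL ι, eval x (qq (Sum.inl (p, q))) = al p * be q - be p * al q := by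
      intro p q
      simp only [qq, Sum.elim_inl, pD, map_sub, map_mul, ← hal, ← hbe]
    have e2 : ∀ p q r : LL ι, eval x (qq (Sum.inr (p, q, r))) =
        ga p * (al q * be r - be q * al r) - ga q * (al p * be r - be p * al r)
          + ga r * (al p * be q - be p * al q) := by
      intro p q r
      simp only [qq, Sum.elim_inr, pT, pD, map_sub, map_mul, map_add, ← hal, ← hbe, ← hga]
    rw [e1, e1, e1, e2]
  funext v t
  simp only [Psi, hsg]
  have hf1 : (if v = (G t).1 then 0 else
      SignType.sign (al (t, 1) * xt v + be (t, 1) * yt v + ga (t, 1))) =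
      SignType.sign (X v - X (G t).1) := by
    split_ifs with hv
    · rw [← hv, sub_self, sign_zero]
    · have h1 : al (t, 1) * X v + be (t, 1) * Y v + ga (t, 1) = X v - X (G t).1 := by
        rw [al1, be1, ga1]; ring
      rw [hsame v (t, 1), h1]
      rw [h1]
      intro h0
      exact hv (h.inj (by linarith))
  have hf2 : (if v = (G t).2 then 0 else
      SignType.sign (al (t, 2) * xt v + be (t, 2) * yt v + ga (t, 2))) =
      SignType.sign (X v - X (G t).2) := by
    split_ifs with hv
    · rw [← hv, sub_self, sign_zero]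
    · have h1 : al (t, 2) * X v + be (t, 2) * Y v + ga (t, 2) = X v - X (G t).2 := by
        rw [al2, be2, ga2]; ring
      rw [hsame v (t, 2), h1]
      rw [h1]
      intro h0
      exact hv (h.inj (by linarith))
  rw [hf1, hf2]
  simp only [tab, Prod.mk.injEq, true_and]
  have hiff : (SignType.sign (X v - X (G t).1) = 1 ∧ SignType.sign (X v - X (G t).2) = -1) ↔
      (X (G t).1 < X v ∧ X v < X (G t).2) := by
    rw [sign_eq_one_iff, sign_eq_neg_one_iff, sub_pos, sub_neg]
  by_cases hc : X (G t).1 < X v ∧ X v < X (G t).2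
  · rw [if_pos hc, if_pos (hiff.mpr hc)]
    have h1 : al (t, 0) * X v + be (t, 0) * Y v + ga (t, 0) = orient X Y (G t) v := by
      rw [al0, be0, ga0]; rfl
    rw [hsame v (t, 0), h1]
    rw [h1]
    exact h.off t v hc.1 hc.2
  · rw [if_neg hc, if_neg (fun h' => hc (hiff.mp h'))]

/-- the number of location tables -/
theorem tab_count [Nonempty ι] (G : ι → V × V) :
    (Set.ncard {T : V → ι → SignType × SignType × SignType |
      ∃ X Y : V → ℝ, Valid X Y G ∧ T = tab X Y G}) ≤
      (600 * (Fintype.card ι) ^ 3) ^ (4 * (Fintype.card ι)) *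
        (81 * (Fintype.card ι) ^ 2) ^ Fintype.card V := by
  classical
  have hsub : {T : V → ι → SignType × SignType × SignType |
      ∃ X Y : V → ℝ, Valid X Y G ∧ T = tab X Y G} ⊆
      (fun p : (QQ ι → SignType) × (V → LL ι × LL ι × SignType × SignType) =>
        Psi G p.1 p.2) '' ((patterns ι) ×ˢ Set.univ) := by
    rintro T ⟨X, Y, hV, rfl⟩
    obtain ⟨s, hs, nm, h⟩ := tab_eq_Psi X Y G hV
    exact ⟨(s, nm), ⟨hs, Set.mem_univ _⟩, h.symm⟩
  refine (Set.ncard_le_ncard hsub (Set.toFinite _)).trans ?_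
  refine (Set.ncard_image_le (Set.toFinite _)).trans ?_
  rw [Set.ncard_prod]
  refine Nat.mul_le_mul patterns_ncard ?_
  rw [Set.ncard_univ, Nat.card_eq_fintype_card]
  have : Fintype.card (V → LL ι × LL ι × SignType × SignType) =
      (81 * (Fintype.card ι) ^ 2) ^ Fintype.card V := by
    rw [Fintype.card_fun]
    congr 1
    have h3 : Fintype.card SignType = 3 := rfl
    simp only [LL, Fintype.card_prod, Fintype.card_fin, h3]
    ring
  rw [this]

end Pool.Agent.Helper448.Table
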