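import Mathlib
import Pool.Agent.Helper448.Table
import Pool.Agent.Helper448.Congr

set_option autoImplicit false
set_option linter.unusedSectionVars false

namespace Pool.Agent.Helper448.Geo

open Walk Encode Table

variable {V : Type*} [Fintype V] [DecidableEq V]

/-- height of the line through the segment `s` at abscissa `x` -/
noncomputable def hgt (X Y : V → ℝ) (s : V × V) (x : ℝ) : ℝ :=
  Y s.1 + (Y s.2 - Y s.1) * ((x - X s.1) / (X s.2 - X s.1))

/-- two segments have a common point -/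
def Meet (X Y : V → ℝ) (s s' : V × V) : Prop :=
  ∃ l ∈ Set.Icc (0:ℝ) 1, ∃ m ∈ Set.Icc (0:ℝ) 1,
    (1 - l) * X s.1 + l * X s.2 = (1 - m) * X s'.1 + m * X s'.2 ∧
    (1 - l) * Y s.1 + l * Y s.2 = (1 - m) * Y s'.1 + m * Y s'.2

/-- the vertex `v` lies on the segment `s` -/
def On (X Y : V → ℝ) (v : V) (s : V × V) : Prop :=
  ∃ l ∈ Set.Icc (0:ℝ) 1, (1 - l) * X s.1 + l * X s.2 = X v ∧ (1 - l) * Y s.1 + l * Y s.2 = Y v

lemma Meet.symm_left {X Y : V → ℝ} {s s' : V × V} (hm : Meet X Y s s') :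
    Meet X Y (s.2, s.1) s' := by
  obtain ⟨l, hl, m, hm, h1, h2⟩ := hm
  exact ⟨1 - l, ⟨by linarith [hl.2], by linarith [hl.1]⟩, m, hm, by simp only; linarith,
    by simp only; linarith⟩

lemma Meet.symm {X Y : V → ℝ} {s s' : V × V} (hm : Meet X Y s s') : Meet X Y s' s := by
  obtain ⟨l, hl, m, hm, h1, h2⟩ := hm
  exact ⟨m, hm, l, hl, h1.symm, h2.symm⟩

lemma Meet.symm_right {X Y : V → ℝ} {s s' : V × V} (hm : Meet X Y s s') :
    Meet X Y s (s'.2, s'.1) := hm.symm.symm_left.symm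

lemma On.swap {X Y : V → ℝ} {v : V} {s : V × V} (h : On X Y v s) : On X Y v (s.2, s.1) := by
  obtain ⟨l, hl, h1, h2⟩ := h
  exact ⟨1 - l, ⟨by linarith [hl.2], by linarith [hl.1]⟩, by simp only; linarith,
    by simp only; linarith⟩

lemma hgt_continuous (X Y : V → ℝ) (s : V × V) : Continuous (hgt X Y s) := by
  unfold hgt
  fun_prop

lemma hgt_left (X Y : V → ℝ) (s : V × V) : hgt X Y s (X s.1) = Y s.1 := by
  unfold hgt; simp

lemma hgt_right (X Y : V → ℝ) (s : V × V) (hs : X s.1 < X s.2) : hgt X Y s (X s.2) = Y s.2 := by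
  unfold hgt
  rw [div_self (by linarith)]; ring

lemma param {X : V → ℝ} {s : V × V} {x : ℝ} (hs : X s.1 < X s.2) (h1 : X s.1 ≤ x)
    (h2 : x ≤ X s.2) : (x - X s.1) / (X s.2 - X s.1) ∈ Set.Icc (0:ℝ) 1 ∧
      (1 - (x - X s.1) / (X s.2 - X s.1)) * X s.1 + (x - X s.1) / (X s.2 - X s.1) * X s.2 = x := by
  have hpos : 0 < X s.2 - X s.1 := by linarith
  refine ⟨⟨div_nonneg (by linarith) hpos.le, ?_⟩, ?_⟩
  · rw [div_le_one hpos]; linarith
  · field_simp; ring

theorem cls_of_disjoint {X Y : V → ℝ} {S : Finset (V × V)} (hinj : Function.Injective X)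
    (hleft : ∀ s ∈ S, X s.1 < X s.2)
    (hdisj : ∀ s ∈ S, ∀ s' ∈ S, s ≠ s' → s.1 ≠ s'.1 ∧ s.1 ≠ s'.2 ∧ s.2 ≠ s'.1 ∧ s.2 ≠ s'.2)
    (hno : ∀ s ∈ S, ∀ s' ∈ S, s ≠ s' → ¬ Meet X Y s s') : Cls X S (hgt X Y) := by
  have hne : ∀ s ∈ S, ∀ s' ∈ S, s ≠ s' → ∀ x, X s.1 ≤ x → x ≤ X s.2 → X s'.1 ≤ x → x ≤ X s'.2 →
      hgt X Y s x ≠ hgt X Y s' x := by
    intro s hs s' hs' hss x h1 h2 h3 h4 heq
    apply hno s hs s' hs' hss
    obtain ⟨hl, hl2⟩ := param (hleft s hs) h1 h2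
    obtain ⟨hm, hm2⟩ := param (hleft s' hs') h3 h4
    refine ⟨_, hl, _, hm, ?_, ?_⟩
    · rw [hl2, hm2]
    · unfold hgt at heq
      linarith
  refine ⟨hinj, hleft, hdisj, hne, ?_⟩
  intro s hs s' hs' x x' h1 h2 h3 h4 h1' h2' h3' h4' hlt
  by_contra hcon
  have hss : s ≠ s' := by rintro rfl; exact lt_irrefl _ hlt
  have hgt' : hgt X Y s' x' < hgt X Y s x' :=
    lt_of_le_of_ne (not_lt.mp hcon) (hne s hs s' hs' hss x' h1' h2' h3' h4').symm
  have hcont : Continuous (fun z => hgt X Y s z - hgt X Y s' z) :=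
    (hgt_continuous X Y s).sub (hgt_continuous X Y s')
  have hivt := intermediate_value_uIcc (a := x) (b := x') hcont.continuousOn
  have h0 : (0:ℝ) ∈ Set.uIcc (hgt X Y s x - hgt X Y s' x) (hgt X Y s x' - hgt X Y s' x') := by
    rw [Set.mem_uIcc]; left; constructor <;> linarith
  obtain ⟨z, hz, hz0⟩ := hivt h0
  rw [Set.mem_uIcc] at hz
  simp only at hz0
  rcases hz with hz | hz
  · exact hne s hs s' hs' hss z (by linarith [hz.1]) (by linarith [hz.2]) (by linarith [hz.1])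
      (by linarith [hz.2]) (by linarith)
  · exact hne s hs s' hs' hss z (by linarith [hz.1]) (by linarith [hz.2]) (by linarith [hz.1])
      (by linarith [hz.2]) (by linarith)

/-- the full table -/
noncomputable def fullTab (X Y : V → ℝ) : Tb V := fun v a =>
  (SignType.sign (X v - X a.1), SignType.sign (X v - X a.2),
    if X a.1 < X v ∧ X v < X a.2 then SignType.sign (orient X Y a v) else 0)

lemma orient_eq {X Y : V → ℝ} {a : V × V} (ha : X a.1 < X a.2) (v : V) :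
    orient X Y a v = (X a.2 - X a.1) * (Y v - hgt X Y a (X v)) := by
  unfold orient hgt
  have : X a.2 - X a.1 ≠ 0 := by linarith
  field_simp
  ring

theorem compat_full {X Y : V → ℝ} {S : Finset (V × V)} (hC : Cls X S (hgt X Y)) :
    Compat X S (hgt X Y) S (fullTab X Y) := by
  refine ⟨fun v a _ => rfl, fun v a _ => rfl, ?_⟩
  intro s hs v hv a ha h1 h2
  have hla := hC.left a ha
  have hls := hC.left s hs
  simp only [fullTab]
  rw [if_pos ⟨h1, h2⟩, orient_eq hla]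
  have h3 : hgt X Y s (X v) = Y v := by
    rcases hv with rfl | rfl
    · exact hgt_left X Y s
    · exact hgt_right X Y s hls
  rw [h3, sign_mul, sign_pos (by linarith : 0 < X a.2 - X a.1), one_mul]

lemma orient_ne {X Y : V → ℝ} {a : V × V} (v : V) (h1 : X a.1 < X v)
    (h2 : X v < X a.2) (hoff : ¬ On X Y v a) : orient X Y a v ≠ 0 := by
  intro h0
  have ha : X a.1 < X a.2 := by linarith
  rw [orient_eq ha] at h0
  have h3 : Y v = hgt X Y a (X v) := by
    rcases mul_eq_zero.mp h0 with h | h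
    · linarith
    · linarith
  apply hoff
  obtain ⟨hl, hl2⟩ := param ha h1.le h2.le
  refine ⟨_, hl, hl2, ?_⟩
  rw [h3]
  unfold hgt
  ring

end Pool.Agent.Helper448.Geo
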