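import Mathlib
import Pool.Agent.Helper448.Geo

set_option autoImplicit false
set_option linter.unusedSectionVars false

namespace Pool.Agent.Helper448.Count

open Walk Encode Table Geo Finset

/-- counting functions of bounded total cost -/
theorem kraft {V C : Type*} [Fintype V] [DecidableEq V] [DecidableEq C] (cost : C → ℕ) (K : ℝ)
    (hK : ∀ s : Finset C, ∑ c ∈ s, (1/4:ℝ) ^ (cost c) ≤ K) (L : ℕ) (F : Finset (V → C))
    (hF : ∀ f ∈ F, ∑ v, cost (f v) ≤ L) : (F.card : ℝ) ≤ 4 ^ L * K ^ (Fintype.card V) := by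
  classical
  set Cs : Finset C := F.biUnion (fun f => univ.image f) with hCs
  have hsub : F ⊆ Fintype.piFinset (fun _ : V => Cs) := by
    intro f hf
    rw [Fintype.mem_piFinset]
    intro v
    exact mem_biUnion.mpr ⟨f, hf, mem_image_of_mem _ (mem_univ _)⟩
  have h1 : (F.card : ℝ) * (1/4) ^ L ≤ K ^ (Fintype.card V) := by
    calc (F.card : ℝ) * (1/4) ^ L = ∑ _f ∈ F, (1/4:ℝ) ^ L := by simp
      _ ≤ ∑ f ∈ F, ∏ v, (1/4:ℝ) ^ (cost (f v)) := by
          apply sum_le_sum
          intro f hf
          rw [prod_pow_eq_pow_sum]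
          exact pow_le_pow_of_le_one (by norm_num) (by norm_num) (hF f hf)
      _ ≤ ∑ f ∈ Fintype.piFinset (fun _ : V => Cs), ∏ v, (1/4:ℝ) ^ (cost (f v)) := by
          apply sum_le_sum_of_subset_of_nonneg hsub
          intro f _ _
          exact prod_nonneg fun v _ => by positivity
      _ = ∏ _v : V, ∑ c ∈ Cs, (1/4:ℝ) ^ (cost c) := by
          rw [prod_univ_sum]
      _ ≤ ∏ _v : V, K := by
          apply prod_le_prod
          · intro v _; exact sum_nonneg fun c _ => by positivity
          · intro v _; exact hK Cs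
      _ = K ^ (Fintype.card V) := by simp
  have h2 : (1/4:ℝ) ^ L * 4 ^ L = 1 := by
    rw [← mul_pow]; norm_num
  calc (F.card : ℝ) = ((F.card : ℝ) * (1/4) ^ L) * 4 ^ L := by
        rw [mul_assoc, h2, mul_one]
    _ ≤ K ^ (Fintype.card V) * 4 ^ L := by gcongr
    _ = 4 ^ L * K ^ (Fintype.card V) := by ring

lemma nat_sum (B : Finset ℕ) : ∑ i ∈ B, (1/4:ℝ) ^ i ≤ 2 := by
  have hs : Summable (fun i : ℕ => (1/4:ℝ) ^ i) :=
    summable_geometric_of_lt_one (by norm_num) (by norm_num)
  have h1 := hs.sum_le_tsum B (fun i _ => by positivity)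
  rw [tsum_geometric_of_lt_one (by norm_num) (by norm_num)] at h1
  refine h1.trans ?_
  norm_num

lemma list_sum (A : Finset (List Bool)) : ∑ l ∈ A, (1/4:ℝ) ^ l.length ≤ 2 := by
  classical
  have h1 : ∑ l ∈ A, (1/4:ℝ) ^ l.length =
      ∑ n ∈ A.image List.length, ∑ l ∈ A.filter (fun l => l.length = n), (1/4:ℝ) ^ l.length := by
    rw [sum_fiberwise_of_maps_to]
    intro l hl
    exact mem_image_of_mem _ hl
  rw [h1]
  have h2 : ∀ n, ∑ l ∈ A.filter (fun l => l.length = n), (1/4:ℝ) ^ l.length ≤ (1/2:ℝ) ^ n := by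
    intro n
    have h3 : ∑ l ∈ A.filter (fun l => l.length = n), (1/4:ℝ) ^ l.length =
        ((A.filter (fun l => l.length = n)).card : ℝ) * (1/4) ^ n := by
      rw [← nsmul_eq_mul, ← sum_const]
      apply sum_congr rfl
      intro l hl
      rw [(mem_filter.mp hl).2]
    have h4 : (A.filter (fun l => l.length = n)).card ≤ 2 ^ n := by
      have : A.filter (fun l => l.length = n) ⊆
          (univ : Finset (List.Vector Bool n)).image List.Vector.toList := by
        intro l hl
        exact mem_image.mpr ⟨(⟨l, (mem_filter.mp hl).2⟩ : List.Vector Bool n), mem_univ _, rfl⟩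
      refine (card_le_card this).trans (card_image_le.trans ?_)
      rw [card_univ, card_vector, Fintype.card_bool]
    rw [h3]
    calc ((A.filter (fun l => l.length = n)).card : ℝ) * (1/4) ^ n
        ≤ (2:ℝ) ^ n * (1/4) ^ n := by
          gcongr
          exact_mod_cast h4
      _ = (1/2:ℝ) ^ n := by rw [← mul_pow]; norm_num
  refine (sum_le_sum fun n _ => h2 n).trans ?_
  have hs : Summable (fun i : ℕ => (1/2:ℝ) ^ i) :=
    summable_geometric_of_lt_one (by norm_num) (by norm_num)
  have h5 := hs.sum_le_tsum (A.image List.length) (fun i _ => by positivity)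
  rw [tsum_geometric_of_lt_one (by norm_num) (by norm_num)] at h5
  refine h5.trans ?_
  norm_num

lemma code_sum (s : Finset (List Bool × ℕ)) :
    ∑ c ∈ s, (1/4:ℝ) ^ (c.1.length + c.2) ≤ 4 := by
  classical
  have hsub : s ⊆ (s.image Prod.fst) ×ˢ (s.image Prod.snd) := by
    intro c hc
    exact mem_product.mpr ⟨mem_image_of_mem _ hc, mem_image_of_mem _ hc⟩
  calc ∑ c ∈ s, (1/4:ℝ) ^ (c.1.length + c.2)
      ≤ ∑ c ∈ (s.image Prod.fst) ×ˢ (s.image Prod.snd), (1/4:ℝ) ^ (c.1.length + c.2) :=
        sum_le_sum_of_subset_of_nonneg hsub fun c _ _ => by positivity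
    _ = (∑ l ∈ s.image Prod.fst, (1/4:ℝ) ^ l.length) * (∑ i ∈ s.image Prod.snd, (1/4:ℝ) ^ i) := by
        rw [sum_mul_sum, sum_product]
        simp only [pow_add]
    _ ≤ 2 * 2 := by
        apply mul_le_mul (list_sum _) (nat_sum _) (sum_nonneg fun i _ => by positivity) (by norm_num)
    _ = 4 := by norm_num

/-- the codes of bounded total cost -/
def Codes (V : Type) [Fintype V] (L : ℕ) : Set (V → List Bool × ℕ) :=
  {f | ∑ v, ((f v).1.length + (f v).2) ≤ L}

lemma codes_finite (V : Type) [Fintype V] [DecidableEq V] (L : ℕ) : (Codes V L).Finite := by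
  have h1 : {c : List Bool × ℕ | c.1.length ≤ L ∧ c.2 ≤ L}.Finite := by
    have : {c : List Bool × ℕ | c.1.length ≤ L ∧ c.2 ≤ L} ⊆
        {l : List Bool | l.length ≤ L} ×ˢ (Set.Iic L) := by
      rintro c ⟨h1, h2⟩
      exact ⟨h1, h2⟩
    exact ((List.finite_length_le Bool L).prod (Set.finite_Iic L)).subset this
  refine (Set.Finite.pi' (t := fun _ : V => {c : List Bool × ℕ | c.1.length ≤ L ∧ c.2 ≤ L})
    (fun _ => h1)).subset ?_
  intro f hf v
  have h2 : (f v).1.length + (f v).2 ≤ ∑ v, ((f v).1.length + (f v).2) :=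
    single_le_sum (f := fun v => (f v).1.length + (f v).2) (fun _ _ => Nat.zero_le _) (mem_univ v)
  have h3 : ∑ v, ((f v).1.length + (f v).2) ≤ L := hf
  constructor <;> omega

lemma codes_ncard (V : Type) [Fintype V] [DecidableEq V] (L : ℕ) :
    (Codes V L).ncard ≤ 4 ^ L * 4 ^ (Fintype.card V) := by
  classical
  have hfin := codes_finite V L
  rw [Set.ncard_eq_toFinset_card _ hfin]
  have := kraft (V := V) (fun c : List Bool × ℕ => c.1.length + c.2) 4 code_sum L
    hfin.toFinset (by
      intro f hf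
      rw [Set.Finite.mem_toFinset] at hf
      exact hf)
  exact_mod_cast this

/-- injection of a small finite set -/
lemma exists_injOn {α : Type*} {A : Set α} (hA : A.Finite) {B : ℕ} (hB : 0 < B)
    (hcard : A.ncard ≤ B) : ∃ f : α → Fin B, Set.InjOn f A := by
  classical
  have := hA.fintype
  have h1 : Fintype.card ↥A ≤ Fintype.card (Fin B) := by
    rw [Fintype.card_fin]
    rwa [← Nat.card_eq_fintype_card, Nat.card_coe_set_eq]
  obtain ⟨emb⟩ := Function.Embedding.nonempty_of_card_le h1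
  refine ⟨fun x => if h : x ∈ A then emb ⟨x, h⟩ else ⟨0, hB⟩, ?_⟩
  intro x hx y hy hxy
  simp only [dif_pos hx, dif_pos hy] at hxy
  have := emb.injective hxy
  exact congrArg Subtype.val this

end Pool.Agent.Helper448.Count
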