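import Mathlib
import Pool.Agent.Helper448.Count

set_option autoImplicit false
set_option linter.unusedSectionVars false

namespace Pool.Agent.Helper448.Core

open Walk Encode Table Geo Finset
open Pool.Agent.Helper448.Count

/-- the vertex set: two sides of size `m` -/
abbrev VV (m : ℕ) := Fin m ⊕ Fin m
/-- the slots -/
abbrev II (k r : ℕ) := Fin 5 × Fin k × Fin r

variable {m k r : ℕ}

/-- a straight-line drawing of the union of five matchings, with a colouring of the edges by
`k` colours such that edges of one matching with the same colour do not meet -/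
structure Draw (π : Fin 5 → Equiv.Perm (Fin m)) (X Y : VV m → ℝ) (c : Fin 5 → Fin m → Fin k) :
    Prop where
  inj : Function.Injective X
  off : ∀ j a v, v ≠ Sum.inl a → v ≠ Sum.inr (π j a) →
    ¬ On X Y v (Sum.inl a, Sum.inr (π j a))
  cross : ∀ j a a', a ≠ a' → c j a = c j a' →
    ¬ Meet X Y (Sum.inl a, Sum.inr (π j a)) (Sum.inl a', Sum.inr (π j a'))

/-- edges oriented from left to right -/
noncomputable def sg (X : VV m → ℝ) (π : Fin 5 → Equiv.Perm (Fin m)) (j : Fin 5) (a : Fin m) :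
    VV m × VV m :=
  if X (Sum.inl a) < X (Sum.inr (π j a)) then (Sum.inl a, Sum.inr (π j a))
  else (Sum.inr (π j a), Sum.inl a)

noncomputable def Sc (X : VV m → ℝ) (π : Fin 5 → Equiv.Perm (Fin m)) (c : Fin 5 → Fin m → Fin k)
    (j : Fin 5) (i : Fin k) : Finset (VV m × VV m) :=
  (univ.filter (fun a => c j a = i)).image (sg X π j)

lemma sg_cases (X : VV m → ℝ) (π : Fin 5 → Equiv.Perm (Fin m)) (j : Fin 5) (a : Fin m) :
    sg X π j a = (Sum.inl a, Sum.inr (π j a)) ∨ sg X π j a = (Sum.inr (π j a), Sum.inl a) := by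
  unfold sg
  split_ifs
  · exact Or.inl rfl
  · exact Or.inr rfl

lemma sg_lt {X : VV m → ℝ} (hinj : Function.Injective X) (π : Fin 5 → Equiv.Perm (Fin m))
    (j : Fin 5) (a : Fin m) : X (sg X π j a).1 < X (sg X π j a).2 := by
  unfold sg
  split_ifs with h
  · exact h
  · exact lt_of_le_of_ne (not_lt.mp h) (fun h0 => by cases hinj h0)

lemma sg_off {π : Fin 5 → Equiv.Perm (Fin m)} {X Y : VV m → ℝ} {c : Fin 5 → Fin m → Fin k}
    (hd : Draw π X Y c) (j : Fin 5) (a : Fin m) (v : VV m) (h1 : v ≠ (sg X π j a).1)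
    (h2 : v ≠ (sg X π j a).2) : ¬ On X Y v (sg X π j a) := by
  rcases sg_cases X π j a with h | h
  · rw [h] at h1 h2 ⊢
    exact hd.off j a v h1 h2
  · rw [h] at h1 h2 ⊢
    intro hon
    exact hd.off j a v h2 h1 hon.swap

lemma cls_Sc {π : Fin 5 → Equiv.Perm (Fin m)} {X Y : VV m → ℝ} {c : Fin 5 → Fin m → Fin k}
    (hd : Draw π X Y c) (j : Fin 5) (i : Fin k) : Cls X (Sc X π c j i) (hgt X Y) := by
  have hmem : ∀ s ∈ Sc X π c j i, ∃ a, c j a = i ∧ s = sg X π j a := by
    intro s hs
    obtain ⟨a, ha, rfl⟩ := mem_image.mp hs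
    exact ⟨a, (mem_filter.mp ha).2, rfl⟩
  apply cls_of_disjoint hd.inj
  · intro s hs
    obtain ⟨a, _, rfl⟩ := hmem s hs
    exact sg_lt hd.inj π j a
  · intro s hs s' hs' hne
    obtain ⟨a, _, rfl⟩ := hmem s hs
    obtain ⟨a', _, rfl⟩ := hmem s' hs'
    have haa : a ≠ a' := by rintro rfl; exact hne rfl
    have hpp : π j a ≠ π j a' := fun h0 => haa ((π j).injective h0)
    rcases sg_cases X π j a with h1 | h1 <;> rcases sg_cases X π j a' with h2 | h2 <;>
      rw [h1, h2] <;> simp [haa, hpp]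
  · intro s hs s' hs' hne hmeet
    obtain ⟨a, hca, rfl⟩ := hmem s hs
    obtain ⟨a', hca', rfl⟩ := hmem s' hs'
    have haa : a ≠ a' := by rintro rfl; exact hne rfl
    apply hd.cross j a a' haa (hca.trans hca'.symm)
    rcases sg_cases X π j a with h1 | h1 <;> rcases sg_cases X π j a' with h2 | h2 <;>
      rw [h1, h2] at hmeet
    · exact hmeet
    · exact hmeet.symm_right
    · exact hmeet.symm_left
    · exact hmeet.symm_left.symm_right

lemma Sc_card (X : VV m → ℝ) (π : Fin 5 → Equiv.Perm (Fin m)) (c : Fin 5 → Fin m → Fin k)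
    (j : Fin 5) (i : Fin k) : (Sc X π c j i).card ≤ m := by
  refine card_image_le.trans ((card_le_univ _).trans ?_)
  simp

lemma recover (X : VV m → ℝ) (π : Fin 5 → Equiv.Perm (Fin m)) (c : Fin 5 → Fin m → Fin k)
    (j : Fin 5) (a b : Fin m) : π j a = b ↔
      ∃ i, (Sum.inl a, Sum.inr b) ∈ Sc X π c j i ∨ (Sum.inr b, Sum.inl a) ∈ Sc X π c j i := by
  constructor
  · rintro rfl
    refine ⟨c j a, ?_⟩
    have hm : sg X π j a ∈ Sc X π c j (c j a) :=
      mem_image_of_mem _ (mem_filter.mpr ⟨mem_univ _, rfl⟩)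
    rcases sg_cases X π j a with h1 | h1
    · left; rwa [h1] at hm
    · right; rwa [h1] at hm
  · rintro ⟨i, h | h⟩
    · obtain ⟨a', _, h1⟩ := mem_image.mp h
      rcases sg_cases X π j a' with h2 | h2 <;> rw [h2] at h1
      · simp only [Prod.mk.injEq, Sum.inl.injEq, Sum.inr.injEq] at h1
        rw [← h1.1, h1.2]
      · simp at h1
    · obtain ⟨a', _, h1⟩ := mem_image.mp h
      rcases sg_cases X π j a' with h2 | h2 <;> rw [h2] at h1
      · simp at h1
      · simp only [Prod.mk.injEq, Sum.inl.injEq, Sum.inr.injEq] at h1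
        rw [← h1.2, h1.1]

open Classical in
/-- the table of one class -/
noncomputable def cv (G : II k r → VV m × VV m)
    (T : VV m → II k r → SignType × SignType × SignType) (j : Fin 5) (i : Fin k) : Tb (VV m) :=
  fun v a => if h : ∃ t, G (j, i, t) = a then T v (j, i, h.choose) else (0, 0, 0)

def Rg (G : II k r → VV m × VV m) (j : Fin 5) (i : Fin k) : Finset (VV m × VV m) :=
  univ.image (fun t => G (j, i, t))

noncomputable def lab (m : ℕ) : VV m → ℕ := fun v => ((Fintype.equivFin (VV m)) v : ℕ)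

lemma lab_inj (m : ℕ) : Function.Injective (lab m) := by
  intro u v h
  exact (Fintype.equivFin (VV m)).injective (Fin.ext h)

theorem encode_exists {M : ℕ} (hm : 0 < m) (hmM : m ≤ M * (r + 1))
    {π : Fin 5 → Equiv.Perm (Fin m)} {X Y : VV m → ℝ} {c : Fin 5 → Fin m → Fin k}
    (hd : Draw π X Y c) :
    ∃ (G : II k r → VV m × VV m) (T : VV m → II k r → SignType × SignType × SignType)
      (kind : Fin 5 → Fin k → VV m → Fin 4) (code : Fin 5 → Fin k → VV m → List Bool × ℕ),
      (∃ X Y : VV m → ℝ, Valid X Y G ∧ T = tab X Y G) ∧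
      (∀ j i, code j i ∈ Codes (VV m) ((8 + 6 * M) * m)) ∧
      (∀ j i, dec (cv G T j i) (Rg G j i) (lab m) (kind j i) (code j i) = ↑(Sc X π c j i)) := by
  classical
  have hclass : ∀ j i, ∃ g : Fin r → VV m × VV m, (∀ t, ∃ a, g t = sg X π j a) ∧
      ∃ (kind : VV m → Fin 4) (code : VV m → List Bool × ℕ),
        ∑ v, ((code v).1.length + (code v).2) ≤ (8 + 6 * M) * m ∧
        dec (fullTab X Y) (univ.image g) (lab m) kind code = ↑(Sc X π c j i) := by
    intro j i
    have hC := cls_Sc hd j i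
    by_cases hne : (Sc X π c j i).Nonempty
    · obtain ⟨g, hg, kind, code, h1, h2⟩ := class_encode hC (compat_full hC) hne (lab m)
        (lab_inj m) r m M (Sc_card X π c j i) hmM
      refine ⟨g, ?_, kind, code, h1, ?_⟩
      · intro t
        obtain ⟨a, _, ha⟩ := mem_image.mp (hg t)
        exact ⟨a, ha.symm⟩
      · convert h2
    · rw [not_nonempty_iff_eq_empty] at hne
      refine ⟨fun _ => sg X π j ⟨0, hm⟩, fun _ => ⟨_, rfl⟩, fun _ => 0, fun _ => ([], 0), ?_, ?_⟩
      · simp
      · rw [hne]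
        ext s
        simp only [dec, coe_empty, Set.mem_empty_iff_false, iff_false]
        rintro (⟨_, h⟩ | ⟨h, _⟩)
        · exact absurd h (by decide)
        · exact absurd h (by decide)
  choose g hg kind code hcost hdec using hclass
  obtain ⟨G, hG⟩ : ∃ G : II k r → VV m × VV m, ∀ j i t, G (j, i, t) = g j i t :=
    ⟨fun p => g p.1 p.2.1 p.2.2, fun _ _ _ => rfl⟩
  refine ⟨G, tab X Y G, kind, code, ⟨X, Y, ⟨hd.inj, ?_, ?_⟩, rfl⟩, hcost, ?_⟩
  · rintro ⟨j, i, t⟩
    obtain ⟨a, ha⟩ := hg j i t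
    rw [hG, ha]
    exact sg_lt hd.inj π j a
  · rintro ⟨j, i, t⟩ v h1 h2
    obtain ⟨a, ha⟩ := hg j i t
    rw [hG, ha] at h1 h2 ⊢
    apply orient_ne v h1 h2
    apply sg_off hd j a v
    · rintro rfl; exact lt_irrefl _ h1
    · rintro rfl; exact lt_irrefl _ h2
  · intro j i
    have hRg : Rg G j i = univ.image (g j i) := by
      unfold Rg
      simp only [hG]
    have hTT : ∀ v, ∀ a ∈ Rg G j i, cv G (tab X Y G) j i v a = fullTab X Y v a := by
      intro v a ha
      obtain ⟨t, _, ht⟩ := mem_image.mp ha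
      have hex : ∃ t, G (j, i, t) = a := ⟨t, ht⟩
      unfold cv
      rw [dif_pos hex]
      have h1 := hex.choose_spec
      unfold tab fullTab
      rw [h1]
    rw [Congr.dec_c hTT, hRg]
    exact hdec j i

/-- If all unions of five matchings on `m + m` points have a good drawing, then there are few of
them. -/
theorem count_all {M : ℕ} (hk : 0 < k) (hm : 0 < m) (hr : 0 < r) (hmM : m ≤ M * (r + 1))
    (hall : ∀ π : Fin 5 → Equiv.Perm (Fin m), ∃ (X Y : VV m → ℝ) (c : Fin 5 → Fin m → Fin k),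
      Draw π X Y c) :
    (m.factorial) ^ 5 ≤ ((2 * m) * (2 * m)) ^ (5 * (k * r)) *
      (((600 * (5 * (k * r)) ^ 3) ^ (4 * (5 * (k * r))) * (81 * (5 * (k * r)) ^ 2) ^ (2 * m)) *
      (4 ^ (2 * m) * (4 ^ ((8 + 6 * M) * m) * 4 ^ (2 * m))) ^ (5 * k)) := by
  classical
  have : NeZero k := ⟨hk.ne'⟩
  have : NeZero r := ⟨hr.ne'⟩
  obtain ⟨BT, hBT⟩ : ∃ BT, BT = (600 * (5 * (k * r)) ^ 3) ^ (4 * (5 * (k * r))) *
    (81 * (5 * (k * r)) ^ 2) ^ (2 * m) := ⟨_, rfl⟩
  obtain ⟨BC, hBC⟩ : ∃ BC, BC = 4 ^ ((8 + 6 * M) * m) * 4 ^ (2 * m) := ⟨_, rfl⟩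
  have hkr : 0 < k * r := Nat.mul_pos hk hr
  have hBTpos : 0 < BT := by rw [hBT]; positivity
  have hBCpos : 0 < BC := by rw [hBC]; positivity
  have hcardI : Fintype.card (II k r) = 5 * (k * r) := by simp
  have hcardV : Fintype.card (VV m) = 2 * m := by simp; ring
  -- injections
  have hT : ∀ G : II k r → VV m × VV m, ∃ f : (VV m → II k r → SignType × SignType × SignType) →
      Fin BT, Set.InjOn f {T | ∃ X Y : VV m → ℝ, Valid X Y G ∧ T = tab X Y G} := by
    intro G
    apply exists_injOn (Set.toFinite _) hBTpos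
    have := tab_count G
    rw [hcardI, hcardV] at this
    rw [hBT]
    exact this
  choose fT hfT using hT
  obtain ⟨fC, hfC⟩ := exists_injOn (codes_finite (VV m) ((8 + 6 * M) * m)) hBCpos (by
    have := codes_ncard (VV m) ((8 + 6 * M) * m)
    rw [hcardV] at this
    rw [hBC]; exact this)
  choose X Y c hd using hall
  have henc := fun π => encode_exists (k := k) (r := r) hm hmM (hd π)
  choose G T kind code hval hcode hdec using henc
  obtain ⟨e, he⟩ : ∃ e : (Fin 5 → Equiv.Perm (Fin m)) →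
      (II k r → VV m × VV m) × Fin BT × (Fin 5 × Fin k → (VV m → Fin 4) × Fin BC),
      ∀ π, e π = (G π, fT (G π) (T π), fun p => (kind π p.1 p.2, fC (code π p.1 p.2))) :=
    ⟨_, fun _ => rfl⟩
  have hinj : Function.Injective e := by
    intro π π' hpp
    rw [he, he] at hpp
    simp only [Prod.mk.injEq] at hpp
    obtain ⟨h1, h2, h3⟩ := hpp
    rw [h1] at h2
    have h4 : T π = T π' := by
      apply hfT (G π') _ _ h2
      · have := hval π
        rw [h1] at this
        exact this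
      · exact hval π'
    have h5 : ∀ j i, kind π j i = kind π' j i ∧ code π j i = code π' j i := by
      intro j i
      have h6 := congrFun h3 (j, i)
      simp only [Prod.mk.injEq] at h6
      exact ⟨h6.1, hfC (hcode π j i) (hcode π' j i) h6.2⟩
    have h7 : ∀ j i, Sc (X π) π (c π) j i = Sc (X π') π' (c π') j i := by
      intro j i
      rw [← coe_inj, ← hdec π j i, ← hdec π' j i, h1, h4, (h5 j i).1, (h5 j i).2]
    funext j
    ext a
    have h8 := (recover (X π') π' (c π') j a (π j a)).mpr (by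
      obtain ⟨i, hi⟩ := (recover (X π) π (c π) j a (π j a)).mp rfl
      refine ⟨i, ?_⟩
      rw [← h7 j i]
      exact hi)
    rw [h8]
  have hcard := Fintype.card_le_of_injective e hinj
  have hl : Fintype.card (Fin 5 → Equiv.Perm (Fin m)) = (m.factorial) ^ 5 := by
    simp [Fintype.card_perm]
  have hr' : Fintype.card ((II k r → VV m × VV m) × Fin BT ×
      (Fin 5 × Fin k → (VV m → Fin 4) × Fin BC)) =
      ((2 * m) * (2 * m)) ^ (5 * (k * r)) * (BT * (4 ^ (2 * m) * BC) ^ (5 * k)) := by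
    simp only [Fintype.card_prod, Fintype.card_fun, Fintype.card_fin, Fintype.card_sum, ← two_mul]
  rw [hl, hr'] at hcard
  rw [hBT, hBC] at hcard
  exact hcard

end Pool.Agent.Helper448.Core
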