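import Mathlib
import Pool.Agent.Helper448.Core

set_option autoImplicit false
set_option linter.unusedSectionVars false

namespace Pool.Agent.Helper448.Final

open Table Geo
open Pool.Agent.Helper448.Core

lemma pow_self_le (m : ℕ) : m ^ m ≤ 4 ^ m * m.factorial := by
  have h1 : m.factorial * (m + 1) ^ m ≤ (m + m).factorial := Nat.factorial_mul_pow_le_factorial
  have h2 : (m + m).factorial = Nat.centralBinom m * m.factorial * m.factorial := by
    rw [Nat.centralBinom_eq_two_mul_choose, two_mul]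
    have := Nat.add_choose_mul_factorial_mul_factorial m m
    rw [← this]
  have h3 : m.factorial * (m + 1) ^ m ≤ m.factorial * (4 ^ m * m.factorial) := by
    rw [h2] at h1
    refine h1.trans ?_
    have := Nat.centralBinom_le_four_pow m
    calc Nat.centralBinom m * m.factorial * m.factorial
        ≤ 4 ^ m * m.factorial * m.factorial := by gcongr
      _ = m.factorial * (4 ^ m * m.factorial) := by ring
  have h4 := Nat.le_of_mul_le_mul_left h3 (Nat.factorial_pos m)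
  exact (Nat.pow_le_pow_left (Nat.le_succ m) m).trans h4

lemma numeric (k w : ℕ) (hk : 0 < k) (hw : 0 < w)
    (hbig : 4 ^ 10 * (2 ^ 4 * 600 ^ 8 * 81 ^ 4 * 4 ^ ((12 + 6 * (140 * k)) * (10 * k))) < w) :
    ¬ (((140 * k) * w).factorial) ^ 5 ≤ ((2 * ((140 * k) * w)) * (2 * ((140 * k) * w))) ^ (5 * (k * w)) *
      (((600 * (5 * (k * w)) ^ 3) ^ (4 * (5 * (k * w))) *
        (81 * (5 * (k * w)) ^ 2) ^ (2 * ((140 * k) * w))) *
      (4 ^ (2 * ((140 * k) * w)) * (4 ^ ((8 + 6 * (140 * k)) * ((140 * k) * w)) *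
        4 ^ (2 * ((140 * k) * w)))) ^ (5 * k)) := by
  obtain ⟨m, hm⟩ : ∃ m, m = (140 * k) * w := ⟨_, rfl⟩
  obtain ⟨N, hN⟩ : ∃ N, N = 5 * (k * w) := ⟨_, rfl⟩
  obtain ⟨K, hK⟩ : ∃ K, K = 2 ^ 4 * 600 ^ 8 * 81 ^ 4 * 4 ^ ((12 + 6 * (140 * k)) * (10 * k)) :=
    ⟨_, rfl⟩
  have hmN : m = 28 * N := by rw [hm, hN]; ring
  have hNpos : 0 < N := by rw [hN]; positivity
  have hmpos : 0 < m := by omega
  have hNm : N ≤ m := by omega
  rw [← hm, ← hN]
  rw [← hK] at hbig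
  intro hle
  -- square both sides
  have h1 : (m.factorial) ^ 10 ≤ K ^ m * m ^ (9 * m) := by
    have h2 := Nat.pow_le_pow_left hle 2
    rw [← pow_mul] at h2
    refine h2.trans ?_
    have e1 : (((2 * m) * (2 * m)) ^ N * (((600 * N ^ 3) ^ (4 * N) * (81 * N ^ 2) ^ (2 * m)) *
      (4 ^ (2 * m) * (4 ^ ((8 + 6 * (140 * k)) * m) * 4 ^ (2 * m))) ^ (5 * k))) ^ 2 =
      (2 ^ (4 * N) * m ^ (4 * N)) * ((600 ^ (8 * N) * N ^ (24 * N)) * (81 ^ (4 * m) * N ^ (8 * m))) *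
      4 ^ ((12 + 6 * (140 * k)) * (10 * k) * m) := by
      have a1 : ((2 * m) * (2 * m)) ^ N = 2 ^ (2 * N) * m ^ (2 * N) := by
        rw [show (2 * m) * (2 * m) = (2 * m) ^ 2 by ring, ← pow_mul, mul_pow]
      have a2 : (600 * N ^ 3) ^ (4 * N) = 600 ^ (4 * N) * N ^ (12 * N) := by
        rw [mul_pow, ← pow_mul]; congr 2; ring
      have a3 : (81 * N ^ 2) ^ (2 * m) = 81 ^ (2 * m) * N ^ (4 * m) := by
        rw [mul_pow, ← pow_mul]; congr 2; ring
      have a4 : (4 ^ (2 * m) * (4 ^ ((8 + 6 * (140 * k)) * m) * 4 ^ (2 * m))) ^ (5 * k) =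
          4 ^ ((12 + 6 * (140 * k)) * (5 * k) * m) := by
        rw [← pow_add, ← pow_add, ← pow_mul]; congr 1; ring
      rw [a1, a2, a3, a4]
      simp only [mul_pow, ← pow_mul]
      have b1 : 2 * N * 2 = 4 * N := by ring
      have b2 : 4 * N * 2 = 8 * N := by ring
      have b3 : 12 * N * 2 = 24 * N := by ring
      have b4 : 2 * m * 2 = 4 * m := by ring
      have b5 : 4 * m * 2 = 8 * m := by ring
      have b6 : (12 + 6 * (140 * k)) * (5 * k) * m * 2 = (12 + 6 * (140 * k)) * (10 * k) * m := by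
        ring
      rw [b1, b2, b3, b4, b5, b6]
      ring
    rw [e1]
    have c1 : N ^ (24 * N) ≤ m ^ (24 * N) := Nat.pow_le_pow_left hNm _
    have c2 : N ^ (8 * m) ≤ m ^ (8 * m) := Nat.pow_le_pow_left hNm _
    have c3 : 2 ^ (4 * N) ≤ (2 ^ 4) ^ m := by
      rw [← pow_mul]; exact Nat.pow_le_pow_right (by norm_num) (by omega)
    have c4 : 600 ^ (8 * N) ≤ (600 ^ 8) ^ m := by
      rw [← pow_mul]; exact Nat.pow_le_pow_right (by norm_num) (by omega)
    have c5 : 81 ^ (4 * m) = (81 ^ 4) ^ m := by rw [← pow_mul]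
    have c6 : 4 ^ ((12 + 6 * (140 * k)) * (10 * k) * m) =
        (4 ^ ((12 + 6 * (140 * k)) * (10 * k))) ^ m := by rw [← pow_mul]
    rw [c5, c6]
    calc (2 ^ (4 * N) * m ^ (4 * N)) * ((600 ^ (8 * N) * N ^ (24 * N)) * ((81 ^ 4) ^ m *
          N ^ (8 * m))) * (4 ^ ((12 + 6 * (140 * k)) * (10 * k))) ^ m
        ≤ ((2 ^ 4) ^ m * m ^ (4 * N)) * (((600 ^ 8) ^ m * m ^ (24 * N)) * ((81 ^ 4) ^ m *
          m ^ (8 * m))) * (4 ^ ((12 + 6 * (140 * k)) * (10 * k))) ^ m := by gcongr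
      _ = ((2 ^ 4) ^ m * (600 ^ 8) ^ m * (81 ^ 4) ^ m *
          (4 ^ ((12 + 6 * (140 * k)) * (10 * k))) ^ m) *
          (m ^ (4 * N) * m ^ (24 * N) * m ^ (8 * m)) := by ring
      _ = K ^ m * m ^ (9 * m) := by
          rw [← mul_pow, ← mul_pow, ← mul_pow, ← hK, ← pow_add, ← pow_add]
          congr 2
          omega
  have h3 := pow_self_le m
  have h4 : m ^ (10 * m) ≤ (4 ^ 10) ^ m * (K ^ m * m ^ (9 * m)) := by
    calc m ^ (10 * m) = (m ^ m) ^ 10 := by rw [← pow_mul]; congr 1; ring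
      _ ≤ (4 ^ m * m.factorial) ^ 10 := Nat.pow_le_pow_left h3 10
      _ = (4 ^ 10) ^ m * (m.factorial) ^ 10 := by
          rw [mul_pow, ← pow_mul, ← pow_mul, mul_comm m 10]
      _ ≤ (4 ^ 10) ^ m * (K ^ m * m ^ (9 * m)) := by gcongr
  have h5 : m ^ m * m ^ (9 * m) ≤ (4 ^ 10 * K) ^ m * m ^ (9 * m) := by
    calc m ^ m * m ^ (9 * m) = m ^ (10 * m) := by rw [← pow_add]; congr 1; ring
      _ ≤ (4 ^ 10) ^ m * (K ^ m * m ^ (9 * m)) := h4
      _ = (4 ^ 10 * K) ^ m * m ^ (9 * m) := by rw [mul_pow]; ring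
  have h6 : m ^ m ≤ (4 ^ 10 * K) ^ m :=
    Nat.le_of_mul_le_mul_right h5 (by positivity)
  have h7 : m ≤ 4 ^ 10 * K := (Nat.pow_le_pow_iff_left hmpos.ne').mp h6
  have h8 : w ≤ m := by
    rw [hm]
    exact Nat.le_mul_of_pos_left w (by positivity)
  omega

/-- For every number of colours there are five matchings whose union has no good drawing. -/
theorem exists_bad (k : ℕ) (hk : 0 < k) : ∃ (m : ℕ) (π : Fin 5 → Equiv.Perm (Fin m)),
    ∀ (X Y : VV m → ℝ) (c : Fin 5 → Fin m → Fin k), ¬ Draw π X Y c := by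
  by_contra hcon
  push Not at hcon
  obtain ⟨w, hw⟩ : ∃ w, w = 4 ^ 10 * (2 ^ 4 * 600 ^ 8 * 81 ^ 4 *
    4 ^ ((12 + 6 * (140 * k)) * (10 * k))) + 1 := ⟨_, rfl⟩
  have hwpos : 0 < w := by rw [hw]; exact Nat.succ_pos _
  apply numeric k w hk hwpos (by rw [hw]; exact Nat.lt_succ_self _)
  apply count_all (k := k) (m := (140 * k) * w) (r := w) (M := 140 * k) hk (by positivity) hwpos
  · exact Nat.mul_le_mul_left _ (Nat.le_succ w)
  · intro π
    exact hcon _ π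

end Pool.Agent.Helper448.Final
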