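import Mathlib

set_option autoImplicit false

namespace Pool.Agent.Helper448.PWalk

open Set

/-- `NW G X n u v`: there is a walk of length at most `n` from `u` to `v` in `G`, all of whose
vertices lie in `X`. -/
inductive NW {V : Type} (G : SimpleGraph V) (X : Set V) : ℕ → V → V → Prop
  | refl (n : ℕ) (u : V) (hu : u ∈ X) : NW G X n u u
  | cons (n : ℕ) (u v w : V) (hu : u ∈ X) (h : G.Adj u v) (hw : NW G X n v w) :
      NW G X (n + 1) u w

namespace NW

variable {V : Type} {G : SimpleGraph V} {X Y : Set V} {n m : ℕ} {u v w : V}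

lemma left_mem (h : NW G X n u v) : u ∈ X := by
  cases h <;> assumption

lemma right_mem (h : NW G X n u v) : v ∈ X := by
  induction h with
  | refl n u hu => exact hu
  | cons n u v w hu h hw ih => exact ih

lemma mono_set (h : NW G X n u v) (hXY : X ⊆ Y) : NW G Y n u v := by
  induction h with
  | refl n u hu => exact .refl n u (hXY hu)
  | cons n u v w hu h hw ih => exact .cons n u v w (hXY hu) h ih

lemma succ (h : NW G X n u v) : NW G X (n + 1) u v := by
  induction h with
  | refl n u hu => exact .refl _ u hu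
  | cons n u v w hu h hw ih => exact .cons _ u v w hu h ih

lemma mono (h : NW G X n u v) (hnm : n ≤ m) : NW G X m u v := by
  induction hnm with
  | refl => exact h
  | step _ ih => exact ih.succ

lemma trans (h : NW G X n u v) (h' : NW G X m v w) : NW G X (n + m) u w := by
  induction h with
  | refl n u hu => exact h'.mono (by omega)
  | cons n u v x hu h hw ih =>
    have := NW.cons _ _ _ _ hu h (ih h')
    exact this.mono (by omega)

lemma single (hu : u ∈ X) (hv : v ∈ X) (h : G.Adj u v) : NW G X 1 u v :=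
  .cons 0 u v v hu h (.refl 0 v hv)

lemma symm (h : NW G X n u v) : NW G X n v u := by
  induction h with
  | refl n u hu => exact .refl n u hu
  | cons n u v w hu h hw ih =>
    exact ih.trans (single hw.left_mem hu h.symm)

lemma zero_eq (h : NW G X 0 u v) : u = v := by
  cases h; rfl

/-- A vertex of minimal value on the walk. -/
lemma exists_min (f : V → ℕ) (h : NW G X n u v) :
    ∃ w i j, i + j ≤ n ∧ NW G (X ∩ {y | f w ≤ f y}) i u w ∧
      NW G (X ∩ {y | f w ≤ f y}) j w v := by
  induction h with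
  | refl n u hu =>
    have hm : u ∈ X ∩ {y | f u ≤ f y} := ⟨hu, by simp⟩
    exact ⟨u, 0, 0, by omega, .refl _ _ hm, .refl _ _ hm⟩
  | cons n u v x hu h hw ih =>
    obtain ⟨w, i, j, hij, h1, h2⟩ := ih
    by_cases hle : f w ≤ f u
    · exact ⟨w, i + 1, j, by omega, .cons _ _ _ _ ⟨hu, hle⟩ h h1, h2⟩
    · push Not at hle
      have hm : u ∈ X ∩ {y | f u ≤ f y} := ⟨hu, by simp⟩
      refine ⟨u, 0, (i + j) + 1, by omega, .refl _ _ hm, ?_⟩
      have hsub : X ∩ {y | f w ≤ f y} ⊆ X ∩ {y | f u ≤ f y} :=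
        fun y hy => ⟨hy.1, le_trans hle.le hy.2⟩
      exact .cons _ _ _ _ hm h ((h1.mono_set hsub).trans (h2.mono_set hsub))

/-- The first exit of a walk from the set `Y`. -/
lemma exists_exit (h : NW G X n u v) (hu : u ∈ Y) (hv : v ∉ Y) :
    ∃ y z i j, i + j + 1 ≤ n ∧ NW G (X ∩ Y) i u y ∧ G.Adj y z ∧ z ∈ X ∧ z ∉ Y ∧ NW G X j z v := by
  induction h with
  | refl n u hu' => exact absurd hu hv
  | cons n u w x hu' h hw ih =>
    by_cases hwY : w ∈ Y
    · obtain ⟨y, z, i, j, hij, h1, h2, h3, h4, h5⟩ := ih hwY hv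
      exact ⟨y, z, i + 1, j, by omega, .cons _ _ _ _ ⟨hu', hu⟩ h h1, h2, h3, h4, h5⟩
    · exact ⟨u, w, 0, n, by omega, .refl _ _ ⟨hu', hu⟩, h, hw.left_mem, hwY, hw⟩

/-- A walk as a sequence of vertices. -/
lemma exists_seq (h : NW G X n u v) : ∃ (k : ℕ) (p : ℕ → V), k ≤ n ∧ p 0 = u ∧ p k = v ∧
    (∀ i ≤ k, p i ∈ X) ∧ ∀ i < k, G.Adj (p i) (p (i + 1)) := by
  induction h with
  | refl n u hu => exact ⟨0, fun _ => u, by omega, rfl, rfl, fun _ _ => hu, fun i hi => by omega⟩
  | cons n u v w hu h hw ih =>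
    obtain ⟨k, p, hk, h0, h1, h2, h3⟩ := ih
    refine ⟨k + 1, fun i => if i = 0 then u else p (i - 1), by omega, rfl, ?_, ?_, ?_⟩
    · simp [h1]
    · intro i hi
      by_cases h0' : i = 0
      · simp [h0', hu]
      · simp only [h0', if_false]; exact h2 _ (by omega)
    · intro i hi
      by_cases h0' : i = 0
      · subst h0'; simp [h0, h]
      · simp only [h0', if_false, Nat.add_eq_zero_iff, one_ne_zero, and_false,
          Nat.add_sub_cancel]
        have := h3 (i - 1) (by omega)
        rwa [show i - 1 + 1 = i by omega] at this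

/-- Parts of a sequence are walks. -/
lemma of_seq {p : ℕ → V} {k : ℕ} (h2 : ∀ i ≤ k, p i ∈ X)
    (h3 : ∀ i < k, G.Adj (p i) (p (i + 1))) (i d : ℕ) (h : i + d ≤ k) :
    NW G X d (p i) (p (i + d)) := by
  induction d with
  | zero => exact .refl _ _ (h2 _ (by omega))
  | succ d ih =>
    exact (ih (by omega)).trans (single (h2 _ (by omega)) (h2 _ (by omega)) (h3 _ (by omega)))

end NW

/-- Being connected by a walk inside `X`. -/
def Rch {V : Type} (G : SimpleGraph V) (X : Set V) (u v : V) : Prop := ∃ n, NW G X n u v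

namespace Rch

variable {V : Type} {G : SimpleGraph V} {X Y : Set V} {u v w : V}

lemma left_mem (h : Rch G X u v) : u ∈ X := by
  obtain ⟨n, h⟩ := h; exact h.left_mem

lemma right_mem (h : Rch G X u v) : v ∈ X := by
  obtain ⟨n, h⟩ := h; exact h.right_mem

lemma mono (h : Rch G X u v) (hXY : X ⊆ Y) : Rch G Y u v := by
  obtain ⟨n, h⟩ := h; exact ⟨n, h.mono_set hXY⟩

lemma refl (hu : u ∈ X) : Rch G X u u := ⟨0, .refl _ _ hu⟩

lemma symm (h : Rch G X u v) : Rch G X v u := by
  obtain ⟨n, h⟩ := h; exact ⟨n, h.symm⟩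

lemma trans (h : Rch G X u v) (h' : Rch G X v w) : Rch G X u w := by
  obtain ⟨n, h⟩ := h; obtain ⟨m, h'⟩ := h'; exact ⟨_, h.trans h'⟩

lemma single (hu : u ∈ X) (hv : v ∈ X) (h : G.Adj u v) : Rch G X u v := ⟨1, .single hu hv h⟩

/-- Every vertex on the walk is reachable: the walk lies in the component. -/
lemma to_comp (h : Rch G X u v) : Rch G {y | Rch G X u y} u v := by
  obtain ⟨n, h⟩ := h
  have key : ∀ {n : ℕ} {a b : V}, NW G X n a b → Rch G X u a →
      NW G {y | Rch G X u y} n a b := by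
    intro n a b hab
    induction hab with
    | refl n a ha => intro hu; exact .refl _ _ hu
    | cons n a b c ha hab hbc ih =>
      intro hu
      exact .cons _ _ _ _ hu hab (ih (hu.trans (single ha hbc.left_mem hab)))
  exact ⟨n, key h (refl h.left_mem)⟩

end Rch

end Pool.Agent.Helper448.PWalk
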