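import Mathlib
import Pool.Agent.Helper448.PWalk

set_option autoImplicit false

namespace Pool.Agent.Helper448.PDec

open Set Pool.Agent.Helper448.PWalk

variable {V : Type} {G : SimpleGraph V}

/-- `G` has no minor isomorphic to the complete graph on five vertices. -/
def NoK5 (G : SimpleGraph V) : Prop :=
  ¬ ∃ X : Fin 5 → Set V, (∀ a, (X a).Nonempty) ∧
    (∀ a, ∀ u ∈ X a, ∀ v ∈ X a, Rch G (X a) u v) ∧
    (∀ a b, a ≠ b → Disjoint (X a) (X b)) ∧
    (∀ a b, a ≠ b → ∃ u ∈ X a, ∃ v ∈ X b, G.Adj u v)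

/-- The component of `x` in the levels at least `j` touches the bag `a`. -/
def Tch (G : SimpleGraph V) (f : V → ℕ) (j : ℕ) (x : V) (a : ℕ) : Prop :=
  ∃ y z, Rch G {y | j ≤ f y} x y ∧ f z = a ∧ G.Adj y z

/-- A partial decomposition into `i` bags. -/
structure Dec (G : SimpleGraph V) (i : ℕ) (f : V → ℕ) : Prop where
  le : ∀ v, f v ≤ i
  conn : ∀ j < i, ∀ u v, f u = j → f v = j → Rch G {y | f y = j} u v
  ball : ∀ j < i, ∀ (r : ℕ) (x : V),
    {w | f w = j ∧ NW G {y | j ≤ f y} r x w}.encard ≤ ((2 * (2 * r + 1) : ℕ) : ℕ∞)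
  adj : ∀ j ≤ i, ∀ x, ∀ a b, a < b → b < j → Tch G f j x a → Tch G f j x b →
    ∃ y z, f y = a ∧ f z = b ∧ G.Adj y z

lemma dec_zero : Dec G 0 (fun _ => 0) where
  le := fun _ => le_refl _
  conn := fun j hj => by omega
  ball := fun j hj => by omega
  adj := fun j hj x a b h1 h2 => by omega

lemma three (hK : NoK5 G) {i : ℕ} {f : V → ℕ} (h : Dec G i f) (j : ℕ) (hj : j ≤ i) (x : V)
    (hx : j ≤ f x) : {a | a < j ∧ Tch G f j x a}.encard ≤ 3 := by
  classical
  by_contra hcon
  push Not at hcon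
  have h4 : (4 : ℕ∞) ≤ {a | a < j ∧ Tch G f j x a}.encard := by
    have := Order.add_one_le_of_lt hcon
    exact le_trans (by norm_num) this
  obtain ⟨t, ht, htc⟩ := Set.exists_subset_encard_eq h4
  have htf : t.Finite := Set.finite_of_encard_eq_coe (k := 4) htc
  have hcard : htf.toFinset.card = 4 := by
    have h1 := htf.encard_eq_coe_toFinset_card
    rw [htc] at h1
    exact_mod_cast h1.symm
  let g := htf.toFinset.orderEmbOfFin hcard
  have hg : ∀ k, g k < j ∧ Tch G f j x (g k) := fun k =>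
    ht (htf.mem_toFinset.mp (htf.toFinset.orderEmbOfFin_mem hcard k))
  have hgm : ∀ k l : Fin 4, k < l → g k < g l := fun k l hkl => g.strictMono hkl
  apply hK
  refine ⟨Fin.cons {y | Rch G {y | j ≤ f y} x y} (fun k => {y | f y = g k}), ?_, ?_, ?_, ?_⟩
  · intro a
    induction a using Fin.cases with
    | zero => exact ⟨x, Rch.refl hx⟩
    | succ k =>
      obtain ⟨y, z, h1, h2, h3⟩ := (hg k).2
      exact ⟨z, h2⟩
  · intro a
    induction a using Fin.cases with
    | zero =>
      intro u hu v hv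
      simp only [Fin.cons_zero, mem_ofPred_eq] at hu hv ⊢
      exact hu.to_comp.symm.trans hv.to_comp
    | succ k =>
      intro u hu v hv
      simp only [Fin.cons_succ, mem_ofPred_eq] at hu hv ⊢
      have := h.conn (g k) (lt_of_lt_of_le (hg k).1 hj) u v hu hv
      exact this
  · have key : ∀ k : Fin 4, Disjoint {y | Rch G {y | j ≤ f y} x y} {y | f y = g k} := by
      intro k
      rw [Set.disjoint_left]
      intro y hy hy'
      have h1 : j ≤ f y := hy.right_mem
      have h2 := (hg k).1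
      simp only [mem_ofPred_eq] at hy'
      omega
    have key2 : ∀ k l : Fin 4, k ≠ l → Disjoint {y | f y = g k} {y | f y = g l} := by
      intro k l hkl
      rw [Set.disjoint_left]
      intro y hy hy'
      simp only [mem_ofPred_eq] at hy hy'
      exact hkl (g.injective (hy.symm.trans hy'))
    intro a b hab
    induction a using Fin.cases with
    | zero =>
      induction b using Fin.cases with
      | zero => exact absurd rfl hab
      | succ l => simpa using key l
    | succ k =>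
      induction b using Fin.cases with
      | zero => simpa using (key k).symm
      | succ l => simpa using key2 k l (fun h => hab (by rw [h]))
  · have key : ∀ k : Fin 4, ∃ u ∈ {y | Rch G {y | j ≤ f y} x y}, ∃ v ∈ {y | f y = g k},
        G.Adj u v := by
      intro k
      obtain ⟨y, z, h1, h2, h3⟩ := (hg k).2
      exact ⟨y, h1, z, h2, h3⟩
    have key2 : ∀ k l : Fin 4, k < l → ∃ u ∈ {y | f y = g k}, ∃ v ∈ {y | f y = g l},
        G.Adj u v := by
      intro k l hkl
      obtain ⟨y, z, h1, h2, h3⟩ := h.adj j hj x _ _ (hgm k l hkl) (hg l).1 (hg k).2 (hg l).2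
      exact ⟨y, h1, z, h2, h3⟩
    intro a b hab
    induction a using Fin.cases with
    | zero =>
      induction b using Fin.cases with
      | zero => exact absurd rfl hab
      | succ l => simpa using key l
    | succ k =>
      induction b using Fin.cases with
      | zero =>
        obtain ⟨u, hu, v, hv, huv⟩ := key k
        exact ⟨v, by simpa using hv, u, by simpa using hu, huv.symm⟩
      | succ l =>
        rcases lt_trichotomy k l with hkl | hkl | hkl
        · simpa using key2 k l hkl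
        · exact absurd (by rw [hkl]) hab
        · obtain ⟨u, hu, v, hv, huv⟩ := key2 l k hkl
          exact ⟨v, by simpa using hv, u, by simpa using hu, huv.symm⟩

/-- Shortest paths. -/
lemma geod {X : Set V} {u v : V} (h : Rch G X u v) : ∃ (k : ℕ) (p : ℕ → V), p 0 = u ∧ p k = v ∧
    (∀ i ≤ k, p i ∈ X) ∧ (∀ i < k, G.Adj (p i) (p (i + 1))) ∧
    ∀ i j d, j ≤ k → NW G X d (p i) (p j) → j ≤ i + d ∨ k < i := by
  classical
  let k := Nat.find h
  have hk : NW G X k u v := Nat.find_spec h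
  have hmin : ∀ n, NW G X n u v → k ≤ n := fun n hn => Nat.find_min' h hn
  obtain ⟨k', p, hk', h0, h1, h2, h3⟩ := hk.exists_seq
  have heq : k' = k := by
    have h4 := NW.of_seq h2 h3 0 k' (by omega)
    rw [h0, zero_add, h1] at h4
    exact le_antisymm hk' (hmin _ h4)
  rw [heq] at h1 h2 h3
  refine ⟨k, p, h0, h1, h2, h3, ?_⟩
  intro i j d hjk hd
  by_cases hi : k < i
  · exact Or.inr hi
  left
  push Not at hi
  have h4 := NW.of_seq h2 h3 0 i (by omega)
  have h5 := NW.of_seq h2 h3 j (k - j) (by omega)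
  rw [h0, zero_add] at h4
  rw [show j + (k - j) = k by omega, h1] at h5
  have := hmin _ ((h4.trans hd).trans h5)
  omega

lemma geod_ball {X : Set V} {k : ℕ} {p : ℕ → V}
    (hp : ∀ i j d, j ≤ k → NW G X d (p i) (p j) → j ≤ i + d ∨ k < i) (r : ℕ) (x : V) :
    {w | (∃ i ≤ k, p i = w) ∧ NW G X r x w}.encard ≤ ((2 * r + 1 : ℕ) : ℕ∞) := by
  classical
  by_cases hne : ∃ i, i ≤ k ∧ NW G X r x (p i)
  · have hspec := Nat.find_spec hne
    have hmin : ∀ j, j ≤ k ∧ NW G X r x (p j) → Nat.find hne ≤ j := fun j hj =>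
      Nat.find_min' hne hj
    set i := Nat.find hne
    have hsub : {w | (∃ i ≤ k, p i = w) ∧ NW G X r x w} ⊆
        ((Finset.Icc i (i + 2 * r)).image p : Finset V) := by
      rintro w ⟨⟨j, hj, rfl⟩, hw⟩
      rw [Finset.coe_image]
      refine ⟨j, ?_, rfl⟩
      rw [Finset.coe_Icc]
      have h1 := hmin j ⟨hj, hw⟩
      rcases hp i j _ hj (hspec.2.symm.trans hw) with h2 | h2
      · exact ⟨h1, by omega⟩
      · omega
    refine (Set.encard_le_encard hsub).trans ?_
    rw [Set.encard_coe_eq_coe_finsetCard]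
    have := Finset.card_image_le (s := Finset.Icc i (i + 2 * r)) (f := p)
    rw [Nat.card_Icc] at this
    exact_mod_cast this.trans (by omega)
  · have : {w | (∃ i ≤ k, p i = w) ∧ NW G X r x w} = ∅ := by
      rw [Set.eq_empty_iff_forall_notMem]
      rintro w ⟨⟨j, hj, rfl⟩, hw⟩
      exact hne ⟨j, hj, hw⟩
    rw [this, Set.encard_empty]
    exact bot_le

lemma cover3 {A : Set ℕ} (h : A.encard ≤ 3) : ∃ g : Fin 3 → ℕ, A ⊆ Set.range g := by
  classical
  obtain ⟨hf, hc⟩ := Set.encard_le_coe_iff_finite_ncard_le.mp (h : A.encard ≤ ((3 : ℕ) : ℕ∞))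
  rw [Set.ncard_eq_toFinset_card _ hf] at hc
  let l := hf.toFinset.toList
  have hl : l.length ≤ 3 := by simpa [l] using hc
  refine ⟨fun i => l.getD i 0, ?_⟩
  intro a ha
  have hal : a ∈ l := by simp [l, ha]
  obtain ⟨n, hn, hna⟩ := List.mem_iff_getElem.mp hal
  refine ⟨⟨n, by omega⟩, ?_⟩
  simp [List.getD_eq_getElem?_getD, hn, hna]

lemma dec_step [Finite V] (hK : NoK5 G) {i : ℕ} {f : V → ℕ} (h : Dec G i f) (x0 : V)
    (hx0 : f x0 = i) :
    ∃ f' : V → ℕ, Dec G (i + 1) f' ∧ {v | f' v = i + 1}.ncard < {v | f v = i}.ncard := by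
  classical
  have hA := three hK h i (le_refl _) x0 hx0.ge
  obtain ⟨g, hg⟩ := cover3 hA
  -- the touching vertices
  have hv : ∀ t : Fin 3, ∃ y, Rch G {y | i ≤ f y} x0 y ∧
      (Tch G f i x0 (g t) → ∃ z, f z = g t ∧ G.Adj y z) := by
    intro t
    by_cases ht : Tch G f i x0 (g t)
    · obtain ⟨y, z, h1, h2, h3⟩ := ht
      exact ⟨y, h1, fun _ => ⟨z, h2, h3⟩⟩
    · exact ⟨x0, Rch.refl hx0.ge, fun h' => absurd h' ht⟩
  choose v hvK hvz using hv
  obtain ⟨k1, p, p0, p1, p2, p3, p4⟩ := geod ((hvK 0).symm.trans (hvK 1))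
  obtain ⟨k2, q, q0, q1, q2, q3, q4⟩ := geod ((hvK 0).symm.trans (hvK 2))
  let H : Set V := {w | (∃ i ≤ k1, p i = w) ∨ (∃ i ≤ k2, q i = w)}
  have hHf : ∀ w ∈ H, f w = i := by
    rintro w (⟨j, hj, rfl⟩ | ⟨j, hj, rfl⟩)
    · exact le_antisymm (h.le _) (p2 j hj)
    · exact le_antisymm (h.le _) (q2 j hj)
  have hvH : ∀ t, v t ∈ H := by
    intro t
    fin_cases t
    · exact Or.inl ⟨0, by omega, p0⟩
    · exact Or.inl ⟨k1, le_refl _, p1⟩
    · exact Or.inr ⟨k2, le_refl _, q1⟩
  -- the bag is connected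
  have hHc0 : ∀ w ∈ H, Rch G H (v 0) w := by
    rintro w (⟨j, hj, rfl⟩ | ⟨j, hj, rfl⟩)
    · refine ⟨j, ?_⟩
      have := NW.of_seq (G := G) (X := H) (p := p) (k := k1) (fun i hi => Or.inl ⟨i, hi, rfl⟩) p3 0 j
        (by omega)
      rwa [p0, zero_add] at this
    · refine ⟨j, ?_⟩
      have := NW.of_seq (G := G) (X := H) (p := q) (k := k2) (fun i hi => Or.inr ⟨i, hi, rfl⟩) q3 0 j
        (by omega)
      rwa [q0, zero_add] at this
  have hHK : ∀ w ∈ H, Rch G {y | i ≤ f y} x0 w := by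
    intro w hw
    exact (hvK 0).trans ((hHc0 w hw).mono (fun y hy => (hHf y hy).ge))
  let f' : V → ℕ := fun w => if w ∈ H then i else if f w = i then i + 1 else f w
  have hf'H : ∀ w ∈ H, f' w = i := fun w hw => if_pos hw
  have hf'ge : ∀ j ≤ i, {y | j ≤ f' y} = {y | j ≤ f y} := by
    intro j hj
    ext w
    simp only [mem_ofPred_eq, f']
    by_cases hw : w ∈ H
    · rw [if_pos hw, hHf w hw]
    · rw [if_neg hw]
      split_ifs with h1
      · rw [h1]; constructor <;> intro <;> omega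
      · rfl
  have hf'lt : ∀ j < i, ∀ w, f' w = j ↔ f w = j := by
    intro j hj w
    simp only [f']
    by_cases hw : w ∈ H
    · rw [if_pos hw, hHf w hw]
    · rw [if_neg hw]
      split_ifs with h1
      · rw [h1]; constructor <;> intro <;> omega
      · rfl
  have hf'i : ∀ w, f' w = i ↔ w ∈ H := by
    intro w
    simp only [f']
    by_cases hw : w ∈ H
    · simp [hw]
    · rw [if_neg hw]
      split_ifs with h1
      · simp [hw]
      · simp [hw, h1]
  have hf'i1 : ∀ w, f' w = i + 1 → f w = i ∧ w ∉ H := by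
    intro w hw
    have hle := h.le w
    simp only [f'] at hw
    by_cases hwH : w ∈ H
    · rw [if_pos hwH] at hw; omega
    · rw [if_neg hwH] at hw
      split_ifs at hw with h1
      · exact ⟨h1, hwH⟩
      · omega
  refine ⟨f', ⟨?_, ?_, ?_, ?_⟩, ?_⟩
  · intro w
    have hle := h.le w
    simp only [f']
    split_ifs <;> omega
  · intro j hj u w hu hw
    rcases Nat.lt_succ_iff_lt_or_eq.mp hj with hj' | rfl
    · have hset : {y | f' y = j} = {y | f y = j} := by
        ext y; exact hf'lt j hj' y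
      rw [hset]
      exact h.conn j hj' u w ((hf'lt j hj' u).mp hu) ((hf'lt j hj' w).mp hw)
    · have hset : {y | f' y = j} = H := by
        ext y; exact hf'i y
      rw [hset]
      exact (hHc0 u ((hf'i u).mp hu)).symm.trans (hHc0 w ((hf'i w).mp hw))
  · intro j hj r x
    rcases Nat.lt_succ_iff_lt_or_eq.mp hj with hj' | rfl
    · have hset : {w | f' w = j ∧ NW G {y | j ≤ f' y} r x w} =
          {w | f w = j ∧ NW G {y | j ≤ f y} r x w} := by
        ext w
        simp only [mem_ofPred_eq]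
        rw [hf'ge j hj'.le, hf'lt j hj' w]
      rw [hset]
      exact h.ball j hj' r x
    · rw [hf'ge j le_rfl]
      have hsub : {w | f' w = j ∧ NW G {y | j ≤ f y} r x w} ⊆
          {w | (∃ i ≤ k1, p i = w) ∧ NW G {y | j ≤ f y} r x w} ∪
          {w | (∃ i ≤ k2, q i = w) ∧ NW G {y | j ≤ f y} r x w} := by
        rintro w ⟨hw1, hw2⟩
        rcases (hf'i w).mp hw1 with hw | hw
        · exact Or.inl ⟨hw, hw2⟩
        · exact Or.inr ⟨hw, hw2⟩
      refine (Set.encard_le_encard hsub).trans ((Set.encard_union_le _ _).trans ?_)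
      refine (add_le_add (geod_ball p4 r x) (geod_ball q4 r x)).trans ?_
      rw [← Nat.cast_add]
      exact_mod_cast (by omega : 2 * r + 1 + (2 * r + 1) ≤ 2 * (2 * r + 1))
  · intro j hj x a b hab hbj hTa hTb
    rcases Nat.lt_succ_iff_lt_or_eq.mp (Nat.lt_succ_of_le hj) with hj' | rfl
    · have hji : j ≤ i := by omega
      have conv : ∀ c < j, Tch G f' j x c → Tch G f j x c := by
        rintro c hc ⟨y, z, h1, h2, h3⟩
        rw [hf'ge j hji] at h1
        exact ⟨y, z, h1, (hf'lt c (by omega) z).mp h2, h3⟩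
      obtain ⟨y, z, h1, h2, h3⟩ := h.adj j hji x a b hab hbj (conv a (by omega) hTa)
        (conv b hbj hTb)
      exact ⟨y, z, (hf'lt a (by omega) y).mpr h1, (hf'lt b (by omega) z).mpr h2, h3⟩
    · have hsub : {y | i + 1 ≤ f' y} ⊆ {y | i ≤ f y} := by
        intro y hy
        rw [← hf'ge i le_rfl]
        exact le_trans (Nat.le_succ i) hy
      have conv : ∀ c < i, Tch G f' (i + 1) x c → Tch G f i x c := by
        rintro c hc ⟨y, z, h1, h2, h3⟩
        exact ⟨y, z, h1.mono hsub, (hf'lt c hc z).mp h2, h3⟩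
      rcases Nat.lt_succ_iff_lt_or_eq.mp hbj with hb | rfl
      · obtain ⟨y, z, h1, h2, h3⟩ := h.adj i le_rfl x a b hab hb (conv a (by omega) hTa)
          (conv b hb hTb)
        exact ⟨y, z, (hf'lt a (by omega) y).mpr h1, (hf'lt b (by omega) z).mpr h2, h3⟩
      · -- the new bag is touched
        obtain ⟨y, z, h1, h2, h3⟩ := hTb
        have hz : z ∈ H := (hf'i z).mp h2
        have hxK : Rch G {y | b ≤ f y} x0 x := by
          have h4 := h1.mono hsub
          have h5 : Rch G {y | b ≤ f y} y z := Rch.single h4.right_mem (hHf z hz).ge h3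
          exact (hHK z hz).trans ((h4.trans h5).symm)
        obtain ⟨y', z', g1, g2, g3⟩ := conv a hab hTa
        have hT : Tch G f b x0 a := ⟨y', z', hxK.trans g1, g2, g3⟩
        obtain ⟨t, ht⟩ := hg ⟨hab, hT⟩
        obtain ⟨z'', e1, e2⟩ := hvz t (by rw [ht]; exact hT)
        exact ⟨z'', v t, (hf'lt a hab z'').mpr (e1.trans ht), hf'H _ (hvH t), e2.symm⟩
  · refine Set.ncard_lt_ncard ?_ (Set.toFinite _)
    refine ⟨fun w hw => (hf'i1 w hw).1, ?_⟩
    intro hsub
    have h1 : v 0 ∈ {w | f w = i} := hHf _ (hvH 0)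
    exact (hf'i1 _ (hsub h1)).2 (hvH 0)

lemma dec_iter [Finite V] (hK : NoK5 G) : ∀ (n i : ℕ) (f : V → ℕ), Dec G i f →
    {v | f v = i}.ncard ≤ n → ∃ (i' : ℕ) (f' : V → ℕ), Dec G i' f' ∧ ∀ v, f' v < i' := by
  intro n
  induction n with
  | zero =>
    intro i f h hn
    refine ⟨i, f, h, fun v => lt_of_le_of_ne (h.le v) ?_⟩
    intro hv
    have : {v | f v = i} = ∅ := by
      rw [← Set.ncard_eq_zero (Set.toFinite _)]
      omega
    exact (Set.eq_empty_iff_forall_notMem.mp this) v hv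
  | succ n ih =>
    intro i f h hn
    by_cases hne : ∃ x0, f x0 = i
    · obtain ⟨x0, hx0⟩ := hne
      obtain ⟨f', hf', hlt⟩ := dec_step hK h x0 hx0
      exact ih (i + 1) f' hf' (by omega)
    · push Not at hne
      exact ⟨i, f, h, fun v => lt_of_le_of_ne (h.le v) (hne v)⟩

/-- Every finite graph without a `K₅` minor has a full decomposition. -/
theorem exists_dec [Finite V] (hK : NoK5 G) : ∃ (i : ℕ) (f : V → ℕ), Dec G i f ∧ ∀ v, f v < i :=
  dec_iter hK _ 0 _ dec_zero le_rfl

end Pool.Agent.Helper448.PDec
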