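import Mathlib

set_option autoImplicit false

namespace Pool.Agent.Helper448.TDefs

/-- The plane. -/
abbrev Plane := EuclideanSpace ℝ (Fin 2)

/-- The torus. -/
abbrev Torus := UnitAddCircle × UnitAddCircle

/-- A drawing of the graph `G` in the space `X`: the vertices are placed at distinct points and
every edge `e` is drawn as a simple curve `arc e` joining the images of its two ends and passing
through no other vertex image. (The value of `arc` at a non-edge is irrelevant.) -/
structure Drawing (X : Type) [TopologicalSpace X] {V : Type} (G : SimpleGraph V) where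
  pt : V → X
  arc : Sym2 V → unitInterval → X
  pt_injective : Function.Injective pt
  arc_continuous : ∀ e ∈ G.edgeSet, Continuous (arc e)
  arc_injective : ∀ e ∈ G.edgeSet, Function.Injective (arc e)
  arc_ends : ∀ e ∈ G.edgeSet, s(arc e 0, arc e 1) = e.map pt
  arc_avoids : ∀ e ∈ G.edgeSet, ∀ (v : V) (t : unitInterval), arc e t = pt v → v ∈ e

/-- The crossings of two edges: the common interior points of their curves. -/
def Drawing.crossings {X : Type} [TopologicalSpace X] {V : Type} {G : SimpleGraph V}
    (D : Drawing X G) (e f : Sym2 V) : Set X :=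
  {x | (∃ s : unitInterval, s ∈ Set.Ioo 0 1 ∧ D.arc e s = x) ∧
    ∃ t : unitInterval, t ∈ Set.Ioo 0 1 ∧ D.arc f t = x}

/-- A graph is toroidal if it has a drawing on the torus without crossings. -/
def Toroidal {V : Type} (G : SimpleGraph V) : Prop :=
  ∃ D : Drawing Torus G, ∀ e ∈ G.edgeSet, ∀ f ∈ G.edgeSet, e ≠ f → D.crossings e f = ∅

/-- A graph is `k`-planar if it has a drawing in the plane in which any two edge curves share
only finitely many interior points and every edge is crossed at most `k` times, crossings being
counted with multiplicity (a crossing on `e` is a pair of another edge and a common interior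
point). -/
def KPlanar (k : ℕ) {V : Type} (G : SimpleGraph V) : Prop :=
  ∃ D : Drawing Plane G,
    (∀ e ∈ G.edgeSet, ∀ f ∈ G.edgeSet, e ≠ f → (D.crossings e f).Finite) ∧
    ∀ e ∈ G.edgeSet, {q : Sym2 V × Plane | q.1 ∈ G.edgeSet ∧ q.1 ≠ e ∧
      q.2 ∈ D.crossings e q.1}.encard ≤ k

/-- The statement `P(d,k)`: every finite toroidal graph of maximum degree at most `d` becomes
`k`-planar after deleting a suitable set of at most `k` edges. -/
def P (d k : ℕ) : Prop :=
  ∀ (V : Type) [Finite V] (G : SimpleGraph V), Toroidal G →
    (∀ v : V, (G.neighborSet v).encard ≤ d) →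
    ∃ F : Set (Sym2 V), F ⊆ G.edgeSet ∧ F.encard ≤ k ∧ KPlanar k (G.deleteEdges F)

end Pool.Agent.Helper448.TDefs
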