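import Mathlib
import Pool.Agent.Helper448.TDefs

set_option autoImplicit false

namespace Pool.Agent.Helper448.PDefs

open FirstOrder Pool.Agent.Helper448.TDefs

/-- Relation symbols of the language of `c`-coloured graphs: a binary symbol for adjacency and
`c` unary symbols for the colours. -/
inductive ColRel (c : ℕ) : ℕ → Type
  | adj : ColRel c 2
  | col (i : Fin c) : ColRel c 1

/-- The first-order language of `c`-coloured graphs. It has no function symbols. -/
def LG (c : ℕ) : Language := ⟨fun _ => Empty, ColRel c⟩

/-- The graph `G` with the colours `C` as a first-order structure. A vertex may carry several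
colours. -/
def colStr {V : Type} (G : SimpleGraph V) {c : ℕ} (C : Fin c → Set V) : (LG c).Structure V where
  funMap := fun f => Empty.elim f
  RelMap := fun {n} (r : ColRel c n) =>
    match n, r with
    | _, .adj => fun x => G.Adj (x 0) (x 1)
    | _, .col i => fun x => x 0 ∈ C i

/-- `ψ(u,v)` holds in the coloured graph. -/
def Holds {V : Type} (G : SimpleGraph V) {c : ℕ} (C : Fin c → Set V)
    (ψ : (LG c).Formula (Fin 2)) (u v : V) : Prop :=
  @Language.Formula.Realize (LG c) V (colStr G C) (Fin 2) ψ ![u, v]

/-- The graph `ψ(G⁺)`: its edges are the pairs `u ≠ v` with `ψ(u,v)` or `ψ(v,u)`. -/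
def interp {V : Type} (G : SimpleGraph V) {c : ℕ} (C : Fin c → Set V)
    (ψ : (LG c).Formula (Fin 2)) : SimpleGraph V where
  Adj u v := u ≠ v ∧ (Holds G C ψ u v ∨ Holds G C ψ v u)
  symm := ⟨fun _ _ h => ⟨h.1.symm, h.2.symm⟩⟩
  loopless := ⟨fun _ h => h.1 rfl⟩

/-- A property of finite graphs, that is, a class of finite graphs. -/
abbrev GraphClass : Type 1 := ∀ (V : Type) [Finite V], SimpleGraph V → Prop

/-- The class `𝒞` is (first-order) transducible from the class `𝒟`. -/
def Transducible (𝒞 𝒟 : GraphClass) : Prop :=
  ∃ (c : ℕ) (ψ : (LG c).Formula (Fin 2)),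
    ∀ (W : Type) [Finite W] (H : SimpleGraph W), 𝒞 W H →
      ∃ (V : Type) (_ : Finite V) (G : SimpleGraph V), 𝒟 V G ∧
        ∃ C : Fin c → Set V, Nonempty (H ↪g interp G C ψ)

/-- A graph is planar if it has a drawing in the plane without crossings. -/
def Planar {V : Type} (G : SimpleGraph V) : Prop :=
  ∃ D : Drawing Plane G, ∀ e ∈ G.edgeSet, ∀ f ∈ G.edgeSet, e ≠ f → D.crossings e f = ∅

/-- The class of all planar graphs. -/
def PlanarGraphs : GraphClass := fun _ _ G => Planar G

/-- The class of all toroidal graphs. -/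
def ToroidalGraphs : GraphClass := fun _ _ G => Toroidal G

end Pool.Agent.Helper448.PDefs
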