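import Mathlib
import Pool.Agent.Helper448.TDefs

set_option autoImplicit false

namespace Pool.Agent.Helper448.TEmbed

open Set Pool.Agent.Helper448.TDefs

abbrev R2 := ℝ × ℝ

/-- The point at parameter `a` on the segment from `p` to `c`. -/
def lm (p c : R2) (a : ℝ) : R2 := p + a • (c - p)

lemma lm_zero (p c : R2) : lm p c 0 = p := by simp [lm]
lemma lm_one (p c : R2) : lm p c 1 = c := by simp [lm]

lemma lm_cont (p c : R2) : Continuous (lm p c) := by
  unfold lm; fun_prop

lemma lm_mem {O : Set R2} (hO : IsOpen O) (hc : Convex ℝ O) {p c : R2} (hp : p ∈ O)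
    (hcl : c ∈ closure O) {a : ℝ} (h0 : 0 ≤ a) (h1 : a < 1) : lm p c a ∈ O := by
  rcases h0.eq_or_lt with rfl | h0
  · rw [lm_zero]; exact hp
  have h := hc.openSegment_interior_closure_subset_interior (x := p) (y := c)
    (by rwa [hO.interior_eq]) hcl
  rw [hO.interior_eq] at h
  apply h
  refine ⟨1 - a, a, by linarith, h0, by ring, ?_⟩
  simp only [lm]
  module

lemma lm_inj {O : Set R2} {p c : R2} (hp : p ∈ O) (hc : c ∉ O) {a b : ℝ}
    (h : lm p c a = lm p c b) : a = b := by
  have hne : c - p ≠ 0 := by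
    intro h0
    rw [sub_eq_zero] at h0
    exact hc (h0 ▸ hp)
  simp only [lm, add_right_inj] at h
  exact smul_left_injective ℝ hne h

/-- Two spokes of a convex tile meet only at the centre. -/
lemma spoke {O : Set R2} (hO : IsOpen O) (hc : Convex ℝ O) {p c c' : R2} (hp : p ∈ O)
    (hcl : c ∈ closure O) (hcl' : c' ∈ closure O) (hn : c ∉ O) (hn' : c' ∉ O) {a b : ℝ}
    (h0 : 0 < a) (h0' : 0 < b) (h : lm p c a = lm p c' b) : c = c' := by
  have key : ∀ {c c' : R2} {a b : ℝ}, c ∈ closure O → c' ∈ closure O → c ∉ O → c' ∉ O →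
      0 < a → 0 < b → lm p c a = lm p c' b → a < b → False := by
    intro c c' a b h1 h2 h3 h4 h5 h6 h7 h8
    have h9 : c' = lm p c (a / b) := by
      simp only [lm, add_right_inj] at h7 ⊢
      have : c' - p = (a / b) • (c - p) := by
        rw [div_eq_inv_mul, mul_smul, h7, smul_smul, inv_mul_cancel₀ h6.ne', one_smul]
      rw [← this]; abel
    apply h4
    rw [h9]
    exact lm_mem hO hc hp h1 (by positivity) (by rw [div_lt_one h6]; exact h8)
  rcases lt_trichotomy a b with hlt | heq | hgt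
  · exact (key hcl hcl' hn hn' h0 h0' h hlt).elim
  · subst heq
    simp only [lm, add_right_inj] at h
    have := smul_right_injective R2 h0.ne' h
    exact sub_left_injective this
  · exact (key hcl' hcl hn' hn h0' h0 h.symm hgt).elim

section

variable {X : Type} [TopologicalSpace X] {V : Type} (π : R2 → X) (p : V → R2) (c : V → V → R2)

/-- The curve: from the centre of tile `x` to the contact point and on to the centre of `y`. -/
noncomputable def path (x y : V) (t : ℝ) : X :=
  if t ≤ 1 / 2 then π (lm (p x) (c x y) (2 * t)) else π (lm (p y) (c y x) (2 - 2 * t))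

variable {π p c}

lemma path_cont (hπ : Continuous π) {x y : V} (h : π (c x y) = π (c y x)) :
    Continuous (path π p c x y) := by
  unfold path
  apply Continuous.if_le
  · exact hπ.comp ((lm_cont _ _).comp (by fun_prop))
  · exact hπ.comp ((lm_cont _ _).comp (by fun_prop))
  · fun_prop
  · fun_prop
  · intro t ht
    have h1 : 2 * t = 1 := by rw [ht]; norm_num
    have h2 : 2 - 2 * t = 1 := by rw [ht]; norm_num
    rw [h2, h1, lm_one, lm_one, h]

/-- Data for placing a graph by tiles with contact points. -/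
structure Contacts (π : R2 → X) (G : SimpleGraph V) (O : V → Set R2) (p : V → R2)
    (c : V → V → R2) : Prop where
  open_ : ∀ v, IsOpen (O v)
  convex_ : ∀ v, Convex ℝ (O v)
  center : ∀ v, p v ∈ O v
  inj : ∀ u w, ∀ a ∈ O u, ∀ b ∈ O w, π a = π b → u = w ∧ a = b
  cl : ∀ x y, G.Adj x y → c x y ∈ closure (O x)
  match_ : ∀ x y, G.Adj x y → π (c x y) = π (c y x)
  off : ∀ x y, G.Adj x y → ∀ v, ∀ a ∈ O v, π (c x y) ≠ π a
  uniq : ∀ x y x' y', G.Adj x y → G.Adj x' y' → π (c x y) = π (c x' y') → s(x, y) = s(x', y')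

variable {G : SimpleGraph V} {O : V → Set R2}

/-- Trichotomy of the points of a curve. -/
lemma path_cases (H : Contacts π G O p c) {x y : V} (h : G.Adj x y) {t : ℝ} (h0 : 0 ≤ t)
    (h1 : t ≤ 1) :
    (path π p c x y t = π (c x y)) ∨
    (∃ a, 0 ≤ a ∧ a < 1 ∧ a = 2 * t ∧ path π p c x y t = π (lm (p x) (c x y) a)) ∨
    (∃ a, 0 ≤ a ∧ a < 1 ∧ a = 2 - 2 * t ∧ path π p c x y t = π (lm (p y) (c y x) a)) := by
  unfold path
  rcases lt_trichotomy t (1 / 2) with hlt | heq | hgt
  · right; left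
    refine ⟨2 * t, by linarith, by linarith, rfl, ?_⟩
    rw [if_pos hlt.le]
  · left
    rw [if_pos heq.le, heq]
    norm_num [lm_one]
  · right; right
    refine ⟨2 - 2 * t, by linarith, by linarith, rfl, ?_⟩
    rw [if_neg (not_le.mpr hgt)]

lemma c_notMem (H : Contacts π G O p c) {x y : V} (h : G.Adj x y) : c x y ∉ O x := fun h' =>
  H.off x y h x _ h' rfl

lemma path_half {x y : V} : path π p c x y (1 / 2) = π (c x y) := by
  unfold path
  rw [if_pos le_rfl]; norm_num [lm_one]

lemma path_inj (H : Contacts π G O p c) {x y : V} (h : G.Adj x y) {s t : ℝ} (hs0 : 0 ≤ s)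
    (hs1 : s ≤ 1) (ht0 : 0 ≤ t) (ht1 : t ≤ 1) (he : path π p c x y s = path π p c x y t) :
    s = t := by
  have half : ∀ {s : ℝ}, 0 ≤ s → s ≤ 1 → path π p c x y s = π (c x y) → s = 1 / 2 := by
    intro s h0 h1 hs
    rcases lt_trichotomy s (1 / 2) with hlt | heq | hgt
    · exfalso
      unfold path at hs
      rw [if_pos hlt.le] at hs
      exact H.off x y h x _ (lm_mem (H.open_ x) (H.convex_ x) (H.center x) (H.cl x y h)
        (by linarith) (by linarith)) hs.symm
    · exact heq
    · exfalso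
      unfold path at hs
      rw [if_neg (not_le.mpr hgt)] at hs
      exact H.off x y h y _ (lm_mem (H.open_ y) (H.convex_ y) (H.center y) (H.cl y x h.symm)
        (by linarith) (by linarith)) hs.symm
  have mem1 : ∀ {a : ℝ}, 0 ≤ a → a < 1 → lm (p x) (c x y) a ∈ O x := fun h0 h1 =>
    lm_mem (H.open_ x) (H.convex_ x) (H.center x) (H.cl x y h) h0 h1
  have mem2 : ∀ {a : ℝ}, 0 ≤ a → a < 1 → lm (p y) (c y x) a ∈ O y := fun h0 h1 =>
    lm_mem (H.open_ y) (H.convex_ y) (H.center y) (H.cl y x h.symm) h0 h1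
  rcases path_cases H h hs0 hs1 with h1 | ⟨a, ha0, ha1, ha, h1⟩ | ⟨a, ha0, ha1, ha, h1⟩
  · rw [half hs0 hs1 h1, half ht0 ht1 (he.symm.trans h1)]
  · rcases path_cases H h ht0 ht1 with h2 | ⟨b, hb0, hb1, hb, h2⟩ | ⟨b, hb0, hb1, hb, h2⟩
    · rw [half hs0 hs1 (he.trans h2), half ht0 ht1 h2]
    · rw [h1, h2] at he
      have := (H.inj x x _ (mem1 ha0 ha1) _ (mem1 hb0 hb1) he).2
      have := lm_inj (H.center x) (c_notMem H h) this
      linarith
    · rw [h1, h2] at he
      have := (H.inj x y _ (mem1 ha0 ha1) _ (mem2 hb0 hb1) he).1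
      exact (h.ne this).elim
  · rcases path_cases H h ht0 ht1 with h2 | ⟨b, hb0, hb1, hb, h2⟩ | ⟨b, hb0, hb1, hb, h2⟩
    · rw [half hs0 hs1 (he.trans h2), half ht0 ht1 h2]
    · rw [h1, h2] at he
      have := (H.inj y x _ (mem2 ha0 ha1) _ (mem1 hb0 hb1) he).1
      exact (h.ne this.symm).elim
    · rw [h1, h2] at he
      have := (H.inj y y _ (mem2 ha0 ha1) _ (mem2 hb0 hb1) he).2
      have := lm_inj (H.center y) (c_notMem H h.symm) this
      linarith

/-- Position of an inner point of a curve. -/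
lemma path_pos (H : Contacts π G O p c) {x y : V} (h : G.Adj x y) {t : ℝ} (h0 : 0 < t)
    (h1 : t < 1) :
    (path π p c x y t = π (c x y)) ∨
    (∃ u w a, s(u, w) = s(x, y) ∧ G.Adj u w ∧ 0 < a ∧ a < 1 ∧
      path π p c x y t = π (lm (p u) (c u w) a)) := by
  rcases lt_trichotomy t (1 / 2) with hlt | heq | hgt
  · right
    refine ⟨x, y, 2 * t, rfl, h, by linarith, by linarith, ?_⟩
    unfold path; rw [if_pos hlt.le]
  · left
    rw [heq, path_half]
  · right
    refine ⟨y, x, 2 - 2 * t, Sym2.eq_swap, h.symm, by linarith, by linarith, ?_⟩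
    unfold path; rw [if_neg (not_le.mpr hgt)]

lemma no_cross (H : Contacts π G O p c) {x y x' y' : V} (h : G.Adj x y) (h' : G.Adj x' y')
    (hne : s(x, y) ≠ s(x', y')) {s t : ℝ} (hs0 : 0 < s) (hs1 : s < 1) (ht0 : 0 < t) (ht1 : t < 1)
    (he : path π p c x y s = path π p c x' y' t) : False := by
  rcases path_pos H h hs0 hs1 with h1 | ⟨u, w, a, hu, ha, ha0, ha1, h1⟩
  · rcases path_pos H h' ht0 ht1 with h2 | ⟨u', w', b, hu', hb, hb0, hb1, h2⟩
    · exact hne (H.uniq _ _ _ _ h h' (by rw [← h1, ← h2, he]))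
    · exact H.off x y h u' _ (lm_mem (H.open_ _) (H.convex_ _) (H.center _) (H.cl _ _ hb) hb0.le
        hb1) (by rw [← h1, ← h2, he])
  · have hm := lm_mem (H.open_ _) (H.convex_ _) (H.center _) (H.cl _ _ ha) ha0.le ha1
    rcases path_pos H h' ht0 ht1 with h2 | ⟨u', w', b, hu', hb, hb0, hb1, h2⟩
    · exact H.off x' y' h' u _ hm (by rw [← h1, ← h2, he])
    · have hm' := lm_mem (H.open_ _) (H.convex_ _) (H.center _) (H.cl _ _ hb) hb0.le hb1
      rw [h1, h2] at he
      obtain ⟨huu, hab⟩ := H.inj _ _ _ hm _ hm' he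
      subst huu
      have := spoke (H.open_ _) (H.convex_ _) (H.center _) (H.cl _ _ ha) (H.cl _ _ hb)
        (c_notMem H ha) (c_notMem H hb) ha0 hb0 hab
      apply hne
      rw [← hu, ← hu']
      exact H.uniq _ _ _ _ ha hb (by rw [this])

theorem exists_drawing (hπ : Continuous π) (H : Contacts π G O p c) :
    ∃ D : Drawing X G, ∀ e ∈ G.edgeSet, ∀ f ∈ G.edgeSet, e ≠ f → D.crossings e f = ∅ := by
  classical
  have hout : ∀ e : Sym2 V, e ∈ G.edgeSet → G.Adj e.out.1 e.out.2 := by
    intro e he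
    have : s(e.out.1, e.out.2) = e := Quot.out_eq e
    rw [← this] at he
    exact he
  have heq : ∀ e : Sym2 V, s(e.out.1, e.out.2) = e := fun e => Quot.out_eq e
  refine ⟨⟨fun v => π (p v), fun e t => path π p c e.out.1 e.out.2 t, ?_, ?_, ?_, ?_, ?_⟩, ?_⟩
  · intro u v h
    exact (H.inj u v _ (H.center u) _ (H.center v) h).1
  · intro e he
    exact (path_cont hπ (H.match_ _ _ (hout e he))).comp continuous_subtype_val
  · intro e he s t hst
    exact Subtype.ext (path_inj H (hout e he) s.2.1 s.2.2 t.2.1 t.2.2 hst)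
  · intro e he
    have h0 : path π p c e.out.1 e.out.2 ((0 : unitInterval) : ℝ) = π (p e.out.1) := by
      unfold path; simp [lm_zero]
    have h1 : path π p c e.out.1 e.out.2 ((1 : unitInterval) : ℝ) = π (p e.out.2) := by
      unfold path; norm_num [lm_zero]
    rw [h0, h1]
    conv_rhs => rw [← heq e]
    rw [Sym2.map_mk]
  · intro e he v t ht
    have hadj := hout e he
    have hmem1 : e.out.1 ∈ e := Sym2.out_fst_mem e
    have hmem2 : e.out.2 ∈ e := Sym2.out_snd_mem e
    rcases path_cases H hadj t.2.1 t.2.2 with h1 | ⟨a, ha0, ha1, ha, h1⟩ | ⟨a, ha0, ha1, ha, h1⟩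
    · exact (H.off _ _ hadj v _ (H.center v) (h1.symm.trans ht)).elim
    · have := (H.inj _ v _ (lm_mem (H.open_ _) (H.convex_ _) (H.center _) (H.cl _ _ hadj) ha0 ha1)
        _ (H.center v) (h1.symm.trans ht)).1
      rw [← this]; exact hmem1
    · have := (H.inj _ v _ (lm_mem (H.open_ _) (H.convex_ _) (H.center _) (H.cl _ _ hadj.symm) ha0
        ha1) _ (H.center v) (h1.symm.trans ht)).1
      rw [← this]; exact hmem2
  · intro e he f hf hef
    rw [Set.eq_empty_iff_forall_notMem]
    rintro x ⟨⟨s, hs, hsx⟩, ⟨t, ht, htx⟩⟩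
    refine no_cross H (hout e he) (hout f hf) (by rw [heq, heq]; exact hef)
      (s := (s : ℝ)) (t := (t : ℝ)) ?_ ?_ ?_ ?_ (hsx.trans htx.symm)
    · exact_mod_cast hs.1
    · exact_mod_cast hs.2
    · exact_mod_cast ht.1
    · exact_mod_cast ht.2

end

end Pool.Agent.Helper448.TEmbed
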