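import Mathlib
import Pool.Agent.Helper448.TEmbed

set_option autoImplicit false

namespace Pool.Agent.Helper448.TTile

open Set Pool.Agent.Helper448.TDefs Pool.Agent.Helper448.TEmbed

/-- Axis-parallel rectangle data. -/
structure Rect where
  x0 : ℝ
  x1 : ℝ
  y0 : ℝ
  y1 : ℝ

/-- The open rectangle. -/
def Rect.op (r : Rect) : Set R2 := Ioo r.x0 r.x1 ×ˢ Ioo r.y0 r.y1

lemma Rect.isOpen (r : Rect) : IsOpen r.op := isOpen_Ioo.prod isOpen_Ioo

lemma Rect.convex (r : Rect) : Convex ℝ r.op := (convex_Ioo _ _).prod (convex_Ioo _ _)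

/-- Side contact. -/
def Side {X : Type} (π : R2 → X) (r s : Rect) (c1 c2 : R2) : Prop :=
  (∀ h : R2, π (c1 + h) = π (c2 + h)) ∧
  ((c1.1 = r.x1 ∧ r.y0 < c1.2 ∧ c1.2 < r.y1 ∧ c2.1 = s.x0 ∧ s.y0 < c2.2 ∧ c2.2 < s.y1) ∨
   (c1.2 = r.y1 ∧ r.x0 < c1.1 ∧ c1.1 < r.x1 ∧ c2.2 = s.y0 ∧ s.x0 < c2.1 ∧ c2.1 < s.x1))

variable {X : Type} [TopologicalSpace X] {V : Type} {π : R2 → X}

lemma near (hπ : Continuous π) (hop : IsOpenMap π) {r s : Rect} (hr : r.x0 < r.x1 ∧ r.y0 < r.y1)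
    (hs : s.x0 < s.x1 ∧ s.y0 < s.y1) {c1 c2 : R2} (h : Side π r s c1 c2) {q : Rect}
    (hq : π c1 ∈ closure (π '' q.op)) :
    (∃ a ∈ q.op, ∃ b ∈ r.op, π a = π b) ∨ (∃ a ∈ q.op, ∃ b ∈ s.op, π a = π b) := by
  obtain ⟨hm, hside⟩ := h
  -- a uniform statement
  have main : ∀ (φ : R2 → ℝ) (δ : ℝ), Continuous φ → 0 < δ → (∃ v : R2, ∀ h : R2, ∀ η : ℝ,
      φ (h + η • v) = φ h + η) →
      (∀ h : R2, |h.1| < δ → |h.2| < δ → φ h < 0 → c1 + h ∈ r.op) →
      (∀ h : R2, |h.1| < δ → |h.2| < δ → 0 < φ h → c2 + h ∈ s.op) →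
      (∃ a ∈ q.op, ∃ b ∈ r.op, π a = π b) ∨ (∃ a ∈ q.op, ∃ b ∈ s.op, π a = π b) := by
    intro φ δ hφ hδ ⟨v, hv⟩ h1 h2
    set B : Set R2 := {h | |h.1| < δ ∧ |h.2| < δ} with hB
    have hBo : IsOpen B := by
      have h1 : IsOpen {h : R2 | |h.1| < δ} := isOpen_lt continuous_fst.abs continuous_const
      have h2 : IsOpen {h : R2 | |h.2| < δ} := isOpen_lt continuous_snd.abs continuous_const
      exact h1.inter h2
    set f : R2 → R2 := fun h => c1 + h with hf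
    have hfo : IsOpenMap f := (Homeomorph.addLeft c1).isOpenMap
    have hN : IsOpen (π '' (f '' B)) := hop _ (hfo _ hBo)
    have h0 : (0 : R2) ∈ B := ⟨by simpa using hδ, by simpa using hδ⟩
    have hmemN : π c1 ∈ π '' (f '' B) := ⟨c1, ⟨0, h0, by simp [hf]⟩, rfl⟩
    obtain ⟨z, ⟨_, ⟨h, hh, rfl⟩, rfl⟩, hz⟩ := mem_closure_iff.mp hq _ hN hmemN
    -- the set of good displacements is open
    set W : Set R2 := B ∩ {h | π (c1 + h) ∈ π '' q.op} with hW
    have hWo : IsOpen W := by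
      apply hBo.inter
      exact (hop _ q.isOpen).preimage (hπ.comp (by fun_prop))
    have hhW : h ∈ W := ⟨hh, hz⟩
    have get : ∀ h' ∈ W, φ h' ≠ 0 → (∃ a ∈ q.op, ∃ b ∈ r.op, π a = π b) ∨
        (∃ a ∈ q.op, ∃ b ∈ s.op, π a = π b) := by
      rintro h' ⟨⟨hb1, hb2⟩, ⟨a, ha, hae⟩⟩ hne
      rcases lt_or_gt_of_ne hne with hlt | hgt
      · left
        exact ⟨a, ha, _, h1 h' hb1 hb2 hlt, hae⟩
      · right
        exact ⟨a, ha, _, h2 h' hb1 hb2 hgt, by rw [hae, hm]⟩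
    by_cases hne : φ h = 0
    · have hcont : Continuous (fun η : ℝ => h + η • v) := by fun_prop
      have hnh : ∀ᶠ η : ℝ in nhds 0, h + η • v ∈ W := by
        apply hcont.continuousAt.eventually_mem
        apply hWo.mem_nhds
        simpa using hhW
      obtain ⟨ε, hε, hball⟩ := Metric.eventually_nhds_iff.mp hnh
      have h3 := hball (y := ε / 2) (by
        rw [Real.dist_eq, sub_zero, abs_of_pos (by linarith)]; linarith)
      apply get _ h3
      rw [hv, hne]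
      linarith
    · exact get h hhW hne
  rcases hside with ⟨e1, e2, e3, e4, e5, e6⟩ | ⟨e1, e2, e3, e4, e5, e6⟩
  · refine main (fun h => h.1) (min (min (r.x1 - r.x0) (s.x1 - s.x0))
      (min (min (c1.2 - r.y0) (r.y1 - c1.2)) (min (c2.2 - s.y0) (s.y1 - c2.2)))) (by fun_prop)
      ?_ ⟨(1, 0), ?_⟩ ?_ ?_
    · simp only [lt_min_iff, sub_pos]
      exact ⟨⟨hr.1, hs.1⟩, ⟨e2, e3⟩, e5, e6⟩
    · intro h η; simp
    · intro h ha hb hc
      simp only [lt_min_iff, abs_lt] at ha hb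
      refine ⟨⟨?_, ?_⟩, ⟨?_, ?_⟩⟩ <;> simp only [Prod.fst_add, Prod.snd_add] <;> linarith
    · intro h ha hb hc
      simp only [lt_min_iff, abs_lt] at ha hb
      refine ⟨⟨?_, ?_⟩, ⟨?_, ?_⟩⟩ <;> simp only [Prod.fst_add, Prod.snd_add] <;> linarith
  · refine main (fun h => h.2) (min (min (r.y1 - r.y0) (s.y1 - s.y0))
      (min (min (c1.1 - r.x0) (r.x1 - c1.1)) (min (c2.1 - s.x0) (s.x1 - c2.1)))) (by fun_prop)
      ?_ ⟨(0, 1), ?_⟩ ?_ ?_
    · simp only [lt_min_iff, sub_pos]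
      exact ⟨⟨hr.2, hs.2⟩, ⟨e2, e3⟩, e5, e6⟩
    · intro h η; simp
    · intro h ha hb hc
      simp only [lt_min_iff, abs_lt] at ha hb
      refine ⟨⟨?_, ?_⟩, ⟨?_, ?_⟩⟩ <;> simp only [Prod.fst_add, Prod.snd_add] <;> linarith
    · intro h ha hb hc
      simp only [lt_min_iff, abs_lt] at ha hb
      refine ⟨⟨?_, ?_⟩, ⟨?_, ?_⟩⟩ <;> simp only [Prod.fst_add, Prod.snd_add] <;> linarith

lemma side_left {r s : Rect} {c1 c2 : R2} (h : Side π r s c1 c2) (hr : r.x0 < r.x1 ∧ r.y0 < r.y1) :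
    c1 ∈ closure r.op := by
  unfold Rect.op
  rw [closure_prod_eq, closure_Ioo hr.1.ne, closure_Ioo hr.2.ne]
  rcases h.2 with ⟨e1, e2, e3, e4, e5, e6⟩ | ⟨e1, e2, e3, e4, e5, e6⟩
  · exact ⟨⟨by rw [e1]; exact hr.1.le, e1.le⟩, ⟨e2.le, e3.le⟩⟩
  · exact ⟨⟨e2.le, e3.le⟩, ⟨by rw [e1]; exact hr.2.le, e1.le⟩⟩

lemma side_right {r s : Rect} {c1 c2 : R2} (h : Side π r s c1 c2)
    (hs : s.x0 < s.x1 ∧ s.y0 < s.y1) : c2 ∈ closure s.op := by
  unfold Rect.op
  rw [closure_prod_eq, closure_Ioo hs.1.ne, closure_Ioo hs.2.ne]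
  rcases h.2 with ⟨e1, e2, e3, e4, e5, e6⟩ | ⟨e1, e2, e3, e4, e5, e6⟩
  · exact ⟨⟨e4.ge, by rw [e4]; exact hs.1.le⟩, ⟨e5.le, e6.le⟩⟩
  · exact ⟨⟨e5.le, e6.le⟩, ⟨e4.ge, by rw [e4]; exact hs.2.le⟩⟩

theorem exists_drawing (hπ : Continuous π) (hop : IsOpenMap π) (G : SimpleGraph V)
    (E : V → V → Prop) (hE : ∀ u w, G.Adj u w ↔ E u w ∨ E w u) (has : ∀ u w, E u w → ¬ E w u)
    (R : V → Rect) (hR : ∀ v, (R v).x0 < (R v).x1 ∧ (R v).y0 < (R v).y1)
    (hinj : ∀ u w, ∀ a ∈ (R u).op, ∀ b ∈ (R w).op, π a = π b → u = w ∧ a = b)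
    (hside : ∀ u w, E u w → ∃ c1 c2, Side π (R u) (R w) c1 c2) :
    ∃ D : Drawing X G, ∀ e ∈ G.edgeSet, ∀ f ∈ G.edgeSet, e ≠ f → D.crossings e f = ∅ := by
  classical
  choose! C1 C2 hC using hside
  let c : V → V → R2 := fun x y => if E x y then C1 x y else C2 y x
  let p : V → R2 := fun v => (((R v).x0 + (R v).x1) / 2, ((R v).y0 + (R v).y1) / 2)
  -- properties of c
  have hc1 : ∀ x y, E x y → c x y = C1 x y := fun x y h => if_pos h
  have hc2 : ∀ x y, E x y → c y x = C2 x y := fun x y h => if_neg (has x y h)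
  have hcl : ∀ x y, G.Adj x y → c x y ∈ closure (R x).op := by
    intro x y h
    rcases (hE x y).mp h with h | h
    · rw [hc1 x y h]; exact side_left (hC x y h) (hR x)
    · rw [hc2 y x h]; exact side_right (hC y x h) (hR x)
  have hmatch : ∀ x y, G.Adj x y → π (c x y) = π (c y x) := by
    intro x y h
    rcases (hE x y).mp h with h | h
    · rw [hc1 x y h, hc2 x y h]; simpa using (hC x y h).1 0
    · rw [hc1 y x h, hc2 y x h]; simpa using ((hC y x h).1 0).symm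
  have hnear : ∀ x y, G.Adj x y → ∀ v, π (c x y) ∈ closure (π '' (R v).op) → v = x ∨ v = y := by
    have key : ∀ x y, E x y → ∀ v, π (C1 x y) ∈ closure (π '' (R v).op) → v = x ∨ v = y := by
      intro x y h v hv
      rcases near hπ hop (hR x) (hR y) (hC x y h) hv with ⟨a, ha, b, hb, hab⟩ | ⟨a, ha, b, hb, hab⟩
      · exact Or.inl (hinj v x a ha b hb hab).1
      · exact Or.inr (hinj v y a ha b hb hab).1
    intro x y h v hv
    rcases (hE x y).mp h with h' | h'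
    · rw [hc1 x y h'] at hv; exact key x y h' v hv
    · rw [hmatch x y h, hc1 y x h'] at hv; exact (key y x h' v hv).symm
  have hclπ : ∀ x y, G.Adj x y → π (c x y) ∈ closure (π '' (R x).op) := fun x y h =>
    image_closure_subset_closure_image hπ ⟨_, hcl x y h, rfl⟩
  refine TEmbed.exists_drawing (p := p) (c := c) (O := fun v => (R v).op) hπ
    ⟨fun v => (R v).isOpen, fun v => (R v).convex, ?_, hinj, hcl, hmatch, ?_, ?_⟩
  · intro v
    have := hR v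
    exact ⟨⟨by simp only [p]; linarith [this.1], by simp only [p]; linarith [this.1]⟩,
      ⟨by simp only [p]; linarith [this.2], by simp only [p]; linarith [this.2]⟩⟩
  · intro x y h v a ha he
    have hopen : IsOpen (π '' (R v).op) := hop _ (R v).isOpen
    have hmem : π (c x y) ∈ π '' (R v).op := ⟨a, ha, he.symm⟩
    obtain ⟨z, ⟨b, hb, hbz⟩, ⟨d, hd, hdz⟩⟩ := mem_closure_iff.mp (hclπ x y h) _ hopen hmem
    have h1 : v = x := (hinj v x b hb d hd (hbz.trans hdz.symm)).1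
    rw [hmatch x y h] at hmem
    obtain ⟨z, ⟨b, hb, hbz⟩, ⟨d, hd, hdz⟩⟩ := mem_closure_iff.mp (hclπ y x h.symm) _ hopen hmem
    have h2 : v = y := (hinj v y b hb d hd (hbz.trans hdz.symm)).1
    exact h.ne (h1.symm.trans h2)
  · intro x y x' y' h h' he
    have h1 := hnear x y h x' (by rw [he]; exact hclπ x' y' h')
    have h2 := hnear x y h y' (by rw [he, hmatch x' y' h']; exact hclπ y' x' h'.symm)
    have h3 := h'.ne
    rcases h1 with rfl | rfl
    · rcases h2 with rfl | rfl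
      · exact (h3 rfl).elim
      · rfl
    · rcases h2 with rfl | rfl
      · exact Sym2.eq_swap
      · exact (h3 rfl).elim

end Pool.Agent.Helper448.TTile
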