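import Mathlib
import Pool.Agent.Helper448.TTile

set_option autoImplicit false

namespace Pool.Agent.Helper448.TCov

open Set Pool.Agent.Helper448.TDefs Pool.Agent.Helper448.TEmbed Pool.Agent.Helper448.TTile

/-- The covering of the torus. -/
noncomputable def cov (q : R2) : Torus :=
  ((((q.1 + 2 * q.2) / 5 : ℝ) : UnitAddCircle), ((q.2 : ℝ) : UnitAddCircle))

/-- Linear change of coordinates. -/
noncomputable def lin : R2 ≃ₜ R2 where
  toFun q := ((q.1 + 2 * q.2) / 5, q.2)
  invFun q := (5 * q.1 - 2 * q.2, q.2)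
  left_inv q := by ext <;> simp <;> ring
  right_inv q := by ext <;> simp
  continuous_toFun := by fun_prop
  continuous_invFun := by fun_prop

lemma cov_eq : cov = (Prod.map (fun x : ℝ => (x : UnitAddCircle))
    (fun x : ℝ => (x : UnitAddCircle))) ∘ lin := by
  ext q <;> rfl

lemma cov_continuous : Continuous cov := by
  rw [cov_eq]
  exact ((AddCircle.continuous_mk' 1).prodMap (AddCircle.continuous_mk' 1)).comp lin.continuous

lemma cov_open : IsOpenMap cov := by
  rw [cov_eq]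
  exact (QuotientAddGroup.isOpenMap_coe.prodMap QuotientAddGroup.isOpenMap_coe).comp lin.isOpenMap

lemma coe_eq_iff (a b : ℝ) : (a : UnitAddCircle) = (b : UnitAddCircle) ↔ ∃ n : ℤ, b = a + n := by
  constructor
  · intro h
    have h1 : ((b - a : ℝ) : UnitAddCircle) = 0 := by
      rw [AddCircle.coe_sub, h, sub_self]
    obtain ⟨n, hn⟩ := (AddCircle.coe_eq_zero_iff (1 : ℝ)).mp h1
    refine ⟨n, ?_⟩
    have : (n : ℝ) = b - a := by simpa using hn
    linarith
  · rintro ⟨n, rfl⟩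
    have h1 : ((n : ℝ) : UnitAddCircle) = 0 :=
      (AddCircle.coe_eq_zero_iff (1 : ℝ)).mpr ⟨n, by simp⟩
    rw [AddCircle.coe_add, h1, add_zero]

lemma cov_shift (c1 c2 : R2) (m n : ℤ) (h2 : c2.2 = c1.2 + n)
    (h1 : c2.1 + 2 * c2.2 = c1.1 + 2 * c1.2 + 5 * m) (h : R2) : cov (c1 + h) = cov (c2 + h) := by
  unfold cov
  ext
  · simp only
    rw [coe_eq_iff]
    refine ⟨m, ?_⟩
    simp only [Prod.fst_add, Prod.snd_add]
    linarith
  · simp only
    rw [coe_eq_iff]
    refine ⟨n, ?_⟩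
    simp only [Prod.snd_add]
    linarith

lemma cov_inj {q r : R2} (hq : q ∈ Ioo (0 : ℝ) 5 ×ˢ Ioo (0 : ℝ) 1)
    (hr : r ∈ Ioo (0 : ℝ) 5 ×ˢ Ioo (0 : ℝ) 1) (h : cov q = cov r) : q = r := by
  have h1 := congrArg Prod.fst h
  have h2 := congrArg Prod.snd h
  simp only [cov] at h1 h2
  rw [coe_eq_iff] at h1 h2
  obtain ⟨m, hm⟩ := h1
  obtain ⟨n, hn⟩ := h2
  obtain ⟨⟨a1, a2⟩, a3, a4⟩ := hq
  obtain ⟨⟨b1, b2⟩, b3, b4⟩ := hr
  have hn0 : n = 0 := by
    have c1 : (n : ℝ) < 1 := by linarith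
    have c2 : (-1 : ℝ) < n := by linarith
    have c1' : n < 1 := by exact_mod_cast c1
    have c2' : -1 < n := by exact_mod_cast c2
    omega
  subst hn0
  have hm0 : m = 0 := by
    have c1 : (m : ℝ) < 1 := by push_cast at hn; linarith
    have c2 : (-1 : ℝ) < m := by push_cast at hn; linarith
    have c1' : m < 1 := by exact_mod_cast c1
    have c2' : -1 < m := by exact_mod_cast c2
    omega
  subst hm0
  push_cast at hn hm
  ext
  · linarith
  · linarith

end Pool.Agent.Helper448.TCov
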