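import Mathlib
import Pool.Agent.Helper448.TCov

set_option autoImplicit false

namespace Pool.Agent.Helper448.TGraph

open Set Pool.Agent.Helper448.TDefs Pool.Agent.Helper448.TEmbed Pool.Agent.Helper448.TTile
  Pool.Agent.Helper448.TCov

/-- Vertex codes: hub vertices and band vertices. -/
inductive Vx
  | hub (a : Fin 5) (X j : ℕ)
  | band (d : Bool) (a : Fin 5) (t y : ℕ)
  deriving DecidableEq

/-- Exponent of the hub `a`. -/
def ex (m : ℕ) (a : Fin 5) : ℕ := m * (a.val + 1)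

/-- The other end of the band `(d, a)`. -/
def nb (d : Bool) (a : Fin 5) : Fin 5 := if d then a + 2 else a + 1

/-- Level after `t` steps when moving from `x` to `y`. -/
def lev (x y t : ℕ) : ℕ := if x ≤ y then min (x + t) y else max (x - t) y

/-- Level of column `t` of the band `(d, a)`. -/
def bl (m : ℕ) (d : Bool) (a : Fin 5) (t : ℕ) : ℕ := lev (ex m a) (ex m (nb d a)) t

/-- Valid codes. -/
def valid (m : ℕ) : Vx → Prop
  | .hub a X j => X < 2 * 2 ^ ex m a ∧ j < 2 ^ ex m a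
  | .band d a t y => t < 5 * m ∧ y < 2 ^ bl m d a t

/-- Row `y` at level `l` meets row `y'` at level `l'`. -/
def St (l l' y y' : ℕ) : Prop := y' / 2 ^ (l' - l) = y / 2 ^ (l - l')

/-- Directed edges. -/
inductive E (m : ℕ) : Vx → Vx → Prop
  | hh (a : Fin 5) (X j : ℕ) (h1 : X + 1 < 2 * 2 ^ ex m a) (h2 : j < 2 ^ ex m a) :
      E m (.hub a X j) (.hub a (X + 1) j)
  | hv (a : Fin 5) (X j : ℕ) (h1 : X < 2 * 2 ^ ex m a) (h2 : j + 1 < 2 ^ ex m a)
      (h3 : (X + j) % 2 = 1) : E m (.hub a X j) (.hub a X (j + 1))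
  | s0 (a : Fin 5) (y : ℕ) (h1 : y < 2 ^ ex m a) :
      E m (.hub a (2 * 2 ^ ex m a - 1) y) (.band false a 0 y)
  | s1 (a : Fin 5) (y : ℕ) (h1 : y < 2 ^ ex m a) :
      E m (.hub a (2 * y) (2 ^ ex m a - 1)) (.band true a 0 y)
  | bb (d : Bool) (a : Fin 5) (t y y' : ℕ) (h1 : t + 1 < 5 * m) (h2 : y < 2 ^ bl m d a t)
      (h3 : y' < 2 ^ bl m d a (t + 1)) (h4 : St (bl m d a t) (bl m d a (t + 1)) y y') :
      E m (.band d a t y) (.band d a (t + 1) y')
  | e0 (a : Fin 5) (y : ℕ) (h1 : y < 2 ^ ex m (a + 1)) :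
      E m (.band false a (5 * m - 1) y) (.hub (a + 1) 0 y)
  | e1 (a : Fin 5) (y : ℕ) (h1 : y < 2 ^ ex m (a + 2)) :
      E m (.band true a (5 * m - 1) y) (.hub (a + 2) (2 * y) 0)

lemma ex_le (m : ℕ) (a : Fin 5) : ex m a ≤ 5 * m := by
  unfold ex
  have := a.isLt
  calc m * (a.val + 1) ≤ m * 5 := Nat.mul_le_mul_left _ (by omega)
    _ = 5 * m := by ring

lemma le_ex (m : ℕ) (a : Fin 5) : m ≤ ex m a := by
  unfold ex
  exact Nat.le_mul_of_pos_right _ (by omega)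

lemma ex_ne (m : ℕ) (hm : 0 < m) (a b : Fin 5) (h : a ≠ b) : ex m a ≠ ex m b := by
  unfold ex
  intro h'
  have := Nat.eq_of_mul_eq_mul_left hm h'
  exact h (Fin.ext (by omega))

lemma ex_lt (m : ℕ) (a b : Fin 5) (h : a < b) : ex m a + m ≤ ex m b := by
  unfold ex
  have : a.val + 1 ≤ b.val := h
  calc m * (a.val + 1) + m = m * (a.val + 1 + 1) := by ring
    _ ≤ m * (b.val + 1) := Nat.mul_le_mul_left _ (by omega)

lemma lev_zero (x y : ℕ) : lev x y 0 = x := by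
  unfold lev; split_ifs <;> omega

lemma lev_end (x y t : ℕ) (h : x ≤ y + t) (h' : y ≤ x + t) : lev x y t = y := by
  unfold lev; split_ifs <;> omega

lemma bl_zero (m : ℕ) (d : Bool) (a : Fin 5) : bl m d a 0 = ex m a := lev_zero _ _

lemma bl_end (m : ℕ) (hm : 0 < m) (d : Bool) (a : Fin 5) :
    bl m d a (5 * m - 1) = ex m (nb d a) := by
  apply lev_end
  · have h1 := ex_le m a
    have h2 := le_ex m (nb d a)
    omega
  · have h1 := ex_le m (nb d a)
    have h2 := le_ex m a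
    omega

lemma bl_le (m : ℕ) (d : Bool) (a : Fin 5) (t : ℕ) : bl m d a t ≤ 5 * m := by
  have h1 := ex_le m a
  have h2 := ex_le m (nb d a)
  unfold bl lev
  split_ifs <;> omega

lemma le_bl (m : ℕ) (d : Bool) (a : Fin 5) (t : ℕ) : m ≤ bl m d a t := by
  have h1 := le_ex m a
  have h2 := le_ex m (nb d a)
  unfold bl lev
  split_ifs <;> omega

lemma bl_up (m : ℕ) (d : Bool) (a : Fin 5) (h : ex m a ≤ ex m (nb d a)) (t : ℕ) :
    bl m d a t ≤ bl m d a (t + 1) ∧ bl m d a (t + 1) ≤ bl m d a t + 1 := by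
  unfold bl lev
  rw [if_pos h, if_pos h]
  omega

lemma bl_down (m : ℕ) (d : Bool) (a : Fin 5) (h : ¬ ex m a ≤ ex m (nb d a)) (t : ℕ) :
    bl m d a (t + 1) ≤ bl m d a t ∧ bl m d a t ≤ bl m d a (t + 1) + 1 := by
  unfold bl lev
  rw [if_neg h, if_neg h]
  omega

lemma E_valid (m : ℕ) (hm : 0 < m) {u w : Vx} (h : E m u w) : valid m u ∧ valid m w := by
  cases h with
  | hh a X j h1 h2 => exact ⟨⟨by omega, h2⟩, ⟨h1, h2⟩⟩
  | hv a X j h1 h2 h3 => exact ⟨⟨h1, by omega⟩, ⟨h1, h2⟩⟩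
  | s0 a y h1 =>
    refine ⟨⟨by have := Nat.one_le_two_pow (n := ex m a); omega, h1⟩, ⟨by omega, ?_⟩⟩
    rw [bl_zero]; exact h1
  | s1 a y h1 =>
    refine ⟨⟨by omega, by omega⟩, ⟨by omega, ?_⟩⟩
    rw [bl_zero]; exact h1
  | bb d a t y y' h1 h2 h3 h4 => exact ⟨⟨by omega, h2⟩, ⟨h1, h3⟩⟩
  | e0 a y h1 =>
    refine ⟨⟨by omega, ?_⟩, ⟨by omega, h1⟩⟩
    rw [bl_end m hm]; exact h1
  | e1 a y h1 =>
    refine ⟨⟨by omega, ?_⟩, ⟨by omega, by omega⟩⟩
    rw [bl_end m hm]; exact h1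

lemma E_asymm (m : ℕ) (hm : 0 < m) {u w : Vx} (h : E m u w) : ¬ E m w u := by
  intro h'
  have key : ∀ u' w', E m u' w' → u' = w → w' = u → False := by
    intro u' w' h'' e1 e2
    cases h <;> cases h'' <;>
      simp only [Vx.hub.injEq, Vx.band.injEq, reduceCtorEq] at e1 e2 <;>
      (try simp only [Bool.true_eq_false, Bool.false_eq_true, false_and] at e1 e2) <;> omega
  exact key _ _ h' rfl rfl

lemma E_irrefl (m : ℕ) (hm : 0 < m) (u : Vx) : ¬ E m u u := fun h => E_asymm m hm h h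

/-- The vertex type. -/
abbrev W (m : ℕ) : Type := {v : Vx // valid m v}

/-- The graph. -/
def G (m : ℕ) (hm : 0 < m) : SimpleGraph (W m) where
  Adj u w := E m u.1 w.1 ∨ E m w.1 u.1
  symm := ⟨fun _ _ h => h.symm⟩
  loopless := ⟨fun u h => by
    rcases h with h | h <;> exact E_irrefl m hm _ h⟩

end Pool.Agent.Helper448.TGraph
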