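import Mathlib

set_option autoImplicit false

namespace Pool.Agent.Helper448.TProb

open Finset

section

variable {ι : Type} [Fintype ι] {M : ℕ}

/-- Proportion of the samples with property `A`. -/
noncomputable def pr (A : (ι → Fin M) → Prop) : ℝ :=
  ({ω | A ω}.ncard : ℝ) / (M : ℝ) ^ Fintype.card ι

lemma pr_nonneg (A : (ι → Fin M) → Prop) : 0 ≤ pr A := by
  unfold pr; positivity

lemma pr_mono {A B : (ι → Fin M) → Prop} (h : ∀ ω, A ω → B ω) : pr A ≤ pr B := by
  unfold pr
  gcongr
  · exact Set.toFinite _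
  · exact h _

lemma pr_false : pr (fun _ : ι → Fin M => False) = 0 := by
  unfold pr; simp

lemma pr_or (A B : (ι → Fin M) → Prop) : pr (fun ω => A ω ∨ B ω) ≤ pr A + pr B := by
  unfold pr
  rw [← add_div]
  gcongr
  have h := Set.ncard_union_le {ω | A ω} {ω | B ω}
  exact_mod_cast h

lemma pr_exists {κ : Type} (s : Finset κ) (A : κ → (ι → Fin M) → Prop) :
    pr (fun ω => ∃ i ∈ s, A i ω) ≤ ∑ i ∈ s, pr (A i) := by
  classical
  induction s using Finset.induction_on with
  | empty => simp [pr_false]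
  | insert a s ha ih =>
    rw [sum_insert ha]
    refine le_trans ?_ (add_le_add_right ih _)
    refine le_trans (pr_mono (B := fun ω => A a ω ∨ ∃ i ∈ s, A i ω) ?_) (pr_or _ _)
    rintro ω ⟨i, hi, h⟩
    rcases mem_insert.mp hi with rfl | hi
    · exact Or.inl h
    · exact Or.inr ⟨i, hi, h⟩

lemma exists_not (hM : 0 < M) {A : (ι → Fin M) → Prop} (h : pr A < 1) : ∃ ω, ¬ A ω := by
  classical
  by_contra hcon
  push Not at hcon
  have h1 : {ω | A ω} = (Set.univ : Set (ι → Fin M)) := by
    ext ω; simp [hcon ω]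
  have hM' : (M : ℝ) ≠ 0 := by exact_mod_cast hM.ne'
  have h2 : pr A = 1 := by
    unfold pr
    rw [h1, Set.ncard_univ, Nat.card_eq_fintype_card, Fintype.card_fun, Fintype.card_fin,
      Nat.cast_pow]
    exact div_self (pow_ne_zero _ hM')
  rw [h2] at h
  exact lt_irrefl _ h

lemma pr_pi (hM : 0 < M) (S : ι → Finset (Fin M)) :
    pr (fun ω => ∀ k, ω k ∈ S k) = ∏ k, ((S k).card : ℝ) / M := by
  classical
  unfold pr
  have h1 : {ω : ι → Fin M | ∀ k, ω k ∈ S k} = (Fintype.piFinset S : Set (ι → Fin M)) := by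
    ext ω; simp
  rw [h1, Set.ncard_coe_finset, Fintype.card_piFinset, Finset.prod_div_distrib, prod_const,
    Nat.cast_prod, card_univ]

lemma pr_one (hM : 0 < M) (i : ι) (A : Finset (Fin M)) :
    pr (fun ω => ω i ∈ A) = (A.card : ℝ) / M := by
  classical
  have hM' : (M : ℝ) ≠ 0 := by exact_mod_cast hM.ne'
  have h1 : pr (fun ω : ι → Fin M => ω i ∈ A) =
      pr (fun ω => ∀ k, ω k ∈ (if k = i then A else univ)) := by
    congr 1
    ext ω
    constructor
    · intro h k
      by_cases hk : k = i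
      · subst hk; simpa using h
      · simp [hk]
    · intro h
      simpa using h i
  rw [h1, pr_pi hM, Fintype.prod_eq_single i]
  · simp
  · intro k hk
    rw [if_neg hk, card_univ, Fintype.card_fin, div_self hM']

lemma pr_two (hM : 0 < M) {i j : ι} (hij : i ≠ j) (A B : Finset (Fin M)) :
    pr (fun ω => ω i ∈ A ∧ ω j ∈ B) = (A.card : ℝ) / M * ((B.card : ℝ) / M) := by
  classical
  have hM' : (M : ℝ) ≠ 0 := by exact_mod_cast hM.ne'
  have h1 : pr (fun ω : ι → Fin M => ω i ∈ A ∧ ω j ∈ B) =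
      pr (fun ω => ∀ k, ω k ∈ (if k = i then A else if k = j then B else univ)) := by
    congr 1
    ext ω
    constructor
    · rintro ⟨h, h'⟩ k
      by_cases hk : k = i
      · subst hk; simpa using h
      · by_cases hk' : k = j
        · subst hk'; simpa [hk] using h'
        · simp [hk, hk']
    · intro h
      refine ⟨by simpa using h i, by simpa [hij.symm] using h j⟩
  rw [h1, pr_pi hM, Fintype.prod_eq_mul i j hij]
  · simp [hij.symm]
  · rintro k ⟨hk, hk'⟩
    rw [if_neg hk, if_neg hk', card_univ, Fintype.card_fin, div_self hM']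

end

/-- The block number of `u` at level `l`, among `2 ^ K`. -/
def val (K l u : ℕ) : ℕ := u / 2 ^ (K - l)

lemma val_lt {K l u : ℕ} (hl : l ≤ K) (hu : u < 2 ^ K) : val K l u < 2 ^ l := by
  unfold val
  rw [Nat.div_lt_iff_lt_mul (by positivity), ← pow_add]
  rwa [show l + (K - l) = K by omega]

lemma card_val (K l r : ℕ) :
    (univ.filter (fun u : Fin (2 ^ K) => val K l u = r)).card ≤ 2 ^ (K - l) := by
  classical
  have h1 : ((univ.filter (fun u : Fin (2 ^ K) => val K l u = r)).image (fun u : Fin (2 ^ K) => u.val)) ⊆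
      Finset.Ico (r * 2 ^ (K - l)) ((r + 1) * 2 ^ (K - l)) := by
    intro x hx
    obtain ⟨u, hu, rfl⟩ := mem_image.mp hx
    have h2 := (mem_filter.mp hu).2
    unfold val at h2
    rw [mem_Ico]
    constructor
    · rw [← h2]; exact Nat.div_mul_le_self _ _
    · rw [← h2]; exact Nat.lt_mul_of_div_lt (Nat.lt_succ_self _) (by positivity)
  have h2 := card_le_card h1
  rw [card_image_of_injective _ Fin.val_injective, Nat.card_Ico] at h2
  refine h2.trans ?_
  rw [Nat.add_mul, one_mul, Nat.add_sub_cancel_left]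

lemma ratio (K l : ℕ) (hl : l ≤ K) : ((2 ^ (K - l) : ℕ) : ℝ) / ((2 ^ K : ℕ) : ℝ) = (1 / 2) ^ l := by
  push_cast
  rw [div_eq_iff (by positivity), one_div, inv_pow]
  rw [eq_inv_mul_iff_mul_eq₀ (by positivity), ← pow_add]
  rw [show l + (K - l) = K by omega]

lemma pr_val {ι : Type} [Fintype ι] {K l : ℕ} (hl : l ≤ K) (i : ι) (r : ℕ) :
    pr (fun ω : ι → Fin (2 ^ K) => val K l (ω i) = r) ≤ (1 / 2) ^ l := by
  have h := pr_one (M := 2 ^ K) (by positivity) i (univ.filter (fun u : Fin (2 ^ K) => val K l u = r))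
  simp only [mem_filter, mem_univ, true_and] at h
  rw [h, ← ratio K l hl]
  gcongr
  exact card_val K l r

lemma pr_val2 {ι : Type} [Fintype ι] {K l l' : ℕ} (hl : l ≤ K) (hl' : l' ≤ K) {i j : ι}
    (hij : i ≠ j) (r r' : ℕ) :
    pr (fun ω : ι → Fin (2 ^ K) => val K l (ω i) = r ∧ val K l' (ω j) = r') ≤
      (1 / 2) ^ l * (1 / 2) ^ l' := by
  have h := pr_two (M := 2 ^ K) (by positivity) hij
    (univ.filter (fun u : Fin (2 ^ K) => val K l u = r))
    (univ.filter (fun u : Fin (2 ^ K) => val K l' u = r'))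
  simp only [mem_filter, mem_univ, true_and] at h
  rw [h, ← ratio K l hl, ← ratio K l' hl']
  gcongr
  · exact card_val K l r
  · exact card_val K l' r'

end Pool.Agent.Helper448.TProb
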