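import Mathlib
import Pool.Agent.Helper448.TDeg
import Pool.Agent.Helper448.TProb

set_option autoImplicit false

namespace Pool.Agent.Helper448.TPath

open Pool.Agent.Helper448.TGraph Pool.Agent.Helper448.TDeg Pool.Agent.Helper448.TProb

/-- Names of the random coordinates. -/
abbrev Co := Bool × Bool × Fin 5

def row (x : Fin 5) : Co := (false, false, x)
def col (x : Fin 5) : Co := (false, true, x)
def strand (d : Bool) (a : Fin 5) : Co := (true, d, a)

/-- The coordinate giving the row used in the hub `x` by the band `(d, a)`. -/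
def rowc (d : Bool) (a x : Fin 5) : Co := if d then row x else strand d a
/-- The coordinate giving the column used in the hub `x` by the band `(d, a)`. -/
def colc (d : Bool) (a x : Fin 5) : Co := if d then strand d a else col x

/-- Samples. -/
abbrev Om (m : ℕ) := Co → Fin (2 ^ (5 * m))

/-- Value of a coordinate at a level. -/
def vl (m : ℕ) (ω : Om m) (i : Co) (l : ℕ) : ℕ := val (5 * m) l (ω i)

lemma vl_lt {m : ℕ} (ω : Om m) (i : Co) {l : ℕ} (hl : l ≤ 5 * m) : vl m ω i l < 2 ^ l :=
  val_lt hl (ω i).2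

/-- The directed edges used by the band `(d, a)`. -/
inductive U (m : ℕ) (d : Bool) (a : Fin 5) (ω : Om m) : Vx → Vx → Prop
  | rw (x : Fin 5) (hx : x = a ∨ x = nb d a) (X : ℕ) (h : X + 1 < 2 * 2 ^ ex m x) :
      U m d a ω (.hub x X (vl m ω (rowc d a x) (ex m x)))
        (.hub x (X + 1) (vl m ω (rowc d a x) (ex m x)))
  | rg (x : Fin 5) (hx : x = a ∨ x = nb d a) (j : ℕ) (h : j < 2 ^ ex m x) :
      U m d a ω (.hub x (2 * vl m ω (colc d a x) (ex m x)) j)
        (.hub x (2 * vl m ω (colc d a x) (ex m x) + 1) j)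
  | vt (x : Fin 5) (hx : x = a ∨ x = nb d a) (X j : ℕ)
      (h : X / 2 = vl m ω (colc d a x) (ex m x)) (h2 : j + 1 < 2 ^ ex m x)
      (h3 : (X + j) % 2 = 1) : U m d a ω (.hub x X j) (.hub x X (j + 1))
  | st : U m d a ω (sHub m d a (vl m ω (strand d a) (ex m a)))
      (.band d a 0 (vl m ω (strand d a) (ex m a)))
  | md (t : ℕ) (h : t + 1 < 5 * m) :
      U m d a ω (.band d a t (vl m ω (strand d a) (bl m d a t)))
        (.band d a (t + 1) (vl m ω (strand d a) (bl m d a (t + 1))))
  | en : U m d a ω (.band d a (5 * m - 1) (vl m ω (strand d a) (ex m (nb d a))))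
      (eHub d a (vl m ω (strand d a) (ex m (nb d a))))

lemma St_val {K l l' u : ℕ} (hl : l ≤ K) (hl' : l' ≤ K) : St l l' (val K l u) (val K l' u) := by
  unfold St val
  rw [Nat.div_div_eq_div_mul, Nat.div_div_eq_div_mul, ← pow_add, ← pow_add]
  congr 2
  omega

lemma U_E {m : ℕ} {d : Bool} {a : Fin 5} {ω : Om m} {u w : Vx}
    (h : U m d a ω u w) : E m u w := by
  cases h with
  | rw x hx X h => exact E.hh _ _ _ h (vl_lt ω _ (ex_le m x))
  | rg x hx j h =>
    have := vl_lt ω (colc d a x) (ex_le m x)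
    exact E.hh _ _ _ (by omega) h
  | vt x hx X j h h2 h3 =>
    have := vl_lt ω (colc d a x) (ex_le m x)
    exact E.hv _ _ _ (by omega) h2 h3
  | st =>
    cases d with
    | false => exact E.s0 _ _ (vl_lt ω _ (ex_le m a))
    | true => exact E.s1 _ _ (vl_lt ω _ (ex_le m a))
  | md t h =>
    exact E.bb _ _ _ _ _ h (vl_lt ω _ (bl_le m d a t)) (vl_lt ω _ (bl_le m d a (t + 1)))
      (St_val (bl_le m d a t) (bl_le m d a (t + 1)))
  | en =>
    cases d with
    | false => exact E.e0 _ _ (vl_lt ω _ (ex_le m _))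
    | true => exact E.e1 _ _ (vl_lt ω _ (ex_le m _))

/-- Connectedness through used edges. -/
def Conn (m : ℕ) (d : Bool) (a : Fin 5) (ω : Om m) : Vx → Vx → Prop :=
  Relation.ReflTransGen (fun u w => U m d a ω u w ∨ U m d a ω w u)

variable {m : ℕ} {d : Bool} {a : Fin 5} {ω : Om m}

lemma Conn.symm {u w : Vx} (h : Conn m d a ω u w) : Conn m d a ω w u := by
  induction h with
  | refl => exact Relation.ReflTransGen.refl
  | tail _ h ih => exact Relation.ReflTransGen.head h.symm ih

lemma Conn.trans' {u v w : Vx} (h : Conn m d a ω u v) (h' : Conn m d a ω v w) :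
    Conn m d a ω u w := Relation.ReflTransGen.trans h h'

lemma Conn.one {u w : Vx} (h : U m d a ω u w) : Conn m d a ω u w :=
  Relation.ReflTransGen.single (Or.inl h)

lemma conn_row0 (x : Fin 5) (hx : x = a ∨ x = nb d a) (X : ℕ) (h : X < 2 * 2 ^ ex m x) :
    Conn m d a ω (.hub x 0 (vl m ω (rowc d a x) (ex m x)))
      (.hub x X (vl m ω (rowc d a x) (ex m x))) := by
  induction X with
  | zero => exact Relation.ReflTransGen.refl
  | succ X ih => exact (ih (by omega)).trans' (Conn.one (U.rw x hx X h))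

lemma conn_row (x : Fin 5) (hx : x = a ∨ x = nb d a) (X X' : ℕ) (h : X < 2 * 2 ^ ex m x)
    (h' : X' < 2 * 2 ^ ex m x) :
    Conn m d a ω (.hub x X (vl m ω (rowc d a x) (ex m x)))
      (.hub x X' (vl m ω (rowc d a x) (ex m x))) :=
  (conn_row0 x hx X h).symm.trans' (conn_row0 x hx X' h')

lemma conn_col0 (x : Fin 5) (hx : x = a ∨ x = nb d a) (j : ℕ) (h : j < 2 ^ ex m x) :
    Conn m d a ω (.hub x (2 * vl m ω (colc d a x) (ex m x)) 0)
      (.hub x (2 * vl m ω (colc d a x) (ex m x)) j) := by
  induction j with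
  | zero => exact Relation.ReflTransGen.refl
  | succ j ih =>
    refine (ih (by omega)).trans' ?_
    set c := vl m ω (colc d a x) (ex m x) with hc
    by_cases hp : (2 * c + j) % 2 = 1
    · exact Conn.one (U.vt x hx _ _ (by rw [← hc]; omega) h hp)
    · have h1 : U m d a ω (.hub x (2 * c) j) (.hub x (2 * c + 1) j) := U.rg x hx j (by omega)
      have h2 : U m d a ω (.hub x (2 * c) (j + 1)) (.hub x (2 * c + 1) (j + 1)) :=
        U.rg x hx (j + 1) h
      have h3 : U m d a ω (.hub x (2 * c + 1) j) (.hub x (2 * c + 1) (j + 1)) :=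
        U.vt x hx _ _ (by rw [← hc]; omega) h (by omega)
      exact ((Conn.one h1).trans' (Conn.one h3)).trans' (Conn.one h2).symm

lemma conn_col (x : Fin 5) (hx : x = a ∨ x = nb d a) (j j' : ℕ) (h : j < 2 ^ ex m x)
    (h' : j' < 2 ^ ex m x) :
    Conn m d a ω (.hub x (2 * vl m ω (colc d a x) (ex m x)) j)
      (.hub x (2 * vl m ω (colc d a x) (ex m x)) j') :=
  (conn_col0 x hx j h).symm.trans' (conn_col0 x hx j' h')

lemma conn_band (hm : 0 < m) (t : ℕ) (h : t < 5 * m) :
    Conn m d a ω (.band d a 0 (vl m ω (strand d a) (ex m a)))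
      (.band d a t (vl m ω (strand d a) (bl m d a t))) := by
  induction t with
  | zero => rw [bl_zero]; exact Relation.ReflTransGen.refl
  | succ t ih => exact (ih (by omega)).trans' (Conn.one (U.md t h))

/-- The random centre of a hub. -/
def ctr (m : ℕ) (ω : Om m) (x : Fin 5) : Vx :=
  .hub x (2 * vl m ω (col x) (ex m x)) (vl m ω (row x) (ex m x))

/-- The crossing point of the used row and column. -/
def base (m : ℕ) (d : Bool) (a : Fin 5) (ω : Om m) (x : Fin 5) : Vx :=
  .hub x (2 * vl m ω (colc d a x) (ex m x)) (vl m ω (rowc d a x) (ex m x))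

lemma two_lt (i : Co) (x : Fin 5) : 2 * vl m ω i (ex m x) < 2 * 2 ^ ex m x := by
  have := vl_lt ω i (ex_le m x)
  omega

lemma conn_ctr (x : Fin 5) (hx : x = a ∨ x = nb d a) :
    Conn m d a ω (ctr m ω x) (base m d a ω x) := by
  cases d with
  | false => exact conn_col x hx _ _ (vl_lt ω _ (ex_le m x)) (vl_lt ω _ (ex_le m x))
  | true => exact conn_row x hx _ _ (two_lt _ _) (two_lt _ _)

lemma conn_s : Conn m d a ω (sHub m d a (vl m ω (strand d a) (ex m a))) (base m d a ω a) := by
  cases d with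
  | false =>
    have h : 0 < 2 ^ ex m a := by positivity
    exact conn_row a (Or.inl rfl) _ _ (by omega) (two_lt _ _)
  | true =>
    have h : 0 < 2 ^ ex m a := by positivity
    exact conn_col a (Or.inl rfl) _ _ (by omega) (vl_lt ω _ (ex_le m a))

lemma conn_e : Conn m d a ω (eHub d a (vl m ω (strand d a) (ex m (nb d a))))
    (base m d a ω (nb d a)) := by
  cases d with
  | false =>
    have h : 0 < 2 ^ ex m (nb false a) := by positivity
    exact conn_row (nb false a) (Or.inr rfl) _ _ (by omega) (two_lt _ _)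
  | true =>
    have h : 0 < 2 ^ ex m (nb true a) := by positivity
    exact conn_col (nb true a) (Or.inr rfl) _ _ h (vl_lt ω _ (ex_le m _))

theorem conn_main (hm : 0 < m) : Conn m d a ω (ctr m ω a) (ctr m ω (nb d a)) := by
  have h1 : Conn m d a ω (.band d a 0 (vl m ω (strand d a) (ex m a)))
      (.band d a (5 * m - 1) (vl m ω (strand d a) (ex m (nb d a)))) := by
    have := conn_band (m := m) (d := d) (a := a) (ω := ω) hm (5 * m - 1) (by omega)
    rwa [bl_end m hm] at this
  exact (conn_ctr a (Or.inl rfl)).trans' (conn_s.symm.trans' ((Conn.one U.st).trans'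
    (h1.trans' ((Conn.one U.en).trans' (conn_e.trans' (conn_ctr _ (Or.inr rfl)).symm)))))

/-- Regions of vertices: hubs and bands. -/
def reg : Vx → Fin 5 ⊕ (Bool × Fin 5)
  | .hub x _ _ => Sum.inl x
  | .band d a _ _ => Sum.inr (d, a)

/-- The region of the band `(d, a)` with its two hubs. -/
def inReg (d : Bool) (a : Fin 5) (v : Vx) : Prop :=
  reg v = Sum.inl a ∨ reg v = Sum.inl (nb d a) ∨ reg v = Sum.inr (d, a)

lemma U_reg {u w : Vx} (h : U m d a ω u w) : inReg d a u ∧ inReg d a w := by
  unfold inReg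
  cases h with
  | rw x hx X h => rcases hx with rfl | rfl <;> simp [reg]
  | rg x hx j h => rcases hx with rfl | rfl <;> simp [reg]
  | vt x hx X j h h2 h3 => rcases hx with rfl | rfl <;> simp [reg]
  | st => cases d <;> simp [reg, sHub]
  | md t h => simp [reg]
  | en => cases d <;> simp [reg, eHub, nb]

lemma reg_disj {d' : Bool} {a' : Fin 5} (h1 : a ≠ a') (h2 : a ≠ nb d' a') (h3 : nb d a ≠ a')
    (h4 : nb d a ≠ nb d' a') {v : Vx} (h : inReg d a v) (h' : inReg d' a' v) : False := by
  unfold inReg at h h'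
  rcases h with h | h | h <;> rcases h' with h' | h' | h' <;> rw [h] at h' <;>
    simp only [Sum.inl.injEq, Sum.inr.injEq, Prod.mk.injEq, reduceCtorEq] at h'
  · exact h1 h'
  · exact h2 h'
  · exact h3 h'
  · exact h4 h'
  · exact h1 h'.2

end Pool.Agent.Helper448.TPath
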