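import Mathlib
import Pool.Agent.Helper448.TCyl

set_option autoImplicit false

namespace Pool.Agent.Helper448.TCount

open Pool.Agent.Helper448.TGraph Pool.Agent.Helper448.TDeg Pool.Agent.Helper448.TProb
  Pool.Agent.Helper448.TPath Pool.Agent.Helper448.TCyl

/-- The two bands have no common hub. -/
def Disj (d : Bool) (a : Fin 5) (d' : Bool) (a' : Fin 5) : Prop :=
  a ≠ a' ∧ a ≠ nb d' a' ∧ nb d a ≠ a' ∧ nb d a ≠ nb d' a'

lemma Disj.symm {d : Bool} {a : Fin 5} {d' : Bool} {a' : Fin 5} (h : Disj d a d' a') :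
    Disj d' a' d a := ⟨h.1.symm, h.2.2.1.symm, h.2.1.symm, h.2.2.2.symm⟩

/-- The undirected edge `q` is used. -/
def Vu (m : ℕ) (d : Bool) (a : Fin 5) (q : Sym2 Vx) (ω : Om m) : Prop :=
  ∃ u w, s(u, w) = q ∧ U m d a ω u w

/-- A directed pair of vertices of the hub `y`. -/
def HP (y : Fin 5) (u w : Vx) : Prop :=
  (∃ X j, u = .hub y X j) ∧ ∃ X j, w = .hub y X j

/-- The undirected edge `q` is used and belongs to the hub `y`. -/
def Vh (m : ℕ) (d : Bool) (a : Fin 5) (y : Fin 5) (q : Sym2 Vx) (ω : Om m) : Prop :=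
  ∃ u w, s(u, w) = q ∧ HP y u w ∧ U m d a ω u w

variable {m : ℕ} {d : Bool} {a : Fin 5} {d' : Bool} {a' : Fin 5}

lemma pr_Vu (q : Sym2 Vx) : pr (Vu m d a q) ≤ 4 * (1 / 2) ^ m := by
  induction q with
  | _ u0 w0 =>
    have h1 : pr (Vu m d a s(u0, w0)) ≤
        pr (fun ω : Om m => U m d a ω u0 w0 ∨ U m d a ω w0 u0) := by
      apply pr_mono
      rintro ω ⟨u, w, he, hu⟩
      rcases Sym2.eq_iff.mp he with ⟨rfl, rfl⟩ | ⟨rfl, rfl⟩
      · exact Or.inl hu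
      · exact Or.inr hu
    refine h1.trans ((pr_or _ _).trans ?_)
    have h2 := (single (m := m) (d := d) (a := a) u0 w0).trans (wt_le u0 w0)
    have h3 := (single (m := m) (d := d) (a := a) w0 u0).trans (wt_le w0 u0)
    linarith

lemma joint_Vu (hd : Disj d a d' a') (u w : Vx) (q : Sym2 Vx) :
    pr (fun ω : Om m => U m d a ω u w ∧ Vu m d' a' q ω) ≤ wt m d a u w * (4 * (1 / 2) ^ m) := by
  induction q with
  | _ u0 w0 =>
    have h1 : pr (fun ω : Om m => U m d a ω u w ∧ Vu m d' a' s(u0, w0) ω) ≤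
        pr (fun ω : Om m => (U m d a ω u w ∧ U m d' a' ω u0 w0) ∨
          (U m d a ω u w ∧ U m d' a' ω w0 u0)) := by
      apply pr_mono
      rintro ω ⟨h, u, w, he, hu⟩
      rcases Sym2.eq_iff.mp he with ⟨rfl, rfl⟩ | ⟨rfl, rfl⟩
      · exact Or.inl ⟨h, hu⟩
      · exact Or.inr ⟨h, hu⟩
    refine h1.trans ((pr_or _ _).trans ?_)
    have h2 := joint (m := m) hd.1 hd.2.1 hd.2.2.1 hd.2.2.2 u w u0 w0
    have h3 := joint (m := m) hd.1 hd.2.1 hd.2.2.1 hd.2.2.2 u w w0 u0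
    have h4 := wt_nonneg (m := m) (d := d) (a := a) u w
    have h5 := wt_le (m := m) (d := d') (a := a') u0 w0
    have h6 := wt_le (m := m) (d := d') (a := a') w0 u0
    have h7 := mul_le_mul_of_nonneg_left h5 h4
    have h8 := mul_le_mul_of_nonneg_left h6 h4
    linarith

lemma joint_Vh (hd : Disj d a d' a') (u w : Vx) (y : Fin 5) (q : Sym2 Vx) :
    pr (fun ω : Om m => U m d a ω u w ∧ Vh m d' a' y q ω) ≤
      wt m d a u w * (4 * (1 / 2) ^ ex m y) := by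
  classical
  have h4 := wt_nonneg (m := m) (d := d) (a := a) u w
  have half : ∀ u0 w0 : Vx, pr (fun ω : Om m => HP y u0 w0 ∧ U m d a ω u w ∧
      U m d' a' ω u0 w0) ≤ wt m d a u w * (2 * (1 / 2) ^ ex m y) := by
    intro u0 w0
    by_cases hp : HP y u0 w0
    · refine (pr_mono (B := fun ω : Om m => U m d a ω u w ∧ U m d' a' ω u0 w0)
        (fun ω h => h.2)).trans ?_
      refine (joint (m := m) hd.1 hd.2.1 hd.2.2.1 hd.2.2.2 u w u0 w0).trans ?_
      obtain ⟨⟨X, j, rfl⟩, ⟨X', j', rfl⟩⟩ := hp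
      exact mul_le_mul_of_nonneg_left (wt_hub y y X j X' j') h4
    · refine (pr_mono (B := fun _ : Om m => False) (fun ω h => hp h.1)).trans ?_
      rw [pr_false]
      positivity
  induction q with
  | _ u0 w0 =>
    have h1 : pr (fun ω : Om m => U m d a ω u w ∧ Vh m d' a' y s(u0, w0) ω) ≤
        pr (fun ω : Om m => (HP y u0 w0 ∧ U m d a ω u w ∧ U m d' a' ω u0 w0) ∨
          (HP y w0 u0 ∧ U m d a ω u w ∧ U m d' a' ω w0 u0)) := by
      apply pr_mono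
      rintro ω ⟨h, u, w, he, hp, hu⟩
      rcases Sym2.eq_iff.mp he with ⟨rfl, rfl⟩ | ⟨rfl, rfl⟩
      · exact Or.inl ⟨hp, h, hu⟩
      · exact Or.inr ⟨hp, h, hu⟩
    refine h1.trans ((pr_or _ _).trans ?_)
    have h2 := half u0 w0
    have h3 := half w0 u0
    linarith

/-- Union bound over a family of directed pairs. -/
lemma fam {κ : Type} (s : Finset κ) (g : κ → Vx × Vx) (b cst : ℝ) (k : ℕ) (hb0 : 0 ≤ b)
    (hc0 : 0 ≤ cst) (B : Sym2 Vx → Om m → Prop) (T : Sym2 Vx → Finset (Sym2 Vx))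
    (hT : ∀ p, (T p).card ≤ k)
    (hB : ∀ u w q, pr (fun ω : Om m => U m d a ω u w ∧ B q ω) ≤ wt m d a u w * cst)
    (hb : ∀ i ∈ s, wt m d a (g i).1 (g i).2 ≤ b) :
    pr (fun ω : Om m => ∃ i ∈ s, ∃ q ∈ T s((g i).1, (g i).2),
      (U m d a ω (g i).1 (g i).2 ∧ B q ω)) ≤ s.card * (k * (b * cst)) := by
  refine (pr_exists s (fun i ω => ∃ q ∈ T s((g i).1, (g i).2),
      (U m d a ω (g i).1 (g i).2 ∧ B q ω))).trans ?_
  refine (Finset.sum_le_card_nsmul s _ (k * (b * cst)) ?_).trans (by rw [nsmul_eq_mul])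
  intro i hi
  refine (pr_exists (T s((g i).1, (g i).2)) (fun q ω =>
      (U m d a ω (g i).1 (g i).2 ∧ B q ω))).trans ?_
  refine (Finset.sum_le_card_nsmul (T s((g i).1, (g i).2)) _ (b * cst) ?_).trans ?_
  · intro q _
    exact (hB _ _ _).trans (mul_le_mul_of_nonneg_right (hb i hi) hc0)
  · rw [nsmul_eq_mul]
    have : ((T s((g i).1, (g i).2)).card : ℝ) ≤ k := by exact_mod_cast hT _
    have h2 : 0 ≤ b * cst := by positivity
    exact mul_le_mul_of_nonneg_right this h2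

lemma pr_ex_le {κ : Type} (s : Finset κ) (A : κ → Om m → Prop) (b : ℝ) (n : ℕ) (hn : s.card ≤ n)
    (hb : 0 ≤ b) (h : ∀ i ∈ s, pr (A i) ≤ b) : pr (fun ω : Om m => ∃ i ∈ s, A i ω) ≤ n * b := by
  refine (pr_exists s A).trans ((Finset.sum_le_card_nsmul s _ b h).trans ?_)
  rw [nsmul_eq_mul]
  have : (s.card : ℝ) ≤ n := by exact_mod_cast hn
  exact mul_le_mul_of_nonneg_right this hb

/-- Type I event. -/
def TI (m : ℕ) (Xr : Sym2 Vx → Sym2 Vx → Prop) (d : Bool) (a : Fin 5) (d' : Bool) (a' : Fin 5)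
    (x y : Fin 5) (ω : Om m) : Prop :=
  (Disj d a d' a' ∧ x < y) ∧ ∃ u w u' w', U m d a ω u w ∧ HP x u w ∧ U m d' a' ω u' w' ∧
    HP y u' w' ∧ Xr s(u, w) s(u', w')

lemma pr_TI (k : ℕ) (Xr : Sym2 Vx → Sym2 Vx → Prop) (T : Sym2 Vx → Finset (Sym2 Vx))
    (hT : ∀ p, (T p).card ≤ k) (hX : ∀ p q, Xr p q → q ∈ T p) (x y : Fin 5) :
    pr (TI m Xr d a d' a' x y) ≤ 32 * k * (1 / 2) ^ m := by
  by_cases hc : Disj d a d' a' ∧ x < y
  swap
  · refine (pr_mono (B := fun _ : Om m => False) (fun ω h => hc h.1)).trans ?_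
    rw [pr_false]; positivity
  obtain ⟨hd, hxy⟩ := hc
  set N := 2 ^ ex m x with hN
  let s : Finset (Bool × ℕ × ℕ) := Finset.univ ×ˢ (Finset.range (2 * N) ×ˢ Finset.range N)
  let g : Bool × ℕ × ℕ → Vx × Vx := fun i =>
    (.hub x i.2.1 i.2.2, if i.1 then .hub x (i.2.1 + 1) i.2.2 else .hub x i.2.1 (i.2.2 + 1))
  have h1 := fam (m := m) (d := d) (a := a) s g (2 * (1 / 2) ^ ex m x) (4 * (1 / 2) ^ ex m y) k
    (by positivity) (by positivity) (Vh m d' a' y) T hT (fun u w q => joint_Vh hd u w y q)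
    (by
      rintro ⟨f, X, j⟩ _
      simp only [g]
      cases f
      · simp only [Bool.false_eq_true, if_false]; exact wt_hub _ _ _ _ _ _
      · simp only [if_true]; exact wt_hub _ _ _ _ _ _)
  have h2 : pr (TI m Xr d a d' a' x y) ≤ pr (fun ω : Om m => ∃ i ∈ s, ∃ q ∈ T s((g i).1, (g i).2),
      (U m d a ω (g i).1 (g i).2 ∧ Vh m d' a' y q ω)) := by
    apply pr_mono
    rintro ω ⟨_, u, w, u', w', hu, ⟨⟨X, j, rfl⟩, hw⟩, hu', hp', hXr⟩
    have hval := (inv_hub_right (U_E hu))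
    obtain ⟨X', j', rfl⟩ := hw
    have hX0 : X < 2 * N ∧ j < N := by
      have hm : 0 < m ∨ m = 0 := by omega
      cases U_E hu with
      | hh _ _ _ h1 h2 => exact ⟨by omega, h2⟩
      | hv _ _ _ h1 h2 h3 => exact ⟨h1, by omega⟩
    rcases hval with ⟨h, _⟩ | ⟨h, _, _⟩ | ⟨h, _⟩ | ⟨_, _, _, h⟩
    · simp only [Vx.hub.injEq] at h
      obtain ⟨_, rfl, rfl⟩ := h
      refine ⟨(true, X, j'), ?_, s(u', w'), hX _ _ hXr, hu, u', w', rfl, hp', hu'⟩
      simp only [s, Finset.mem_product, Finset.mem_univ, Finset.mem_range, true_and]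
      exact hX0
    · simp only [Vx.hub.injEq] at h
      obtain ⟨_, rfl, rfl⟩ := h
      refine ⟨(false, X', j), ?_, s(u', w'), hX _ _ hXr, hu, u', w', rfl, hp', hu'⟩
      simp only [s, Finset.mem_product, Finset.mem_univ, Finset.mem_range, true_and]
      exact hX0
    · simp at h
    · simp at h
  refine h2.trans (h1.trans ?_)
  have hcard : (s.card : ℝ) = 4 * (N * N) := by
    simp only [s, Finset.card_product, Finset.card_range, Finset.card_univ, Fintype.card_bool]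
    push_cast; ring
  rw [hcard]
  have hNr : (N : ℝ) = 2 ^ ex m x := by rw [hN]; push_cast; rfl
  have e1 : (N : ℝ) * (1 / 2) ^ ex m x = 1 := by
    rw [hNr, ← mul_pow]; norm_num
  have hex := ex_lt m x y hxy
  have e2 : (N : ℝ) * (1 / 2) ^ ex m y ≤ (1 / 2) ^ m := by
    calc (N : ℝ) * (1 / 2) ^ ex m y ≤ N * (1 / 2) ^ (ex m x + m) := by
          gcongr (N : ℝ) * ?_
          exact pow_le_pow_of_le_one (by norm_num) (by norm_num) hex
      _ = (N * (1 / 2) ^ ex m x) * (1 / 2) ^ m := by rw [pow_add]; ring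
      _ = (1 / 2) ^ m := by rw [e1, one_mul]
  calc 4 * ((N : ℝ) * N) * (k * (2 * (1 / 2) ^ ex m x * (4 * (1 / 2) ^ ex m y)))
      = 32 * k * (N * (1 / 2) ^ ex m x) * (N * (1 / 2) ^ ex m y) := by ring
    _ = 32 * k * (N * (1 / 2) ^ ex m y) := by rw [e1, mul_one]
    _ ≤ 32 * k * (1 / 2) ^ m := by gcongr

/-- Type II event. -/
def TII (m : ℕ) (Xr : Sym2 Vx → Sym2 Vx → Prop) (d : Bool) (a : Fin 5) (d' : Bool) (a' : Fin 5)
    (ω : Om m) : Prop :=
  Disj d a d' a' ∧ ∃ u w u' w', U m d a ω u w ∧ (∀ x, ¬ HP x u w) ∧ U m d' a' ω u' w' ∧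
    Xr s(u, w) s(u', w')

lemma vl_div {ω : Om m} {i : Co} {l l' : ℕ} (h : l ≤ l') (h' : l' ≤ 5 * m) :
    vl m ω i l' / 2 ^ (l' - l) = vl m ω i l := by
  unfold vl val
  rw [Nat.div_div_eq_div_mul, ← pow_add]
  congr 2
  omega

lemma pr_TII (k : ℕ) (Xr : Sym2 Vx → Sym2 Vx → Prop) (T : Sym2 Vx → Finset (Sym2 Vx))
    (hT : ∀ p, (T p).card ≤ k) (hX : ∀ p q, Xr p q → q ∈ T p) :
    pr (TII m Xr d a d' a') ≤ (5 * m + 2) * (4 * k * (1 / 2) ^ m) := by
  by_cases hd : Disj d a d' a'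
  swap
  · refine (pr_mono (B := fun _ : Om m => False) (fun ω h => hd h.1)).trans ?_
    rw [pr_false]; positivity
  -- one column
  have one : ∀ (l : ℕ) (g : ℕ → Vx × Vx), (∀ z, wt m d a (g z).1 (g z).2 ≤ (1 / 2) ^ l) →
      pr (fun ω : Om m => ∃ i ∈ Finset.range (2 ^ l), ∃ q ∈ T s((g i).1, (g i).2),
        (U m d a ω (g i).1 (g i).2 ∧ Vu m d' a' q ω)) ≤ 4 * k * (1 / 2) ^ m := by
    intro l g hg
    have h1 := fam (m := m) (d := d) (a := a) (Finset.range (2 ^ l)) g ((1 / 2) ^ l)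
      (4 * (1 / 2) ^ m) k (by positivity) (by positivity) (Vu m d' a') T hT
      (fun u w q => joint_Vu hd u w q) (fun i _ => hg i)
    refine h1.trans (le_of_eq ?_)
    rw [Finset.card_range]
    have e1 : ((2 ^ l : ℕ) : ℝ) * (1 / 2) ^ l = 1 := by
      push_cast; rw [← mul_pow]; norm_num
    calc ((2 ^ l : ℕ) : ℝ) * (k * ((1 / 2) ^ l * (4 * (1 / 2) ^ m)))
        = (((2 ^ l : ℕ) : ℝ) * (1 / 2) ^ l) * (4 * k * (1 / 2) ^ m) := by ring
      _ = 4 * k * (1 / 2) ^ m := by rw [e1, one_mul]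
  -- the pieces
  let gs : ℕ → Vx × Vx := fun y => (sHub m d a y, .band d a 0 y)
  let ge : ℕ → Vx × Vx := fun y => (.band d a (5 * m - 1) y, eHub d a y)
  let L : ℕ → ℕ := fun t => max (bl m d a t) (bl m d a (t + 1))
  let gm : ℕ → ℕ → Vx × Vx := fun t z => (.band d a t (z / 2 ^ (L t - bl m d a t)),
    .band d a (t + 1) (z / 2 ^ (L t - bl m d a (t + 1))))
  have hs := one (ex m a) gs (fun z => by
    simp only [gs, sHub]
    cases d
    · simp only [Bool.false_eq_true, if_false]; rw [wt_hb]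
    · simp only [if_true]; rw [wt_hb])
  have he := one (ex m (nb d a)) ge (fun z => by
    simp only [ge, eHub]
    cases d
    · simp only [Bool.false_eq_true, if_false]; rw [wt_bh]
    · simp only [if_true]; rw [wt_bh])
  have hmid : ∀ t, pr (fun ω : Om m => ∃ i ∈ Finset.range (2 ^ L t),
      ∃ q ∈ T s((gm t i).1, (gm t i).2),
        (U m d a ω (gm t i).1 (gm t i).2 ∧ Vu m d' a' q ω)) ≤ 4 * k * (1 / 2) ^ m :=
    fun t => one (L t) (gm t) (fun z => by simp only [gm]; rw [wt_bb])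
  have hL : ∀ t, L t ≤ 5 * m := fun t => max_le (bl_le m d a t) (bl_le m d a (t + 1))
  have h2 : pr (TII m Xr d a d' a') ≤ pr (fun ω : Om m =>
      ((∃ i ∈ Finset.range (2 ^ ex m a), ∃ q ∈ T s((gs i).1, (gs i).2),
        (U m d a ω (gs i).1 (gs i).2 ∧ Vu m d' a' q ω)) ∨
      (∃ i ∈ Finset.range (2 ^ ex m (nb d a)), ∃ q ∈ T s((ge i).1, (ge i).2),
        (U m d a ω (ge i).1 (ge i).2 ∧ Vu m d' a' q ω))) ∨
      (∃ t ∈ Finset.range (5 * m), ∃ i ∈ Finset.range (2 ^ L t),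
        ∃ q ∈ T s((gm t i).1, (gm t i).2),
        (U m d a ω (gm t i).1 (gm t i).2 ∧ Vu m d' a' q ω))) := by
    apply pr_mono
    rintro ω ⟨_, u, w, u', w', hu, hnp, hu', hXr⟩
    have hVu : Vu m d' a' s(u', w') ω := ⟨u', w', rfl, hu'⟩
    have hq := hX _ _ hXr
    have hu0 := hu
    cases hu with
    | rw x hx X h => exact (hnp x ⟨⟨_, _, rfl⟩, ⟨_, _, rfl⟩⟩).elim
    | rg x hx j h => exact (hnp x ⟨⟨_, _, rfl⟩, ⟨_, _, rfl⟩⟩).elim
    | vt x hx X j h h2 h3 => exact (hnp x ⟨⟨_, _, rfl⟩, ⟨_, _, rfl⟩⟩).elim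
    | st =>
      left; left
      exact ⟨vl m ω (strand d a) (ex m a), Finset.mem_range.mpr (vl_lt ω _ (ex_le m a)),
        s(u', w'), hq, hu0, hVu⟩
    | md t h =>
      right
      have e1 : vl m ω (strand d a) (L t) / 2 ^ (L t - bl m d a t) =
          vl m ω (strand d a) (bl m d a t) := vl_div (le_max_left _ _) (hL t)
      have e2 : vl m ω (strand d a) (L t) / 2 ^ (L t - bl m d a (t + 1)) =
          vl m ω (strand d a) (bl m d a (t + 1)) := vl_div (le_max_right _ _) (hL t)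
      refine ⟨t, Finset.mem_range.mpr (by omega), vl m ω (strand d a) (L t),
        Finset.mem_range.mpr (vl_lt ω _ (hL t)), s(u', w'), ?_, ?_, hVu⟩
      · simp only [gm, e1, e2]; exact hq
      · simp only [gm, e1, e2]; exact hu0
    | en =>
      left; right
      exact ⟨vl m ω (strand d a) (ex m (nb d a)), Finset.mem_range.mpr (vl_lt ω _ (ex_le m _)),
        s(u', w'), hq, hu0, hVu⟩
  refine h2.trans ((pr_or _ _).trans ?_)
  have h3 := (pr_or (fun ω : Om m => (∃ i ∈ Finset.range (2 ^ ex m a), ∃ q ∈ T s((gs i).1, (gs i).2),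
        (U m d a ω (gs i).1 (gs i).2 ∧ Vu m d' a' q ω))) (fun ω =>
      (∃ i ∈ Finset.range (2 ^ ex m (nb d a)), ∃ q ∈ T s((ge i).1, (ge i).2),
        (U m d a ω (ge i).1 (ge i).2 ∧ Vu m d' a' q ω))))
  have h6 : pr (fun ω : Om m => ∃ t ∈ Finset.range (5 * m), ∃ i ∈ Finset.range (2 ^ L t),
        ∃ q ∈ T s((gm t i).1, (gm t i).2),
        (U m d a ω (gm t i).1 (gm t i).2 ∧ Vu m d' a' q ω)) ≤
        ((5 * m : ℕ) : ℝ) * (4 * k * (1 / 2) ^ m) :=
    pr_ex_le (Finset.range (5 * m)) (fun t (ω : Om m) => ∃ i ∈ Finset.range (2 ^ L t),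
        ∃ q ∈ T s((gm t i).1, (gm t i).2),
        (U m d a ω (gm t i).1 (gm t i).2 ∧ Vu m d' a' q ω)) _ _ (by rw [Finset.card_range])
      (by positivity) (fun t _ => hmid t)
  push_cast at h6
  linarith

/-- Existence of a good sample. -/
theorem exists_good (k : ℕ) (hk : (1 / 2 : ℝ) ^ m * (k * (40 + 100 * (4 * (5 * m + 2) + 800))) < 1)
    (Xr : Sym2 Vx → Sym2 Vx → Prop) (hsym : ∀ p q, Xr p q → Xr q p)
    (T : Sym2 Vx → Finset (Sym2 Vx)) (hT : ∀ p, (T p).card ≤ k) (hX : ∀ p q, Xr p q → q ∈ T p)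
    (F : Finset (Sym2 Vx)) (hF : F.card ≤ k) :
    ∃ ω : Om m, (∀ d a u w, U m d a ω u w → s(u, w) ∉ F) ∧
      ∀ d a d' a', Disj d a d' a' → ∀ u w u' w', U m d a ω u w → U m d' a' ω u' w' →
        ¬ Xr s(u, w) s(u', w') := by
  classical
  let B : Finset (Bool × Fin 5) := Finset.univ
  let A0 : Om m → Prop := fun ω => ∃ β ∈ B, ∃ q ∈ F, Vu m β.1 β.2 q ω
  let A2 : Om m → Prop := fun ω => ∃ β ∈ B, ∃ β' ∈ B, TII m Xr β.1 β.2 β'.1 β'.2 ω
  let A1 : Om m → Prop := fun ω => ∃ β ∈ B, ∃ β' ∈ B, ∃ x ∈ (Finset.univ : Finset (Fin 5)),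
    ∃ y ∈ (Finset.univ : Finset (Fin 5)), TI m Xr β.1 β.2 β'.1 β'.2 x y ω
  have hB : B.card = 10 := by simp [B]
  have p0 : pr A0 ≤ (10 : ℕ) * ((k : ℕ) * (4 * (1 / 2) ^ m)) := by
    refine pr_ex_le B (fun β ω => ∃ q ∈ F, Vu m β.1 β.2 q ω) _ _ hB.le (by positivity) ?_
    intro β _
    exact pr_ex_le F (fun q ω => Vu m β.1 β.2 q ω) _ _ hF (by positivity) (fun q _ => pr_Vu q)
  have p2 : pr A2 ≤ (10 : ℕ) * ((10 : ℕ) * ((5 * m + 2) * (4 * k * (1 / 2) ^ m))) := by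
    refine pr_ex_le B (fun β ω => ∃ β' ∈ B, TII m Xr β.1 β.2 β'.1 β'.2 ω) _ _ hB.le
      (by positivity) ?_
    intro β _
    refine pr_ex_le B (fun β' ω => TII m Xr β.1 β.2 β'.1 β'.2 ω) _ _ hB.le (by positivity) ?_
    intro β' _
    exact pr_TII k Xr T hT hX
  have hC : (Finset.univ : Finset (Fin 5)).card ≤ 5 := by simp
  have p1 : pr A1 ≤ (10 : ℕ) * ((10 : ℕ) * ((5 : ℕ) * ((5 : ℕ) * (32 * k * (1 / 2) ^ m)))) := by
    refine pr_ex_le B (fun β ω => ∃ β' ∈ B, ∃ x ∈ (Finset.univ : Finset (Fin 5)),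
      ∃ y ∈ (Finset.univ : Finset (Fin 5)), TI m Xr β.1 β.2 β'.1 β'.2 x y ω) _ _ hB.le
      (by positivity) ?_
    intro β _
    refine pr_ex_le B (fun β' ω => ∃ x ∈ (Finset.univ : Finset (Fin 5)),
      ∃ y ∈ (Finset.univ : Finset (Fin 5)), TI m Xr β.1 β.2 β'.1 β'.2 x y ω) _ _ hB.le
      (by positivity) ?_
    intro β' _
    refine pr_ex_le (Finset.univ : Finset (Fin 5)) (fun x ω =>
      ∃ y ∈ (Finset.univ : Finset (Fin 5)), TI m Xr β.1 β.2 β'.1 β'.2 x y ω) _ _ hC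
      (by positivity) ?_
    intro x _
    refine pr_ex_le (Finset.univ : Finset (Fin 5)) (fun y ω =>
      TI m Xr β.1 β.2 β'.1 β'.2 x y ω) _ _ hC (by positivity) ?_
    intro y _
    exact pr_TI k Xr T hT hX x y
  have hlt : pr (fun ω => (A0 ω ∨ A2 ω) ∨ A1 ω) < 1 := by
    have q1 := pr_or (fun ω => A0 ω ∨ A2 ω) A1
    have q2 := pr_or A0 A2
    refine lt_of_le_of_lt (q1.trans (add_le_add q2 le_rfl)) ?_
    have : pr A0 + pr A2 + pr A1 ≤
        (1 / 2 : ℝ) ^ m * (k * (40 + 100 * (4 * (5 * m + 2) + 800))) := by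
      refine (add_le_add (add_le_add p0 p2) p1).trans (le_of_eq ?_)
      push_cast
      ring
    linarith
  obtain ⟨ω, hω⟩ := exists_not (by positivity) hlt
  push Not at hω
  obtain ⟨⟨h0, h2⟩, h1⟩ := hω
  refine ⟨ω, ?_, ?_⟩
  · intro d a u w hu hq
    exact h0 ⟨(d, a), Finset.mem_univ _, s(u, w), hq, u, w, rfl, hu⟩
  · intro d a d' a' hd u w u' w' hu hu' hXr
    by_cases hp : ∃ x, HP x u w
    · by_cases hp' : ∃ y, HP y u' w'
      · obtain ⟨x, hx⟩ := hp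
        obtain ⟨y, hy⟩ := hp'
        have hxy : x ≠ y := by
          rintro rfl
          obtain ⟨⟨X, j, rfl⟩, _⟩ := hx
          obtain ⟨⟨X', j', rfl⟩, _⟩ := hy
          have r1 := (U_reg hu).1
          have r2 := (U_reg hu').1
          have r3 : inReg d a (Vx.hub x X' j') := by
            unfold inReg at r1 ⊢
            simpa [reg] using r1
          exact reg_disj hd.1 hd.2.1 hd.2.2.1 hd.2.2.2 r3 r2
        rcases lt_or_gt_of_ne hxy with h | h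
        · exact h1 ⟨(d, a), Finset.mem_univ _, (d', a'), Finset.mem_univ _, x, Finset.mem_univ _,
            y, Finset.mem_univ _, ⟨hd, h⟩, u, w, u', w', hu, hx, hu', hy, hXr⟩
        · exact h1 ⟨(d', a'), Finset.mem_univ _, (d, a), Finset.mem_univ _, y, Finset.mem_univ _,
            x, Finset.mem_univ _, ⟨hd.symm, h⟩, u', w', u, w, hu', hy, hu, hx, hsym _ _ hXr⟩
      · push Not at hp'
        exact h2 ⟨(d', a'), Finset.mem_univ _, (d, a), Finset.mem_univ _, hd.symm, u', w', u, w,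
          hu', hp', hu, hsym _ _ hXr⟩
    · push Not at hp
      exact h2 ⟨(d, a), Finset.mem_univ _, (d', a'), Finset.mem_univ _, hd, u, w, u', w',
        hu, hp, hu', hXr⟩

end Pool.Agent.Helper448.TCount
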