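import Mathlib
import Pool.Agent.Helper448.TCount
import Pool.Agent.Helper448.TGeo
import Pool.Agent.Helper448.VanKampen

set_option autoImplicit false

namespace Pool.Agent.Helper448.TFinal

open Pool.Agent.Helper448.TDefs Pool.Agent.Helper448.TGraph Pool.Agent.Helper448.TDeg
  Pool.Agent.Helper448.TProb Pool.Agent.Helper448.TPath Pool.Agent.Helper448.TCyl
  Pool.Agent.Helper448.TCount

/-- The band joining two different hubs. -/
def bandOf (a b : Fin 5) : Bool × Fin 5 :=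
  if b = a + 1 then (false, a) else if b = a + 2 then (true, a)
  else if a = b + 1 then (false, b) else (true, b)

lemma bandOf_spec : ∀ a b : Fin 5, a ≠ b →
    ((bandOf a b).2 = a ∧ nb (bandOf a b).1 (bandOf a b).2 = b) ∨
    ((bandOf a b).2 = b ∧ nb (bandOf a b).1 (bandOf a b).2 = a) := by
  decide

lemma disj_of (a b c d : Fin 5) (hab : a ≠ b) (hcd : c ≠ d) (h1 : a ≠ c) (h2 : a ≠ d)
    (h3 : b ≠ c) (h4 : b ≠ d) :
    Disj (bandOf a b).1 (bandOf a b).2 (bandOf c d).1 (bandOf c d).2 := by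
  unfold Disj
  rcases bandOf_spec a b hab with ⟨e1, e2⟩ | ⟨e1, e2⟩ <;>
  rcases bandOf_spec c d hcd with ⟨e3, e4⟩ | ⟨e3, e4⟩ <;>
  rw [e2, e4, e1, e3]
  · exact ⟨h1, h2, h3, h4⟩
  · exact ⟨h2, h1, h4, h3⟩
  · exact ⟨h3, h4, h1, h2⟩
  · exact ⟨h4, h3, h2, h1⟩

lemma nb_ne : ∀ (d : Bool) (a : Fin 5), nb d a ≠ a := by decide

lemma crossings_comm {X : Type} [TopologicalSpace X] {V : Type} {G : SimpleGraph V}
    (D : Drawing X G) (e f : Sym2 V) : D.crossings e f = D.crossings f e := by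
  ext x
  exact ⟨fun h => ⟨h.2, h.1⟩, fun h => ⟨h.2, h.1⟩⟩

section

variable {m : ℕ} {hm : 0 < m} {F : Set (Sym2 (W m))}
  (D : Drawing Plane ((G m hm).deleteEdges F))

/-- The used part of the drawing. -/
def SS (d : Bool) (a : Fin 5) (ω : Om m) : Set Plane :=
  {z | ∃ u w : W m, U m d a ω u.1 w.1 ∧ ∃ t, D.arc s(u, w) t = z}

variable {D}

lemma arc_mem {d : Bool} {a : Fin 5} {ω : Om m} (hF : ∀ u w : W m, U m d a ω u.1 w.1 →
    s(u, w) ∉ F) {u w : W m} (h : U m d a ω u.1 w.1) :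
    s(u, w) ∈ ((G m hm).deleteEdges F).edgeSet := by
  rw [SimpleGraph.edgeSet_deleteEdges]
  exact ⟨Or.inl (U_E h), hF u w h⟩

lemma joined_one {d : Bool} {a : Fin 5} {ω : Om m} (hF : ∀ u w : W m, U m d a ω u.1 w.1 →
    s(u, w) ∉ F) {u w : W m} (h : U m d a ω u.1 w.1) :
    JoinedIn (SS D d a ω) (D.pt u) (D.pt w) := by
  have he := arc_mem (hm := hm) hF h
  have hends := D.arc_ends _ he
  rw [Sym2.map_mk] at hends
  have hmem : ∀ t, D.arc s(u, w) t ∈ SS D d a ω := fun t => ⟨u, w, h, t, rfl⟩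
  have hc := D.arc_continuous _ he
  rcases Sym2.eq_iff.mp hends with ⟨h0, h1⟩ | ⟨h0, h1⟩
  · exact ⟨⟨⟨D.arc s(u, w), hc⟩, h0, h1⟩, hmem⟩
  · exact JoinedIn.symm ⟨⟨⟨D.arc s(u, w), hc⟩, h0, h1⟩, hmem⟩

lemma joined_conn {d : Bool} {a : Fin 5} {ω : Om m} (hF : ∀ u w : W m, U m d a ω u.1 w.1 →
    s(u, w) ∉ F) {u w : Vx} (h : Conn m d a ω u w) (hne : u ≠ w) (hu : valid m u) :
    ∃ hw : valid m w, JoinedIn (SS D d a ω) (D.pt ⟨u, hu⟩) (D.pt ⟨w, hw⟩) := by
  have hstep : ∀ x y : Vx, (U m d a ω x y ∨ U m d a ω y x) → valid m x ∧ valid m y := by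
    intro x y hxy
    rcases hxy with hxy | hxy
    · exact E_valid m hm (U_E hxy)
    · exact (E_valid m hm (U_E hxy)).symm
  have hj : ∀ (x y : Vx) (hx : valid m x) (hy : valid m y), (U m d a ω x y ∨ U m d a ω y x) →
      JoinedIn (SS D d a ω) (D.pt ⟨x, hx⟩) (D.pt ⟨y, hy⟩) := by
    intro x y hx hy hxy
    rcases hxy with hxy | hxy
    · exact joined_one hF (u := ⟨x, hx⟩) (w := ⟨y, hy⟩) hxy
    · exact (joined_one hF (u := ⟨y, hy⟩) (w := ⟨x, hx⟩) hxy).symm
  have hmem : D.pt ⟨u, hu⟩ ∈ SS D d a ω := by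
    rcases Relation.ReflTransGen.cases_head h with h0 | ⟨v, hv, _⟩
    · exact (hne h0).elim
    · exact (hj u v hu (hstep u v hv).2 hv).source_mem
  clear hne
  induction h with
  | refl => exact ⟨hu, JoinedIn.refl hmem⟩
  | tail _ hst ih =>
    obtain ⟨hv, hJ⟩ := ih
    have hy := (hstep _ _ hst).2
    exact ⟨hy, hJ.trans (hj _ _ hv hy hst)⟩

lemma SS_disjoint {ω : Om m} {d : Bool} {a : Fin 5} {d' : Bool} {a' : Fin 5}
    (hF : ∀ d a, ∀ u w : W m, U m d a ω u.1 w.1 → s(u, w) ∉ F) (hd : Disj d a d' a')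
    (hX : ∀ u w u' w' : W m, U m d a ω u.1 w.1 → U m d' a' ω u'.1 w'.1 →
      ¬ (D.crossings s(u, w) s(u', w')).Nonempty) :
    Disjoint (SS D d a ω) (SS D d' a' ω) := by
  rw [Set.disjoint_left]
  rintro z ⟨u, w, hu, t, ht⟩ ⟨u', w', hu', t', ht'⟩
  have he := arc_mem (hm := hm) (hF d a) hu
  have he' := arc_mem (hm := hm) (hF d' a') hu'
  have hr := U_reg hu
  have hr' := U_reg hu'
  -- vertices are disjoint
  have hv : ∀ v : W m, v ∈ s(u, w) → v ∈ s(u', w') → False := by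
    intro v h1 h2
    have h3 : inReg d a v.1 := by
      rcases Sym2.mem_iff.mp h1 with rfl | rfl
      · exact hr.1
      · exact hr.2
    have h4 : inReg d' a' v.1 := by
      rcases Sym2.mem_iff.mp h2 with rfl | rfl
      · exact hr'.1
      · exact hr'.2
    exact reg_disj hd.1 hd.2.1 hd.2.2.1 hd.2.2.2 h3 h4
  -- endpoints
  have hend : ∀ e ∈ ((G m hm).deleteEdges F).edgeSet, ∀ s : unitInterval, ¬ s ∈ Set.Ioo 0 1 →
      ∃ v, v ∈ e ∧ D.arc e s = D.pt v := by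
    intro e he s hs
    induction e with
    | _ x y =>
      have hends := D.arc_ends _ he
      rw [Sym2.map_mk] at hends
      have hs' : s = 0 ∨ s = 1 := by
        by_contra hcon
        push Not at hcon
        exact hs ⟨lt_of_le_of_ne unitInterval.nonneg' hcon.1.symm,
          lt_of_le_of_ne unitInterval.le_one' hcon.2⟩
      rcases Sym2.eq_iff.mp hends with ⟨h0, h1⟩ | ⟨h0, h1⟩ <;> rcases hs' with rfl | rfl
      · exact ⟨x, Sym2.mem_mk_left _ _, h0⟩
      · exact ⟨y, Sym2.mem_mk_right _ _, h1⟩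
      · exact ⟨y, Sym2.mem_mk_right _ _, h0⟩
      · exact ⟨x, Sym2.mem_mk_left _ _, h1⟩
  by_cases h1 : t ∈ Set.Ioo (0 : unitInterval) 1
  · by_cases h2 : t' ∈ Set.Ioo (0 : unitInterval) 1
    · exact hX u w u' w' hu hu' ⟨z, ⟨t, h1, ht⟩, ⟨t', h2, ht'⟩⟩
    · obtain ⟨v, hve, hvt⟩ := hend _ he' t' h2
      exact hv v (D.arc_avoids _ he v t (ht.trans (ht'.symm.trans hvt))) hve
  · obtain ⟨v, hve, hvt⟩ := hend _ he t h1
    exact hv v hve (D.arc_avoids _ he' v t' (ht'.trans (ht.symm.trans hvt)))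

end

/-- The plane as complex numbers. -/
noncomputable def phi (p : Plane) : ℂ := ⟨p 0, p 1⟩

lemma phi_cont : Continuous phi := by
  have : phi = fun p : Plane => ((p 0 : ℝ) : ℂ) + ((p 1 : ℝ) : ℂ) * Complex.I := by
    funext p
    apply Complex.ext <;> simp [phi]
  rw [this]
  fun_prop

lemma phi_inj : Function.Injective phi := by
  intro p q h
  have h0 : p 0 = q 0 := congrArg Complex.re h
  have h1 : p 1 = q 1 := congrArg Complex.im h
  ext i
  fin_cases i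
  · exact h0
  · exact h1

theorem not_kplanar (m : ℕ) (hm : 0 < m) (k : ℕ)
    (hk : (1 / 2 : ℝ) ^ m * (k * (40 + 100 * (4 * (5 * m + 2) + 800))) < 1)
    (F : Set (Sym2 (W m))) (hF : F.encard ≤ k) :
    ¬ KPlanar k ((G m hm).deleteEdges F) := by
  classical
  rintro ⟨D, _, hD⟩
  let em : Sym2 (W m) → Sym2 Vx := Sym2.map Subtype.val
  have hem : Function.Injective em := Sym2.map.injective Subtype.val_injective
  let Xr : Sym2 Vx → Sym2 Vx → Prop := fun p q => ∃ e f : Sym2 (W m), em e = p ∧ em f = q ∧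
    e ∈ ((G m hm).deleteEdges F).edgeSet ∧ f ∈ ((G m hm).deleteEdges F).edgeSet ∧ e ≠ f ∧ (D.crossings e f).Nonempty
  have hsym : ∀ p q, Xr p q → Xr q p := by
    rintro p q ⟨e, f, h1, h2, h3, h4, h5, h6⟩
    exact ⟨f, e, h2, h1, h4, h3, h5.symm, by rwa [crossings_comm]⟩
  have hfin : ∀ p, {q | Xr p q}.encard ≤ k := by
    intro p
    by_cases hp : ∃ e, em e = p ∧ e ∈ ((G m hm).deleteEdges F).edgeSet
    · obtain ⟨e, rfl, he⟩ := hp
      have hsub : {q | Xr (em e) q} ⊆ em '' (Prod.fst '' {q : Sym2 (W m) × Plane |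
          q.1 ∈ ((G m hm).deleteEdges F).edgeSet ∧ q.1 ≠ e ∧ q.2 ∈ D.crossings e q.1}) := by
        rintro q ⟨e', f, h1, h2, h3, h4, h5, ⟨x, hx⟩⟩
        have := hem h1
        subst this
        exact ⟨f, ⟨(f, x), ⟨h4, h5.symm, hx⟩, rfl⟩, h2⟩
      exact ((Set.encard_le_encard hsub).trans (Set.encard_image_le _ _)).trans
        ((Set.encard_image_le _ _).trans (hD e he))
    · have : {q | Xr p q} = ∅ := by
        rw [Set.eq_empty_iff_forall_notMem]
        rintro q ⟨e, f, h1, h2, h3, h4, h5, h6⟩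
        exact hp ⟨e, h1, h3⟩
      rw [this, Set.encard_empty]
      exact bot_le
  have hfin' : ∀ p, {q | Xr p q}.Finite ∧ {q | Xr p q}.ncard ≤ k := fun p =>
    Set.encard_le_coe_iff_finite_ncard_le.mp (hfin p)
  let T : Sym2 Vx → Finset (Sym2 Vx) := fun p => (hfin' p).1.toFinset
  have hT : ∀ p, (T p).card ≤ k := by
    intro p
    have := (hfin' p).2
    rwa [Set.ncard_eq_toFinset_card _ (hfin' p).1] at this
  have hX : ∀ p q, Xr p q → q ∈ T p := by
    intro p q h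
    rw [Set.Finite.mem_toFinset]
    exact h
  have hFe : (em '' F).encard ≤ k := (Set.encard_image_le _ _).trans hF
  obtain ⟨hFf, hFn⟩ := Set.encard_le_coe_iff_finite_ncard_le.mp hFe
  rw [Set.ncard_eq_toFinset_card _ hFf] at hFn
  obtain ⟨ω, hω1, hω2⟩ := exists_good (m := m) k hk Xr hsym T hT hX hFf.toFinset hFn
  have hF' : ∀ d a, ∀ u w : W m, U m d a ω u.1 w.1 → s(u, w) ∉ F := by
    intro d a u w hu hmem
    apply hω1 d a u.1 w.1 hu
    rw [Set.Finite.mem_toFinset]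
    exact ⟨s(u, w), hmem, rfl⟩
  have hval : ∀ x, valid m (ctr m ω x) := fun x =>
    ⟨two_lt _ _, vl_lt ω _ (ex_le m x)⟩
  have hctr : ∀ d a, ctr m ω a ≠ ctr m ω (nb d a) := by
    intro d a h
    unfold ctr at h
    rw [Vx.hub.injEq] at h
    exact nb_ne d a h.1.symm
  have hjoin : ∀ d a, JoinedIn (SS D d a ω) (D.pt ⟨_, hval a⟩) (D.pt ⟨_, hval (nb d a)⟩) := by
    intro d a
    obtain ⟨h1, h2⟩ := joined_conn (D := D) (hF' d a) (conn_main hm) (hctr d a) (hval a)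
    exact h2
  have hdis : ∀ d a d' a', Disj d a d' a' → Disjoint (SS D d a ω) (SS D d' a' ω) := by
    intro d a d' a' hd
    apply SS_disjoint hF' hd
    intro u w u' w' hu hu' hne
    apply hω2 d a d' a' hd u.1 w.1 u'.1 w'.1 hu hu'
    refine ⟨s(u, w), s(u', w'), rfl, rfl, arc_mem (hF' d a) hu, arc_mem (hF' d' a') hu', ?_, hne⟩
    intro he
    have hr := U_reg hu
    have hr' := U_reg hu'
    rcases Sym2.eq_iff.mp he with ⟨rfl, rfl⟩ | ⟨rfl, rfl⟩
    · exact reg_disj hd.1 hd.2.1 hd.2.2.1 hd.2.2.2 hr.1 hr'.1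
    · exact reg_disj hd.1 hd.2.1 hd.2.2.1 hd.2.2.2 hr.1 hr'.2
  refine VanKampen.k5_joined (fun x => phi (D.pt ⟨_, hval x⟩))
    (fun a b => phi '' SS D (bandOf a b).1 (bandOf a b).2 ω) ?_ ?_
  · intro a b hab
    have key : ∀ x y, JoinedIn (SS D (bandOf a b).1 (bandOf a b).2 ω) x y →
        JoinedIn (phi '' SS D (bandOf a b).1 (bandOf a b).2 ω) (phi x) (phi y) := by
      rintro x y ⟨γ, hγ⟩
      exact ⟨γ.map phi_cont, fun t => ⟨γ t, hγ t, rfl⟩⟩
    have hj := hjoin (bandOf a b).1 (bandOf a b).2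
    have heq : ∀ x y : Fin 5, x = y → D.pt ⟨_, hval x⟩ = D.pt ⟨_, hval y⟩ := by
      rintro x y rfl; rfl
    rcases bandOf_spec a b hab.ne with ⟨e1, e2⟩ | ⟨e1, e2⟩
    · rw [heq _ _ e1, heq _ _ e2] at hj
      exact key _ _ hj
    · rw [heq _ _ e1, heq _ _ e2] at hj
      exact key _ _ hj.symm
  · intro a b c d hab hcd h1 h2 h3 h4
    exact (Set.disjoint_image_iff phi_inj).mpr
      (hdis _ _ _ _ (disj_of a b c d hab.ne hcd.ne h1 h2 h3 h4))

lemma exists_m (k : ℕ) : ∃ m : ℕ, 0 < m ∧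
    (1 / 2 : ℝ) ^ m * (k * (40 + 100 * (4 * (5 * m + 2) + 800))) < 1 := by
  have h0 : Filter.Tendsto (fun m : ℕ => (1 / 2 : ℝ) ^ m) Filter.atTop (nhds 0) :=
    tendsto_pow_atTop_nhds_zero_of_lt_one (by norm_num) (by norm_num)
  have h1 : Filter.Tendsto (fun m : ℕ => (m : ℝ) ^ 1 * (1 / 2 : ℝ) ^ m) Filter.atTop (nhds 0) :=
    tendsto_pow_const_mul_const_pow_of_abs_lt_one 1 (by norm_num [abs_of_pos])
  have h2 := (h0.const_mul (k * 80840 : ℝ)).add (h1.const_mul (k * 2000 : ℝ))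
  rw [mul_zero, mul_zero, add_zero] at h2
  have h3 := (h2.eventually_lt_const (by norm_num : (0 : ℝ) < 1)).and
    (Filter.eventually_gt_atTop 0)
  obtain ⟨m, hm1, hm2⟩ := h3.exists
  refine ⟨m, hm2, ?_⟩
  refine lt_of_eq_of_lt ?_ hm1
  ring

instance finW (m : ℕ) : Finite (W m) := by
  have h : {v : Vx | valid m v}.Finite := by
    have h1 : {v : Vx | valid m v} ⊆
        (fun q : Fin 5 × ℕ × ℕ => Vx.hub q.1 q.2.1 q.2.2) ''
          (Set.univ ×ˢ (Set.Iio (2 * 2 ^ (5 * m)) ×ˢ Set.Iio (2 ^ (5 * m)))) ∪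
        (fun q : (Bool × Fin 5) × ℕ × ℕ => Vx.band q.1.1 q.1.2 q.2.1 q.2.2) ''
          (Set.univ ×ˢ (Set.Iio (5 * m) ×ˢ Set.Iio (2 ^ (5 * m)))) := by
      intro v hv
      cases v with
      | hub a X j =>
        left
        have h2 : 2 ^ ex m a ≤ 2 ^ (5 * m) := Nat.pow_le_pow_right (by norm_num) (ex_le m a)
        obtain ⟨h3, h4⟩ := hv
        exact ⟨(a, X, j), ⟨Set.mem_univ _, by simp only [Set.mem_Iio]; omega,
          by simp only [Set.mem_Iio]; omega⟩, rfl⟩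
      | band d a t y =>
        right
        have h2 : 2 ^ bl m d a t ≤ 2 ^ (5 * m) := Nat.pow_le_pow_right (by norm_num) (bl_le m d a t)
        obtain ⟨h3, h4⟩ := hv
        exact ⟨((d, a), t, y), ⟨Set.mem_univ _, by simp only [Set.mem_Iio]; omega,
          by simp only [Set.mem_Iio]; omega⟩, rfl⟩
    refine Set.Finite.subset ?_ h1
    apply Set.Finite.union
    · exact (Set.finite_univ.prod ((Set.finite_Iio _).prod (Set.finite_Iio _))).image _
    · exact (Set.finite_univ.prod ((Set.finite_Iio _).prod (Set.finite_Iio _))).image _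
  exact h.to_subtype

/-- For every `k` there is a finite toroidal graph of maximum degree at most 3 which is not
`k`-planar after deleting any set of at most `k` edges. -/
theorem main (k : ℕ) : ∃ (V : Type) (_ : Finite V) (G : SimpleGraph V), Toroidal G ∧
    (∀ v, (G.neighborSet v).encard ≤ 3) ∧
    ∀ F : Set (Sym2 V), F.encard ≤ k → ¬ KPlanar k (G.deleteEdges F) := by
  obtain ⟨m, hm, hk⟩ := exists_m k
  exact ⟨W m, inferInstance, G m hm, TGeo.toroidal m hm, degree m hm,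
    fun F hF => not_kplanar m hm k hk F hF⟩

end Pool.Agent.Helper448.TFinal
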