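import Mathlib
import Pool.Agent.Helper448.PDefs
import Pool.Agent.Helper448.PDec
import Pool.Agent.Helper448.TFinal

set_option autoImplicit false

namespace Pool.Agent.Helper448.PPlane

open Set Pool.Agent.Helper448.TDefs Pool.Agent.Helper448.PDefs Pool.Agent.Helper448.PWalk
  Pool.Agent.Helper448.PDec Pool.Agent.Helper448.TFinal

section

variable {V : Type} {G : SimpleGraph V} (D : Drawing Plane G)

/-- The part of the drawing over the vertex set `Y`. -/
def SS (Y : Set V) : Set Plane :=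
  {z | (∃ v ∈ Y, D.pt v = z) ∨ ∃ u w, u ∈ Y ∧ w ∈ Y ∧ G.Adj u w ∧ ∃ t, D.arc s(u, w) t = z}

variable {D}

lemma joined_edge {Y : Set V} {u w : V} (hu : u ∈ Y) (hw : w ∈ Y) (h : G.Adj u w) :
    JoinedIn (SS D Y) (D.pt u) (D.pt w) := by
  have he : s(u, w) ∈ G.edgeSet := h
  have hends := D.arc_ends _ he
  rw [Sym2.map_mk] at hends
  have hmem : ∀ t, D.arc s(u, w) t ∈ SS D Y := fun t => Or.inr ⟨u, w, hu, hw, h, t, rfl⟩
  have hc := D.arc_continuous _ he
  rcases Sym2.eq_iff.mp hends with ⟨h0, h1⟩ | ⟨h0, h1⟩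
  · exact ⟨⟨⟨D.arc s(u, w), hc⟩, h0, h1⟩, hmem⟩
  · exact JoinedIn.symm ⟨⟨⟨D.arc s(u, w), hc⟩, h0, h1⟩, hmem⟩

lemma joined_rch {Y : Set V} {u w : V} (h : Rch G Y u w) :
    JoinedIn (SS D Y) (D.pt u) (D.pt w) := by
  obtain ⟨n, h⟩ := h
  induction h with
  | refl n u hu => exact JoinedIn.refl (Or.inl ⟨u, hu, rfl⟩)
  | cons n u v w hu huv hw ih => exact (joined_edge hu hw.left_mem huv).trans ih

lemma ends {e : Sym2 V} (he : e ∈ G.edgeSet) (s : unitInterval) (hs : ¬ s ∈ Set.Ioo 0 1) :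
    ∃ v, v ∈ e ∧ D.arc e s = D.pt v := by
  induction e with
  | _ x y =>
    have hends := D.arc_ends _ he
    rw [Sym2.map_mk] at hends
    have hs' : s = 0 ∨ s = 1 := by
      by_contra hcon
      push Not at hcon
      exact hs ⟨lt_of_le_of_ne unitInterval.nonneg' hcon.1.symm,
        lt_of_le_of_ne unitInterval.le_one' hcon.2⟩
    rcases Sym2.eq_iff.mp hends with ⟨h0, h1⟩ | ⟨h0, h1⟩ <;> rcases hs' with rfl | rfl
    · exact ⟨x, Sym2.mem_mk_left _ _, h0⟩
    · exact ⟨y, Sym2.mem_mk_right _ _, h1⟩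
    · exact ⟨y, Sym2.mem_mk_right _ _, h0⟩
    · exact ⟨x, Sym2.mem_mk_left _ _, h1⟩

lemma disj_SS (hD : ∀ e ∈ G.edgeSet, ∀ f ∈ G.edgeSet, e ≠ f → D.crossings e f = ∅)
    {Y Z : Set V} (hYZ : Disjoint Y Z) : Disjoint (SS D Y) (SS D Z) := by
  rw [Set.disjoint_left] at hYZ ⊢
  have hmem : ∀ {Y : Set V} {u w x : V}, u ∈ Y → w ∈ Y → x ∈ s(u, w) → x ∈ Y := by
    intro Y u w x hu hw hx
    rcases Sym2.mem_iff.mp hx with rfl | rfl
    · exact hu
    · exact hw
  rintro z (⟨v, hv, hz⟩ | ⟨u, w, hu, hw, huw, t, ht⟩) (⟨v', hv', hz'⟩ | ⟨u', w', hu', hw', huw', t', ht'⟩)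
  · exact hYZ hv (by rwa [D.pt_injective (hz.trans hz'.symm)])
  · have := D.arc_avoids _ huw' v t' (ht'.trans hz.symm)
    exact hYZ hv (hmem hu' hw' this)
  · have := D.arc_avoids _ huw v' t (ht.trans hz'.symm)
    exact hYZ (hmem hu hw this) hv'
  · by_cases h1 : t ∈ Set.Ioo (0 : unitInterval) 1
    · by_cases h2 : t' ∈ Set.Ioo (0 : unitInterval) 1
      · have hne : s(u, w) ≠ s(u', w') := by
          intro heq
          exact hYZ (hmem hu hw (Sym2.mem_mk_left u w))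
            (hmem hu' hw' (by rw [← heq]; exact Sym2.mem_mk_left u w))
        have := hD _ huw _ huw' hne
        exact (Set.eq_empty_iff_forall_notMem.mp this) z ⟨⟨t, h1, ht⟩, ⟨t', h2, ht'⟩⟩
      · obtain ⟨v, hve, hvt⟩ := ends (D := D) (show s(u', w') ∈ G.edgeSet from huw') t' h2
        have h3 := D.arc_avoids _ huw v t (ht.trans (ht'.symm.trans hvt))
        exact hYZ (hmem hu hw h3) (hmem hu' hw' hve)
    · obtain ⟨v, hve, hvt⟩ := ends (D := D) (show s(u, w) ∈ G.edgeSet from huw) t h1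
      have h3 := D.arc_avoids _ huw' v t' (ht'.trans (ht.symm.trans hvt))
      exact hYZ (hmem hu hw hve) (hmem hu' hw' h3)

/-- In a planar graph there is no system of connected sets joining five vertices pairwise such
that the sets of disjoint pairs are disjoint. -/
theorem weak (hG : Planar G) (p : Fin 5 → V) (X : Fin 5 → Fin 5 → Set V)
    (h1 : ∀ a b, a < b → Rch G (X a b) (p a) (p b))
    (h2 : ∀ a b c d, a < b → c < d → a ≠ c → a ≠ d → b ≠ c → b ≠ d →
      Disjoint (X a b) (X c d)) : False := by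
  obtain ⟨D, hD⟩ := hG
  refine VanKampen.k5_joined (fun a => phi (D.pt (p a))) (fun a b => phi '' SS D (X a b)) ?_ ?_
  · intro a b hab
    obtain ⟨γ, hγ⟩ := joined_rch (D := D) (h1 a b hab)
    exact ⟨γ.map phi_cont, fun t => ⟨γ t, hγ t, rfl⟩⟩
  · intro a b c d hab hcd n1 n2 n3 n4
    exact (Set.disjoint_image_iff phi_inj).mpr (disj_SS hD (h2 a b c d hab hcd n1 n2 n3 n4))

/-- Planar graphs have no `K₅` minor. -/
theorem noK5 (hG : Planar G) : NoK5 G := by
  rintro ⟨X, h1, h2, h3, h4⟩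
  choose p hp using h1
  refine weak hG p (fun a b => X a ∪ X b) ?_ ?_
  · intro a b hab
    obtain ⟨u, hu, v, hv, huv⟩ := h4 a b hab.ne
    have e1 : Rch G (X a ∪ X b) (p a) u := (h2 a (p a) (hp a) u hu).mono Set.subset_union_left
    have e2 : Rch G (X a ∪ X b) u v :=
      Rch.single (Set.mem_union_left _ hu) (Set.mem_union_right _ hv) huv
    have e3 : Rch G (X a ∪ X b) v (p b) := (h2 b v hv (p b) (hp b)).mono Set.subset_union_right
    exact e1.trans (e2.trans e3)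
  · intro a b c d _ _ n1 n2 n3 n4
    rw [Set.disjoint_union_left, Set.disjoint_union_right, Set.disjoint_union_right]
    exact ⟨⟨h3 a c n1, h3 a d n2⟩, ⟨h3 b c n3, h3 b d n4⟩⟩

end

end Pool.Agent.Helper448.PPlane
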