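import Mathlib
import Pool.Agent.Helper448.PDefs
import Pool.Agent.Helper448.PWalk

set_option autoImplicit false

namespace Pool.Agent.Helper448.PLoc

open FirstOrder Pool.Agent.Helper448.PDefs Pool.Agent.Helper448.PWalk

/-- Indices of the pebbles. -/
abbrev Ix (n : ℕ) := Fin 2 ⊕ Fin n

/-- Atomic information about pebbles near a centre. -/
abbrev At (Λ : Type) (R n : ℕ) : Type :=
  (Ix n → Λ) × (Ix n → Fin (R + 1) → Prop) × (Ix n → Ix n → Prop) × (Ix n → Ix n → Prop)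

/-- Local types of rank `q`. -/
def T (Λ : Type) (R : ℕ) : ℕ → ℕ → Type
  | 0, n => At Λ R n
  | q + 1, n => At Λ R n × Set (T Λ R q (n + 1))

lemma T_finite (Λ : Type) [Finite Λ] (R q n : ℕ) : Finite (T Λ R q n) := by
  induction q generalizing n with
  | zero => exact inferInstanceAs (Finite (At Λ R n))
  | succ q ih =>
    have := ih (n + 1)
    exact inferInstanceAs (Finite (At Λ R n × Set (T Λ R q (n + 1))))

section

variable {V Λ : Type} (G : SimpleGraph V) (S : Set V) (lab : V → Λ) (R : ℕ)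

/-- Atomic information of the pebbles `x` seen from the centre `a`. -/
def att {n : ℕ} (a : V) (x : Ix n → V) : At Λ R n :=
  (fun i => lab (x i), fun i k => NW G Sᶜ k a (x i), fun i j => x i = x j,
    fun i j => G.Adj (x i) (x j))

/-- The local type of rank `q` of a tuple, seen from the centre `a`. -/
def tp (a : V) : (q n : ℕ) → (Fin 2 → V) → (Fin n → V) → T Λ R q n
  | 0, _, x, xs => att G S lab R a (Sum.elim x xs)
  | q + 1, n, x, xs => (att G S lab R a (Sum.elim x xs),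
      {t | ∃ y, NW G Sᶜ R a y ∧ t = tp a q (n + 1) x (Fin.snoc xs y)})

variable {G S lab R}

lemma tp_att {a b : V} {q n : ℕ} {x y : Fin 2 → V} {xs ys : Fin n → V}
    (h : tp G S lab R a q n x xs = tp G S lab R b q n y ys) :
    att G S lab R a (Sum.elim x xs) = att G S lab R b (Sum.elim y ys) := by
  cases q with
  | zero => exact h
  | succ q => exact congrArg Prod.fst h

lemma tp_ext {a b : V} {q n : ℕ} {x y : Fin 2 → V} {xs ys : Fin n → V}
    (h : tp G S lab R a (q + 1) n x xs = tp G S lab R b (q + 1) n y ys) (z : V)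
    (hz : NW G Sᶜ R a z) :
    ∃ z', NW G Sᶜ R b z' ∧
      tp G S lab R a q (n + 1) x (Fin.snoc xs z) = tp G S lab R b q (n + 1) y (Fin.snoc ys z') := by
  have h2 := congrArg Prod.snd h
  have h3 : tp G S lab R a q (n + 1) x (Fin.snoc xs z) ∈
      {t | ∃ y', NW G Sᶜ R b y' ∧ t = tp G S lab R b q (n + 1) y (Fin.snoc ys y')} := by
    have h4 : tp G S lab R a q (n + 1) x (Fin.snoc xs z) ∈
        {t | ∃ y', NW G Sᶜ R a y' ∧ t = tp G S lab R a q (n + 1) x (Fin.snoc xs y')} :=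
      ⟨z, hz, rfl⟩
    have h5 : {t | ∃ y', NW G Sᶜ R a y' ∧ t = tp G S lab R a q (n + 1) x (Fin.snoc xs y')} =
      {t | ∃ y', NW G Sᶜ R b y' ∧ t = tp G S lab R b q (n + 1) y (Fin.snoc ys y')} := h2
    rwa [h5] at h4
  exact h3

lemma att_spec {n : ℕ} {a b : V} {x y : Ix n → V}
    (h : att G S lab R a x = att G S lab R b y) :
    (∀ i, lab (x i) = lab (y i)) ∧ (∀ i, ∀ k ≤ R, NW G Sᶜ k a (x i) ↔ NW G Sᶜ k b (y i)) ∧
    (∀ i j, x i = x j ↔ y i = y j) ∧ (∀ i j, G.Adj (x i) (x j) ↔ G.Adj (y i) (y j)) := by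
  have h1 := congrArg Prod.fst h
  have h2 := congrArg (fun p => p.2.1) h
  have h3 := congrArg (fun p => p.2.2.1) h
  have h4 := congrArg (fun p => p.2.2.2) h
  refine ⟨fun i => congrFun h1 i, fun i k hk => ?_, fun i j => ?_, fun i j => ?_⟩
  · have := congrFun (congrFun h2 i) ⟨k, by omega⟩
    exact iff_of_eq this
  · exact iff_of_eq (congrFun (congrFun h3 i) j)
  · exact iff_of_eq (congrFun (congrFun h4 i) j)

/-- The game position: `x, xs` against `y, ys`, with `q` rounds left. -/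
def Conf (G : SimpleGraph V) (S : Set V) (lab : V → Λ) (R : ℕ) (a b : V) (q n : ℕ)
    (x : Fin 2 → V) (xs : Fin n → V) (y : Fin 2 → V) (ys : Fin n → V) : Prop :=
  ∃ (D E : ℕ) (xA xB yA yB : Fin 2 → V) (xsA xsB ysA ysB : Fin n → V),
    D + 2 ^ q ≤ E ∧ E ≤ R ∧
    tp G S lab R a q n xA xsA = tp G S lab R b q n yA ysA ∧
    tp G S lab R b q n xB xsB = tp G S lab R a q n yB ysB ∧
    ∀ i : Ix n,
      (Sum.elim x xs i = Sum.elim xA xsA i ∧ Sum.elim y ys i = Sum.elim yA ysA i ∧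
        NW G Sᶜ D a (Sum.elim x xs i) ∧ NW G Sᶜ D b (Sum.elim y ys i)) ∨
      (Sum.elim x xs i = Sum.elim xB xsB i ∧ Sum.elim y ys i = Sum.elim yB ysB i ∧
        NW G Sᶜ D b (Sum.elim x xs i) ∧ NW G Sᶜ D a (Sum.elim y ys i)) ∨
      (Sum.elim x xs i = Sum.elim y ys i ∧ (Sum.elim x xs i ∈ S ∨
        (¬ NW G Sᶜ E a (Sum.elim x xs i) ∧ ¬ NW G Sᶜ E b (Sum.elim x xs i))))

lemma Conf.symm {a b : V} {q n : ℕ} {x y : Fin 2 → V} {xs ys : Fin n → V}
    (h : Conf G S lab R a b q n x xs y ys) : Conf G S lab R a b q n y ys x xs := by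
  obtain ⟨D, E, xA, xB, yA, yB, xsA, xsB, ysA, ysB, h1, h2, h3, h4, h5⟩ := h
  refine ⟨D, E, yB, yA, xB, xA, ysB, ysA, xsB, xsA, h1, h2, h4.symm, h3.symm, fun i => ?_⟩
  rcases h5 i with ⟨e1, e2, e3, e4⟩ | ⟨e1, e2, e3, e4⟩ | ⟨e1, e2⟩
  · exact Or.inr (Or.inl ⟨e2, e1, e4, e3⟩)
  · exact Or.inl ⟨e2, e1, e4, e3⟩
  · refine Or.inr (Or.inr ⟨e1.symm, ?_⟩)
    rw [← e1]; exact e2

lemma ix_cases {n : ℕ} (i : Ix (n + 1)) :
    (∃ j : Ix n, ∀ (x : Fin 2 → V) (xs : Fin n → V) (z : V),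
      Sum.elim x (Fin.snoc xs z : Fin (n + 1) → V) i = Sum.elim x xs j) ∨
    (∀ (x : Fin 2 → V) (xs : Fin n → V) (z : V),
      Sum.elim x (Fin.snoc xs z : Fin (n + 1) → V) i = z) := by
  rcases i with i | i
  · left; exact ⟨Sum.inl i, fun x xs z => rfl⟩
  · induction i using Fin.lastCases with
    | last => right; intro x xs z; simp
    | cast j => left; exact ⟨Sum.inr j, fun x xs z => by simp⟩

/-- The duplicator can answer. -/
lemma Conf.step {a b : V} (ha : a ∉ S) (hb : b ∉ S) {q n : ℕ} {x y : Fin 2 → V}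
    {xs ys : Fin n → V} (h : Conf G S lab R a b (q + 1) n x xs y ys) (z : V) :
    ∃ z', Conf G S lab R a b q (n + 1) x (Fin.snoc xs z) y (Fin.snoc ys z') := by
  obtain ⟨D, E, xA, xB, yA, yB, xsA, xsB, ysA, ysB, h1, h2, h3, h4, h5⟩ := h
  have h1' : D + (2 ^ q + 2 ^ q) ≤ E := by rw [pow_succ] at h1; omega
  have hpos : 1 ≤ 2 ^ q := Nat.one_le_two_pow
  -- dummy answers
  obtain ⟨a', ha', hA'⟩ := tp_ext h3 a (.refl _ _ ha)
  obtain ⟨b', hb', hB'⟩ := tp_ext h4 b (.refl _ _ hb)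
  by_cases hzS : z ∈ S
  · refine ⟨z, D, E, xA, xB, yA, yB, Fin.snoc xsA a, Fin.snoc xsB b, Fin.snoc ysA a',
      Fin.snoc ysB b', by omega, h2, hA', hB', fun i => ?_⟩
    rcases ix_cases (V := V) i with ⟨j, hj⟩ | hj
    · simp only [hj]; exact h5 j
    · simp only [hj]; exact Or.inr (Or.inr ⟨trivial, Or.inl hzS⟩)
  by_cases hza : NW G Sᶜ (D + 2 ^ q) a z
  · obtain ⟨z', hz', hZ⟩ := tp_ext h3 z (hza.mono (by omega))
    refine ⟨z', D + 2 ^ q, E, xA, xB, yA, yB, Fin.snoc xsA z, Fin.snoc xsB b, Fin.snoc ysA z',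
      Fin.snoc ysB b', by omega, h2, hZ, hB', fun i => ?_⟩
    rcases ix_cases (V := V) i with ⟨j, hj⟩ | hj
    · simp only [hj]
      rcases h5 j with ⟨e1, e2, e3, e4⟩ | ⟨e1, e2, e3, e4⟩ | ⟨e1, e2⟩
      · exact Or.inl ⟨e1, e2, e3.mono (by omega), e4.mono (by omega)⟩
      · exact Or.inr (Or.inl ⟨e1, e2, e3.mono (by omega), e4.mono (by omega)⟩)
      · exact Or.inr (Or.inr ⟨e1, e2⟩)
    · have hd := (att_spec (tp_att hZ)).2.1 i (D + 2 ^ q) (by omega)
      simp only [hj] at hd ⊢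
      exact Or.inl ⟨trivial, trivial, hza, hd.mp hza⟩
  by_cases hzb : NW G Sᶜ (D + 2 ^ q) b z
  · obtain ⟨z', hz', hZ⟩ := tp_ext h4 z (hzb.mono (by omega))
    refine ⟨z', D + 2 ^ q, E, xA, xB, yA, yB, Fin.snoc xsA a, Fin.snoc xsB z, Fin.snoc ysA a',
      Fin.snoc ysB z', by omega, h2, hA', hZ, fun i => ?_⟩
    rcases ix_cases (V := V) i with ⟨j, hj⟩ | hj
    · simp only [hj]
      rcases h5 j with ⟨e1, e2, e3, e4⟩ | ⟨e1, e2, e3, e4⟩ | ⟨e1, e2⟩
      · exact Or.inl ⟨e1, e2, e3.mono (by omega), e4.mono (by omega)⟩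
      · exact Or.inr (Or.inl ⟨e1, e2, e3.mono (by omega), e4.mono (by omega)⟩)
      · exact Or.inr (Or.inr ⟨e1, e2⟩)
    · have hd := (att_spec (tp_att hZ)).2.1 i (D + 2 ^ q) (by omega)
      simp only [hj] at hd ⊢
      exact Or.inr (Or.inl ⟨trivial, trivial, hzb, hd.mp hzb⟩)
  · refine ⟨z, D, D + 2 ^ q, xA, xB, yA, yB, Fin.snoc xsA a, Fin.snoc xsB b, Fin.snoc ysA a',
      Fin.snoc ysB b', by omega, by omega, hA', hB', fun i => ?_⟩
    rcases ix_cases (V := V) i with ⟨j, hj⟩ | hj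
    · simp only [hj]
      rcases h5 j with ⟨e1, e2, e3, e4⟩ | ⟨e1, e2, e3, e4⟩ | ⟨e1, e2⟩
      · exact Or.inl ⟨e1, e2, e3, e4⟩
      · exact Or.inr (Or.inl ⟨e1, e2, e3, e4⟩)
      · refine Or.inr (Or.inr ⟨e1, ?_⟩)
        rcases e2 with e2 | ⟨e2, e3⟩
        · exact Or.inl e2
        · exact Or.inr ⟨fun h => e2 (h.mono (by omega)), fun h => e3 (h.mono (by omega))⟩
    · simp only [hj]; exact Or.inr (Or.inr ⟨trivial, Or.inr ⟨hza, hzb⟩⟩)

lemma far_pair {a b u v : V} {D : ℕ} (hD : D ≤ R) (hab : ¬ NW G Sᶜ (2 * R + 1) a b)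
    (hu : NW G Sᶜ D a u) (hv : NW G Sᶜ D b v) : u ≠ v ∧ ¬ G.Adj u v ∧ ¬ G.Adj v u := by
  have h1 : ¬ G.Adj u v := by
    intro h
    exact hab (((hu.trans (.single hu.right_mem hv.right_mem h)).trans hv.symm).mono (by omega))
  refine ⟨?_, h1, fun h => h1 h.symm⟩
  rintro rfl
  exact hab ((hu.trans hv.symm).mono (by omega))

lemma far_single {a u z : V} {D E : ℕ} (hD : D + 1 ≤ E) (hu : NW G Sᶜ D a u)
    (hz : ¬ NW G Sᶜ E a z) (hzS : z ∉ S) : u ≠ z ∧ ¬ G.Adj u z ∧ ¬ G.Adj z u := by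
  have h1 : ¬ G.Adj u z := by
    intro h
    exact hz ((hu.trans (.single hu.right_mem hzS h)).mono (by omega))
  refine ⟨?_, h1, fun h => h1 h.symm⟩
  rintro rfl
  exact hz (hu.mono (by omega))

/-- Atomic formulas agree in a position. -/
lemma Conf.atomic {a b : V} (hab : ¬ NW G Sᶜ (2 * R + 1) a b)
    (hlab : ∀ u v, lab u = lab v → ∀ s ∈ S, (G.Adj u s ↔ G.Adj v s))
    {q n : ℕ} {x y : Fin 2 → V} {xs ys : Fin n → V}
    (h : Conf G S lab R a b q n x xs y ys) (i j : Ix n) :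
    lab (Sum.elim x xs i) = lab (Sum.elim y ys i) ∧
    (Sum.elim x xs i = Sum.elim x xs j ↔ Sum.elim y ys i = Sum.elim y ys j) ∧
    (G.Adj (Sum.elim x xs i) (Sum.elim x xs j) ↔ G.Adj (Sum.elim y ys i) (Sum.elim y ys j)) := by
  obtain ⟨D, E, xA, xB, yA, yB, xsA, xsB, ysA, ysB, h1, h2, h3, h4, h5⟩ := h
  have hpos : 1 ≤ 2 ^ q := Nat.one_le_two_pow
  have hDE : D + 1 ≤ E := by omega
  have sA := att_spec (tp_att h3)
  have sB := att_spec (tp_att h4)
  have hlabi : ∀ i, lab (Sum.elim x xs i) = lab (Sum.elim y ys i) := by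
    intro i
    rcases h5 i with ⟨e1, e2, e3, e4⟩ | ⟨e1, e2, e3, e4⟩ | ⟨e1, e2⟩
    · rw [e1, e2]; exact sA.1 i
    · rw [e1, e2]; exact sB.1 i
    · rw [e1]
  refine ⟨hlabi i, ?_⟩
  -- a near pebble against a fixed pebble
  have near_fix : ∀ i j : Ix n, ∀ c d : V,
      NW G Sᶜ D c (Sum.elim x xs i) → NW G Sᶜ D d (Sum.elim y ys i) →
      (Sum.elim x xs j = Sum.elim y ys j) → (Sum.elim x xs j ∈ S ∨
        (¬ NW G Sᶜ E c (Sum.elim x xs j) ∧ ¬ NW G Sᶜ E d (Sum.elim x xs j))) →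
      (¬ Sum.elim x xs i = Sum.elim x xs j) ∧ (¬ Sum.elim y ys i = Sum.elim y ys j) ∧
      (G.Adj (Sum.elim x xs i) (Sum.elim x xs j) ↔ G.Adj (Sum.elim y ys i) (Sum.elim y ys j)) := by
    intro i j c d e3 e4 e5 e6
    by_cases hzS : Sum.elim x xs j ∈ S
    · refine ⟨?_, ?_, ?_⟩
      · intro he
        rw [he] at e3
        exact e3.right_mem hzS
      · intro he
        rw [he, ← e5] at e4
        exact e4.right_mem hzS
      · rw [← e5]
        exact hlab _ _ (hlabi i) _ hzS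
    · rcases e6 with e6 | ⟨e6, e7⟩
      · exact absurd e6 hzS
      · have f1 := far_single hDE e3 e6 hzS
        have f2 := far_single hDE e4 e7 hzS
        rw [e5] at f2
        exact ⟨f1.1, f2.1, iff_of_false f1.2.1 f2.2.1⟩
  have hDR : D ≤ R := by omega
  rcases h5 i with ⟨e1, e2, e3, e4⟩ | ⟨e1, e2, e3, e4⟩ | ⟨e1, e2⟩ <;>
  rcases h5 j with ⟨g1, g2, g3, g4⟩ | ⟨g1, g2, g3, g4⟩ | ⟨g1, g2⟩
  · rw [e1, e2, g1, g2]
    exact ⟨sA.2.2.1 i j, sA.2.2.2 i j⟩
  · have f1 := far_pair hDR hab e3 g3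
    have f2 := far_pair hDR hab g4 e4
    exact ⟨iff_of_false f1.1 (fun h => f2.1 h.symm), iff_of_false f1.2.1 f2.2.2⟩
  · have f := near_fix i j a b e3 e4 g1 g2
    exact ⟨iff_of_false f.1 f.2.1, f.2.2⟩
  · have f1 := far_pair hDR hab g3 e3
    have f2 := far_pair hDR hab e4 g4
    exact ⟨iff_of_false (fun h => f1.1 h.symm) f2.1, iff_of_false f1.2.2 f2.2.1⟩
  · rw [e1, e2, g1, g2]
    exact ⟨sB.2.2.1 i j, sB.2.2.2 i j⟩
  · have f := near_fix i j b a e3 e4 g1 (by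
      rcases g2 with g2 | ⟨g2, g3⟩
      · exact Or.inl g2
      · exact Or.inr ⟨g3, g2⟩)
    exact ⟨iff_of_false f.1 f.2.1, f.2.2⟩
  · have f := near_fix j i a b g3 g4 e1 e2
    refine ⟨iff_of_false (fun h => f.1 h.symm) (fun h => f.2.1 h.symm), ?_⟩
    rw [G.adj_comm, f.2.2, G.adj_comm]
  · have f := near_fix j i b a g3 g4 e1 (by
      rcases e2 with e2 | ⟨e2, e3⟩
      · exact Or.inl e2
      · exact Or.inr ⟨e3, e2⟩)
    refine ⟨iff_of_false (fun h => f.1 h.symm) (fun h => f.2.1 h.symm), ?_⟩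
    rw [G.adj_comm, f.2.2, G.adj_comm]
  · rw [e1, g1]
    exact ⟨Iff.rfl, Iff.rfl⟩

end

/-- Quantifier rank. -/
def qd {c : ℕ} : {n : ℕ} → (LG c).BoundedFormula (Fin 2) n → ℕ
  | _, .falsum => 0
  | _, .equal _ _ => 0
  | _, .rel _ _ => 0
  | _, .imp φ ψ => max (qd φ) (qd ψ)
  | _, .all φ => qd φ + 1

lemma term_var {c : ℕ} {α : Type} (t : (LG c).Term α) : ∃ i, t = .var i := by
  cases t with
  | var i => exact ⟨i, rfl⟩
  | func f _ => exact Empty.elim f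

section

variable {V Λ : Type} {G : SimpleGraph V} {S : Set V} {lab : V → Λ} {R : ℕ} {c : ℕ}
  {C : Fin c → Set V}

theorem Conf.realize {a b : V} (ha : a ∉ S) (hb : b ∉ S) (hab : ¬ NW G Sᶜ (2 * R + 1) a b)
    (hlab : ∀ u v, lab u = lab v → ∀ s ∈ S, (G.Adj u s ↔ G.Adj v s))
    (hcol : ∀ u v, lab u = lab v → ∀ i, (u ∈ C i ↔ v ∈ C i)) {n : ℕ}
    (φ : (LG c).BoundedFormula (Fin 2) n) : ∀ (q : ℕ), qd φ ≤ q →
    ∀ (x : Fin 2 → V) (xs : Fin n → V) (y : Fin 2 → V) (ys : Fin n → V),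
    Conf G S lab R a b q n x xs y ys →
    (@Language.BoundedFormula.Realize (LG c) V (colStr G C) (Fin 2) n φ x xs ↔
      @Language.BoundedFormula.Realize (LG c) V (colStr G C) (Fin 2) n φ y ys) := by
  letI := colStr G C
  induction φ with
  | falsum => intros; exact Iff.rfl
  | equal t₁ t₂ =>
    intro q _ x xs y ys h
    obtain ⟨i, rfl⟩ := term_var t₁
    obtain ⟨j, rfl⟩ := term_var t₂
    exact (h.atomic hab hlab i j).2.1
  | rel r ts =>
    intro q _ x xs y ys h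
    cases r with
    | adj =>
      obtain ⟨i, hi⟩ := term_var (ts 0)
      obtain ⟨j, hj⟩ := term_var (ts 1)
      have := (h.atomic hab hlab i j).2.2
      show G.Adj ((ts 0).realize (Sum.elim x xs)) ((ts 1).realize (Sum.elim x xs)) ↔
        G.Adj ((ts 0).realize (Sum.elim y ys)) ((ts 1).realize (Sum.elim y ys))
      rw [hi, hj]
      exact this
    | col k =>
      obtain ⟨i, hi⟩ := term_var (ts 0)
      have := (h.atomic hab hlab i i).1
      show (ts 0).realize (Sum.elim x xs) ∈ C k ↔ (ts 0).realize (Sum.elim y ys) ∈ C k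
      rw [hi]
      exact hcol _ _ this k
  | imp φ ψ ih1 ih2 =>
    intro q hq x xs y ys h
    have h1 := ih1 q (le_trans (le_max_left _ _) hq) x xs y ys h
    have h2 := ih2 q (le_trans (le_max_right _ _) hq) x xs y ys h
    exact imp_congr h1 h2
  | all φ ih =>
    intro q hq x xs y ys h
    obtain ⟨q, rfl⟩ : ∃ q', q = q' + 1 := ⟨q - 1, by simp only [qd] at hq; omega⟩
    have hq' : qd φ ≤ q := by simp only [qd] at hq; omega
    constructor
    · intro hx z'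
      obtain ⟨z, hz⟩ := h.symm.step ha hb z'
      exact (ih q hq' _ _ _ _ hz.symm).mp (hx z)
    · intro hy z
      obtain ⟨z', hz⟩ := h.step ha hb z
      exact (ih q hq' _ _ _ _ hz).mpr (hy z')

/-- The local type of a single vertex. -/
def vt (G : SimpleGraph V) (S : Set V) (lab : V → Λ) (q : ℕ) (a : V) : T Λ (2 ^ q) q 0 :=
  tp G S lab (2 ^ q) a q 0 (fun _ => a) Fin.elim0

/-- Far pairs: replacing a vertex by another one of the same local type. -/
theorem swap (ψ : (LG c).Formula (Fin 2)) {a b z : V} (ha : a ∉ S) (hb : b ∉ S)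
    (hlab : ∀ u v, lab u = lab v → ∀ s ∈ S, (G.Adj u s ↔ G.Adj v s))
    (hcol : ∀ u v, lab u = lab v → ∀ i, (u ∈ C i ↔ v ∈ C i))
    (hab : ¬ NW G Sᶜ (2 * 2 ^ qd ψ + 1) a b)
    (hza : ¬ NW G Sᶜ (2 ^ qd ψ) a z) (hzb : ¬ NW G Sᶜ (2 ^ qd ψ) b z)
    (ht : vt G S lab (qd ψ) a = vt G S lab (qd ψ) b) :
    (Holds G C ψ z a ↔ Holds G C ψ z b) ∧ (Holds G C ψ a z ↔ Holds G C ψ b z) := by
  have key : ∀ x y : Fin 2 → V, (∀ i, (x i = a ∧ y i = b) ∨ (x i = z ∧ y i = z)) →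
      Conf G S lab (2 ^ qd ψ) a b (qd ψ) 0 x default y default := by
    intro x y hxy
    refine ⟨0, 2 ^ qd ψ, fun _ => a, fun _ => b, fun _ => b, fun _ => a, Fin.elim0, Fin.elim0,
      Fin.elim0, Fin.elim0, by omega, le_refl _, ht, ht.symm, fun i => ?_⟩
    rcases i with i | i
    · simp only [Sum.elim_inl]
      rcases hxy i with ⟨h1, h2⟩ | ⟨h1, h2⟩
      · left
        rw [h1, h2]
        exact ⟨rfl, rfl, .refl _ _ ha, .refl _ _ hb⟩
      · right; right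
        rw [h1, h2]
        exact ⟨rfl, Or.inr ⟨hza, hzb⟩⟩
    · exact i.elim0
  constructor
  · exact Conf.realize ha hb hab hlab hcol ψ _ (le_refl _) _ _ _ _ (key ![z, a] ![z, b] (by
      intro i; fin_cases i
      · right; simp
      · left; simp))
  · exact Conf.realize ha hb hab hlab hcol ψ _ (le_refl _) _ _ _ _ (key ![a, z] ![b, z] (by
      intro i; fin_cases i
      · left; simp
      · right; simp))

end

end Pool.Agent.Helper448.PLoc
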