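import Mathlib
import Pool.Agent.Helper448.PDec

set_option autoImplicit false

namespace Pool.Agent.Helper448.PReach

open Set Pool.Agent.Helper448.PWalk Pool.Agent.Helper448.PDec

variable {V : Type} {G : SimpleGraph V}

/-- The vertices weakly reachable from `v` by walks of length at most `r`. -/
def WR (G : SimpleGraph V) (f : V → ℕ) (r : ℕ) (v : V) : Set V :=
  {w | NW G {y | f w ≤ f y} r v w}

/-- Earlier bags touched by the component of the bag `j`. -/
def Anc (G : SimpleGraph V) (f : V → ℕ) (j : ℕ) : Set ℕ :=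
  {a | a < j ∧ ∃ x, f x = j ∧ Tch G f j x a}

/-- Bags reachable in at most `r` steps upwards. -/
def Dr (G : SimpleGraph V) (f : V → ℕ) : ℕ → ℕ → Set ℕ
  | 0, j => {j}
  | r + 1, j => {j} ∪ ⋃ a ∈ Anc G f j, Dr G f r a

section

variable {f : V → ℕ} {i : ℕ}

lemma anc_three (hK : NoK5 G) (h : Dec G i f) (hlt : ∀ v, f v < i) (j : ℕ) :
    (Anc G f j).encard ≤ 3 := by
  by_cases hne : ∃ x, f x = j
  · obtain ⟨x, hx⟩ := hne
    refine (Set.encard_le_encard ?_).trans
      (three hK h j (by have := hlt x; omega) x (by omega))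
    rintro a ⟨ha, x', hx', y, z, h1, h2, h3⟩
    refine ⟨ha, y, z, ?_, h2, h3⟩
    have h4 := h.conn j (by have := hlt x; omega) x x' hx hx'
    exact (h4.mono (fun y hy => le_of_eq (Eq.symm hy))).trans h1
  · have : Anc G f j = ∅ := by
      rw [Set.eq_empty_iff_forall_notMem]
      rintro a ⟨ha, x, hx, _⟩
      exact hne ⟨x, hx⟩
    rw [this, Set.encard_empty]
    exact bot_le

lemma dr_card (hK : NoK5 G) (h : Dec G i f) (hlt : ∀ v, f v < i) (r : ℕ) (j : ℕ) :
    (Dr G f r j).encard ≤ ((4 ^ r : ℕ) : ℕ∞) := by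
  induction r generalizing j with
  | zero => simp [Dr]
  | succ r ih =>
    obtain ⟨g, hg⟩ := cover3 (anc_three hK h hlt j)
    have hsub : Dr G f (r + 1) j ⊆ {j} ∪ (Dr G f r (g 0) ∪ (Dr G f r (g 1) ∪ Dr G f r (g 2))) := by
      rw [Dr]
      refine Set.union_subset_union (subset_refl _) ?_
      intro b hb
      rw [Set.mem_iUnion₂] at hb
      obtain ⟨a, ha, hb⟩ := hb
      obtain ⟨t, rfl⟩ := hg ha
      fin_cases t
      · exact Or.inl hb
      · exact Or.inr (Or.inl hb)
      · exact Or.inr (Or.inr hb)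
    refine (Set.encard_le_encard hsub).trans ((Set.encard_union_le _ _).trans ?_)
    refine (add_le_add (le_of_eq (Set.encard_singleton _)) ((Set.encard_union_le _ _).trans
      (add_le_add (ih _) ((Set.encard_union_le _ _).trans (add_le_add (ih _) (ih _)))))).trans ?_
    have hpos : 1 ≤ 4 ^ r := Nat.one_le_pow _ _ (by norm_num)
    have : 1 + (4 ^ r + (4 ^ r + 4 ^ r)) ≤ 4 ^ (r + 1) := by rw [pow_succ]; omega
    exact_mod_cast this

lemma mem_dr (r : ℕ) (v w : V) (hw : w ∈ WR G f r v) : f w ∈ Dr G f r (f v) := by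
  induction r generalizing v with
  | zero =>
    have := NW.zero_eq hw
    subst this
    exact rfl
  | succ r ih =>
    by_cases heq : f w = f v
    · left; exact heq
    have hle : v ∈ {y | f w ≤ f y} := NW.left_mem hw
    have hle : f w ≤ f v := hle
    obtain ⟨y, z, i, j, hij, h1, h2, h3, h4, h5⟩ := NW.exists_exit (Y := {y | f v ≤ f y}) hw
      (le_refl (f v)) (by simp only [mem_ofPred_eq]; omega)
    right
    rw [Set.mem_iUnion₂]
    refine ⟨f z, ⟨?_, v, rfl, y, z, ⟨i, h1.mono_set (fun y hy => hy.2)⟩, rfl, h2⟩, ?_⟩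
    · simp only [mem_ofPred_eq] at h4; omega
    · exact ih z (h5.mono (by omega))

lemma encard_biUnion_finset {α β : Type} (s : Finset α) (F : α → Set β) (k : ℕ)
    (h : ∀ a ∈ s, (F a).encard ≤ (k : ℕ∞)) :
    (⋃ a ∈ s, F a).encard ≤ ((s.card * k : ℕ) : ℕ∞) := by
  classical
  induction s using Finset.induction_on with
  | empty => simp
  | insert a s ha ih =>
    rw [Finset.set_biUnion_insert, Finset.card_insert_of_notMem ha]
    refine (Set.encard_union_le _ _).trans ?_
    refine (add_le_add (h a (Finset.mem_insert_self _ _))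
      (ih (fun b hb => h b (Finset.mem_insert_of_mem hb)))).trans ?_
    rw [← Nat.cast_add]
    exact_mod_cast (by ring_nf; exact le_refl _ : k + s.card * k ≤ (s.card + 1) * k)

/-- The bound for weak reachability. -/
def kap (r : ℕ) : ℕ := 4 ^ r * (2 * (2 * r + 1))

theorem wr_card (hK : NoK5 G) (h : Dec G i f) (hlt : ∀ v, f v < i) (r : ℕ) (v : V) :
    (WR G f r v).encard ≤ (kap r : ℕ∞) := by
  obtain ⟨hf, hc⟩ := Set.encard_le_coe_iff_finite_ncard_le.mp (dr_card hK h hlt r (f v))
  rw [Set.ncard_eq_toFinset_card _ hf] at hc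
  have hsub : WR G f r v ⊆ ⋃ j ∈ hf.toFinset, {w | f w = j ∧ NW G {y | j ≤ f y} r v w} := by
    intro w hw
    rw [Set.mem_iUnion₂]
    exact ⟨f w, hf.mem_toFinset.mpr (mem_dr r v w hw), rfl, hw⟩
  refine (Set.encard_le_encard hsub).trans
    ((encard_biUnion_finset _ _ (2 * (2 * r + 1)) ?_).trans ?_)
  · intro j _
    by_cases hj : j < i
    · exact h.ball j hj r v
    · have : {w | f w = j ∧ NW G {y | j ≤ f y} r v w} = ∅ := by
        rw [Set.eq_empty_iff_forall_notMem]
        rintro w ⟨hw, _⟩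
        have := hlt w
        omega
      rw [this, Set.encard_empty]
      exact bot_le
  · exact_mod_cast Nat.mul_le_mul_right _ hc

end

section

variable {f : V → ℕ} {X : Set V} {r : ℕ} {u v w w' : V}

lemma self_mem (r : ℕ) (v : V) : v ∈ WR G f r v := .refl _ _ (le_refl (f v))

/-- Vertices joined by a short walk have a common weakly reachable vertex on it. -/
lemma common (h : NW G X r u v) : ∃ w ∈ X, w ∈ WR G f r u ∧ w ∈ WR G f r v := by
  obtain ⟨w, i, j, hij, h1, h2⟩ := h.exists_min f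
  refine ⟨w, h1.right_mem.1, ?_, ?_⟩
  · exact (h1.mono_set (fun y hy => hy.2)).mono (by omega)
  · exact ((h2.mono_set (fun y hy => hy.2)).mono (by omega)).symm

lemma two_step (h : w ∈ WR G f r u) (h' : w' ∈ WR G f r u) (hle : f w' ≤ f w) :
    w' ∈ WR G f (2 * r) w := by
  have h1 : NW G {y | f w' ≤ f y} r w u := (NW.symm h).mono_set (fun y hy => le_trans hle hy)
  exact (h1.trans h').mono (by omega)

end

end Pool.Agent.Helper448.PReach
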