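import Mathlib

set_option autoImplicit false

namespace Pool.Agent.Helper448.PSun

open Finset

/-- The sunflower bound. -/
def sb (M : ℕ) : ℕ → ℕ
  | 0 => M
  | s + 1 => M + M * (s + 1) * sb M s

/-- The sunflower lemma (for indexed families of finite sets). -/
theorem sunflower {ι V : Type} [DecidableEq ι] [DecidableEq V] (M : ℕ) :
    ∀ (s : ℕ) (I : Finset ι) (B : ι → Finset V),
    (∀ i ∈ I, (B i).card ≤ s) → sb M s < I.card →
    ∃ (J : Finset ι) (S : Finset V), J ⊆ I ∧ M < J.card ∧ S.card ≤ s ∧
      (∀ i ∈ J, ∀ j ∈ J, i ≠ j → B i ∩ B j = S) := by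
  intro s
  induction s with
  | zero =>
    intro I B hB hI
    refine ⟨I, ∅, subset_refl _, hI, le_refl _, ?_⟩
    intro i hi j hj _
    have := hB i hi
    rw [Nat.le_zero, card_eq_zero] at this
    rw [this, empty_inter]
  | succ s ih =>
    intro I B hB hI
    -- a maximal disjoint subfamily
    let P : Finset (Finset ι) := I.powerset.filter
      (fun J => ∀ i ∈ J, ∀ j ∈ J, i ≠ j → B i ∩ B j = ∅)
    have hPne : P.Nonempty := ⟨∅, by simp [P]⟩
    obtain ⟨J, hJP, hJmax⟩ := P.exists_max_image card hPne
    have hJ := mem_filter.mp hJP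
    have hJI := mem_powerset.mp hJ.1
    by_cases hJM : M < J.card
    · exact ⟨J, ∅, hJI, hJM, by simp, hJ.2⟩
    push Not at hJM
    let U : Finset V := J.biUnion B
    have hU : U.card ≤ M * (s + 1) := by
      refine (card_biUnion_le_card_mul J B (s + 1) (fun i hi => hB i (hJI hi))).trans ?_
      exact Nat.mul_le_mul_right _ hJM
    have hcov : ∀ i ∈ I \ J, ∃ x ∈ U, x ∈ B i := by
      intro i hi
      by_contra hcon
      push Not at hcon
      have hi' := mem_sdiff.mp hi
      have hd : ∀ j ∈ J, B i ∩ B j = ∅ := by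
        intro j hj
        rw [← disjoint_iff_inter_eq_empty, disjoint_left]
        intro x hx hx'
        exact hcon x (mem_biUnion.mpr ⟨j, hj, hx'⟩) hx
      have hmem : insert i J ∈ P := by
        refine mem_filter.mpr ⟨mem_powerset.mpr (insert_subset hi'.1 hJI), ?_⟩
        intro a ha b hb hab
        rcases mem_insert.mp ha with ha' | ha' <;> rcases mem_insert.mp hb with hb' | hb'
        · exact absurd (ha'.trans hb'.symm) hab
        · rw [ha']; exact hd b hb'
        · rw [hb', inter_comm]; exact hd a ha'
        · exact hJ.2 a ha' b hb' hab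
      have := hJmax _ hmem
      rw [card_insert_of_notMem hi'.2] at this
      omega
    have hcard : M * (s + 1) * sb M s < (I \ J).card := by
      have h1 := le_card_sdiff J I
      rw [sb] at hI
      omega
    -- pigeonhole
    obtain ⟨x, hxU, hx⟩ : ∃ x ∈ U, sb M s < ((I \ J).filter (fun i => x ∈ B i)).card := by
      by_contra hcon
      push Not at hcon
      have h1 : (I \ J) ⊆ U.biUnion (fun x => (I \ J).filter (fun i => x ∈ B i)) := by
        intro i hi
        obtain ⟨x, hx, hxi⟩ := hcov i hi
        exact mem_biUnion.mpr ⟨x, hx, mem_filter.mpr ⟨hi, hxi⟩⟩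
      have h2 := (card_le_card h1).trans (card_biUnion_le_card_mul U _ (sb M s) hcon)
      have h3 := Nat.mul_le_mul_right (sb M s) hU
      omega
    obtain ⟨J', S', h1, h2, h3, h4⟩ := ih ((I \ J).filter (fun i => x ∈ B i))
      (fun i => (B i).erase x) (by
        intro i hi
        have hi' := mem_filter.mp hi
        have h5 := card_erase_of_mem hi'.2
        have h6 := hB i (mem_sdiff.mp hi'.1).1
        omega) hx
    refine ⟨J', insert x S', ?_, h2, ?_, ?_⟩
    · intro i hi
      exact (mem_sdiff.mp (mem_filter.mp (h1 hi)).1).1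
    · exact (card_insert_le _ _).trans (by omega)
    · intro i hi j hj hij
      have hxi := (mem_filter.mp (h1 hi)).2
      have hxj := (mem_filter.mp (h1 hj)).2
      rw [← h4 i hi j hj hij]
      ext y
      simp only [mem_inter, mem_insert, mem_erase]
      by_cases hy : y = x
      · subst hy; simp [hxi, hxj]
      · simp [hy]

end Pool.Agent.Helper448.PSun
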