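import Mathlib
import Pool.Agent.Helper448.PLoc
import Pool.Agent.Helper448.PReach
import Pool.Agent.Helper448.PSun

set_option autoImplicit false

namespace Pool.Agent.Helper448.PKey

open Set Pool.Agent.Helper448.PWalk Pool.Agent.Helper448.PDec Pool.Agent.Helper448.PReach
  Pool.Agent.Helper448.PLoc Pool.Agent.Helper448.PDefs Pool.Agent.Helper448.PSun

/-- The locality radius. -/
def R0 (q : ℕ) : ℕ := 2 * 2 ^ q + 1

/-- Size bound for the sets in the sunflower. -/
def sz (q : ℕ) : ℕ := 2 * kap (R0 q) + 6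

/-- Labels. -/
abbrev Lab (c s : ℕ) : Type := (Fin c → Prop) × (Fin s → Prop)

/-- The number of local types. -/
noncomputable def NT (c q s : ℕ) : ℕ := Nat.card (T (Lab c s) (2 ^ q) q 0)

/-- The bound for the number of edges with the same set of candidates. -/
noncomputable def N1 (c q : ℕ) : ℕ := sb (NT c q (sz q) * NT c q (sz q) + 6 * sz q) (sz q)

lemma enum {V : Type} {S : Finset V} {s : ℕ} (hS : S.card ≤ s) (x0 : V) :
    ∃ σ : Fin s → V, ∀ x ∈ S, ∃ k, σ k = x := by
  classical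
  let l := S.toList
  have hl : l.length ≤ s := by simpa [l] using hS
  refine ⟨fun i => l.getD i x0, ?_⟩
  intro a ha
  have hal : a ∈ l := by simp [l, ha]
  obtain ⟨n, hn, hna⟩ := List.mem_iff_getElem.mp hal
  refine ⟨⟨n, by omega⟩, ?_⟩
  simp [List.getD_eq_getElem?_getD, hn, hna]

section

variable {V W : Type} [Finite V] [Finite W] {G : SimpleGraph V} {H : SimpleGraph W} {c : ℕ}
  {C : Fin c → Set V} {ψ : (LG c).Formula (Fin 2)} {f : V → ℕ} {i : ℕ}

lemma encard_union4 {α : Type} {A B D E : Set α} {a b d e : ℕ} (hA : A.encard ≤ (a : ℕ∞))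
    (hB : B.encard ≤ (b : ℕ∞)) (hD : D.encard ≤ (d : ℕ∞)) (hE : E.encard ≤ (e : ℕ∞)) :
    (A ∪ B ∪ (D ∪ E)).encard ≤ ((a + b + (d + e) : ℕ) : ℕ∞) := by
  refine (Set.encard_union_le _ _).trans ((add_le_add
    ((Set.encard_union_le _ _).trans (add_le_add hA hB))
    ((Set.encard_union_le _ _).trans (add_le_add hD hE))).trans ?_)
  push_cast
  exact le_refl _

/-- Only boundedly many edges have the same set of candidates. -/
theorem key (φ : H ↪g interp G C ψ) (hdeg : ∀ v, (H.neighborSet v).encard ≤ 3) (hK : NoK5 G)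
    (h : Dec G i f) (hlt : ∀ v, f v < i) (C0 : Set V) :
    {p : W × W | H.Adj p.1 p.2 ∧
      WR G f (R0 (qd ψ)) (φ p.1) ∩ WR G f (R0 (qd ψ)) (φ p.2) = C0}.ncard ≤ N1 c (qd ψ) := by
  classical
  have := Fintype.ofFinite V
  have := Fintype.ofFinite W
  by_contra hcon
  push Not at hcon
  set q := qd ψ with hq
  let I : Finset (W × W) := {p : W × W | H.Adj p.1 p.2 ∧
      WR G f (R0 q) (φ p.1) ∩ WR G f (R0 q) (φ p.2) = C0}.toFinset
  have hI : I.card = {p : W × W | H.Adj p.1 p.2 ∧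
      WR G f (R0 q) (φ p.1) ∩ WR G f (R0 q) (φ p.2) = C0}.ncard :=
    (Set.ncard_eq_toFinset_card' _).symm
  let Bs : W × W → Set V := fun p => WR G f (R0 q) (φ p.1) ∪ WR G f (R0 q) (φ p.2) ∪
      (φ '' H.neighborSet p.1 ∪ φ '' H.neighborSet p.2)
  let B : W × W → Finset V := fun p => (Bs p).toFinset
  have hB : ∀ p ∈ I, (B p).card ≤ sz q := by
    intro p _
    have h1 : (Bs p).encard ≤ ((kap (R0 q) + kap (R0 q) + (3 + 3) : ℕ) : ℕ∞) :=
      encard_union4 (wr_card hK h hlt _ _) (wr_card hK h hlt _ _)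
        ((Set.encard_image_le _ _).trans (by exact_mod_cast hdeg p.1))
        ((Set.encard_image_le _ _).trans (by exact_mod_cast hdeg p.2))
    have h2 : (B p).card = (Bs p).ncard := (Set.ncard_eq_toFinset_card' _).symm
    rw [h2]
    have h3 := (Set.encard_le_coe_iff_finite_ncard_le.mp h1).2
    unfold sz
    omega
  have hmemI : ∀ p, p ∈ I ↔ H.Adj p.1 p.2 ∧
      WR G f (R0 q) (φ p.1) ∩ WR G f (R0 q) (φ p.2) = C0 := by
    intro p
    simp only [I, Set.mem_toFinset, mem_ofPred_eq]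
  have hmemB : ∀ p x, x ∈ B p ↔ x ∈ Bs p := by
    intro p x
    simp only [B, Set.mem_toFinset]
  obtain ⟨J, S, hJI, hJM, hSs, hJS⟩ := sunflower (NT c q (sz q) * NT c q (sz q) + 6 * sz q)
    (sz q) I B hB (by rw [hI]; exact hcon)
  -- remove the pairs meeting the core
  have hcnt : ∀ (g : W × W → W) (g' : W × W → W), (∀ p ∈ J, H.Adj (g p) (g' p)) →
      (∀ p p', g p = g p' → g' p = g' p' → p = p') →
      (J.filter (fun p => φ (g p) ∈ S)).card ≤ 3 * sz q := by
    intro g g' hadj hinj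
    have h1 : (J.filter (fun p => φ (g p) ∈ S)).card ≤
        3 * S.card := by
      refine Finset.card_le_mul_card_image_of_maps_to (f := fun p => φ (g p)) ?_ 3 ?_
      · intro p hp
        exact (Finset.mem_filter.mp hp).2
      · intro x hx
        by_cases hxr : ∃ w, φ w = x
        · obtain ⟨w, rfl⟩ := hxr
          have h2 : ((J.filter (fun p => φ (g p) ∈ S)).filter (fun p => φ (g p) = φ w)).card ≤
              (H.neighborSet w).toFinset.card := by
            refine Finset.card_le_card_of_injOn g' ?_ ?_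
            · intro p hp
              have hp' := Finset.mem_filter.mp hp
              have hp'' := Finset.mem_filter.mp hp'.1
              have := hadj p hp''.1
              rw [φ.injective hp'.2] at this
              simpa using this
            · intro p hp p' hp' hpp
              have e1 := (Finset.mem_filter.mp hp).2
              have e2 := (Finset.mem_filter.mp hp').2
              exact hinj p p' (φ.injective (e1.trans e2.symm)) hpp
          refine h2.trans ?_
          have h3 := (Set.encard_le_coe_iff_finite_ncard_le.mp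
            (show (H.neighborSet w).encard ≤ ((3 : ℕ) : ℕ∞) from hdeg w)).2
          rwa [Set.ncard_eq_toFinset_card'] at h3
        · have : ((J.filter (fun p => φ (g p) ∈ S)).filter (fun p => φ (g p) = x)) = ∅ := by
            rw [Finset.eq_empty_iff_forall_notMem]
            intro p hp
            exact hxr ⟨_, (Finset.mem_filter.mp hp).2⟩
          rw [this, Finset.card_empty]
          omega
    exact h1.trans (Nat.mul_le_mul_left _ hSs)
  let J' : Finset (W × W) := J.filter (fun p => φ p.1 ∉ S ∧ φ p.2 ∉ S)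
  have hJadj : ∀ p ∈ J, H.Adj p.1 p.2 := fun p hp => ((hmemI p).mp (hJI hp)).1
  have hJ' : NT c q (sz q) * NT c q (sz q) < J'.card := by
    have h1 := hcnt Prod.fst Prod.snd hJadj (fun p p' h1 h2 => Prod.ext h1 h2)
    have h2 := hcnt Prod.snd Prod.fst (fun p hp => (hJadj p hp).symm)
      (fun p p' h1 h2 => Prod.ext h2 h1)
    have h3 : J ⊆ J' ∪ (J.filter (fun p => φ p.1 ∈ S) ∪ J.filter (fun p => φ p.2 ∈ S)) := by
      intro p hp
      by_cases e1 : φ p.1 ∈ S
      · exact Finset.mem_union_right _ (Finset.mem_union_left _ (Finset.mem_filter.mpr ⟨hp, e1⟩))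
      · by_cases e2 : φ p.2 ∈ S
        · exact Finset.mem_union_right _
            (Finset.mem_union_right _ (Finset.mem_filter.mpr ⟨hp, e2⟩))
        · exact Finset.mem_union_left _ (Finset.mem_filter.mpr ⟨hp, e1, e2⟩)
    have h4 := (Finset.card_le_card h3).trans ((Finset.card_union_le _ _).trans
      (add_le_add_right (Finset.card_union_le _ _) _))
    omega
  have hne : J'.Nonempty := Finset.card_pos.mp (by omega)
  obtain ⟨p0, _⟩ := hne
  obtain ⟨σ, hσ⟩ := enum hSs (φ p0.1)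
  let lab : V → Lab c (sz q) := fun v => (fun i => v ∈ C i, fun k => G.Adj v (σ k))
  have hcol : ∀ u v, lab u = lab v → ∀ i, (u ∈ C i ↔ v ∈ C i) := by
    intro u v huv i
    exact iff_of_eq (congrFun (congrArg Prod.fst huv) i)
  have hlab : ∀ u v, lab u = lab v → ∀ s ∈ (S : Set V), (G.Adj u s ↔ G.Adj v s) := by
    intro u v huv s hs
    obtain ⟨k, rfl⟩ := hσ s hs
    exact iff_of_eq (congrFun (congrArg Prod.snd huv) k)
  -- pigeonhole on the types
  have hTf : Finite (T (Lab c (sz q)) (2 ^ q) q 0) := T_finite _ _ _ _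
  have := Fintype.ofFinite (T (Lab c (sz q)) (2 ^ q) q 0)
  let tt : W × W → T (Lab c (sz q)) (2 ^ q) q 0 × T (Lab c (sz q)) (2 ^ q) q 0 := fun p =>
    (vt G (S : Set V) lab q (φ p.1), vt G (S : Set V) lab q (φ p.2))
  have hcardT : (Finset.univ : Finset (T (Lab c (sz q)) (2 ^ q) q 0 ×
      T (Lab c (sz q)) (2 ^ q) q 0)).card = NT c q (sz q) * NT c q (sz q) := by
    rw [Finset.card_univ, Fintype.card_prod, NT, Nat.card_eq_fintype_card]
  obtain ⟨p, hp, p', hp', hpp, htt⟩ := Finset.exists_ne_map_eq_of_card_lt_of_maps_to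
    (s := J') (t := Finset.univ) (f := tt) (by rw [hcardT]; exact hJ') (fun _ _ => by simp)
  have mp := Finset.mem_filter.mp hp
  have mp' := Finset.mem_filter.mp hp'
  have hS : ∀ x, x ∈ Bs p → x ∈ Bs p' → x ∈ S := by
    intro x hx hx'
    rw [← hJS p mp.1 p' mp'.1 hpp]
    exact Finset.mem_inter.mpr ⟨(hmemB _ _).mpr hx, (hmemB _ _).mpr hx'⟩
  have far : ∀ x y, WR G f (R0 q) x ⊆ Bs p → WR G f (R0 q) y ⊆ Bs p' →
      ¬ NW G (S : Set V)ᶜ (R0 q) x y := by
    intro x y hx hy hxy
    obtain ⟨w, hw, hwx, hwy⟩ := common (f := f) hxy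
    exact hw (hS w (hx hwx) (hy hwy))
  have s1 : WR G f (R0 q) (φ p.1) ⊆ Bs p := fun x hx => Or.inl (Or.inl hx)
  have s2 : WR G f (R0 q) (φ p.2) ⊆ Bs p := fun x hx => Or.inl (Or.inr hx)
  have s1' : WR G f (R0 q) (φ p'.1) ⊆ Bs p' := fun x hx => Or.inl (Or.inl hx)
  have s2' : WR G f (R0 q) (φ p'.2) ⊆ Bs p' := fun x hx => Or.inl (Or.inr hx)
  have ip := (hmemI p).mp (hJI mp.1)
  have ip' := (hmemI p').mp (hJI mp'.1)
  have hnear : ¬ NW G (S : Set V)ᶜ (R0 q) (φ p.1) (φ p.2) := by
    intro hnw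
    obtain ⟨w, hw, hwx, hwy⟩ := common (f := f) hnw
    have hwC : w ∈ C0 := by rw [← ip.2]; exact ⟨hwx, hwy⟩
    rw [← ip'.2] at hwC
    exact hw (hS w (s1 hwx) (s1' hwC.1))
  have hR : 2 ^ q ≤ R0 q := by unfold R0; omega
  have hsw := swap (G := G) (S := (S : Set V)) (lab := lab) (C := C) ψ (a := φ p.2)
    (b := φ p'.2) (z := φ p.1) mp.2.2 mp'.2.2 hlab hcol (far _ _ s2 s2')
    (fun hnw => hnear ((hnw.mono hR).symm)) (fun hnw => far _ _ s1 s2' ((hnw.mono hR).symm))
    (congrArg Prod.snd htt)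
  have hadj := (φ.map_rel_iff.mpr ip.1 : (interp G C ψ).Adj (φ p.1) (φ p.2))
  have hne' : φ p.1 ≠ φ p'.2 := by
    intro heq
    exact mp.2.1 (hS _ (s1 (self_mem _ _)) (by rw [heq]; exact s2' (self_mem _ _)))
  have hadj' : (interp G C ψ).Adj (φ p.1) (φ p'.2) := by
    refine ⟨hne', ?_⟩
    rcases hadj.2 with h1 | h1
    · exact Or.inl (hsw.1.mp h1)
    · exact Or.inr (hsw.2.mp h1)
  have hadjH : H.Adj p.1 p'.2 := φ.map_rel_iff.mp hadj'
  exact mp.2.1 (hS _ (s1 (self_mem _ _)) (Or.inr (Or.inr ⟨p.1, hadjH.symm, rfl⟩)))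

end

end Pool.Agent.Helper448.PKey
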