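import Mathlib
import Pool.Agent.Helper448.PKey

set_option autoImplicit false

namespace Pool.Agent.Helper448.PRoute

open Set Pool.Agent.Helper448.PWalk Pool.Agent.Helper448.PDec Pool.Agent.Helper448.PReach
  Pool.Agent.Helper448.PLoc Pool.Agent.Helper448.PDefs Pool.Agent.Helper448.PKey

lemma encard_biUnion_le {α β : Type} {A : Set α} {F : α → Set β} {a k : ℕ}
    (hA : A.encard ≤ (a : ℕ∞)) (h : ∀ x ∈ A, (F x).encard ≤ (k : ℕ∞)) :
    (⋃ x ∈ A, F x).encard ≤ ((a * k : ℕ) : ℕ∞) := by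
  obtain ⟨hf, hc⟩ := Set.encard_le_coe_iff_finite_ncard_le.mp hA
  rw [Set.ncard_eq_toFinset_card _ hf] at hc
  have hsub : (⋃ x ∈ A, F x) ⊆ ⋃ x ∈ hf.toFinset, F x := by
    intro y hy
    rw [Set.mem_iUnion₂] at hy ⊢
    obtain ⟨x, hx, hy⟩ := hy
    exact ⟨x, hf.mem_toFinset.mpr hx, hy⟩
  refine (Set.encard_le_encard hsub).trans ((encard_biUnion_finset _ _ k ?_).trans ?_)
  · intro x hx
    exact h x (hf.mem_toFinset.mp hx)
  · exact Nat.cast_le.mpr (Nat.mul_le_mul_right _ hc)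

lemma encard_powerset_le {α : Type} {A : Set α} {a : ℕ} (hA : A.encard ≤ (a : ℕ∞)) :
    (𝒫 A).encard ≤ ((2 ^ a : ℕ) : ℕ∞) := by
  obtain ⟨hf, hc⟩ := Set.encard_le_coe_iff_finite_ncard_le.mp hA
  have hfp : (𝒫 A).Finite := hf.powerset
  rw [← hfp.cast_ncard_eq, Set.ncard_powerset A hf]
  exact Nat.cast_le.mpr (Nat.pow_le_pow_right (by omega) hc)

/-- The vertex set of a walk. -/
lemma walkset {V : Type} {G : SimpleGraph V} {X : Set V} {n : ℕ} {u v : V}
    (h : NW G X n u v) : ∃ Q : Set V, Q.encard ≤ ((n + 1 : ℕ) : ℕ∞) ∧ Q ⊆ X ∧ Rch G Q u v ∧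
      ∀ x ∈ Q, NW G X n x v := by
  induction h with
  | refl n u hu =>
    refine ⟨{u}, ?_, ?_, Rch.refl rfl, ?_⟩
    · rw [Set.encard_singleton]
      exact Nat.one_le_cast.mpr (by omega)
    · intro x hx; rw [Set.mem_singleton_iff] at hx; rwa [hx]
    · intro x hx; rw [Set.mem_singleton_iff] at hx; rw [hx]; exact .refl _ _ hu
  | cons n u v w hu huv hw ih =>
    obtain ⟨Q, h1, h2, h3, h4⟩ := ih
    refine ⟨insert u Q, ?_, ?_, ?_, ?_⟩
    · refine (Set.encard_insert_le _ _).trans ?_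
      exact (add_le_add_left h1 1).trans (le_of_eq (Nat.cast_succ (n + 1)).symm)
    · exact Set.insert_subset hu h2
    · exact (Rch.single (Set.mem_insert _ _) (Set.mem_insert_of_mem _ h3.left_mem) huv).trans
        (h3.mono (Set.subset_insert _ _))
    · intro x hx
      rcases hx with rfl | hx
      · exact .cons _ _ _ _ hu huv hw
      · exact (h4 x hx).succ

/-- The final bound. -/
noncomputable def Kc (c q : ℕ) : ℕ :=
  (R0 q + 1 + (R0 q + 1)) * (kap (R0 q) * (2 ^ kap (2 * R0 q) * N1 c q)) + N1 c q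

section

variable {V W : Type} [Finite V] [Finite W] {G : SimpleGraph V} {H : SimpleGraph W} {c : ℕ}
  {C : Fin c → Set V} {ψ : (LG c).Formula (Fin 2)}

/-- Routing of almost all edges of `H` in `G` with bounded congestion. -/
theorem routing (φ : H ↪g interp G C ψ) (hdeg : ∀ v, (H.neighborSet v).encard ≤ 3)
    (hK : NoK5 G) : ∃ (F : Set (W × W)) (P : W × W → Set V),
      F.encard ≤ (Kc c (qd ψ) : ℕ∞) ∧
      (∀ p, H.Adj p.1 p.2 → p ∉ F → Rch G (P p) (φ p.1) (φ p.2)) ∧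
      ∀ p, {p' | (P p ∩ P p').Nonempty}.encard ≤ (Kc c (qd ψ) : ℕ∞) := by
  classical
  by_cases hVe : Nonempty V
  swap
  · exact ⟨∅, fun _ => ∅, by rw [Set.encard_empty]; exact bot_le,
      fun p _ _ => absurd ⟨φ p.1⟩ hVe, fun p => absurd ⟨φ p.1⟩ hVe⟩
  obtain ⟨i, f, h, hlt⟩ := exists_dec hK
  set q := qd ψ with hq
  let Cand : W × W → Set V := fun p => WR G f (R0 q) (φ p.1) ∩ WR G f (R0 q) (φ p.2)
  have hcount : ∀ D : Set V, {p : W × W | H.Adj p.1 p.2 ∧ Cand p = D}.encard ≤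
      (N1 c q : ℕ∞) := by
    intro D
    have hfin : {p : W × W | H.Adj p.1 p.2 ∧ Cand p = D}.Finite := Set.toFinite _
    rw [← hfin.cast_ncard_eq]
    exact Nat.cast_le.mpr (key φ hdeg hK h hlt D)
  have hmax : ∀ p : W × W, (Cand p).Nonempty → ∃ w ∈ Cand p, ∀ w' ∈ Cand p, f w' ≤ f w :=
    fun p hp => Set.exists_max_image _ f (Set.toFinite _) hp
  choose! w hw1 hw2 using hmax
  have hset : ∀ p : W × W, (Cand p).Nonempty → ∃ Q : Set V,
      Q.encard ≤ ((R0 q + 1 + (R0 q + 1) : ℕ) : ℕ∞) ∧ Rch G Q (φ p.1) (φ p.2) ∧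
      ∀ x ∈ Q, w p ∈ WR G f (R0 q) x := by
    intro p hp
    obtain ⟨Q1, a1, a2, a3, a4⟩ := walkset (hw1 p hp).1
    obtain ⟨Q2, b1, b2, b3, b4⟩ := walkset (hw1 p hp).2
    refine ⟨Q1 ∪ Q2, ?_, ?_, ?_⟩
    · exact (Set.encard_union_le _ _).trans ((add_le_add a1 b1).trans
        (le_of_eq (Nat.cast_add _ _).symm))
    · exact (a3.mono Set.subset_union_left).trans (b3.mono Set.subset_union_right).symm
    · rintro x (hx | hx)
      · exact a4 x hx
      · exact b4 x hx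
  choose! Q hQ1 hQ2 hQ3 using hset
  let P : W × W → Set V := fun p => if H.Adj p.1 p.2 ∧ (Cand p).Nonempty then Q p else ∅
  have hP : ∀ p x, x ∈ P p → H.Adj p.1 p.2 ∧ (Cand p).Nonempty ∧ x ∈ Q p := by
    intro p x hx
    by_cases hc : H.Adj p.1 p.2 ∧ (Cand p).Nonempty
    · simp only [P, if_pos hc] at hx
      exact ⟨hc.1, hc.2, hx⟩
    · simp only [P, if_neg hc] at hx
      exact absurd hx (Set.notMem_empty _)
  refine ⟨{p | H.Adj p.1 p.2 ∧ Cand p = ∅}, P, ?_, ?_, ?_⟩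
  · refine (hcount ∅).trans ?_
    exact Nat.cast_le.mpr (Nat.le_add_left _ _)
  · intro p hp hpF
    have hne : (Cand p).Nonempty := by
      rw [Set.nonempty_iff_ne_empty]
      exact fun he => hpF ⟨hp, he⟩
    simp only [P, if_pos (⟨hp, hne⟩ : H.Adj p.1 p.2 ∧ (Cand p).Nonempty)]
    exact hQ2 p hne
  · intro p
    -- pairs routed through a given candidate
    have c1 : ∀ z : V, {p' : W × W | H.Adj p'.1 p'.2 ∧ (Cand p').Nonempty ∧ w p' = z}.encard ≤
        ((2 ^ kap (2 * R0 q) * N1 c q : ℕ) : ℕ∞) := by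
      intro z
      have hsub : {p' : W × W | H.Adj p'.1 p'.2 ∧ (Cand p').Nonempty ∧ w p' = z} ⊆
          ⋃ D ∈ 𝒫 (WR G f (2 * R0 q) z), {p' : W × W | H.Adj p'.1 p'.2 ∧ Cand p' = D} := by
        rintro p' ⟨h1, h2, rfl⟩
        rw [Set.mem_iUnion₂]
        refine ⟨Cand p', ?_, h1, rfl⟩
        intro x hx
        exact two_step (hw1 p' h2).1 hx.1 (hw2 p' h2 x hx)
      refine (Set.encard_le_encard hsub).trans (encard_biUnion_le
        (encard_powerset_le (wr_card hK h hlt _ _)) (fun D _ => hcount D))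
    have c2 : ∀ x : V, {p' : W × W | x ∈ P p'}.encard ≤
        ((kap (R0 q) * (2 ^ kap (2 * R0 q) * N1 c q) : ℕ) : ℕ∞) := by
      intro x
      have hsub : {p' : W × W | x ∈ P p'} ⊆ ⋃ z ∈ WR G f (R0 q) x,
          {p' : W × W | H.Adj p'.1 p'.2 ∧ (Cand p').Nonempty ∧ w p' = z} := by
        intro p' hx
        obtain ⟨h1, h2, h3⟩ := hP p' x hx
        rw [Set.mem_iUnion₂]
        exact ⟨w p', hQ3 p' h2 x h3, h1, h2, rfl⟩
      exact (Set.encard_le_encard hsub).trans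
        (encard_biUnion_le (wr_card hK h hlt _ _) (fun z _ => c1 z))
    have hsub : {p' | (P p ∩ P p').Nonempty} ⊆ ⋃ x ∈ P p, {p' : W × W | x ∈ P p'} := by
      rintro p' ⟨x, hx, hx'⟩
      rw [Set.mem_iUnion₂]
      exact ⟨x, hx, hx'⟩
    have hPc : (P p).encard ≤ ((R0 q + 1 + (R0 q + 1) : ℕ) : ℕ∞) := by
      by_cases hc : H.Adj p.1 p.2 ∧ (Cand p).Nonempty
      · simp only [P, if_pos hc]
        exact hQ1 p hc.2
      · simp only [P, if_neg hc, Set.encard_empty]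
        exact bot_le
    refine (Set.encard_le_encard hsub).trans ((encard_biUnion_le hPc (fun x _ => c2 x)).trans ?_)
    exact Nat.cast_le.mpr (Nat.le_add_right _ _)

end

end Pool.Agent.Helper448.PRoute
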