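import Mathlib
import Pool.Agent.Helper448.PRoute
import Pool.Agent.Helper448.PPlane

set_option autoImplicit false

namespace Pool.Agent.Helper448.PFinal

open Set Pool.Agent.Helper448.TDefs Pool.Agent.Helper448.PDefs Pool.Agent.Helper448.PWalk
  Pool.Agent.Helper448.PDec Pool.Agent.Helper448.TFinal Pool.Agent.Helper448.TGraph
  Pool.Agent.Helper448.TDeg Pool.Agent.Helper448.TProb Pool.Agent.Helper448.TPath
  Pool.Agent.Helper448.TCyl Pool.Agent.Helper448.TCount Pool.Agent.Helper448.PLoc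
  Pool.Agent.Helper448.PRoute Pool.Agent.Helper448.PPlane

section

variable {m : ℕ} {hm : 0 < m} {V : Type} {Γ : SimpleGraph V} (P : W m × W m → Set V)

/-- The vertices of `Γ` used by the routes of the band `(d, a)`. -/
def SV (d : Bool) (a : Fin 5) (ω : Om m) : Set V :=
  {x | ∃ u w : W m, U m d a ω u.1 w.1 ∧ x ∈ P (u, w)}

variable {P}

lemma rch_one {g : W m → V} {F : Set (W m × W m)}
    (hP : ∀ p, (G m hm).Adj p.1 p.2 → p ∉ F → Rch Γ (P p) (g p.1) (g p.2)) {d : Bool}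
    {a : Fin 5} {ω : Om m} (hF : ∀ u w : W m, U m d a ω u.1 w.1 → (u, w) ∉ F) {u w : W m}
    (h : U m d a ω u.1 w.1) : Rch Γ (SV P d a ω) (g u) (g w) :=
  (hP (u, w) (Or.inl (U_E h)) (hF u w h)).mono (fun _ hx => ⟨u, w, h, hx⟩)

lemma rch_conn {g : W m → V} {F : Set (W m × W m)}
    (hP : ∀ p, (G m hm).Adj p.1 p.2 → p ∉ F → Rch Γ (P p) (g p.1) (g p.2)) {d : Bool}
    {a : Fin 5} {ω : Om m} (hF : ∀ u w : W m, U m d a ω u.1 w.1 → (u, w) ∉ F) {u w : Vx}
    (h : Conn m d a ω u w) (hne : u ≠ w) (hu : valid m u) :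
    ∃ hw : valid m w, Rch Γ (SV P d a ω) (g ⟨u, hu⟩) (g ⟨w, hw⟩) := by
  have hstep : ∀ x y : Vx, (U m d a ω x y ∨ U m d a ω y x) → valid m x ∧ valid m y := by
    intro x y hxy
    rcases hxy with hxy | hxy
    · exact E_valid m hm (U_E hxy)
    · exact (E_valid m hm (U_E hxy)).symm
  have hj : ∀ (x y : Vx) (hx : valid m x) (hy : valid m y), (U m d a ω x y ∨ U m d a ω y x) →
      Rch Γ (SV P d a ω) (g ⟨x, hx⟩) (g ⟨y, hy⟩) := by
    intro x y hx hy hxy
    rcases hxy with hxy | hxy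
    · exact rch_one hP hF (u := ⟨x, hx⟩) (w := ⟨y, hy⟩) hxy
    · exact (rch_one hP hF (u := ⟨y, hy⟩) (w := ⟨x, hx⟩) hxy).symm
  have hmem : g ⟨u, hu⟩ ∈ SV P d a ω := by
    rcases Relation.ReflTransGen.cases_head h with h0 | ⟨v, hv, _⟩
    · exact (hne h0).elim
    · exact (hj u v hu (hstep u v hv).2 hv).left_mem
  clear hne
  induction h with
  | refl => exact ⟨hu, Rch.refl hmem⟩
  | tail _ hst ih =>
    obtain ⟨hv, hJ⟩ := ih
    have hy := (hstep _ _ hst).2
    exact ⟨hy, hJ.trans (hj _ _ hv hy hst)⟩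

end

/-- The toroidal graph `G m` cannot be transduced from a planar graph when `m` is large. -/
theorem not_embedded {c : ℕ} (ψ : (LG c).Formula (Fin 2)) (m : ℕ) (hm : 0 < m)
    (hk : (1 / 2 : ℝ) ^ m * (((2 * Kc c (qd ψ) : ℕ) : ℝ) *
      (40 + 100 * (4 * (5 * m + 2) + 800))) < 1)
    {V : Type} [Finite V] (Γ : SimpleGraph V) (hΓ : Planar Γ) (C : Fin c → Set V)
    (φ : G m hm ↪g interp Γ C ψ) : False := by
  classical
  set K := Kc c (qd ψ) with hKdef
  obtain ⟨F, P, hF, hP, hcong⟩ := routing φ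
    (fun v => degree m hm v) (noK5 hΓ)
  let em : W m × W m → Sym2 Vx := fun p => s(p.1.1, p.2.1)
  let Xr : Sym2 Vx → Sym2 Vx → Prop := fun e e' => ∃ p p' : W m × W m, em p = e ∧ em p' = e' ∧
    (P p ∩ P p').Nonempty
  have hsym : ∀ p q, Xr p q → Xr q p := by
    rintro p q ⟨e, e', h1, h2, h3⟩
    exact ⟨e', e, h2, h1, by rwa [Set.inter_comm]⟩
  have hfin : ∀ e, {e' | Xr e e'}.encard ≤ ((2 * K : ℕ) : ℕ∞) := by
    intro e
    by_cases he : ∃ p0 : W m × W m, em p0 = e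
    · obtain ⟨p0, rfl⟩ := he
      have hsub : {e' | Xr (em p0) e'} ⊆ em '' ({p' | (P p0 ∩ P p').Nonempty} ∪
          {p' | (P p0.swap ∩ P p').Nonempty}) := by
        rintro q ⟨p, p', h1, h2, h3⟩
        refine ⟨p', ?_, h2⟩
        rcases Sym2.eq_iff.mp h1 with ⟨e1, e2⟩ | ⟨e1, e2⟩
        · have : p = p0 := Prod.ext (Subtype.ext e1) (Subtype.ext e2)
          rw [this] at h3
          exact Or.inl h3
        · have : p = p0.swap := Prod.ext (Subtype.ext e1) (Subtype.ext e2)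
          rw [this] at h3
          exact Or.inr h3
      refine ((Set.encard_le_encard hsub).trans (Set.encard_image_le _ _)).trans
        ((Set.encard_union_le _ _).trans ((add_le_add (hcong p0) (hcong p0.swap)).trans ?_))
      rw [two_mul, Nat.cast_add]
    · have : {e' | Xr e e'} = ∅ := by
        rw [Set.eq_empty_iff_forall_notMem]
        rintro q ⟨p, p', h1, h2, h3⟩
        exact he ⟨p, h1⟩
      rw [this, Set.encard_empty]
      exact bot_le
  have hfin' : ∀ p, {q | Xr p q}.Finite ∧ {q | Xr p q}.ncard ≤ 2 * K := fun p =>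
    Set.encard_le_coe_iff_finite_ncard_le.mp (hfin p)
  let T : Sym2 Vx → Finset (Sym2 Vx) := fun p => (hfin' p).1.toFinset
  have hT : ∀ p, (T p).card ≤ 2 * K := by
    intro p
    have := (hfin' p).2
    rwa [Set.ncard_eq_toFinset_card _ (hfin' p).1] at this
  have hX : ∀ p q, Xr p q → q ∈ T p := by
    intro p q h
    rw [Set.Finite.mem_toFinset]
    exact h
  have hFe : (em '' F).encard ≤ (K : ℕ∞) := (Set.encard_image_le _ _).trans hF
  obtain ⟨hFf, hFn⟩ := Set.encard_le_coe_iff_finite_ncard_le.mp hFe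
  rw [Set.ncard_eq_toFinset_card _ hFf] at hFn
  obtain ⟨ω, hω1, hω2⟩ := exists_good (m := m) (2 * K) hk Xr hsym T hT hX hFf.toFinset (by omega)
  have hF' : ∀ d a, ∀ u w : W m, U m d a ω u.1 w.1 → (u, w) ∉ F := by
    intro d a u w hu hmem
    apply hω1 d a u.1 w.1 hu
    rw [Set.Finite.mem_toFinset]
    exact ⟨(u, w), hmem, rfl⟩
  have hval : ∀ x, valid m (ctr m ω x) := fun x =>
    ⟨two_lt _ _, vl_lt ω _ (ex_le m x)⟩
  have hctr : ∀ d a, ctr m ω a ≠ ctr m ω (nb d a) := by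
    intro d a h
    unfold ctr at h
    rw [Vx.hub.injEq] at h
    exact nb_ne d a h.1.symm
  have hjoin : ∀ d a, Rch Γ (SV P d a ω) (φ ⟨_, hval a⟩) (φ ⟨_, hval (nb d a)⟩) := by
    intro d a
    obtain ⟨h1, h2⟩ := rch_conn (P := P) (g := φ) hP (hF' d a) (conn_main hm) (hctr d a) (hval a)
    exact h2
  have hdis : ∀ d a d' a', Disj d a d' a' → Disjoint (SV P d a ω) (SV P d' a' ω) := by
    intro d a d' a' hd
    rw [Set.disjoint_left]
    rintro x ⟨u, w, hu, hx⟩ ⟨u', w', hu', hx'⟩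
    exact hω2 d a d' a' hd u.1 w.1 u'.1 w'.1 hu hu' ⟨(u, w), (u', w'), rfl, rfl, x, hx, hx'⟩
  refine weak hΓ (fun x => φ ⟨_, hval x⟩)
    (fun a b => SV P (bandOf a b).1 (bandOf a b).2 ω) ?_ ?_
  · intro a b hab
    have hj := hjoin (bandOf a b).1 (bandOf a b).2
    have heq : ∀ x y : Fin 5, x = y → φ ⟨_, hval x⟩ = φ ⟨_, hval y⟩ := by
      rintro x y rfl; rfl
    rcases bandOf_spec a b hab.ne with ⟨e1, e2⟩ | ⟨e1, e2⟩
    · rw [heq _ _ e1, heq _ _ e2] at hj
      exact hj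
    · rw [heq _ _ e1, heq _ _ e2] at hj
      exact hj.symm
  · intro a b c d hab hcd h1 h2 h3 h4
    exact hdis _ _ _ _ (disj_of a b c d hab.ne hcd.ne h1 h2 h3 h4)

/-- The class of toroidal graphs is not transducible from the class of planar graphs. Explicit
form: already for toroidal graphs of maximum degree at most three. -/
theorem explicit (c : ℕ) (ψ : (LG c).Formula (Fin 2)) :
    ∃ (W' : Type) (_ : Finite W') (H : SimpleGraph W'), Toroidal H ∧
      (∀ v, (H.neighborSet v).encard ≤ 3) ∧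
      ∀ (V : Type) [Finite V] (Γ : SimpleGraph V), Planar Γ → ∀ C : Fin c → Set V,
        ¬ Nonempty (H ↪g interp Γ C ψ) := by
  obtain ⟨m, hm, hk⟩ := exists_m (2 * Kc c (qd ψ))
  exact ⟨W m, inferInstance, G m hm, TGeo.toroidal m hm, degree m hm,
    fun V _ Γ hΓ C ⟨φ⟩ => not_embedded ψ m hm hk Γ hΓ C φ⟩

theorem main : ¬ Transducible ToroidalGraphs PlanarGraphs := by
  rintro ⟨c, ψ, h⟩
  obtain ⟨W', hW, H, hT, _, hno⟩ := explicit c ψ
  obtain ⟨V, hV, Γ, hΓ, C, hφ⟩ := h W' H hT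
  exact hno V Γ hΓ C hφ

end Pool.Agent.Helper448.PFinal
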