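import Mathlib
import Pool.Agent.Helper448.Final

set_option autoImplicit false
set_option linter.unusedSectionVars false

namespace Pool.Agent.Helper448.Plane

open Geo
open Pool.Agent.Helper448.Core

lemma exists_shear {V : Type*} [Finite V] (p : V → EuclideanSpace ℝ (Fin 2))
    (hp : Function.Injective p) : ∃ t : ℝ, Function.Injective (fun v => p v 0 + t * p v 1) := by
  classical
  have := Fintype.ofFinite V
  obtain ⟨t, ht⟩ := Infinite.exists_notMem_finset
    ((Finset.univ : Finset (V × V)).image (fun q => -(p q.1 0 - p q.2 0) / (p q.1 1 - p q.2 1)))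
  refine ⟨t, ?_⟩
  intro u v huv
  simp only at huv
  by_contra hne
  by_cases h1 : p u 1 = p v 1
  · have h0 : p u 0 = p v 0 := by rw [h1] at huv; linarith
    apply hne
    apply hp
    ext i
    fin_cases i
    · exact h0
    · exact h1
  · apply ht
    rw [Finset.mem_image]
    refine ⟨(u, v), Finset.mem_univ _, ?_⟩
    have h2 : p u 1 - p v 1 ≠ 0 := sub_ne_zero.mpr h1
    simp only
    rw [div_eq_iff h2]
    linarith

/-- For every number of colours there are five matchings whose union has no good drawing in the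
plane. -/
theorem no_plane_drawing (k : ℕ) (hk : 0 < k) : ∃ (m : ℕ) (π : Fin 5 → Equiv.Perm (Fin m)),
    ∀ (p : VV m → EuclideanSpace ℝ (Fin 2)) (c : Fin 5 → Fin m → Fin k), Function.Injective p →
      (∀ j a v, v ≠ Sum.inl a → v ≠ Sum.inr (π j a) →
        p v ∉ segment ℝ (p (Sum.inl a)) (p (Sum.inr (π j a)))) →
      ∃ j a a', a ≠ a' ∧ c j a = c j a' ∧
        (segment ℝ (p (Sum.inl a)) (p (Sum.inr (π j a))) ∩
          segment ℝ (p (Sum.inl a')) (p (Sum.inr (π j a')))).Nonempty := by
  obtain ⟨m, π, hbad⟩ := Final.exists_bad k hk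
  refine ⟨m, π, ?_⟩
  intro p c hp hoff
  by_contra hcon
  push Not at hcon
  obtain ⟨t, ht⟩ := exists_shear p hp
  apply hbad (fun v => p v 0 + t * p v 1) (fun v => p v 1) c
  refine ⟨ht, ?_, ?_⟩
  · intro j a v h1 h2 hon
    apply hoff j a v h1 h2
    obtain ⟨l, hl, h3, h4⟩ := hon
    simp only at h3 h4
    refine ⟨1 - l, l, by linarith [hl.2], hl.1, by ring, ?_⟩
    ext i
    fin_cases i
    · simp only [Fin.zero_eta, Fin.isValue, PiLp.add_apply, PiLp.smul_apply, smul_eq_mul]
      rw [← h4] at h3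
      linarith
    · simp only [Fin.mk_one, Fin.isValue, PiLp.add_apply, PiLp.smul_apply, smul_eq_mul]
      exact h4
  · intro j a a' haa hcc hmeet
    obtain ⟨l, hl, m', hm', h3, h4⟩ := hmeet
    simp only at h3 h4
    have h5 := hcon j a a' haa hcc
    rw [Set.eq_empty_iff_forall_notMem] at h5
    apply h5 ((1 - l) • p (Sum.inl a) + l • p (Sum.inr (π j a)))
    refine ⟨⟨1 - l, l, by linarith [hl.2], hl.1, by ring, rfl⟩,
      ⟨1 - m', m', by linarith [hm'.2], hm'.1, by ring, ?_⟩⟩
    ext i
    fin_cases i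
    · simp only [Fin.zero_eta, Fin.isValue, PiLp.add_apply, PiLp.smul_apply, smul_eq_mul]
      have e : t * ((1 - l) * p (Sum.inl a) 1 + l * p (Sum.inr (π j a)) 1) =
        t * ((1 - m') * p (Sum.inl a') 1 + m' * p (Sum.inr (π j a')) 1) := by rw [h4]
      linarith
    · simp only [Fin.mk_one, Fin.isValue, PiLp.add_apply, PiLp.smul_apply, smul_eq_mul]
      exact h4.symm

/-- the union of five matchings together with a disjoint star with `d` leaves -/
def gr {m : ℕ} (π : Fin 5 → Equiv.Perm (Fin m)) (d : ℕ) :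
    SimpleGraph ((Fin m ⊕ Fin m) ⊕ Fin (d + 1)) where
  Adj u v := match u, v with
    | Sum.inl (Sum.inl a), Sum.inl (Sum.inr b) => ∃ j, π j a = b
    | Sum.inl (Sum.inr b), Sum.inl (Sum.inl a) => ∃ j, π j a = b
    | Sum.inr x, Sum.inr y => (x = 0 ∧ y ≠ 0) ∨ (y = 0 ∧ x ≠ 0)
    | _, _ => False
  symm := ⟨by
    rintro ((a | a) | a) ((b | b) | b) h
    · exact h
    · exact h
    · exact h
    · exact h
    · exact h
    · exact h
    · exact h
    · exact h
    · rcases h with h | h
      · exact Or.inr h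
      · exact Or.inl h⟩
  loopless := ⟨by
    rintro ((a | a) | a) h
    · exact h
    · exact h
    · rcases h with h | h
      · exact h.2 h.1
      · exact h.2 h.1⟩

lemma gr_adj {m : ℕ} (π : Fin 5 → Equiv.Perm (Fin m)) (d : ℕ) (j : Fin 5) (a : Fin m) :
    (gr π d).Adj (Sum.inl (Sum.inl a)) (Sum.inl (Sum.inr (π j a))) := ⟨j, rfl⟩

open Classical in
lemma gr_maxDegree {m : ℕ} (π : Fin 5 → Equiv.Perm (Fin m)) (d : ℕ) (hd : 5 ≤ d) :
    (gr π d).maxDegree = d := by
  apply le_antisymm
  · apply SimpleGraph.maxDegree_le_of_forall_degree_le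
    rintro ((a | b) | x)
    · have hsub : (gr π d).neighborFinset (Sum.inl (Sum.inl a)) ⊆
          (Finset.univ : Finset (Fin 5)).image (fun j => Sum.inl (Sum.inr (π j a))) := by
        intro v hv
        rw [SimpleGraph.mem_neighborFinset] at hv
        rcases v with ((v | v) | v)
        · exact absurd hv (fun h => h)
        · obtain ⟨j, rfl⟩ := hv
          exact Finset.mem_image_of_mem _ (Finset.mem_univ j)
        · exact absurd hv (fun h => h)
      rw [← SimpleGraph.card_neighborFinset_eq_degree]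
      refine (Finset.card_le_card hsub).trans (Finset.card_image_le.trans ?_)
      simpa using hd
    · have hsub : (gr π d).neighborFinset (Sum.inl (Sum.inr b)) ⊆
          (Finset.univ : Finset (Fin 5)).image (fun j => Sum.inl (Sum.inl ((π j).symm b))) := by
        intro v hv
        rw [SimpleGraph.mem_neighborFinset] at hv
        rcases v with ((v | v) | v)
        · obtain ⟨j, rfl⟩ := hv
          exact Finset.mem_image.mpr ⟨j, Finset.mem_univ j, by simp⟩
        · exact absurd hv (fun h => h)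
        · exact absurd hv (fun h => h)
      rw [← SimpleGraph.card_neighborFinset_eq_degree]
      refine (Finset.card_le_card hsub).trans (Finset.card_image_le.trans ?_)
      simpa using hd
    · have hsub : (gr π d).neighborFinset (Sum.inr x) ⊆
          ((Finset.univ : Finset (Fin (d + 1))).erase x).image (fun y => Sum.inr y) := by
        intro v hv
        rw [SimpleGraph.mem_neighborFinset] at hv
        rcases v with ((v | v) | v)
        · exact absurd hv (fun h => h)
        · exact absurd hv (fun h => h)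
        · refine Finset.mem_image_of_mem _ (Finset.mem_erase.mpr ⟨?_, Finset.mem_univ _⟩)
          rintro rfl
          exact (gr π d).loopless.irrefl _ hv
      rw [← SimpleGraph.card_neighborFinset_eq_degree]
      refine (Finset.card_le_card hsub).trans (Finset.card_image_le.trans ?_)
      rw [Finset.card_erase_of_mem (Finset.mem_univ _)]
      simp
  · refine le_trans ?_ ((gr π d).degree_le_maxDegree (Sum.inr 0))
    have hsub : ((Finset.univ : Finset (Fin (d + 1))).erase 0).image
        (fun y => (Sum.inr y : (Fin m ⊕ Fin m) ⊕ Fin (d + 1))) ⊆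
        (gr π d).neighborFinset (Sum.inr 0) := by
      intro v hv
      obtain ⟨y, hy, rfl⟩ := Finset.mem_image.mp hv
      rw [SimpleGraph.mem_neighborFinset]
      exact Or.inl ⟨rfl, (Finset.mem_erase.mp hy).1⟩
    rw [← SimpleGraph.card_neighborFinset_eq_degree]
    refine le_trans (le_of_eq ?_) (Finset.card_le_card hsub)
    rw [Finset.card_image_of_injective _ Sum.inr_injective,
      Finset.card_erase_of_mem (Finset.mem_univ _)]
    simp

/-- finitely many direction classes -/
lemma exists_dir_classes (c : ℝ) (hc : 0 < c) : ∃ k : ℕ, 0 < k ∧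
    ∃ cls : EuclideanSpace ℝ (Fin 2) → Fin k, ∀ x y, x ≠ 0 → y ≠ 0 → cls x = cls y →
      InnerProductGeometry.angle x y < c := by
  classical
  -- continuity
  have hcont : Filter.Tendsto (fun t : ℝ => Real.arccos (1 - t ^ 2 / 2)) (nhds 0) (nhds 0) := by
    have h1 : Continuous (fun t : ℝ => Real.arccos (1 - t ^ 2 / 2)) := by
      exact Real.continuous_arccos.comp (by fun_prop)
    have h2 := h1.tendsto 0
    simpa using h2
  have hev := hcont.eventually (gt_mem_nhds hc)
  rw [Metric.eventually_nhds_iff] at hev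
  obtain ⟨δ, hδ, hδc⟩ := hev
  obtain ⟨t, hts, htfin, hcov⟩ := (isCompact_sphere (0 : EuclideanSpace ℝ (Fin 2)) 1).finite_cover_balls
    (half_pos hδ)
  have hnorm : ∀ x : EuclideanSpace ℝ (Fin 2), x ≠ 0 → ‖(‖x‖⁻¹ • x)‖ = 1 := by
    intro x hx
    rw [norm_smul, norm_inv, norm_norm, inv_mul_cancel₀ (norm_ne_zero_iff.mpr hx)]
  have hne : (1 : ℝ) ≠ 0 := one_ne_zero
  have hcenter : ∀ x : EuclideanSpace ℝ (Fin 2), x ≠ 0 → ∃ z : ↥htfin.toFinset,
      dist (‖x‖⁻¹ • x) z.1 < δ / 2 := by
    intro x hx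
    have : ‖x‖⁻¹ • x ∈ ⋃ y ∈ t, Metric.ball y (δ / 2) :=
      hcov (by rw [mem_sphere_zero_iff_norm]; exact hnorm x hx)
    simp only [Set.mem_iUnion, Metric.mem_ball] at this
    obtain ⟨z, hz, hz2⟩ := this
    exact ⟨⟨z, htfin.mem_toFinset.mpr hz⟩, hz2⟩
  -- a nonzero vector exists
  have hx0 : (EuclideanSpace.single (0 : Fin 2) (1 : ℝ)) ≠ 0 := by
    intro h
    have := congrArg (fun v : EuclideanSpace ℝ (Fin 2) => v 0) h
    simp at this
  obtain ⟨z0, _⟩ := hcenter _ hx0
  have hpos : 0 < htfin.toFinset.card := Finset.card_pos.mpr ⟨z0.1, z0.2⟩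
  have hnonempty : Nonempty ↥htfin.toFinset := ⟨z0⟩
  choose! f hf using hcenter
  refine ⟨htfin.toFinset.card, hpos, fun x => htfin.toFinset.equivFin (f x), ?_⟩
  intro x y hx hy hxy
  have h1 := htfin.toFinset.equivFin.injective hxy
  have h2 := hf x hx
  have h3 := hf y hy
  rw [h1] at h2
  have h4 : dist (‖x‖⁻¹ • x) (‖y‖⁻¹ • y) < δ := by
    calc dist (‖x‖⁻¹ • x) (‖y‖⁻¹ • y) ≤ dist (‖x‖⁻¹ • x) (f y).1 + dist (f y).1 (‖y‖⁻¹ • y) :=
          dist_triangle _ _ _
      _ < δ / 2 + δ / 2 := by
          rw [dist_comm (f y).1]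
          exact add_lt_add h2 h3
      _ = δ := by ring
  have h5 : InnerProductGeometry.angle x y =
      InnerProductGeometry.angle (‖x‖⁻¹ • x) (‖y‖⁻¹ • y) := by
    rw [InnerProductGeometry.angle_smul_left_of_pos _ _ (inv_pos.mpr (norm_pos_iff.mpr hx)),
      InnerProductGeometry.angle_smul_right_of_pos _ _ (inv_pos.mpr (norm_pos_iff.mpr hy))]
  rw [h5]
  have h6 : InnerProductGeometry.angle (‖x‖⁻¹ • x) (‖y‖⁻¹ • y) =
      Real.arccos (1 - (dist (‖x‖⁻¹ • x) (‖y‖⁻¹ • y)) ^ 2 / 2) := by
    unfold InnerProductGeometry.angle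
    rw [hnorm x hx, hnorm y hy, dist_eq_norm]
    congr 1
    have := norm_sub_sq_real (‖x‖⁻¹ • x) (‖y‖⁻¹ • y)
    rw [hnorm x hx, hnorm y hy] at this
    rw [this]
    ring
  rw [h6]
  apply hδc
  rw [Real.dist_eq, sub_zero, abs_of_nonneg dist_nonneg]
  exact h4

end Pool.Agent.Helper448.Plane
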