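import Mathlib
import Pool.Agent.Helper448.TDefs

set_option autoImplicit false

namespace Pool.Agent.Helper448.TSanity

open Pool.Agent.Helper448.TDefs

/-- Sanity check: every finite graph is `k`-planar for some `k`. -/
theorem exists_kplanar {V : Type} [Finite V] (G : SimpleGraph V) : ∃ k : ℕ, KPlanar k G := by
  classical
  have := Fintype.ofFinite V
  obtain ⟨f, hf⟩ : ∃ f : V → ℝ, Function.Injective f :=
    ⟨fun v => ((Fintype.equivFin V v : ℕ) : ℝ), fun u v h => by
      have h1 : ((Fintype.equivFin V u : ℕ) : ℝ) = ((Fintype.equivFin V v : ℕ) : ℝ) := h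
      exact (Fintype.equivFin V).injective (Fin.ext (by exact_mod_cast h1))⟩
  let pt : V → Plane := fun v => !₂[f v, (f v) ^ 2]
  have hpt : Function.Injective pt := by
    intro u v h
    apply hf
    have := congrArg (fun q : Plane => q 0) h
    simpa [pt] using this
  let arc : Sym2 V → unitInterval → Plane := fun e t =>
    (1 - (t : ℝ)) • pt e.out.1 + (t : ℝ) • pt e.out.2
  have arc0 : ∀ e t, arc e t 0 = (1 - (t : ℝ)) * f e.out.1 + t * f e.out.2 := by
    intro e t; simp [arc, pt]
  have arc1 : ∀ e t, arc e t 1 = (1 - (t : ℝ)) * (f e.out.1) ^ 2 + t * (f e.out.2) ^ 2 := by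
    intro e t; simp [arc, pt]
  have hout : ∀ e : Sym2 V, e ∈ G.edgeSet → f e.out.1 ≠ f e.out.2 := by
    intro e he h
    have h1 : s(e.out.1, e.out.2) = e := Quot.out_eq e
    rw [← h1] at he
    exact G.ne_of_adj he (hf h)
  let D : Drawing Plane G :=
    { pt := pt
      arc := arc
      pt_injective := hpt
      arc_continuous := by
        intro e _
        simp only [arc]
        fun_prop
      arc_injective := by
        intro e he s t hst
        have h0 := congrArg (fun q : Plane => q 0) hst
        simp only [arc0] at h0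
        have h1 : ((s : ℝ) - t) * (f e.out.2 - f e.out.1) = 0 := by linarith
        have h2 : f e.out.2 - f e.out.1 ≠ 0 := sub_ne_zero.mpr (hout e he).symm
        exact Subtype.ext (sub_eq_zero.mp ((mul_eq_zero.mp h1).resolve_right h2))
      arc_ends := by
        intro e he
        have h1 : s(e.out.1, e.out.2) = e := Quot.out_eq e
        conv_rhs => rw [← h1]
        rw [Sym2.map_mk]
        have h2 : arc e 0 = pt e.out.1 := by simp [arc]
        have h3 : arc e 1 = pt e.out.2 := by simp [arc]
        rw [h2, h3]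
      arc_avoids := by
        intro e he v t h
        have h0 := congrArg (fun q : Plane => q 0) h
        have h1 := congrArg (fun q : Plane => q 1) h
        simp only [arc0, arc1] at h0 h1
        have e0 : pt v 0 = f v := by simp [pt]
        have e1 : pt v 1 = (f v) ^ 2 := by simp [pt]
        rw [e0] at h0
        rw [e1, ← h0] at h1
        have h2 : (t : ℝ) * (1 - t) * (f e.out.1 - f e.out.2) ^ 2 = 0 := by nlinarith
        have h3 : (f e.out.1 - f e.out.2) ^ 2 ≠ 0 :=
          pow_ne_zero _ (sub_ne_zero.mpr (hout e he))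
        rcases mul_eq_zero.mp ((mul_eq_zero.mp h2).resolve_right h3) with ht | ht
        · have : v = e.out.1 := hf (by rw [← h0, ht]; ring)
          rw [this]; exact Sym2.out_fst_mem e
        · have ht' : (t : ℝ) = 1 := by linarith
          have : v = e.out.2 := hf (by rw [← h0, ht']; ring)
          rw [this]; exact Sym2.out_snd_mem e }
  have hline : ∀ e x, (∃ t, D.arc e t = x) →
      x 1 = (f e.out.1 + f e.out.2) * x 0 - f e.out.1 * f e.out.2 := by
    rintro e x ⟨t, rfl⟩
    have h0 : D.arc e t 0 = (1 - (t : ℝ)) * f e.out.1 + t * f e.out.2 := arc0 e t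
    have h1 : D.arc e t 1 = (1 - (t : ℝ)) * (f e.out.1) ^ 2 + t * (f e.out.2) ^ 2 := arc1 e t
    rw [h0, h1]; ring
  have hsub : ∀ e ∈ G.edgeSet, ∀ g ∈ G.edgeSet, e ≠ g → (D.crossings e g).Subsingleton := by
    intro e he g hg hne x hx y hy
    have a1 := hline e x ⟨_, hx.1.choose_spec.2⟩
    have a2 := hline g x ⟨_, hx.2.choose_spec.2⟩
    have b1 := hline e y ⟨_, hy.1.choose_spec.2⟩
    have b2 := hline g y ⟨_, hy.2.choose_spec.2⟩
    by_cases hs : f e.out.1 + f e.out.2 = f g.out.1 + f g.out.2
    · exfalso
      have hp : f e.out.1 * f e.out.2 = f g.out.1 * f g.out.2 := by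
        have h2 := a1.symm.trans a2
        rw [hs] at h2
        linarith
      have h3 : (f e.out.1 - f g.out.1) * (f e.out.1 - f g.out.2) = 0 := by
        linear_combination (f e.out.1) * hs - hp
      apply hne
      have e1 : s(e.out.1, e.out.2) = e := Quot.out_eq e
      have g1 : s(g.out.1, g.out.2) = g := Quot.out_eq g
      rw [← e1, ← g1, Sym2.eq_iff]
      rcases mul_eq_zero.mp h3 with h | h
      · left; exact ⟨hf (by linarith), hf (by linarith)⟩
      · right; exact ⟨hf (by linarith), hf (by linarith)⟩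
    · have h3 : (f e.out.1 + f e.out.2 - (f g.out.1 + f g.out.2)) * (x 0 - y 0) = 0 := by
        nlinarith
      have h4 : x 0 = y 0 :=
        sub_eq_zero.mp ((mul_eq_zero.mp h3).resolve_left (sub_ne_zero.mpr hs))
      ext i
      fin_cases i
      · exact h4
      · show x 1 = y 1
        rw [a1, b1, h4]
  refine ⟨Nat.card (Sym2 V), D, fun e he g hg hne => (hsub e he g hg hne).finite, ?_⟩
  intro e he
  have hinj : Set.InjOn Prod.fst {q : Sym2 V × Plane | q.1 ∈ G.edgeSet ∧ q.1 ≠ e ∧
      q.2 ∈ D.crossings e q.1} := by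
    rintro ⟨a, x⟩ ⟨h1, h2, h3⟩ ⟨b, y⟩ ⟨h4, h5, h6⟩ hab
    simp only at hab h1 h2 h3 h4 h5 h6
    subst hab
    exact Prod.ext rfl (hsub e he a h1 h2.symm h3 h6)
  rw [← hinj.encard_image]
  refine (Set.encard_le_encard (Set.subset_univ _)).trans ?_
  rw [Set.encard_univ, ENat.card_eq_coe_natCard]

end Pool.Agent.Helper448.TSanity
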